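import Pool.Agent.DK10.DualLS

/-!
# DK10-ALS: duality and the additive large sieve

`duality`: put `T r = ∑_{n∈s} c n * A n r`.  Then `∑_r ‖T r‖² = ∑_r conj(T r) ∑_n c n A n r
 = ∑_n c n (∑_r conj (T r) A n r)`, so by Cauchy-Schwarz and the hypothesis with `b r = conj (T r)`
`(∑‖T‖²)² ≤ (∑ ‖c n‖²)(Δ ∑ ‖T r‖²)`; divide by `∑‖T‖²` (if it is zero there is nothing to prove).
(`Finset.sum_mul_sq_le_sq_mul_sq` on the norms or `inner_mul_le_norm_mul_norm`.)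

`als` is `duality` applied to `dual_ls`.
-/

namespace Pool.Agent.DK10

open Finset

theorem duality {α β : Type} (s : Finset α) (t : Finset β) (A : α → β → ℂ) {Δ : ℝ} (hΔ : 0 ≤ Δ)
    (h : ∀ b : β → ℂ, ∑ n ∈ s, ‖∑ r ∈ t, b r * A n r‖ ^ 2 ≤ Δ * ∑ r ∈ t, ‖b r‖ ^ 2)
    (c : α → ℂ) :
    ∑ r ∈ t, ‖∑ n ∈ s, c n * A n r‖ ^ 2 ≤ Δ * ∑ n ∈ s, ‖c n‖ ^ 2 := by
  set T : β → ℂ := fun r => ∑ n ∈ s, c n * A n r with hT
  set X : ℝ := ∑ r ∈ t, ‖T r‖ ^ 2 with hX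
  have hX0 : 0 ≤ X := Finset.sum_nonneg fun r _ => sq_nonneg _
  have hC0 : 0 ≤ ∑ n ∈ s, ‖c n‖ ^ 2 := Finset.sum_nonneg fun r _ => sq_nonneg _
  have h1 : (X : ℂ) = ∑ n ∈ s, c n * ∑ r ∈ t, (starRingEnd ℂ) (T r) * A n r := by
    have e1 : (X : ℂ) = ∑ r ∈ t, (starRingEnd ℂ) (T r) * T r := by
      rw [hX]
      push_cast
      refine Finset.sum_congr rfl fun r _ => ?_
      rw [← Complex.normSq_eq_conj_mul_self, Complex.normSq_eq_norm_sq]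
      push_cast
      rfl
    rw [e1]
    simp only [Finset.mul_sum]
    rw [Finset.sum_comm]
    refine Finset.sum_congr rfl fun r _ => ?_
    conv_lhs => rw [hT]
    simp only
    rw [Finset.mul_sum]
    refine Finset.sum_congr rfl fun n _ => ?_
    ring
  have h2 : X ≤ ∑ n ∈ s, ‖c n‖ * ‖∑ r ∈ t, (starRingEnd ℂ) (T r) * A n r‖ := by
    have e1 : X = ‖(X : ℂ)‖ := by
      rw [Complex.norm_real, Real.norm_of_nonneg hX0]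
    rw [e1, h1]
    refine (norm_sum_le _ _).trans (le_of_eq ?_)
    refine Finset.sum_congr rfl fun n _ => ?_
    rw [norm_mul]
  have h3 := h (fun r => (starRingEnd ℂ) (T r))
  have h4 : ∑ r ∈ t, ‖(starRingEnd ℂ) (T r)‖ ^ 2 = X := by
    rw [hX]
    refine Finset.sum_congr rfl fun r _ => ?_
    rw [RCLike.norm_conj]
  rw [h4] at h3
  have h5 : X ^ 2 ≤ (∑ n ∈ s, ‖c n‖ ^ 2) * (Δ * X) := by
    calc X ^ 2 ≤ (∑ n ∈ s, ‖c n‖ * ‖∑ r ∈ t, (starRingEnd ℂ) (T r) * A n r‖) ^ 2 :=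
          pow_le_pow_left₀ hX0 h2 2
      _ ≤ (∑ n ∈ s, ‖c n‖ ^ 2) * ∑ n ∈ s, ‖∑ r ∈ t, (starRingEnd ℂ) (T r) * A n r‖ ^ 2 :=
          Finset.sum_mul_sq_le_sq_mul_sq _ _ _
      _ ≤ _ := mul_le_mul_of_nonneg_left h3 hC0
  rcases hX0.eq_or_lt with h6 | h6
  · rw [← h6]
    exact mul_nonneg hΔ hC0
  · have h7 : X * X ≤ (Δ * ∑ n ∈ s, ‖c n‖ ^ 2) * X := by nlinarith
    exact le_of_mul_le_mul_right h7 h6

theorem als {ι : Type} [Fintype ι] [DecidableEq ι] (x : ι → ℝ) {δ : ℝ} (hδ : 0 < δ)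
    (hsep : ∀ r s, r ≠ s → ∀ k : ℤ, δ ≤ |x r - x s - (k : ℝ)|) (c : ℕ → ℂ) (N : ℕ) :
    ∑ r, ‖∑ n ∈ Icc 1 N, c n * ee ((n : ℝ) * x r)‖ ^ 2 ≤
      20 * ((N : ℝ) + 1 / δ) * ∑ n ∈ Icc 1 N, ‖c n‖ ^ 2 := by
  have h0 : (0 : ℝ) ≤ 20 * ((N : ℝ) + 1 / δ) := by positivity
  exact duality (Icc 1 N) Finset.univ (fun n r => ee ((n : ℝ) * x r)) h0
    (fun b => dual_ls x hδ hsep b N) c

end Pool.Agent.DK10
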