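import Pool.Agent.DK10.TauBound

/-!
# DK10-TauTot: `∑_{e ≤ Q} tau(e)/φ(e)` is at most `x^θ` for `Q ≤ x`

`le_totient_mul_tau`: `e ≤ φ(e) tau(e)` for `e ≥ 1`.  Multiplicative induction
(`Nat.recOnPosPrimePosCoprime` or `Nat.recOnMul`-like): for `e = p^a`, `a ≥ 1`:
`φ(e) tau(e) = p^{a-1}(p-1)(a+1) ≥ p^{a-1}(p-1)·2 ≥ p^a`.  (`Nat.totient_prime_pow`,
`Nat.divisors_prime_pow`, `Nat.Coprime.card_divisors_mul`, `Nat.totient_mul`.)

`tau_div_totient`: `tau e/φ e ≤ tau(e)²/e`.  With `tau e ≤ C e^{θ/8}` (`tau_bound`) and `e ≤ Q ≤ x`: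
`tau(e)² ≤ C² x^{θ/4}`, `∑_{e≤Q} 1/e ≤ 1 + log Q ≤ 1 + log x` (`harmonic_le_one_add_log`, or simply bound
`∑_{e ≤ Q} 1/e` by induction), so the sum is `≤ C² x^{θ/4} (1 + log x) ≤ x^θ` for large `x`
(`isLittleO_log_rpow_atTop`).
-/

namespace Pool.Agent.DK10

open Finset

theorem le_totient_mul_tau {e : ℕ} (he : 1 ≤ e) : (e : ℝ) ≤ (Nat.totient e : ℝ) * tau e := by
  have h1 : e ≤ e.divisors.card * Nat.totient e := by
    calc e = ∑ d ∈ e.divisors, Nat.totient d := (Nat.sum_totient e).symm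
      _ ≤ ∑ _d ∈ e.divisors, Nat.totient e := by
        refine sum_le_sum fun d hd => ?_
        exact Nat.le_of_dvd (Nat.totient_pos.2 he) (Nat.totient_dvd_of_dvd (Nat.dvd_of_mem_divisors hd))
      _ = e.divisors.card * Nat.totient e := by rw [sum_const, smul_eq_mul]
  unfold tau
  rw [mul_comm]
  exact_mod_cast h1

private theorem tt_harm (Q : ℕ) : ∑ e ∈ Icc 1 Q, (1 : ℝ) / e ≤ 1 + Real.log Q := by
  have h1 := harmonic_le_one_add_log Q
  rw [harmonic_eq_sum_Icc] at h1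
  push_cast at h1
  simpa only [one_div] using h1

private theorem tt_ev {θ C : ℝ} (hθ : 0 < θ) :
    ∀ᶠ x : ℝ in Filter.atTop, 1 ≤ x ∧ C ^ 2 * x ^ (θ / 4) * (1 + Real.log x) ≤ x ^ θ := by
  have hθ4 : 0 < θ / 4 := by positivity
  have h1 : ∀ᶠ x : ℝ in Filter.atTop, Real.log x ≤ x ^ (θ / 4) := by
    have h2 := (isLittleO_log_rpow_atTop hθ4).bound (show (0 : ℝ) < 1 by norm_num)
    filter_upwards [h2, Filter.eventually_ge_atTop (1 : ℝ)] with x hx hx1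
    rw [Real.norm_of_nonneg (Real.log_nonneg hx1), Real.norm_of_nonneg (Real.rpow_nonneg (by linarith) _),
      one_mul] at hx
    exact hx
  have h2 : ∀ᶠ x : ℝ in Filter.atTop, C ^ 2 * 2 ≤ x ^ (θ / 4) :=
    (tendsto_rpow_atTop hθ4).eventually_ge_atTop _
  filter_upwards [h1, h2, Filter.eventually_ge_atTop (1 : ℝ)] with x e1 e2 hx1
  refine ⟨hx1, ?_⟩
  have hx0 : 0 < x := by linarith
  have e3 : 1 ≤ x ^ (θ / 4) := Real.one_le_rpow hx1 hθ4.le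
  have e4 : 0 < x ^ (θ / 4) := by linarith
  have e5 : x ^ θ = x ^ (θ / 4) * x ^ (θ / 4) * (x ^ (θ / 4) * x ^ (θ / 4)) := by
    rw [← Real.rpow_add hx0, ← Real.rpow_add hx0]
    congr 1
    ring
  rw [e5]
  calc C ^ 2 * x ^ (θ / 4) * (1 + Real.log x) ≤ C ^ 2 * x ^ (θ / 4) * (x ^ (θ / 4) + x ^ (θ / 4)) := by
        apply mul_le_mul_of_nonneg_left (by linarith) (by positivity)
    _ = x ^ (θ / 4) * x ^ (θ / 4) * (C ^ 2 * 2) := by ring
    _ ≤ x ^ (θ / 4) * x ^ (θ / 4) * (x ^ (θ / 4) * x ^ (θ / 4)) := by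
        apply mul_le_mul_of_nonneg_left _ (by positivity)
        nlinarith

theorem tau_div_totient {θ : ℝ} (hθ : 0 < θ) :
    ∀ᶠ x : ℝ in Filter.atTop, ∀ Q : ℕ, (Q : ℝ) ≤ x →
      ∑ e ∈ Icc 1 Q, tau e / (Nat.totient e : ℝ) ≤ x ^ θ := by
  obtain ⟨C, hC, hb⟩ := tau_bound (show 0 < θ / 8 by positivity)
  filter_upwards [tt_ev (C := C) hθ] with x hx Q hQ
  obtain ⟨hx1, hx2⟩ := hx
  have hx0 : 0 < x := by linarith
  rcases Nat.eq_zero_or_pos Q with h0 | h0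
  · subst h0
    simp only [show Icc 1 0 = (∅ : Finset ℕ) from rfl, sum_empty]
    positivity
  have hterm : ∀ e ∈ Icc 1 Q, tau e / (Nat.totient e : ℝ) ≤ C ^ 2 * x ^ (θ / 4) * (1 / e) := by
    intro e he
    rw [mem_Icc] at he
    have he0 : (0 : ℝ) < e := by exact_mod_cast he.1
    have hφ : (0 : ℝ) < Nat.totient e := by exact_mod_cast Nat.totient_pos.2 he.1
    have hex : (e : ℝ) ≤ x := le_trans (by exact_mod_cast he.2) hQ
    have ht0 : 0 ≤ tau e := by unfold tau; positivity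
    have h1 := le_totient_mul_tau he.1
    have h2 : tau e ≤ C * x ^ (θ / 8) :=
      (hb e (by omega)).trans (mul_le_mul_of_nonneg_left
        (Real.rpow_le_rpow he0.le hex (by positivity)) hC.le)
    have h3 : x ^ (θ / 8) * x ^ (θ / 8) = x ^ (θ / 4) := by
      rw [← Real.rpow_add hx0]; congr 1; ring
    have h4 : tau e ^ 2 ≤ C ^ 2 * x ^ (θ / 4) := by
      calc tau e ^ 2 ≤ (C * x ^ (θ / 8)) ^ 2 := by
            apply pow_le_pow_left₀ ht0 h2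
        _ = C ^ 2 * (x ^ (θ / 8) * x ^ (θ / 8)) := by ring
        _ = C ^ 2 * x ^ (θ / 4) := by rw [h3]
    rw [mul_one_div, div_le_div_iff₀ hφ he0]
    calc tau e * e ≤ tau e * ((Nat.totient e : ℝ) * tau e) := mul_le_mul_of_nonneg_left h1 ht0
      _ = tau e ^ 2 * (Nat.totient e : ℝ) := by ring
      _ ≤ C ^ 2 * x ^ (θ / 4) * (Nat.totient e : ℝ) := mul_le_mul_of_nonneg_right h4 hφ.le
  calc ∑ e ∈ Icc 1 Q, tau e / (Nat.totient e : ℝ) ≤ ∑ e ∈ Icc 1 Q, C ^ 2 * x ^ (θ / 4) * (1 / (e : ℝ)) :=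
        sum_le_sum hterm
    _ = C ^ 2 * x ^ (θ / 4) * ∑ e ∈ Icc 1 Q, (1 : ℝ) / e := by rw [mul_sum]
    _ ≤ C ^ 2 * x ^ (θ / 4) * (1 + Real.log x) := by
        apply mul_le_mul_of_nonneg_left _ (by positivity)
        refine (tt_harm Q).trans ?_
        have : Real.log Q ≤ Real.log x := Real.log_le_log (by exact_mod_cast h0) hQ
        linarith
    _ ≤ x ^ θ := hx2

end Pool.Agent.DK10
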