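import Pool.Agent.DK10.BLfin
import Pool.Agent.DK10.TauTot

/-!
# DK10-BL: the bilinear equidistribution theorem

Apply `BLfin` with `D₀ = ⌈x^{ε/4}⌉₊` (`x^{ε/4} ≤ D₀ ≤ 2 x^{ε/4}`), `B = x^{ε/100}` and
`J = ⌈log x / log 2⌉₊` (so `2^J ≥ x ≥ Q`; `J ≤ 2 log x + 1`).  For large `x`
(`tau_div_totient` with `θ = ε/100`) the first factor is at most `x^{ε/100}`.  If `B₂ = 0` all sums are
empty (`Ioc B₁ 0 = ∅`), in any case: `B₂ ≤ x^{1-ε}` because `A₂ ≥ x^ε` and `A₂ B₂ ≤ x`.  So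
* `D₀² B B₂ ≤ 4 x^{ε/2} x^{ε/100} x^{1-ε}`,
* `√(A₂B₂) ≤ x^{1/2}`, `√(A₂B₂) √(A₂B₂)/D₀ ≤ x^{1-ε/4}`, `√(A₂B₂)·2√A₂ ≤ 2 x^{1-ε/2}`,
  `√(A₂B₂)·2√B₂ ≤ 2x^{1-ε/2}`, `√(A₂B₂)·4Q ≤ 4 x^{1-ε}`.
The right-hand side of `BLfin` is at most
`x^{ε/100}(4 x^{1-ε/2+ε/100} + 20 J x^{ε/100}(x^{1-ε/4} + 4x^{1-ε/2} + 4x^{1-ε}))
 ≤ x^{1-ε/4+ε/50}(4 + 180 J) ≤ x^{1-ε/8}` for large `x`, as `J ≤ 2 log x + 1`.
-/

namespace Pool.Agent.DK10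

open Finset

private lemma ev_log {r : ℝ} (hr : 0 < r) :
    ∀ᶠ x : ℝ in Filter.atTop, 184 + 360 * Real.log x ≤ x ^ r := by
  have h1 := (isLittleO_log_rpow_atTop hr).bound (show (0 : ℝ) < 1 / 720 by norm_num)
  have h2 := (tendsto_rpow_atTop hr).eventually_ge_atTop 368
  filter_upwards [h1, h2, Filter.eventually_ge_atTop (1 : ℝ)] with x h1 h2 hx
  have h3 : Real.log x ≤ 1 / 720 * x ^ r := by
    have h4 : (0 : ℝ) ≤ x ^ r := by positivity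
    rw [Real.norm_of_nonneg (Real.log_nonneg hx), Real.norm_of_nonneg h4] at h1
    exact h1
  linarith

private lemma dz_le {x ε : ℝ} (hx : 1 ≤ x) (hε : 0 < ε) :
    x ^ (ε / 4) ≤ (⌈x ^ (ε / 4)⌉₊ : ℝ) ∧ (⌈x ^ (ε / 4)⌉₊ : ℝ) ≤ 2 * x ^ (ε / 4) := by
  have h1 : (1 : ℝ) ≤ x ^ (ε / 4) := Real.one_le_rpow hx (by positivity)
  refine ⟨Nat.le_ceil _, ?_⟩
  have h2 := Nat.ceil_lt_add_one (show (0 : ℝ) ≤ x ^ (ε / 4) by linarith)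
  linarith

private lemma J_bounds {x : ℝ} (hx : 1 ≤ x) :
    x ≤ 2 ^ ⌈Real.log x / Real.log 2⌉₊ ∧
      (⌈Real.log x / Real.log 2⌉₊ : ℝ) ≤ 2 * Real.log x + 1 := by
  have hl2 : (1 : ℝ) / 2 ≤ Real.log 2 := by
    have := Real.log_two_gt_d9
    linarith
  have hl2' : 0 < Real.log 2 := by linarith
  have hlx := Real.log_nonneg hx
  constructor
  · have h1 := Nat.le_ceil (Real.log x / Real.log 2)
    rw [div_le_iff₀ hl2'] at h1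
    have h2 : Real.log x ≤ Real.log ((2 : ℝ) ^ ⌈Real.log x / Real.log 2⌉₊) := by
      rw [Real.log_pow]
      exact h1
    exact (Real.log_le_log_iff (by linarith) (by positivity)).1 h2
  · have h1 := Nat.ceil_lt_add_one (show 0 ≤ Real.log x / Real.log 2 by positivity)
    have h2 : Real.log x / Real.log 2 ≤ 2 * Real.log x := by
      rw [div_le_iff₀ hl2']
      nlinarith
    linarith

/-- the final comparison, with all sizes as real numbers -/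
private lemma final_bound {x ε S D J B A₂ B₂ Q : ℝ} (hx : 1 ≤ x) (hε : 0 < ε)
    (hS : S ≤ x ^ (ε / 100)) (hD1 : x ^ (ε / 4) ≤ D)
    (hD2 : D ≤ 2 * x ^ (ε / 4)) (hJ0 : 0 ≤ J) (hJ : J ≤ 2 * Real.log x + 1)
    (hB : B = x ^ (ε / 100)) (hQ0 : 0 ≤ Q) (hQ : Q ≤ x ^ (1 / 2 - ε)) (hA1 : x ^ ε ≤ A₂)
    (hA2 : A₂ ≤ x ^ (1 - ε)) (hB2 : 0 ≤ B₂) (hAB : A₂ * B₂ ≤ x)
    (hlog : 184 + 360 * Real.log x ≤ x ^ (ε / 8 - ε / 50)) :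
    S * (D ^ 2 * B * B₂ + J * (20 * B * √(A₂ * B₂) *
          (√(A₂ * B₂) / D + 2 * √A₂ + 2 * √B₂ + 4 * Q))) ≤ x ^ (1 - ε / 8) := by
  have hx0 : 0 < x := by linarith
  have hpos : ∀ r : ℝ, 0 < x ^ r := fun r => Real.rpow_pos_of_pos hx0 r
  have hmono : ∀ r t : ℝ, r ≤ t → x ^ r ≤ x ^ t := fun r t h => Real.rpow_le_rpow_of_exponent_le hx h
  have hD0 : 0 < D := lt_of_lt_of_le (hpos _) hD1
  have hB0 : 0 < B := by rw [hB]; exact hpos _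
  have hA0 : 0 < A₂ := lt_of_lt_of_le (hpos _) hA1
  -- the size of `B₂`
  have hB2' : B₂ ≤ x ^ (1 - ε) := by
    have h1 : x ^ ε * B₂ ≤ x := le_trans (mul_le_mul_of_nonneg_right hA1 hB2) hAB
    have h2 : x ^ ε * x ^ (1 - ε) = x := by
      rw [← Real.rpow_add hx0]
      rw [show ε + (1 - ε) = (1 : ℝ) by ring, Real.rpow_one]
    exact le_of_mul_le_mul_left (h1.trans h2.ge) (hpos ε)
  -- square roots
  have hs : √(A₂ * B₂) ≤ x ^ ((1 : ℝ) / 2) := by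
    rw [← Real.sqrt_eq_rpow]
    exact Real.sqrt_le_sqrt hAB
  have hs0 : 0 ≤ √(A₂ * B₂) := Real.sqrt_nonneg _
  have hsq : ∀ y : ℝ, y ≤ x ^ (1 - ε) → √y ≤ x ^ ((1 - ε) / 2) := by
    intro y hy
    refine le_trans (Real.sqrt_le_sqrt hy) ?_
    rw [Real.sqrt_eq_rpow, ← Real.rpow_mul hx0.le]
    apply le_of_eq
    congr 1
    ring
  have hsA := hsq A₂ hA2
  have hsB := hsq B₂ hB2'
  -- the four terms
  have t1 : √(A₂ * B₂) * (√(A₂ * B₂) / D) ≤ x ^ (1 - ε / 4) := by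
    have h1 : √(A₂ * B₂) * (√(A₂ * B₂) / D) = A₂ * B₂ / D := by
      rw [← mul_div_assoc, Real.mul_self_sqrt (by positivity)]
    rw [h1, div_le_iff₀ hD0]
    calc A₂ * B₂ ≤ x := hAB
      _ = x ^ (1 - ε / 4) * x ^ (ε / 4) := by
          rw [← Real.rpow_add hx0, show 1 - ε / 4 + ε / 4 = (1 : ℝ) by ring, Real.rpow_one]
      _ ≤ x ^ (1 - ε / 4) * D := mul_le_mul_of_nonneg_left hD1 (hpos _).le
  have hmul : ∀ y e : ℝ, 0 ≤ y → y ≤ x ^ e → 1 / 2 + e ≤ 1 - ε / 4 →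
      √(A₂ * B₂) * y ≤ x ^ (1 - ε / 4) := by
    intro y e hy0 hy he
    calc √(A₂ * B₂) * y ≤ x ^ ((1 : ℝ) / 2) * x ^ e :=
          mul_le_mul hs hy hy0 (hpos _).le
      _ = x ^ (1 / 2 + e) := by rw [← Real.rpow_add hx0]
      _ ≤ x ^ (1 - ε / 4) := hmono _ _ he
  have t2 := hmul (√A₂) ((1 - ε) / 2) (Real.sqrt_nonneg _) hsA (by linarith)
  have t3 := hmul (√B₂) ((1 - ε) / 2) (Real.sqrt_nonneg _) hsB (by linarith)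
  have t4 : √(A₂ * B₂) * Q ≤ x ^ (1 - ε / 4) := by
    calc √(A₂ * B₂) * Q ≤ √(A₂ * B₂) * x ^ (1 / 2 - ε) := mul_le_mul_of_nonneg_left hQ hs0
      _ ≤ x ^ (1 - ε / 4) := hmul _ (1 / 2 - ε) (hpos _).le le_rfl (by linarith)
  have t5 : √(A₂ * B₂) * (√(A₂ * B₂) / D + 2 * √A₂ + 2 * √B₂ + 4 * Q) ≤
      9 * x ^ (1 - ε / 4) := by
    have : √(A₂ * B₂) * (√(A₂ * B₂) / D + 2 * √A₂ + 2 * √B₂ + 4 * Q) =
        √(A₂ * B₂) * (√(A₂ * B₂) / D) + 2 * (√(A₂ * B₂) * √A₂) + 2 * (√(A₂ * B₂) * √B₂)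
          + 4 * (√(A₂ * B₂) * Q) := by ring
    rw [this]
    linarith
  have t6 : 20 * B * √(A₂ * B₂) * (√(A₂ * B₂) / D + 2 * √A₂ + 2 * √B₂ + 4 * Q) ≤
      180 * x ^ (1 - ε / 4 + ε / 100) := by
    have h1 : x ^ (1 - ε / 4 + ε / 100) = x ^ (1 - ε / 4) * B := by
      rw [hB, ← Real.rpow_add hx0]
    rw [h1]
    calc 20 * B * √(A₂ * B₂) * (√(A₂ * B₂) / D + 2 * √A₂ + 2 * √B₂ + 4 * Q)
        = 20 * B * (√(A₂ * B₂) * (√(A₂ * B₂) / D + 2 * √A₂ + 2 * √B₂ + 4 * Q)) := by ring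
      _ ≤ 20 * B * (9 * x ^ (1 - ε / 4)) := mul_le_mul_of_nonneg_left t5 (by positivity)
      _ = 180 * (x ^ (1 - ε / 4) * B) := by ring
  have t7 : D ^ 2 * B * B₂ ≤ 4 * x ^ (1 - ε / 4 + ε / 100) := by
    have h1 : D ^ 2 ≤ 4 * x ^ (ε / 2) := by
      have h2 : x ^ (ε / 2) = x ^ (ε / 4) * x ^ (ε / 4) := by
        rw [← Real.rpow_add hx0]
        congr 1
        ring
      rw [h2]
      nlinarith [hpos (ε / 4)]
    calc D ^ 2 * B * B₂ ≤ (4 * x ^ (ε / 2)) * B * x ^ (1 - ε) := by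
          apply mul_le_mul (mul_le_mul_of_nonneg_right h1 hB0.le) hB2' hB2
          have := hpos (ε / 2)
          positivity
      _ = 4 * (x ^ (ε / 2) * x ^ (ε / 100) * x ^ (1 - ε)) := by rw [hB]; ring
      _ = 4 * x ^ (ε / 2 + ε / 100 + (1 - ε)) := by rw [Real.rpow_add hx0, Real.rpow_add hx0]
      _ ≤ 4 * x ^ (1 - ε / 4 + ε / 100) := by
          apply mul_le_mul_of_nonneg_left (hmono _ _ (by linarith)) (by norm_num)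
  have t8 : D ^ 2 * B * B₂ + J * (20 * B * √(A₂ * B₂) *
          (√(A₂ * B₂) / D + 2 * √A₂ + 2 * √B₂ + 4 * Q)) ≤
      (4 + 180 * J) * x ^ (1 - ε / 4 + ε / 100) := by
    have h1 := mul_le_mul_of_nonneg_left t6 hJ0
    calc _ ≤ 4 * x ^ (1 - ε / 4 + ε / 100) + J * (180 * x ^ (1 - ε / 4 + ε / 100)) :=
          add_le_add t7 h1
      _ = _ := by ring
  have hR0 : 0 ≤ (4 + 180 * J) * x ^ (1 - ε / 4 + ε / 100) :=
    mul_nonneg (by positivity) (hpos _).le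
  have t9 : 4 + 180 * J ≤ x ^ (ε / 8 - ε / 50) := by linarith
  have h0 : 0 ≤ D ^ 2 * B * B₂ + J * (20 * B * √(A₂ * B₂) *
      (√(A₂ * B₂) / D + 2 * √A₂ + 2 * √B₂ + 4 * Q)) := by positivity
  calc S * (D ^ 2 * B * B₂ + J * (20 * B * √(A₂ * B₂) *
          (√(A₂ * B₂) / D + 2 * √A₂ + 2 * √B₂ + 4 * Q)))
        ≤ x ^ (ε / 100) * ((4 + 180 * J) * x ^ (1 - ε / 4 + ε / 100)) :=
          mul_le_mul hS t8 h0 (hpos _).le
      _ ≤ x ^ (ε / 100) * (x ^ (ε / 8 - ε / 50) * x ^ (1 - ε / 4 + ε / 100)) := by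
          apply mul_le_mul_of_nonneg_left _ (hpos _).le
          exact mul_le_mul_of_nonneg_right t9 (hpos _).le
      _ = x ^ (ε / 100 + (ε / 8 - ε / 50 + (1 - ε / 4 + ε / 100))) := by
          rw [Real.rpow_add hx0 (ε / 100), Real.rpow_add hx0 (ε / 8 - ε / 50)]
      _ = x ^ (1 - ε / 8) := by
          congr 1
          ring

theorem BL {ε : ℝ} (hε : 0 < ε) (hε' : ε < 1 / 4) :
    ∀ᶠ x : ℝ in Filter.atTop, ∀ (Q A₁ A₂ B₁ B₂ : ℕ) (c : ℤ) (β : ℕ → ℝ), (c = 1 ∨ c = -1) →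
      (Q : ℝ) ≤ x ^ (1 / 2 - ε) → x ^ ε ≤ (A₂ : ℝ) → (A₂ : ℝ) ≤ x ^ (1 - ε) →
      (A₂ : ℝ) * (B₂ : ℝ) ≤ x → (∀ l ∈ Ioc B₁ B₂, |β l| ≤ x ^ (ε / 100)) →
      ∑ q ∈ Icc 1 Q, Err q c A₁ A₂ B₁ B₂ β ≤ x ^ (1 - ε / 8) := by
  have hr : 0 < ε / 8 - ε / 50 := by linarith
  filter_upwards [Filter.eventually_ge_atTop (1 : ℝ),
    tau_div_totient (θ := ε / 100) (by positivity), ev_log hr] with x hx htau hlog
  intro Q A₁ A₂ B₁ B₂ c β hc hQ hA1 hA2 hAB hβ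
  have hx0 : 0 < x := by linarith
  obtain ⟨hJ1, hJ2⟩ := J_bounds hx
  obtain ⟨hD1, hD2⟩ := dz_le hx hε
  have hQx : (Q : ℝ) ≤ x := by
    refine le_trans hQ ?_
    calc x ^ (1 / 2 - ε) ≤ x ^ (1 : ℝ) := Real.rpow_le_rpow_of_exponent_le hx (by linarith)
      _ = x := Real.rpow_one x
  have hD0 : 1 ≤ ⌈x ^ (ε / 4)⌉₊ := Nat.one_le_ceil_iff.2 (Real.rpow_pos_of_pos hx0 _)
  have hJ : Q ≤ 2 ^ ⌈Real.log x / Real.log 2⌉₊ * ⌈x ^ (ε / 4)⌉₊ := by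
    have h1 : Q ≤ 2 ^ ⌈Real.log x / Real.log 2⌉₊ := by
      have : (Q : ℝ) ≤ ((2 ^ ⌈Real.log x / Real.log 2⌉₊ : ℕ) : ℝ) := by
        push_cast
        exact hQx.trans hJ1
      exact_mod_cast this
    exact h1.trans (Nat.le_mul_of_pos_right _ hD0)
  have hmain := BLfin (A₁ := A₁) (A₂ := A₂) (B₁ := B₁) (B₂ := B₂) hc hD0 hJ β
    (Real.rpow_pos_of_pos hx0 (ε / 100)).le hβ
  refine hmain.trans ?_
  exact final_bound hx hε (htau Q hQx) hD1 hD2 (Nat.cast_nonneg _) hJ2 rfl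
    (Nat.cast_nonneg _) hQ hA1 hA2
    (Nat.cast_nonneg _) hAB hlog

end Pool.Agent.DK10
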