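import Pool.Agent.DK10.MLS

/-!
# DK10-BilinLarge: large conductors

`bilin_large`: cover `Ioc D₀ Q` by the blocks `Ioc (2^j D₀) (2^{j+1} D₀)`, `j < J` (as `Q ≤ 2^J D₀`);
only the blocks with `D = 2^j D₀ < Q` meet `Ioc D₀ Q`.  For such a block the bound of `bilin_dyadic` is at
most `(20 B √(N₁ N₂)/D) √((N₁ + 4D²)(N₂ + 4D²)) ≤ (20 B √(N₁N₂)/D)(√N₁ + 2D)(√N₂ + 2D)
 = 20 B √(N₁N₂) (√(N₁N₂)/D + 2√N₁ + 2√N₂ + 4D)` and `D₀ ≤ D ≤ Q`.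
-/

namespace Pool.Agent.DK10

open Finset

private theorem sqrt_block {N D : ℕ} {B A : ℝ} (hB : 0 ≤ B) (hA : A ≤ B ^ 2 * (N : ℝ)) :
    √(20 * ((N : ℝ) + 4 * (D : ℝ) ^ 2) * A) ≤ √20 * (B * (√(N : ℝ) * (√(N : ℝ) + 2 * D))) := by
  have hs : √(N : ℝ) ^ 2 = N := Real.sq_sqrt (Nat.cast_nonneg N)
  have hs0 : 0 ≤ √(N : ℝ) := Real.sqrt_nonneg _
  have h20 : √(20 : ℝ) ^ 2 = 20 := Real.sq_sqrt (by norm_num)
  apply Real.sqrt_le_iff.mpr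
  refine ⟨by positivity, ?_⟩
  have e : (√20 * (B * (√(N : ℝ) * (√(N : ℝ) + 2 * D)))) ^ 2
      = 20 * (B ^ 2 * ((N : ℝ) * ((N : ℝ) + 4 * (√(N : ℝ) * D) + 4 * (D : ℝ) ^ 2))) := by
    have : (√20 * (B * (√(N : ℝ) * (√(N : ℝ) + 2 * D)))) ^ 2
      = √20 ^ 2 * (B ^ 2 * (√(N : ℝ) ^ 2 * (√(N : ℝ) ^ 2 + 4 * (√(N : ℝ) * D) + 4 * (D : ℝ) ^ 2))) := by
      ring
    rw [this, hs, h20]
  rw [e]
  have h0 : (0 : ℝ) ≤ 20 * ((N : ℝ) + 4 * (D : ℝ) ^ 2) := by positivity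
  have h1 : 20 * ((N : ℝ) + 4 * (D : ℝ) ^ 2) * A ≤
      20 * ((N : ℝ) + 4 * (D : ℝ) ^ 2) * (B ^ 2 * (N : ℝ)) := mul_le_mul_of_nonneg_left hA h0
  have h2 : 0 ≤ 20 * (B ^ 2 * ((N : ℝ) * (4 * (√(N : ℝ) * D)))) := by positivity
  nlinarith [h1, h2]

private theorem block {D₀ Q D N₁ N₂ : ℕ} (hD₀ : 1 ≤ D₀) (h1 : D₀ ≤ D) (h2 : D ≤ Q) (a b : ℕ → ℂ)
    {B : ℝ} (hB : 0 ≤ B) (ha : ∑ m ∈ Icc 1 N₁, ‖a m‖ ^ 2 ≤ (N₁ : ℝ))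
    (hb : ∑ l ∈ Icc 1 N₂, ‖b l‖ ^ 2 ≤ B ^ 2 * (N₂ : ℝ)) :
    ∑ d ∈ Ioc D (2 * D), (1 / (Nat.totient d : ℝ)) *
        ∑ g ∈ prm d, ‖∑ m ∈ Icc 1 N₁, a m * g m‖ * ‖∑ l ∈ Icc 1 N₂, b l * g l‖ ≤
      20 * B * √((N₁ : ℝ) * N₂) *
        (√((N₁ : ℝ) * N₂) / D₀ + 2 * √(N₁ : ℝ) + 2 * √(N₂ : ℝ) + 4 * Q) := by
  refine (bilin_dyadic (hD₀.trans h1) a b).trans ?_
  have hDpos : (0 : ℝ) < D := by exact_mod_cast (hD₀.trans h1)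
  have hD0pos : (0 : ℝ) < D₀ := by exact_mod_cast hD₀
  have hDD : (D₀ : ℝ) ≤ D := by exact_mod_cast h1
  have hDQ : (D : ℝ) ≤ Q := by exact_mod_cast h2
  have k1 := sqrt_block (N := N₁) (D := D) (B := 1) (A := ∑ m ∈ Icc 1 N₁, ‖a m‖ ^ 2)
    zero_le_one (by simpa using ha)
  have k2 := sqrt_block (N := N₂) (D := D) hB hb
  have h20 : √(20 : ℝ) ^ 2 = 20 := Real.sq_sqrt (by norm_num)
  have hs1 : 0 ≤ √(N₁ : ℝ) := Real.sqrt_nonneg _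
  have hs2 : 0 ≤ √(N₂ : ℝ) := Real.sqrt_nonneg _
  rw [Real.sqrt_mul (Nat.cast_nonneg N₁)]
  set s1 := √(N₁ : ℝ) with hs1d
  set s2 := √(N₂ : ℝ) with hs2d
  rw [mul_assoc]
  have k3 : √(20 * ((N₁ : ℝ) + 4 * (D : ℝ) ^ 2) * ∑ m ∈ Icc 1 N₁, ‖a m‖ ^ 2) *
      √(20 * ((N₂ : ℝ) + 4 * (D : ℝ) ^ 2) * ∑ l ∈ Icc 1 N₂, ‖b l‖ ^ 2)
      ≤ (√20 * (1 * (s1 * (s1 + 2 * D)))) * (√20 * (B * (s2 * (s2 + 2 * D)))) :=
    mul_le_mul k1 k2 (Real.sqrt_nonneg _) (by positivity)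
  have k4 : (√20 * (1 * (s1 * (s1 + 2 * D)))) * (√20 * (B * (s2 * (s2 + 2 * D))))
      = 20 * B * (s1 * s2) * ((s1 * s2) + 2 * s1 * D + 2 * s2 * D + 4 * D * D) := by
    have : (√20 * (1 * (s1 * (s1 + 2 * D)))) * (√20 * (B * (s2 * (s2 + 2 * D))))
      = √20 ^ 2 * B * (s1 * s2) * ((s1 * s2) + 2 * s1 * D + 2 * s2 * D + 4 * D * D) := by ring
    rw [this, h20]
  have k5 : 1 / (D : ℝ) * (20 * B * (s1 * s2) * ((s1 * s2) + 2 * s1 * D + 2 * s2 * D + 4 * D * D))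
      = 20 * B * (s1 * s2) * (s1 * s2 / D + 2 * s1 + 2 * s2 + 4 * D) := by
    field_simp
  calc 1 / (D : ℝ) * (√(20 * ((N₁ : ℝ) + 4 * (D : ℝ) ^ 2) * ∑ m ∈ Icc 1 N₁, ‖a m‖ ^ 2) *
      √(20 * ((N₂ : ℝ) + 4 * (D : ℝ) ^ 2) * ∑ l ∈ Icc 1 N₂, ‖b l‖ ^ 2))
      ≤ 1 / (D : ℝ) * (20 * B * (s1 * s2) * ((s1 * s2) + 2 * s1 * D + 2 * s2 * D + 4 * D * D)) := by
        rw [← k4]
        exact mul_le_mul_of_nonneg_left k3 (by positivity)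
    _ = 20 * B * (s1 * s2) * (s1 * s2 / D + 2 * s1 + 2 * s2 + 4 * D) := k5
    _ ≤ _ := by
        apply mul_le_mul_of_nonneg_left _ (by positivity)
        have : s1 * s2 / D ≤ s1 * s2 / D₀ :=
          div_le_div_of_nonneg_left (by positivity) hD0pos hDD
        linarith

theorem bilin_large {D₀ Q J N₁ N₂ : ℕ} (hD₀ : 1 ≤ D₀) (hJ : Q ≤ 2 ^ J * D₀) (a b : ℕ → ℂ)
    {B : ℝ} (hB : 0 ≤ B) (ha : ∑ m ∈ Icc 1 N₁, ‖a m‖ ^ 2 ≤ (N₁ : ℝ))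
    (hb : ∑ l ∈ Icc 1 N₂, ‖b l‖ ^ 2 ≤ B ^ 2 * (N₂ : ℝ)) :
    ∑ d ∈ Ioc D₀ Q, (1 / (Nat.totient d : ℝ)) *
        ∑ g ∈ prm d, ‖∑ m ∈ Icc 1 N₁, a m * g m‖ * ‖∑ l ∈ Icc 1 N₂, b l * g l‖ ≤
      (J : ℝ) * (20 * B * √((N₁ : ℝ) * N₂) *
        (√((N₁ : ℝ) * N₂) / D₀ + 2 * √(N₁ : ℝ) + 2 * √(N₂ : ℝ) + 4 * Q)) := by
  set X : ℝ := 20 * B * √((N₁ : ℝ) * N₂) *
        (√((N₁ : ℝ) * N₂) / D₀ + 2 * √(N₁ : ℝ) + 2 * √(N₂ : ℝ) + 4 * Q) with hX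
  have hX0 : 0 ≤ X := by rw [hX]; positivity
  set F : ℕ → ℝ := fun d => (1 / (Nat.totient d : ℝ)) *
        ∑ g ∈ prm d, ‖∑ m ∈ Icc 1 N₁, a m * g m‖ * ‖∑ l ∈ Icc 1 N₂, b l * g l‖ with hF
  have hF0 : ∀ d, 0 ≤ F d := by
    intro d
    rw [hF]
    exact mul_nonneg (by positivity) (Finset.sum_nonneg fun g _ => by positivity)
  have key : ∀ j : ℕ, ∑ d ∈ Ioc D₀ (min Q (2 ^ j * D₀)), F d ≤ (j : ℝ) * X := by
    intro j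
    induction j with
    | zero =>
      have : Ioc D₀ (min Q (2 ^ 0 * D₀)) = ∅ := by
        apply Finset.Ioc_eq_empty
        simp
      rw [this]
      simp
    | succ j ih =>
      rcases le_or_gt Q (2 ^ j * D₀) with hq | hq
      · have e1 : min Q (2 ^ (j + 1) * D₀) = min Q (2 ^ j * D₀) := by
          rw [min_eq_left hq, min_eq_left]
          refine hq.trans (Nat.mul_le_mul_right _ ?_)
          exact Nat.pow_le_pow_right (by norm_num) (Nat.le_succ j)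
        rw [e1]
        push_cast
        nlinarith
      · have hDj : D₀ ≤ 2 ^ j * D₀ := Nat.le_mul_of_pos_left _ (by positivity)
        have e0 : min Q (2 ^ j * D₀) = 2 ^ j * D₀ := min_eq_right hq.le
        have hle : 2 ^ j * D₀ ≤ min Q (2 ^ (j + 1) * D₀) := by
          apply le_min hq.le
          exact Nat.mul_le_mul_right _ (Nat.pow_le_pow_right (by norm_num) (Nat.le_succ j))
        rw [← Finset.sum_Ioc_consecutive F hDj hle]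
        rw [e0] at ih
        have e2 : ∑ d ∈ Ioc (2 ^ j * D₀) (min Q (2 ^ (j + 1) * D₀)), F d ≤ X := by
          refine le_trans (Finset.sum_le_sum_of_subset_of_nonneg ?_ fun d _ _ => hF0 d)
            (block hD₀ hDj hq.le a b hB ha hb)
          intro d hd
          rw [Finset.mem_Ioc] at hd ⊢
          refine ⟨hd.1, hd.2.trans ((min_le_right _ _).trans (le_of_eq ?_))⟩
          ring
        push_cast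
        linarith
  have := key J
  rwa [min_eq_left hJ] at this

end Pool.Agent.DK10
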