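import Pool.Agent.DK10.Defs

/-!
# DK10-Rearr: rearrangement of the sum over moduli

`rearr`: write `q = d e` (`e = q/d`), `1/φ(q) ≤ (1/φ(d)) (1/φ(e))` by `Nat.totient_super_multiplicative`.
The map `(q, d) ↦ (q/d, d)` is injective, with values in `Icc 1 Q × Icc 2 Q`
(`Finset.sum_le_sum_of_injOn` / `sum_sigma'`, all terms are nonnegative).
-/

namespace Pool.Agent.DK10

open Finset

theorem rearr (Q : ℕ) (H : ℕ → ℕ → ℝ) (hH : ∀ d e, 0 ≤ H d e) :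
    ∑ q ∈ Icc 1 Q, (1 / (Nat.totient q : ℝ)) * ∑ d ∈ q.divisors.erase 1, H d (q / d) ≤
      ∑ e ∈ Icc 1 Q, (1 / (Nat.totient e : ℝ)) *
        ∑ d ∈ Icc 2 Q, (1 / (Nat.totient d : ℝ)) * H d e := by
  have hnn : ∀ x : ℕ × ℕ, 0 ≤ (1 / (Nat.totient x.1 : ℝ)) * ((1 / (Nat.totient x.2 : ℝ)) * H x.2 x.1) := by
    intro x
    have := hH x.2 x.1
    positivity
  have hR : ∑ e ∈ Icc 1 Q, (1 / (Nat.totient e : ℝ)) *
        ∑ d ∈ Icc 2 Q, (1 / (Nat.totient d : ℝ)) * H d e =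
      ∑ x ∈ Icc 1 Q ×ˢ Icc 2 Q,
        (1 / (Nat.totient x.1 : ℝ)) * ((1 / (Nat.totient x.2 : ℝ)) * H x.2 x.1) := by
    rw [sum_product]
    refine sum_congr rfl fun e _ => ?_
    rw [mul_sum]
  have hL : ∑ q ∈ Icc 1 Q, (1 / (Nat.totient q : ℝ)) * ∑ d ∈ q.divisors.erase 1, H d (q / d) =
      ∑ y ∈ (Icc 1 Q).sigma (fun q => q.divisors.erase 1),
        (1 / (Nat.totient y.1 : ℝ)) * H y.2 (y.1 / y.2) := by
    rw [sum_sigma]
    refine sum_congr rfl fun q _ => ?_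
    rw [mul_sum]
  rw [hL, hR]
  have key : ∀ y ∈ (Icc 1 Q).sigma (fun q => q.divisors.erase 1),
      1 ≤ y.1 ∧ y.1 ≤ Q ∧ y.2 ∣ y.1 ∧ 2 ≤ y.2 ∧ y.2 ≤ Q ∧ 1 ≤ y.1 / y.2 ∧ y.1 / y.2 ≤ Q := by
    intro y hy
    obtain ⟨h1, h2⟩ := mem_sigma.1 hy
    obtain ⟨h3, h4⟩ := mem_Icc.1 h1
    obtain ⟨h5, h6⟩ := mem_erase.1 h2
    have h7 : y.2 ∣ y.1 := Nat.dvd_of_mem_divisors h6
    have h8 : 0 < y.2 := Nat.pos_of_dvd_of_pos h7 h3
    have h9 : y.2 ≤ y.1 := Nat.le_of_dvd h3 h7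
    refine ⟨h3, h4, h7, by omega, by omega, Nat.div_pos h9 h8, (Nat.div_le_self _ _).trans h4⟩
  have step1 : ∑ y ∈ (Icc 1 Q).sigma (fun q => q.divisors.erase 1),
        (1 / (Nat.totient y.1 : ℝ)) * H y.2 (y.1 / y.2) ≤
      ∑ y ∈ (Icc 1 Q).sigma (fun q => q.divisors.erase 1),
        (1 / (Nat.totient (y.1 / y.2) : ℝ)) * ((1 / (Nat.totient y.2 : ℝ)) * H y.2 (y.1 / y.2)) := by
    refine sum_le_sum fun y hy => ?_
    obtain ⟨h1, h2, h3, h4, h5, h6, h7⟩ := key y hy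
    rw [← mul_assoc]
    refine mul_le_mul_of_nonneg_right ?_ (hH _ _)
    have e1 : y.2 * (y.1 / y.2) = y.1 := Nat.mul_div_cancel' h3
    have e2 := Nat.totient_super_multiplicative y.2 (y.1 / y.2)
    rw [e1] at e2
    have e3 : 0 < Nat.totient y.2 := Nat.totient_pos.2 (by omega)
    have e4 : 0 < Nat.totient (y.1 / y.2) := Nat.totient_pos.2 h6
    rw [one_div_mul_one_div]
    refine one_div_le_one_div_of_le (by positivity) ?_
    have : ((Nat.totient y.2 * Nat.totient (y.1 / y.2) : ℕ) : ℝ) ≤ (Nat.totient y.1 : ℝ) :=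
      Nat.cast_le.2 e2
    push_cast at this
    linarith
  refine step1.trans ?_
  have step2 : ∑ y ∈ (Icc 1 Q).sigma (fun q => q.divisors.erase 1),
        (1 / (Nat.totient (y.1 / y.2) : ℝ)) * ((1 / (Nat.totient y.2 : ℝ)) * H y.2 (y.1 / y.2)) =
      ∑ x ∈ ((Icc 1 Q).sigma (fun q => q.divisors.erase 1)).image
          (fun y => ((y.1 / y.2, y.2) : ℕ × ℕ)),
        (1 / (Nat.totient x.1 : ℝ)) * ((1 / (Nat.totient x.2 : ℝ)) * H x.2 x.1) := by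
    rw [sum_image]
    intro y hy z hz hyz
    obtain ⟨h1, h2, h3, h4, h5, h6, h7⟩ := key y hy
    obtain ⟨k1, k2, k3, k4, k5, k6, k7⟩ := key z hz
    simp only [Prod.mk.injEq] at hyz
    obtain ⟨e1, e2⟩ := hyz
    have e3 : y.2 * (y.1 / y.2) = y.1 := Nat.mul_div_cancel' h3
    have e4 : z.2 * (z.1 / z.2) = z.1 := Nat.mul_div_cancel' k3
    have e5 : y.1 = z.1 := by rw [← e3, ← e4, e1, e2]
    obtain ⟨y1, y2⟩ := y
    obtain ⟨z1, z2⟩ := z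
    simp only at e5 e2
    subst e5
    subst e2
    rfl
  rw [step2]
  refine sum_le_sum_of_subset_of_nonneg ?_ fun x _ _ => hnn x
  intro x hx
  obtain ⟨y, hy, rfl⟩ := mem_image.1 hx
  obtain ⟨h1, h2, h3, h4, h5, h6, h7⟩ := key y hy
  exact mem_product.2 ⟨mem_Icc.2 ⟨h6, h7⟩, mem_Icc.2 ⟨h4, h5⟩⟩

end Pool.Agent.DK10
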