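import Pool.Agent.DK10.Chars

/-!
# DK10-Reduce: reduction to primitive characters

`npc_le`: every `f ∈ npc q` is `n ↦ χ n` with `χ ≠ 1` modulo `q`.  Let `d = χ.conductor` (a divisor of
`q`, `d ≠ 1` by `DirichletCharacter.eq_one_iff_conductor_eq_one`) and `ψ = χ.primitiveCharacter`
(primitive modulo `d`: `DirichletCharacter.primitiveCharacter_isPrimitive`), `g n = ψ n`, so `g ∈ prm d`.
Then `f = res g (q/d)`: for `n` coprime to `q`, `χ n = ψ n`
(`DirichletCharacter.changeLevel_primitiveCharacter` with `changeLevel_eq_cast_of_dvd'`, or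
`DirichletCharacter.primitiveCharacter_apply_of_isCoprime`) and `n` is coprime to `q/d`; for `n` not
coprime to `q`, `χ n = 0`, and then either `n` is not coprime to `q/d`, and `res g (q/d) n = 0`, or `n`
is not coprime to `d` (as `q = d (q/d)`), and `g n = 0` (`prm_eq_zero`).
So `npc q` is contained in the image of the sigma finset of pairs `(d, g)`, `d ∈ q.divisors.erase 1`,
`g ∈ prm d`, under `(d,g) ↦ res g (q/d)`; the sum over an image of a nonnegative function is at most the
sum over the domain (`Finset.sum_image_le_of_nonneg`-type lemma, or choose preimages: an injection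
`f ↦ (d, g)` and `Finset.sum_le_sum_of_injOn`), and `Finset.sum_sigma`.
-/

namespace Pool.Agent.DK10

open Finset

theorem npc_le {q : ℕ} (hq : 1 ≤ q) (Φ : (ℕ → ℂ) → ℝ) (hΦ : ∀ f, 0 ≤ Φ f) :
    ∑ f ∈ npc q, Φ f ≤ ∑ d ∈ q.divisors.erase 1, ∑ g ∈ prm d, Φ (res g (q / d)) := by
  classical
  have : NeZero q := ⟨by omega⟩
  rw [Finset.sum_sigma']
  set S : Finset ((_ : ℕ) × (ℕ → ℂ)) := (q.divisors.erase 1).sigma (fun d => prm d) with hS
  have hsub : npc q ⊆ S.image (fun x => res x.2 (q / x.1)) := by
    intro f hf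
    unfold npc at hf
    rw [Finset.mem_image] at hf
    obtain ⟨χ, hχ, rfl⟩ := hf
    have hχ1 : χ ≠ 1 := (@Finset.mem_filter _ _ (_) _ _ |>.1 hχ).2
    have hdvd : χ.conductor ∣ q := χ.conductor_dvd_level
    have hd1 : χ.conductor ≠ 1 := fun h =>
      hχ1 ((DirichletCharacter.eq_one_iff_conductor_eq_one).2 h)
    rw [Finset.mem_image]
    refine ⟨⟨χ.conductor, fun n => χ.primitiveCharacter (n : ZMod χ.conductor)⟩, ?_, ?_⟩
    · rw [hS, Finset.mem_sigma]
      refine ⟨?_, ?_⟩
      · rw [Finset.mem_erase, Nat.mem_divisors]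
        exact ⟨hd1, hdvd, by omega⟩
      · unfold prm
        rw [Finset.mem_image]
        exact ⟨χ.primitiveCharacter,
          Finset.mem_filter.2 ⟨Finset.mem_univ _, χ.primitiveCharacter_isPrimitive⟩, rfl⟩
    · funext n
      simp only [res]
      by_cases hn : Nat.Coprime n q
      · have h1 : Nat.Coprime n (q / χ.conductor) :=
          Nat.Coprime.coprime_dvd_right (Nat.div_dvd_of_dvd hdvd) hn
        rw [if_pos h1]
        have h2 : IsCoprime (n : ℤ) (q : ℤ) := Nat.isCoprime_iff_coprime.2 hn
        have h3 := DirichletCharacter.primitiveCharacter_apply_of_isCoprime (χ := χ) h2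
        simpa using h3
      · have h0 : χ (n : ZMod q) = 0 := by
          apply MulChar.map_nonunit
          rwa [ZMod.isUnit_iff_coprime]
        rw [h0]
        by_cases h1 : Nat.Coprime n (q / χ.conductor)
        · rw [if_pos h1]
          apply MulChar.map_nonunit
          rw [ZMod.isUnit_iff_coprime]
          intro h2
          apply hn
          have : q = χ.conductor * (q / χ.conductor) := (Nat.mul_div_cancel' hdvd).symm
          rw [this]
          exact Nat.Coprime.mul_right h2 h1
        · rw [if_neg h1]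
  calc ∑ f ∈ npc q, Φ f ≤ ∑ f ∈ S.image (fun x => res x.2 (q / x.1)), Φ f :=
        Finset.sum_le_sum_of_subset_of_nonneg hsub (fun f _ _ => hΦ f)
    _ ≤ ∑ x ∈ S, Φ (res x.2 (q / x.1)) := by
        apply Finset.sum_image_le_of_nonneg
        intro x _
        exact hΦ _

end Pool.Agent.DK10
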