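import Pool.Agent.DK10.CharsInt

/-!
# DK10-SmallCond: small conductors

`prm_interval`: by Moebius, for `e ≥ 1`, `[gcd(m,e)=1] = ∑_{k ∣ gcd(m,e)} μ(k)`, so
`∑_{m ∈ Ioc A₁ A₂, (m,e)=1} g m = ∑_{k ∣ e} μ(k) ∑_{m ∈ Ioc A₁ A₂, k ∣ m} g m
  = ∑_{k ∣ e} μ(k) g k ∑_{m' ∈ Ioc (A₁/k) (A₂/k)} g m'` (write `m = k m'`: `k m' ∈ Ioc A₁ A₂` iff
`m' ∈ Ioc (A₁/k) (A₂/k)` by `Nat.div_lt_iff_lt_mul`, `Nat.le_div_iff_mul_le`), and every inner sum has
norm at most `d` by `prm_interval_le`, `‖g k‖ ≤ 1`, `|μ k| ≤ 1`.  There are `tau e` values of `k`.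

`small_cond`: bound the first factor by `prm_interval` (the sum of `res g e m` over `Ioc A₁ A₂` is the sum
over the filter), the second by `B * B₂` (`|β l| ≤ B` on `Ioc B₁ B₂`, at most `B₂` terms), the number of
`g` by `card_prm_le`, and `∑_{d ≤ D₀} d ≤ D₀²`.
-/

namespace Pool.Agent.DK10

open Finset

private theorem helper23_mult {k : ℕ} (hk : 1 ≤ k) (A₁ A₂ : ℕ) (f : ℕ → ℂ) :
    ∑ m ∈ (Ioc A₁ A₂).filter (fun m => k ∣ m), f m = ∑ n ∈ Ioc (A₁ / k) (A₂ / k), f (k * n) := by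
  refine Finset.sum_bij' (fun m _ => m / k) (fun n _ => k * n) ?_ ?_ ?_ ?_ ?_
  · intro m hm
    rw [Finset.mem_filter, Finset.mem_Ioc] at hm
    obtain ⟨⟨h1, h2⟩, c, rfl⟩ := hm
    rw [Nat.mul_div_cancel_left c (by omega), Finset.mem_Ioc]
    constructor
    · rw [Nat.div_lt_iff_lt_mul (by omega), Nat.mul_comm]; exact h1
    · rw [Nat.le_div_iff_mul_le (by omega), Nat.mul_comm]; exact h2
  · intro n hn
    rw [Finset.mem_Ioc] at hn
    obtain ⟨h1, h2⟩ := hn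
    rw [Nat.div_lt_iff_lt_mul (by omega), Nat.mul_comm] at h1
    rw [Nat.le_div_iff_mul_le (by omega), Nat.mul_comm] at h2
    rw [Finset.mem_filter, Finset.mem_Ioc]
    exact ⟨⟨h1, h2⟩, Dvd.intro n rfl⟩
  · intro m hm
    rw [Finset.mem_filter] at hm
    exact Nat.mul_div_cancel' hm.2
  · intro n _
    exact Nat.mul_div_cancel_left n (by omega)
  · intro m hm
    rw [Finset.mem_filter] at hm
    rw [Nat.mul_div_cancel' hm.2]

private theorem helper23_moeb {e : ℕ} (he : 1 ≤ e) (g : ℕ → ℂ) (m : ℕ) :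
    res g e m = ∑ k ∈ e.divisors, if k ∣ m then ((ArithmeticFunction.moebius k : ℤ) : ℂ) * g m else 0 := by
  have h1 : ∑ k ∈ (Nat.gcd m e).divisors, (ArithmeticFunction.moebius k : ℤ) =
      if Nat.gcd m e = 1 then 1 else 0 := by
    rw [← ArithmeticFunction.coe_mul_zeta_apply, ArithmeticFunction.moebius_mul_coe_zeta,
      ArithmeticFunction.one_apply]
  have h2 : (Nat.gcd m e).divisors = e.divisors.filter (fun k => k ∣ m) := by
    ext k
    rw [Nat.mem_divisors, Finset.mem_filter, Nat.mem_divisors, Nat.dvd_gcd_iff]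
    constructor
    · rintro ⟨⟨a, b⟩, _⟩
      exact ⟨⟨b, by omega⟩, a⟩
    · rintro ⟨⟨a, b⟩, c⟩
      exact ⟨⟨c, a⟩, fun h => b (Nat.gcd_eq_zero_iff.1 h).2⟩
  rw [← Finset.sum_filter, ← Finset.sum_mul, ← h2]
  have h3 : ∑ k ∈ (Nat.gcd m e).divisors, ((ArithmeticFunction.moebius k : ℤ) : ℂ) =
      if Nat.gcd m e = 1 then 1 else 0 := by
    rw [← Int.cast_sum, h1]
    split_ifs <;> simp
  rw [h3]
  unfold res
  by_cases h : Nat.gcd m e = 1
  · rw [if_pos h, if_pos (show Nat.Coprime m e from h), one_mul]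
  · rw [if_neg h, if_neg (show ¬ Nat.Coprime m e from h), zero_mul]

private theorem helper23_res_le {d : ℕ} {g : ℕ → ℂ} (hg : g ∈ prm d) (e l : ℕ) :
    ‖res g e l‖ ≤ 1 := by
  unfold res
  split_ifs
  · exact prm_norm_le hg l
  · simp

theorem prm_interval {d : ℕ} (hd : 2 ≤ d) {g : ℕ → ℂ} (hg : g ∈ prm d) {e : ℕ} (he : 1 ≤ e)
    (A₁ A₂ : ℕ) :
    ‖∑ m ∈ Ioc A₁ A₂, res g e m‖ ≤ tau e * (d : ℝ) := by
  have h1 : ∑ m ∈ Ioc A₁ A₂, res g e m =
      ∑ k ∈ e.divisors, ((ArithmeticFunction.moebius k : ℤ) : ℂ) *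
        (g k * ∑ n ∈ Ioc (A₁ / k) (A₂ / k), g n) := by
    rw [Finset.sum_congr rfl (fun m _ => helper23_moeb he g m), Finset.sum_comm]
    refine Finset.sum_congr rfl (fun k hk => ?_)
    have hk1 : 1 ≤ k := Nat.pos_of_mem_divisors hk
    rw [← Finset.sum_filter, helper23_mult hk1 A₁ A₂, Finset.mul_sum, Finset.mul_sum]
    refine Finset.sum_congr rfl (fun n _ => ?_)
    rw [prm_mul hg]
  rw [h1]
  have h2 : ∀ k ∈ e.divisors, ‖((ArithmeticFunction.moebius k : ℤ) : ℂ) *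
        (g k * ∑ n ∈ Ioc (A₁ / k) (A₂ / k), g n)‖ ≤ (d : ℝ) := by
    intro k _
    rw [norm_mul, norm_mul]
    have a1 : ‖((ArithmeticFunction.moebius k : ℤ) : ℂ)‖ ≤ 1 := by
      rw [Complex.norm_intCast]
      exact_mod_cast ArithmeticFunction.abs_moebius_le_one
    have a2 := prm_norm_le hg k
    have a3 := prm_interval_le hd hg (A₁ / k) (A₂ / k)
    have hd0 : (0 : ℝ) ≤ d := Nat.cast_nonneg d
    calc _ ≤ 1 * (1 * (d : ℝ)) := by
          apply mul_le_mul a1 _ (by positivity) (by norm_num)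
          exact mul_le_mul a2 a3 (norm_nonneg _) (by norm_num)
      _ = d := by ring
  refine (norm_sum_le_of_le _ h2).trans ?_
  rw [Finset.sum_const, nsmul_eq_mul]
  exact le_of_eq rfl

theorem small_cond {e D₀ A₁ A₂ B₁ B₂ : ℕ} (he : 1 ≤ e) (β : ℕ → ℝ) {B : ℝ} (hB : 0 ≤ B)
    (hβ : ∀ l ∈ Ioc B₁ B₂, |β l| ≤ B) :
    ∑ d ∈ Icc 2 D₀, (1 / (Nat.totient d : ℝ)) *
        ∑ g ∈ prm d, ‖∑ m ∈ Ioc A₁ A₂, res g e m‖ * ‖∑ l ∈ Ioc B₁ B₂, (β l : ℂ) * res g e l‖ ≤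
      tau e * ((D₀ : ℝ) ^ 2 * B * B₂) := by
  have hte : 0 ≤ tau e := Nat.cast_nonneg _
  have hd0 : ∀ d ∈ Icc 2 D₀, (1 / (Nat.totient d : ℝ)) *
        ∑ g ∈ prm d, ‖∑ m ∈ Ioc A₁ A₂, res g e m‖ * ‖∑ l ∈ Ioc B₁ B₂, (β l : ℂ) * res g e l‖ ≤
      tau e * (B * B₂) * D₀ := by
    intro d hd
    rw [Finset.mem_Icc] at hd
    have hφ : 0 < (Nat.totient d : ℝ) := by exact_mod_cast Nat.totient_pos.2 (by omega)
    have h1 : ∀ g ∈ prm d, ‖∑ m ∈ Ioc A₁ A₂, res g e m‖ *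
        ‖∑ l ∈ Ioc B₁ B₂, (β l : ℂ) * res g e l‖ ≤ (tau e * (d : ℝ)) * (B * B₂) := by
      intro g hg
      apply mul_le_mul (prm_interval hd.1 hg he A₁ A₂) _ (norm_nonneg _) (by positivity)
      have h2 : ∀ l ∈ Ioc B₁ B₂, ‖(β l : ℂ) * res g e l‖ ≤ B := by
        intro l hl
        rw [norm_mul]
        have a1 : ‖(β l : ℂ)‖ ≤ B := by
          rw [Complex.norm_real, Real.norm_eq_abs]
          exact hβ l hl
        calc _ ≤ B * 1 := mul_le_mul a1 (helper23_res_le hg e l) (norm_nonneg _) hB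
          _ = B := mul_one B
      refine (norm_sum_le_of_le _ h2).trans ?_
      rw [Finset.sum_const, nsmul_eq_mul, Nat.card_Ioc, mul_comm]
      apply mul_le_mul_of_nonneg_left _ hB
      exact_mod_cast Nat.sub_le _ _
    have h3 : ∑ g ∈ prm d, ‖∑ m ∈ Ioc A₁ A₂, res g e m‖ *
        ‖∑ l ∈ Ioc B₁ B₂, (β l : ℂ) * res g e l‖ ≤
        (Nat.totient d : ℝ) * ((tau e * (d : ℝ)) * (B * B₂)) := by
      refine (Finset.sum_le_sum h1).trans ?_
      rw [Finset.sum_const, nsmul_eq_mul]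
      exact mul_le_mul_of_nonneg_right (card_prm_le (by omega)) (by positivity)
    calc _ ≤ (1 / (Nat.totient d : ℝ)) * ((Nat.totient d : ℝ) * ((tau e * (d : ℝ)) * (B * B₂))) :=
          mul_le_mul_of_nonneg_left h3 (by positivity)
      _ = tau e * (B * B₂) * d := by field_simp
      _ ≤ tau e * (B * B₂) * D₀ := by
          apply mul_le_mul_of_nonneg_left _ (by positivity)
          exact_mod_cast hd.2
  refine (Finset.sum_le_sum hd0).trans ?_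
  rw [Finset.sum_const, nsmul_eq_mul, Nat.card_Icc]
  have h4 : (((D₀ + 1 - 2 : ℕ)) : ℝ) ≤ D₀ := by exact_mod_cast (by omega : D₀ + 1 - 2 ≤ D₀)
  calc _ ≤ (D₀ : ℝ) * (tau e * (B * B₂) * D₀) := mul_le_mul_of_nonneg_right h4 (by positivity)
    _ = tau e * ((D₀ : ℝ) ^ 2 * B * B₂) := by ring

end Pool.Agent.DK10
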