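import Pool.Agent.DK10.Orth
import Pool.Agent.DK10.Reduce
import Pool.Agent.DK10.Rearr
import Pool.Agent.DK10.SmallCond
import Pool.Agent.DK10.BilinLarge

/-!
# DK10-BLfin: the bilinear equidistribution theorem, finite form

Proof.  By `orth` (with `SM = Ioc A₁ A₂`, `SL = Ioc B₁ B₂`) and `npc_le` (with
`Φ f = ‖∑ f m‖ ‖∑ β l f l‖ ≥ 0`) the left-hand side is at most
`∑_{q ≤ Q} (1/φ(q)) ∑_{d ∣ q, d ≠ 1} ∑_{g ∈ prm d} Φ (res g (q/d))`, and by `rearr` with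
`H d e = ∑_{g ∈ prm d} Φ (res g e)` at most
`∑_{e ∈ Icc 1 Q} (1/φ(e)) ∑_{d ∈ Icc 2 Q} (1/φ(d)) H d e`.
For fixed `e` split `Icc 2 Q ⊆ Icc 2 D₀ ∪ Ioc D₀ Q`.  The first part is at most
`tau e (D₀² B B₂)` by `small_cond`.  The second part is at most
`J (20 B √(A₂B₂)(√(A₂B₂)/D₀ + 2√A₂ + 2√B₂ + 4Q))` by `bilin_large` with `N₁ = A₂`, `N₂ = B₂`,
`a m = if m ∈ Ioc A₁ A₂ ∧ Coprime m e then 1 else 0`,
`b l = if l ∈ Ioc B₁ B₂ ∧ Coprime l e then β l else 0`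
(`∑_{m ∈ Ioc A₁ A₂} res g e m = ∑_{m ∈ Icc 1 A₂} a m * g m` as `Ioc A₁ A₂ ⊆ Icc 1 A₂`, etc.;
`∑‖a m‖² ≤ A₂`, `∑‖b l‖² ≤ B² B₂`).  Since `tau e ≥ 1`, both together are at most `tau e` times the sum of
the two bounds.
-/

namespace Pool.Agent.DK10

open Finset

/-- The discrepancy for the modulus `q`. -/
noncomputable def Err (q : ℕ) (c : ℤ) (A₁ A₂ B₁ B₂ : ℕ) (β : ℕ → ℝ) : ℝ :=
  |(∑ m ∈ Ioc A₁ A₂, ∑ l ∈ Ioc B₁ B₂, if ((m * l : ℕ) : ℤ) ≡ c [ZMOD (q : ℤ)] then β l else 0) -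
        (1 / (Nat.totient q : ℝ)) * (((Ioc A₁ A₂).filter (fun m => Nat.Coprime m q)).card : ℝ) *
          ∑ l ∈ (Ioc B₁ B₂).filter (fun l => Nat.Coprime l q), β l|

private theorem tau_ge_one {e : ℕ} (he : 1 ≤ e) : 1 ≤ tau e := by
  unfold tau
  have h : 0 < e.divisors.card := Finset.card_pos.mpr (Nat.nonempty_divisors.mpr (by omega))
  exact_mod_cast h

private theorem sum_res_eq (g : ℕ → ℂ) (e C₁ C₂ : ℕ) (γ : ℕ → ℂ) :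
    ∑ m ∈ Ioc C₁ C₂, γ m * res g e m =
      ∑ m ∈ Icc 1 C₂, (if m ∈ Ioc C₁ C₂ ∧ Nat.Coprime m e then γ m else 0) * g m := by
  have hsub : Ioc C₁ C₂ ⊆ Icc 1 C₂ := by
    intro m hm
    rw [mem_Ioc] at hm
    rw [mem_Icc]
    omega
  rw [← Finset.sum_subset hsub]
  · apply Finset.sum_congr rfl
    intro m hm
    unfold res
    by_cases h : Nat.Coprime m e
    · rw [if_pos h, if_pos ⟨hm, h⟩]
    · rw [if_neg h, if_neg (fun h' => h h'.2)]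
      simp
  · intro m _ hm
    rw [if_neg (fun h' => hm h'.1)]
    simp

private theorem sum_norm_sq_le (e C₁ C₂ : ℕ) (γ : ℕ → ℂ) {B : ℝ} (hB : 0 ≤ B)
    (hγ : ∀ l ∈ Ioc C₁ C₂, ‖γ l‖ ≤ B) :
    ∑ m ∈ Icc 1 C₂, ‖(if m ∈ Ioc C₁ C₂ ∧ Nat.Coprime m e then γ m else 0 : ℂ)‖ ^ 2 ≤
      B ^ 2 * (C₂ : ℝ) := by
  have h : ∀ m ∈ Icc 1 C₂,
      ‖(if m ∈ Ioc C₁ C₂ ∧ Nat.Coprime m e then γ m else 0 : ℂ)‖ ^ 2 ≤ B ^ 2 := by
    intro m _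
    by_cases h : m ∈ Ioc C₁ C₂ ∧ Nat.Coprime m e
    · rw [if_pos h]
      exact pow_le_pow_left₀ (norm_nonneg _) (hγ m h.1) 2
    · rw [if_neg h]
      simp only [norm_zero]
      rw [zero_pow (by norm_num)]
      positivity
  refine (Finset.sum_le_sum h).trans ?_
  rw [Finset.sum_const, Nat.card_Icc, nsmul_eq_mul]
  simp only [Nat.add_sub_cancel]
  linarith

theorem BLfin {Q D₀ J A₁ A₂ B₁ B₂ : ℕ} {c : ℤ} (hc : c = 1 ∨ c = -1) (hD₀ : 1 ≤ D₀)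
    (hJ : Q ≤ 2 ^ J * D₀) (β : ℕ → ℝ) {B : ℝ} (hB : 0 ≤ B)
    (hβ : ∀ l ∈ Ioc B₁ B₂, |β l| ≤ B) :
    ∑ q ∈ Icc 1 Q, Err q c A₁ A₂ B₁ B₂ β ≤
      (∑ e ∈ Icc 1 Q, tau e / (Nat.totient e : ℝ)) *
        ((D₀ : ℝ) ^ 2 * B * B₂ + (J : ℝ) * (20 * B * √((A₂ : ℝ) * B₂) *
          (√((A₂ : ℝ) * B₂) / D₀ + 2 * √(A₂ : ℝ) + 2 * √(B₂ : ℝ) + 4 * Q))) := by
  set X1 : ℝ := (D₀ : ℝ) ^ 2 * B * B₂ with hX1
  set X2 : ℝ := (J : ℝ) * (20 * B * √((A₂ : ℝ) * B₂) *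
          (√((A₂ : ℝ) * B₂) / D₀ + 2 * √(A₂ : ℝ) + 2 * √(B₂ : ℝ) + 4 * Q)) with hX2
  have hX1n : 0 ≤ X1 := by positivity
  have hX2n : 0 ≤ X2 := by positivity
  set Φ : (ℕ → ℂ) → ℝ := fun f =>
    ‖∑ m ∈ Ioc A₁ A₂, f m‖ * ‖∑ l ∈ Ioc B₁ B₂, (β l : ℂ) * f l‖ with hΦ
  have hΦn : ∀ f, 0 ≤ Φ f := fun f => mul_nonneg (norm_nonneg _) (norm_nonneg _)
  set H : ℕ → ℕ → ℝ := fun d e => ∑ g ∈ prm d, Φ (res g e) with hH
  have hHn : ∀ d e, 0 ≤ H d e := fun d e => Finset.sum_nonneg (fun g _ => hΦn _)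
  have h1 : ∑ q ∈ Icc 1 Q, Err q c A₁ A₂ B₁ B₂ β ≤
      ∑ q ∈ Icc 1 Q, (1 / (Nat.totient q : ℝ)) * ∑ d ∈ q.divisors.erase 1, H d (q / d) := by
    apply Finset.sum_le_sum
    intro q hq
    rw [mem_Icc] at hq
    refine (orth hq.1 hc (Ioc A₁ A₂) (Ioc B₁ B₂) β).trans ?_
    apply mul_le_mul_of_nonneg_left _ (by positivity)
    exact npc_le hq.1 Φ hΦn
  refine h1.trans ((rearr Q H hHn).trans ?_)
  rw [Finset.sum_mul]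
  apply Finset.sum_le_sum
  intro e he
  rw [mem_Icc] at he
  have htau : 1 ≤ tau e := tau_ge_one he.1
  have hterm : ∀ d, 0 ≤ (1 / (Nat.totient d : ℝ)) * H d e := fun d =>
    mul_nonneg (by positivity) (hHn d e)
  have hsplit : ∑ d ∈ Icc 2 Q, (1 / (Nat.totient d : ℝ)) * H d e ≤
      ∑ d ∈ Icc 2 D₀, (1 / (Nat.totient d : ℝ)) * H d e +
        ∑ d ∈ Ioc D₀ Q, (1 / (Nat.totient d : ℝ)) * H d e := by
    have hdisj : Disjoint (Icc 2 D₀) (Ioc D₀ Q) := by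
      rw [Finset.disjoint_left]
      intro d hd hd'
      rw [mem_Icc] at hd
      rw [mem_Ioc] at hd'
      omega
    rw [← Finset.sum_union hdisj]
    apply Finset.sum_le_sum_of_subset_of_nonneg
    · intro d hd
      rw [mem_Icc] at hd
      rw [mem_union, mem_Icc, mem_Ioc]
      omega
    · intro d _ _
      exact hterm d
  have hfirst : ∑ d ∈ Icc 2 D₀, (1 / (Nat.totient d : ℝ)) * H d e ≤ tau e * X1 :=
    small_cond he.1 β hB hβ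
  have hsecond : ∑ d ∈ Ioc D₀ Q, (1 / (Nat.totient d : ℝ)) * H d e ≤ X2 := by
    set a : ℕ → ℂ := fun m => if m ∈ Ioc A₁ A₂ ∧ Nat.Coprime m e then 1 else 0 with ha
    set b : ℕ → ℂ := fun l => if l ∈ Ioc B₁ B₂ ∧ Nat.Coprime l e then (β l : ℂ) else 0 with hb
    have ha2 : ∑ m ∈ Icc 1 A₂, ‖a m‖ ^ 2 ≤ (A₂ : ℝ) := by
      have h0 := sum_norm_sq_le e A₁ A₂ (fun _ => (1 : ℂ)) (B := 1) zero_le_one (by simp)
      rw [one_pow, one_mul] at h0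
      exact h0
    have hb2 : ∑ l ∈ Icc 1 B₂, ‖b l‖ ^ 2 ≤ B ^ 2 * (B₂ : ℝ) := by
      apply sum_norm_sq_le e B₁ B₂ (fun l => (β l : ℂ)) hB
      intro l hl
      rw [Complex.norm_real, Real.norm_eq_abs]
      exact hβ l hl
    have hbl := bilin_large (D₀ := D₀) (Q := Q) (J := J) (N₁ := A₂) (N₂ := B₂) hD₀ hJ a b hB ha2 hb2
    refine le_trans (le_of_eq ?_) hbl
    apply Finset.sum_congr rfl
    intro d _
    congr 1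
    apply Finset.sum_congr rfl
    intro g _
    show ‖∑ m ∈ Ioc A₁ A₂, res g e m‖ * ‖∑ l ∈ Ioc B₁ B₂, (β l : ℂ) * res g e l‖ = _
    have e1 := sum_res_eq g e A₁ A₂ (fun _ => (1 : ℂ))
    have e2 := sum_res_eq g e B₁ B₂ (fun l => (β l : ℂ))
    simp only [one_mul] at e1
    rw [e1, e2]
  have htot : ∑ d ∈ Icc 2 Q, (1 / (Nat.totient d : ℝ)) * H d e ≤ tau e * (X1 + X2) := by
    have : X2 ≤ tau e * X2 := by nlinarith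
    calc ∑ d ∈ Icc 2 Q, (1 / (Nat.totient d : ℝ)) * H d e ≤ tau e * X1 + X2 := by linarith
      _ ≤ tau e * (X1 + X2) := by linarith
  calc (1 / (Nat.totient e : ℝ)) * ∑ d ∈ Icc 2 Q, (1 / (Nat.totient d : ℝ)) * H d e
      ≤ (1 / (Nat.totient e : ℝ)) * (tau e * (X1 + X2)) :=
        mul_le_mul_of_nonneg_left htot (by positivity)
    _ = tau e / (Nat.totient e : ℝ) * (X1 + X2) := by ring

end Pool.Agent.DK10
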