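import Pool.Agent.DK10.Defs

/-!
# DK10-BoxAn: the geometry of the boxes

With `r = 1 + δ/8`, `η = δ/8`, `Lj r j = ⌊r^j⌋₊`, `Aj x r η j = ⌊η x/r^(j+1)⌋₊`.
Take `j₀ = ⌊2ε log x/log r⌋₊`, `j₁ = ⌈(1-3ε) log x/log r⌉₊`, so `r^j₀ ≤ x^(2ε) < r^(j₀+1)` and
`r^(j₁-1) < x^(1-3ε) ≤ r^j₁` (`j₁ ≥ 1`).
* `j₁ x^(1-ε/20) ≤ (log x/log r + 1) x^(1-ε/20) ≤ x^(1-ε/50)` for large `x`.
* Covering: for `l` with `x^(2ε) < l < x^(1-3ε)` (so `l > 1`) let `j` be the largest with `r^j < l`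
  (`Nat.find` of the first `j` with `l ≤ r^(j+1)`): `r^j < l ≤ r^(j+1)`; `r^(j+1) ≥ l > x^(2ε) ≥ r^j₀` gives
  `j ≥ j₀`, and `r^j < l < x^(1-3ε) ≤ r^j₁` gives `j < j₁`.  `l ∈ Ioc ⌊r^j⌋₊ ⌊r^(j+1)⌋₊`
  (`Nat.floor_lt`, `Nat.le_floor`).
* for `j₀ ≤ j < j₁`: `r^j ≤ r^(j₁-1) < x^(1-3ε)`, so `x/r^(j+1) > x^(3ε)/r`, whence
  `Aj x r 1 j > x^(3ε)/r - 1 ≥ x^ε` for large `x`; `r^(j+1) ≥ r^(j₀+1) > x^(2ε)`, so
  `Aj x r 1 j ≤ x/r^(j+1) < x^(1-2ε) ≤ x^(1-ε)`; `Aj x r 1 j * Lj r (j+1) ≤ (x/r^(j+1)) r^(j+1) = x`;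
  `Lj r (j+1) ≤ r · x^(1-3ε) ≤ x`, so it is `≤ ⌊x⌋₊`.
* for `l ∈ Ioc (Lj r j) (Lj r (j+1))`, i.e. `r^j < l ≤ r^(j+1)`:
  `Aj x r 1 j - Aj x r η j ≥ x/r^(j+1) - 1 - η x/r^(j+1) = (1-η) x/r^(j+1) - 1 ≥ (1-η) x/(r l) - 1` (as
  `r^(j+1) < r l`) `≥ (1-δ) x/l`, because `(1-η)/r - (1-δ) ≥ 3δ/4 > 0` and `x/l ≥ x/r^(j+1) ≥ x^(3ε)/r` is
  large.
* for such `l` and `m ∈ Ioc (Aj x r η j) (Aj x r 1 j)`: `m ≤ x/r^(j+1)`, so `m l ≤ x`;
  `m > η x/r^(j+1)` (`Nat.lt_of_floor_lt`) and `l > r^j`, so `m l > η x/r > x^(1-ε/10)` for large `x`.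
-/

namespace Pool.Agent.DK10

open Finset

noncomputable def Lj (r : ℝ) (j : ℕ) : ℕ := ⌊r ^ j⌋₊

noncomputable def Aj (x r η : ℝ) (j : ℕ) : ℕ := ⌊η * x / r ^ (j + 1)⌋₊

theorem Lj_mono {r : ℝ} (hr : 1 ≤ r) : Monotone (Lj r) := by
  intro a b hab
  exact Nat.floor_mono (pow_le_pow_right₀ hr hab)

private lemma boxAn_aux {ε δ r η x : ℝ} (hε : 0 < ε) (hε' : ε < 1 / 20) (hδ : 0 < δ)
    (hδ' : δ < 1) (hr : r = 1 + δ / 8) (hη : η = δ / 8) (hx : 1 < x)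
    (E1 : Real.log x / Real.log r + 1 ≤ x ^ (3 * ε / 100))
    (E2 : x ^ ε ≤ x ^ (3 * ε) / r - 1) (E3 : r ≤ x ^ (3 * ε))
    (E4 : 4 / (3 * δ) ≤ x ^ (3 * ε) / r) (E5 : r / η < x ^ (ε / 10)) :
    ∃ j₀ j₁ : ℕ, (j₁ : ℝ) * x ^ (1 - ε / 20) ≤ x ^ (1 - ε / 50) ∧
      (∀ l : ℕ, x ^ (2 * ε) < (l : ℝ) → (l : ℝ) < x ^ (1 - 3 * ε) →
        ∃ j ∈ Ico j₀ j₁, l ∈ Ioc (Lj r j) (Lj r (j + 1))) ∧
      ∀ j ∈ Ico j₀ j₁,
        x ^ ε ≤ (Aj x r 1 j : ℝ) ∧ (Aj x r 1 j : ℝ) ≤ x ^ (1 - ε) ∧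
        (Aj x r 1 j : ℝ) * (Lj r (j + 1) : ℝ) ≤ x ∧
        Aj x r η j ≤ Aj x r 1 j ∧
        Lj r (j + 1) ≤ ⌊x⌋₊ ∧
        ∀ l ∈ Ioc (Lj r j) (Lj r (j + 1)),
          (1 - δ) * x / (l : ℝ) ≤ (Aj x r 1 j : ℝ) - (Aj x r η j : ℝ) ∧
          ∀ m ∈ Ioc (Aj x r η j) (Aj x r 1 j),
            x ^ (1 - ε / 10) < (m : ℝ) * (l : ℝ) ∧ (m : ℝ) * (l : ℝ) ≤ x := by
  have hx0 : 0 < x := by linarith
  have hr1 : 1 < r := by rw [hr]; linarith
  have hr0 : 0 < r := by linarith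
  have hη0 : 0 < η := by rw [hη]; linarith
  have hη1 : η ≤ 1 := by rw [hη]; linarith
  have hlogr : 0 < Real.log r := Real.log_pos hr1
  obtain ⟨j₀, hj₀, hj₀'⟩ := exists_nat_pow_near
    (Real.one_le_rpow hx.le (by positivity : (0 : ℝ) ≤ 2 * ε)) hr1
  obtain ⟨n, hn, hn'⟩ := exists_nat_pow_near
    (Real.one_le_rpow hx.le (by linarith : (0 : ℝ) ≤ 1 - 3 * ε)) hr1
  refine ⟨j₀, n + 1, ?_, ?_, ?_⟩
  · -- the number of boxes
    have h1 : (n : ℝ) ≤ Real.log x / Real.log r := by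
      rw [le_div_iff₀ hlogr, ← Real.log_pow]
      apply Real.log_le_log (by positivity)
      refine hn.trans ?_
      calc x ^ (1 - 3 * ε) ≤ x ^ (1 : ℝ) :=
            Real.rpow_le_rpow_of_exponent_le hx.le (by linarith)
        _ = x := Real.rpow_one x
    have h2 : ((n + 1 : ℕ) : ℝ) ≤ x ^ (3 * ε / 100) := by
      push_cast
      linarith
    calc ((n + 1 : ℕ) : ℝ) * x ^ (1 - ε / 20)
        ≤ x ^ (3 * ε / 100) * x ^ (1 - ε / 20) :=
          mul_le_mul_of_nonneg_right h2 (Real.rpow_nonneg hx0.le _)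
      _ = x ^ (1 - ε / 50) := by
          rw [← Real.rpow_add hx0]
          congr 1
          ring
  · -- covering
    intro l hl1 hl2
    have hex : ∃ j : ℕ, (l : ℝ) ≤ r ^ (j + 1) := by
      obtain ⟨k, hk⟩ := pow_unbounded_of_one_lt (l : ℝ) hr1
      exact ⟨k, hk.le.trans (pow_le_pow_right₀ hr1.le (Nat.le_succ k))⟩
    classical
    have hl0 : (1 : ℝ) < l := lt_of_le_of_lt
      (Real.one_le_rpow hx.le (by positivity : (0 : ℝ) ≤ 2 * ε)) hl1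
    obtain ⟨j, hj1, hj2⟩ : ∃ j : ℕ, r ^ j < (l : ℝ) ∧ (l : ℝ) ≤ r ^ (j + 1) := by
      refine ⟨Nat.find hex, ?_, Nat.find_spec hex⟩
      rcases Nat.eq_zero_or_pos (Nat.find hex) with h | h
      · rw [h, pow_zero]
        exact hl0
      · have := Nat.find_min hex (Nat.sub_lt h Nat.one_pos)
        rw [Nat.sub_add_cancel h] at this
        exact not_le.mp this
    refine ⟨j, ?_, ?_⟩
    · rw [mem_Ico]
      constructor
      · have h3 : r ^ j₀ < r ^ (j + 1) := by linarith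
        have := (pow_lt_pow_iff_right₀ hr1).mp h3
        omega
      · have h3 : r ^ j < r ^ (n + 1) := by linarith
        exact (pow_lt_pow_iff_right₀ hr1).mp h3
    · rw [mem_Ioc]
      exact ⟨(Nat.floor_lt (by positivity)).mpr hj1, Nat.le_floor hj2⟩
  · intro j hj
    rw [mem_Ico] at hj
    have hrj : (0 : ℝ) < r ^ (j + 1) := by positivity
    have hrj' : r ^ j ≤ x ^ (1 - 3 * ε) :=
      (pow_le_pow_right₀ hr1.le (by omega : j ≤ n)).trans hn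
    have hrj2 : x ^ (2 * ε) < r ^ (j + 1) :=
      lt_of_lt_of_le hj₀' (pow_le_pow_right₀ hr1.le (by omega))
    have hsplit : x = x ^ (1 - 3 * ε) * x ^ (3 * ε) := by
      rw [← Real.rpow_add hx0]
      simp
    set A : ℝ := x / r ^ (j + 1) with hA
    have hA0 : 0 < A := by positivity
    have hArj : A * r ^ (j + 1) = x := by
      rw [hA]
      field_simp
    have hAlow : x ^ (3 * ε) / r ≤ A := by
      rw [hA, div_le_div_iff₀ hr0 hrj, pow_succ]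
      have h3 : x ^ (3 * ε) * r ^ j ≤ x := by
        calc x ^ (3 * ε) * r ^ j ≤ x ^ (3 * ε) * x ^ (1 - 3 * ε) :=
              mul_le_mul_of_nonneg_left hrj' (Real.rpow_nonneg hx0.le _)
          _ = x := by rw [mul_comm]; exact hsplit.symm
      calc x ^ (3 * ε) * (r ^ j * r) = (x ^ (3 * ε) * r ^ j) * r := by ring
        _ ≤ x * r := mul_le_mul_of_nonneg_right h3 hr0.le
    have hA1 : Aj x r 1 j = ⌊A⌋₊ := by
      simp only [Aj, one_mul, hA]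
    have hAη : Aj x r η j = ⌊η * A⌋₊ := by
      simp only [Aj, hA, mul_div_assoc]
    rw [hA1, hAη]
    have hfl1 : (⌊A⌋₊ : ℝ) ≤ A := Nat.floor_le hA0.le
    have hfl2 : A < (⌊A⌋₊ : ℝ) + 1 := Nat.lt_floor_add_one A
    have hfl3 : (⌊η * A⌋₊ : ℝ) ≤ η * A := Nat.floor_le (by positivity)
    have hL : (Lj r (j + 1) : ℝ) ≤ r ^ (j + 1) := Nat.floor_le hrj.le
    refine ⟨?_, ?_, ?_, ?_, ?_, ?_⟩
    · linarith
    · refine hfl1.trans ?_
      have h3 : A ≤ x ^ (1 - 2 * ε) := by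
        rw [hA, div_le_iff₀ hrj]
        calc x = x ^ (1 - 2 * ε) * x ^ (2 * ε) := by
              rw [← Real.rpow_add hx0]
              simp
          _ ≤ x ^ (1 - 2 * ε) * r ^ (j + 1) :=
              mul_le_mul_of_nonneg_left hrj2.le (Real.rpow_nonneg hx0.le _)
      exact h3.trans (Real.rpow_le_rpow_of_exponent_le hx.le (by linarith))
    · calc (⌊A⌋₊ : ℝ) * (Lj r (j + 1) : ℝ) ≤ A * r ^ (j + 1) :=
            mul_le_mul hfl1 hL (Nat.cast_nonneg _) hA0.le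
        _ = x := hArj
    · apply Nat.floor_mono
      nlinarith
    · apply Nat.floor_mono
      calc r ^ (j + 1) = r ^ j * r := pow_succ r j
        _ ≤ x ^ (1 - 3 * ε) * x ^ (3 * ε) :=
            mul_le_mul hrj' E3 hr0.le (Real.rpow_nonneg hx0.le _)
        _ = x := hsplit.symm
    · intro l hl
      rw [mem_Ioc] at hl
      have hl1 : r ^ j < (l : ℝ) := (Nat.floor_lt (by positivity)).mp hl.1
      have hl2 : (l : ℝ) ≤ r ^ (j + 1) := (Nat.le_floor_iff hrj.le).mp hl.2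
      have hrjpos : (0 : ℝ) < r ^ j := by positivity
      have hl0 : (0 : ℝ) < l := hrjpos.trans hl1
      refine ⟨?_, ?_⟩
      · have hAl : x / l ≤ r * A := by
          rw [div_le_iff₀ hl0]
          calc x = A * r ^ (j + 1) := hArj.symm
            _ = r * A * r ^ j := by rw [pow_succ]; ring
            _ ≤ r * A * l := mul_le_mul_of_nonneg_left hl1.le (by positivity)
        have h4 : 4 / (3 * δ) ≤ A := E4.trans hAlow
        have h5 : 1 ≤ A * (3 * δ / 4) := by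
          have := mul_le_mul_of_nonneg_right h4 (by positivity : (0 : ℝ) ≤ 3 * δ / 4)
          have h6 : 4 / (3 * δ) * (3 * δ / 4) = 1 := by field_simp
          linarith
        have h7 : (1 - δ) * x / (l : ℝ) ≤ (1 - δ) * (r * A) := by
          rw [mul_div_assoc]
          exact mul_le_mul_of_nonneg_left hAl (by linarith)
        have h8 : (1 - δ) * (r * A) + A * (3 * δ / 4) ≤ A - η * A := by
          rw [hr, hη]
          nlinarith [mul_pos hA0 (mul_pos hδ hδ)]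
        linarith
      · intro m hm
        rw [mem_Ioc] at hm
        have hm1 : η * A < (m : ℝ) := (Nat.floor_lt (by positivity)).mp hm.1
        have hm2 : (m : ℝ) ≤ A := (Nat.le_floor_iff hA0.le).mp hm.2
        have hηA : 0 < η * A := by positivity
        refine ⟨?_, ?_⟩
        · have h9 : η * A * r ^ j < (m : ℝ) * (l : ℝ) :=
            mul_lt_mul'' hm1 hl1 hηA.le hrjpos.le
          have h10 : η * A * r ^ j = η / r * x := by
            rw [← hArj, pow_succ]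
            field_simp
          have h11 : x ^ (1 - ε / 10) < η / r * x := by
            have h12 : x = x ^ (1 - ε / 10) * x ^ (ε / 10) := by
              rw [← Real.rpow_add hx0]
              simp
            have h13 : 1 < η / r * x ^ (ε / 10) := by
              have := mul_lt_mul_of_pos_left E5 (by positivity : 0 < η / r)
              have h14 : η / r * (r / η) = 1 := by field_simp
              linarith
            calc x ^ (1 - ε / 10) = x ^ (1 - ε / 10) * 1 := (mul_one _).symm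
              _ < x ^ (1 - ε / 10) * (η / r * x ^ (ε / 10)) :=
                  mul_lt_mul_of_pos_left h13 (Real.rpow_pos_of_pos hx0 _)
              _ = η / r * (x ^ (1 - ε / 10) * x ^ (ε / 10)) := by ring
              _ = η / r * x := by rw [← h12]
          linarith
        · calc (m : ℝ) * (l : ℝ) ≤ A * r ^ (j + 1) :=
                mul_le_mul hm2 hl2 hl0.le hA0.le
            _ = x := hArj

theorem boxAn {ε δ : ℝ} (hε : 0 < ε) (hε' : ε < 1 / 20) (hδ : 0 < δ) (hδ' : δ < 1) :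
    ∀ᶠ x : ℝ in Filter.atTop, ∃ j₀ j₁ : ℕ, (j₁ : ℝ) * x ^ (1 - ε / 20) ≤ x ^ (1 - ε / 50) ∧
      (∀ l : ℕ, x ^ (2 * ε) < (l : ℝ) → (l : ℝ) < x ^ (1 - 3 * ε) →
        ∃ j ∈ Ico j₀ j₁, l ∈ Ioc (Lj (1 + δ / 8) j) (Lj (1 + δ / 8) (j + 1))) ∧
      ∀ j ∈ Ico j₀ j₁,
        x ^ ε ≤ (Aj x (1 + δ / 8) 1 j : ℝ) ∧ (Aj x (1 + δ / 8) 1 j : ℝ) ≤ x ^ (1 - ε) ∧
        (Aj x (1 + δ / 8) 1 j : ℝ) * (Lj (1 + δ / 8) (j + 1) : ℝ) ≤ x ∧
        Aj x (1 + δ / 8) (δ / 8) j ≤ Aj x (1 + δ / 8) 1 j ∧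
        Lj (1 + δ / 8) (j + 1) ≤ ⌊x⌋₊ ∧
        ∀ l ∈ Ioc (Lj (1 + δ / 8) j) (Lj (1 + δ / 8) (j + 1)),
          (1 - δ) * x / (l : ℝ) ≤
            (Aj x (1 + δ / 8) 1 j : ℝ) - (Aj x (1 + δ / 8) (δ / 8) j : ℝ) ∧
          ∀ m ∈ Ioc (Aj x (1 + δ / 8) (δ / 8) j) (Aj x (1 + δ / 8) 1 j),
            x ^ (1 - ε / 10) < (m : ℝ) * (l : ℝ) ∧ (m : ℝ) * (l : ℝ) ≤ x := by
  have hr1 : (1 : ℝ) < 1 + δ / 8 := by linarith
  have hr0 : (0 : ℝ) < 1 + δ / 8 := by linarith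
  have hlogr : 0 < Real.log (1 + δ / 8) := Real.log_pos hr1
  have T : ∀ c : ℝ, 0 < c → Filter.Tendsto (fun x : ℝ => x ^ c) Filter.atTop Filter.atTop :=
    fun c hc => tendsto_rpow_atTop hc
  -- E1
  have E1 : ∀ᶠ x : ℝ in Filter.atTop,
      Real.log x / Real.log (1 + δ / 8) + 1 ≤ x ^ (3 * ε / 100) := by
    have h1 : ∀ᶠ x : ℝ in Filter.atTop,
        ‖Real.log x‖ ≤ (Real.log (1 + δ / 8) / 2) * ‖x ^ (3 * ε / 100)‖ :=
      (isLittleO_log_rpow_atTop (by positivity : (0 : ℝ) < 3 * ε / 100)).bound (by positivity)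
    filter_upwards [h1, (T _ (by positivity : (0 : ℝ) < 3 * ε / 100)).eventually_ge_atTop 2,
      Filter.eventually_gt_atTop 0] with x h2 h3 h4
    have h5 : Real.log x ≤ Real.log (1 + δ / 8) / 2 * x ^ (3 * ε / 100) := by
      have h6 := (le_abs_self (Real.log x)).trans h2
      rwa [Real.norm_of_nonneg (Real.rpow_nonneg h4.le _)] at h6
    have h7 : Real.log x / Real.log (1 + δ / 8) ≤ x ^ (3 * ε / 100) / 2 := by
      rw [div_le_iff₀ hlogr]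
      linarith
    linarith
  -- E2
  have E2 : ∀ᶠ x : ℝ in Filter.atTop, x ^ ε ≤ x ^ (3 * ε) / (1 + δ / 8) - 1 := by
    filter_upwards [(T (2 * ε) (by positivity)).eventually_ge_atTop (2 * (1 + δ / 8)),
      Filter.eventually_gt_atTop 1] with x h1 h2
    have h3 : x ^ (3 * ε) = x ^ ε * x ^ (2 * ε) := by
      rw [← Real.rpow_add (by linarith)]
      congr 1
      ring
    have h4 : 1 ≤ x ^ ε := Real.one_le_rpow h2.le hε.le
    have h5 : 2 * x ^ ε ≤ x ^ (3 * ε) / (1 + δ / 8) := by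
      rw [le_div_iff₀ hr0, h3]
      calc 2 * x ^ ε * (1 + δ / 8) = x ^ ε * (2 * (1 + δ / 8)) := by ring
        _ ≤ x ^ ε * x ^ (2 * ε) := mul_le_mul_of_nonneg_left h1 (by linarith)
    linarith
  have E3 : ∀ᶠ x : ℝ in Filter.atTop, 1 + δ / 8 ≤ x ^ (3 * ε) :=
    (T (3 * ε) (by positivity)).eventually_ge_atTop _
  have E4 : ∀ᶠ x : ℝ in Filter.atTop, 4 / (3 * δ) ≤ x ^ (3 * ε) / (1 + δ / 8) := by
    filter_upwards [(T (3 * ε) (by positivity)).eventually_ge_atTop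
      (4 / (3 * δ) * (1 + δ / 8))] with x h1
    rw [le_div_iff₀ hr0]
    exact h1
  have E5 : ∀ᶠ x : ℝ in Filter.atTop, (1 + δ / 8) / (δ / 8) < x ^ (ε / 10) :=
    (T (ε / 10) (by positivity)).eventually_gt_atTop _
  filter_upwards [E1, E2, E3, E4, E5, Filter.eventually_gt_atTop 1] with x e1 e2 e3 e4 e5 hx
  exact boxAn_aux hε hε' hδ hδ' rfl rfl hx e1 e2 e3 e4 e5

end Pool.Agent.DK10
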