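import Pool.Agent.DK10.Defs

/-!
# DK10-BoxComb: combinatorics of the boxes

`boxUpper`: the map `(j, m, l) ↦ (m l, l)` is injective on the union of the boxes: the intervals
`Ioc (L j) (L (j+1))` are disjoint for different `j` (`L` monotone), so `l` determines `j`, and
`m = (m l)/l` (`l ≥ 1`).  The image lies in the pairs `(n, l)` with `n ∈ Icc 1 X` (`m ≥ 1`, `l ≥ 1`),
`Y < n`, `l ∣ n`, and if the congruence holds, `n ≡ c`.  All terms `g l` with `l ∣ n`, `1 ≤ n ≤ X` are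
nonnegative (`l ≤ n ≤ X`).  Write both sides as sums over sigma/product finsets
(`Finset.sum_sigma'`, `Finset.sum_filter`), and use `Finset.sum_le_sum_of_injOn`-type lemma, or
`Finset.sum_image` + `Finset.sum_le_sum_of_subset_of_nonneg`.

`boxLower`: for `l` in the filter set, choose `j` by `hcov`; `T g l/l ≤ (A₂ j - A₁ j) g l`.  The map
`l ↦ (j, l)` is an injection into the index set of the right-hand side, all whose terms are nonnegative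
(`A₂ j - A₁ j ≥ T/l ≥ 0` when the interval is nonempty; `g l ≥ 0` as `1 ≤ l ≤ L (j+1) ≤ X`).
-/

namespace Pool.Agent.DK10

open Finset

private lemma box_disj {L : ℕ → ℕ} (hL : Monotone L) {i j l : ℕ}
    (hi : l ∈ Ioc (L i) (L (i + 1))) (hj : l ∈ Ioc (L j) (L (j + 1))) : i = j := by
  rw [Finset.mem_Ioc] at hi hj
  rcases lt_trichotomy i j with h | h | h
  · have h1 : L (i + 1) ≤ L j := hL h
    omega
  · exact h
  · have h1 : L (j + 1) ≤ L i := hL h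
    omega

theorem boxUpper {X q : ℕ} {c : ℤ} {Y : ℝ} (L A₁ A₂ : ℕ → ℕ) (hL : Monotone L) (J : Finset ℕ)
    (g : ℕ → ℝ) (hg : ∀ l ∈ Icc 1 X, 0 ≤ g l)
    (hbox : ∀ j ∈ J, ∀ l ∈ Ioc (L j) (L (j + 1)), ∀ m ∈ Ioc (A₁ j) (A₂ j),
      Y < (m : ℝ) * (l : ℝ) ∧ m * l ≤ X) :
    ∑ j ∈ J, ∑ m ∈ Ioc (A₁ j) (A₂ j), ∑ l ∈ Ioc (L j) (L (j + 1)),
        (if ((m * l : ℕ) : ℤ) ≡ c [ZMOD (q : ℤ)] then g l else 0) ≤
      ∑ n ∈ (Icc 1 X).filter (fun n : ℕ => Y < (n : ℝ) ∧ (n : ℤ) ≡ c [ZMOD (q : ℤ)]),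
        ∑ l ∈ n.divisors, g l := by
  classical
  have h1 : ∑ j ∈ J, ∑ m ∈ Ioc (A₁ j) (A₂ j), ∑ l ∈ Ioc (L j) (L (j + 1)),
        (if ((m * l : ℕ) : ℤ) ≡ c [ZMOD (q : ℤ)] then g l else 0) =
      ∑ p ∈ (J.sigma (fun j => Ioc (A₁ j) (A₂ j) ×ˢ Ioc (L j) (L (j + 1)))).filter
        (fun p : (_ : ℕ) × (ℕ × ℕ) => ((p.2.1 * p.2.2 : ℕ) : ℤ) ≡ c [ZMOD (q : ℤ)]), g p.2.2 := by
    rw [Finset.sum_filter, Finset.sum_sigma]
    refine Finset.sum_congr rfl (fun j _ => ?_)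
    rw [Finset.sum_product]
  have h2 : ∑ n ∈ (Icc 1 X).filter (fun n : ℕ => Y < (n : ℝ) ∧ (n : ℤ) ≡ c [ZMOD (q : ℤ)]),
        ∑ l ∈ n.divisors, g l =
      ∑ p ∈ ((Icc 1 X).filter (fun n : ℕ => Y < (n : ℝ) ∧ (n : ℤ) ≡ c [ZMOD (q : ℤ)])).sigma
        (fun n => n.divisors), g p.2 := by
    rw [Finset.sum_sigma]
  rw [h1, h2]
  set S := (J.sigma (fun j => Ioc (A₁ j) (A₂ j) ×ˢ Ioc (L j) (L (j + 1)))).filter
        (fun p : (_ : ℕ) × (ℕ × ℕ) => ((p.2.1 * p.2.2 : ℕ) : ℤ) ≡ c [ZMOD (q : ℤ)]) with hS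
  set R := ((Icc 1 X).filter (fun n : ℕ => Y < (n : ℝ) ∧ (n : ℤ) ≡ c [ZMOD (q : ℤ)])).sigma
        (fun n => n.divisors) with hR
  have hinj : Set.InjOn (fun p : (_ : ℕ) × (ℕ × ℕ) => (⟨p.2.1 * p.2.2, p.2.2⟩ : (_ : ℕ) × ℕ)) S := by
    rintro ⟨j, m, l⟩ hp ⟨j', m', l'⟩ hp' h
    simp only [hS, Finset.coe_filter, Finset.mem_sigma, Finset.mem_product, Set.mem_ofPred_eq]
      at hp hp'
    simp only [Sigma.mk.injEq, heq_eq_eq] at h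
    obtain ⟨h3, h4⟩ := h
    subst h4
    have h5 := box_disj hL hp.1.2.2 hp'.1.2.2
    subst h5
    have h6 : 0 < l := by
      have := Finset.mem_Ioc.1 hp.1.2.2
      omega
    have h7 : m = m' := Nat.eq_of_mul_eq_mul_right h6 h3
    subst h7
    rfl
  have h3 : ∑ p ∈ S, g p.2.2 =
      ∑ p ∈ S.image (fun p : (_ : ℕ) × (ℕ × ℕ) => (⟨p.2.1 * p.2.2, p.2.2⟩ : (_ : ℕ) × ℕ)), g p.2 := by
    rw [Finset.sum_image hinj]
  rw [h3]
  refine Finset.sum_le_sum_of_subset_of_nonneg ?_ ?_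
  · intro p hp
    rw [Finset.mem_image] at hp
    obtain ⟨⟨j, m, l⟩, hp, rfl⟩ := hp
    simp only [hS, Finset.mem_filter, Finset.mem_sigma, Finset.mem_product] at hp
    obtain ⟨⟨hj, hm, hl⟩, hc⟩ := hp
    have hb := hbox j hj l hl m hm
    have hm1 : 0 < m := by
      have := Finset.mem_Ioc.1 hm
      omega
    have hl1 : 0 < l := by
      have := Finset.mem_Ioc.1 hl
      omega
    have hml : 0 < m * l := Nat.mul_pos hm1 hl1
    simp only [hR, Finset.mem_sigma, Finset.mem_filter, Finset.mem_Icc, Nat.mem_divisors]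
    refine ⟨⟨⟨hml, hb.2⟩, ?_, hc⟩, Dvd.intro_left m rfl, hml.ne'⟩
    push_cast
    exact hb.1
  · rintro ⟨n, l⟩ hp _
    simp only [hR, Finset.mem_sigma, Finset.mem_filter, Finset.mem_Icc, Nat.mem_divisors] at hp
    refine hg l ?_
    rw [Finset.mem_Icc]
    have hl1 : l ≤ n := Nat.le_of_dvd (by omega) hp.2.1
    have hl0 : 0 < l := Nat.pos_of_dvd_of_pos hp.2.1 (by omega)
    omega

theorem boxLower {X q : ℕ} (L A₁ A₂ : ℕ → ℕ) (hL : Monotone L) (J : Finset ℕ)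
    (g : ℕ → ℝ) (hg : ∀ l ∈ Icc 1 X, 0 ≤ g l) {lo hi T : ℝ} (hT : 0 ≤ T)
    (hcov : ∀ l : ℕ, lo < (l : ℝ) → (l : ℝ) < hi → ∃ j ∈ J, l ∈ Ioc (L j) (L (j + 1)))
    (hLX : ∀ j ∈ J, L (j + 1) ≤ X)
    (hlen : ∀ j ∈ J, ∀ l ∈ Ioc (L j) (L (j + 1)), T / (l : ℝ) ≤ (A₂ j : ℝ) - (A₁ j : ℝ)) :
    T * ∑ l ∈ (Icc 1 X).filter (fun l : ℕ => lo < (l : ℝ) ∧ (l : ℝ) < hi ∧ Nat.Coprime l q),
        g l / (l : ℝ) ≤
      ∑ j ∈ J, ((A₂ j : ℝ) - (A₁ j : ℝ)) *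
        ∑ l ∈ (Ioc (L j) (L (j + 1))).filter (fun l => Nat.Coprime l q), g l := by
  classical
  set F := (Icc 1 X).filter (fun l : ℕ => lo < (l : ℝ) ∧ (l : ℝ) < hi ∧ Nat.Coprime l q) with hF
  have hnn : ∀ j ∈ J, ∀ l ∈ Ioc (L j) (L (j + 1)), 0 ≤ ((A₂ j : ℝ) - (A₁ j : ℝ)) * g l := by
    intro j hj l hl
    have h1 := Finset.mem_Ioc.1 hl
    have h2 := hLX j hj
    refine mul_nonneg (le_trans (div_nonneg hT (Nat.cast_nonneg l)) (hlen j hj l hl)) (hg l ?_)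
    rw [Finset.mem_Icc]
    omega
  have h1 : T * ∑ l ∈ F, g l / (l : ℝ) ≤
      ∑ l ∈ F, ∑ j ∈ J.filter (fun j => l ∈ Ioc (L j) (L (j + 1))),
        ((A₂ j : ℝ) - (A₁ j : ℝ)) * g l := by
    rw [Finset.mul_sum]
    refine Finset.sum_le_sum (fun l hl => ?_)
    rw [hF, Finset.mem_filter] at hl
    obtain ⟨hlX, hlo, hhi, -⟩ := hl
    obtain ⟨j, hj, hjl⟩ := hcov l hlo hhi
    have h2 : T * (g l / (l : ℝ)) ≤ ((A₂ j : ℝ) - (A₁ j : ℝ)) * g l := by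
      have h3 : T * (g l / (l : ℝ)) = (T / (l : ℝ)) * g l := by ring
      rw [h3]
      exact mul_le_mul_of_nonneg_right (hlen j hj l hjl) (hg l hlX)
    refine le_trans h2 ?_
    refine Finset.single_le_sum (f := fun j => ((A₂ j : ℝ) - (A₁ j : ℝ)) * g l) ?_
      (Finset.mem_filter.2 ⟨hj, hjl⟩)
    intro i hi
    rw [Finset.mem_filter] at hi
    exact hnn i hi.1 l hi.2
  refine le_trans h1 ?_
  have h2 : ∑ l ∈ F, ∑ j ∈ J.filter (fun j => l ∈ Ioc (L j) (L (j + 1))),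
        ((A₂ j : ℝ) - (A₁ j : ℝ)) * g l =
      ∑ j ∈ J, ∑ l ∈ F.filter (fun l => l ∈ Ioc (L j) (L (j + 1))),
        ((A₂ j : ℝ) - (A₁ j : ℝ)) * g l := by
    simp_rw [Finset.sum_filter]
    exact Finset.sum_comm
  rw [h2]
  refine Finset.sum_le_sum (fun j hj => ?_)
  rw [Finset.mul_sum]
  refine Finset.sum_le_sum_of_subset_of_nonneg ?_ ?_
  · intro l hl
    rw [Finset.mem_filter, hF, Finset.mem_filter] at hl
    exact Finset.mem_filter.2 ⟨hl.2, hl.1.2.2.2⟩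
  · intro l hl _
    exact hnn j hj l (Finset.mem_filter.1 hl).1

end Pool.Agent.DK10
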