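import Pool.Agent.DK10.Defs

/-!
# DK10-Cop: integers of an interval coprime to `q`

Proof.  `#{m ∈ Ioc A₁ A₂ : (m,q)=1} = ∑_{k ∣ q} μ(k) (⌊A₂/k⌋ - ⌊A₁/k⌋)` (Moebius:
`∑_{k ∣ gcd(m,q)} μ k = [gcd = 1]`, `ArithmeticFunction.sum_moebius...`/`coe_moebius_mul_coe_zeta`, and
`#{m ∈ Ioc A₁ A₂ : k ∣ m} = A₂/k - A₁/k`, `Nat.Ioc_filter_dvd_card_eq_div`-type lemma).
Each `⌊A₂/k⌋ - ⌊A₁/k⌋` differs from `(A₂ - A₁)/k` by at most `1`, `|μ k| ≤ 1`, and
`∑_{k ∣ q} μ(k)/k = φ(q)/q`: e.g. apply the exact formula to the interval `Ioc 0 q`, which contains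
`φ(q)` integers coprime to `q` : `φ(q) = ∑_{k ∣ q} μ(k) q/k`.
(`Nat.totient_eq_...`: number of `m ∈ range q` coprime to `q`; `Nat.totient` is defined as
`((range q).filter q.Coprime).card`; shift to `Ioc 0 q` = replace `0` by `q`.)
-/

namespace Pool.Agent.DK10

open Finset

private theorem sum_mu (n : ℕ) :
    ∑ d ∈ n.divisors, ArithmeticFunction.moebius d = if n = 1 then 1 else 0 := by
  have h := congrArg (fun f : ArithmeticFunction ℤ => f n) ArithmeticFunction.coe_zeta_mul_moebius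
  simp only [ArithmeticFunction.coe_zeta_mul_apply] at h
  rw [h, ArithmeticFunction.one_apply]

private theorem cnt (q A : ℕ) (hq : 1 ≤ q) :
    (((Ioc 0 A).filter (fun m => Nat.Coprime m q)).card : ℤ) =
      ∑ k ∈ q.divisors, ArithmeticFunction.moebius k * ((A / k : ℕ) : ℤ) := by
  have h1 : (((Ioc 0 A).filter (fun m => Nat.Coprime m q)).card : ℤ) =
      ∑ m ∈ Ioc 0 A, ∑ k ∈ q.divisors, if k ∣ m then ArithmeticFunction.moebius k else 0 := by
    rw [card_filter, Nat.cast_sum]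
    refine sum_congr rfl fun m hm => ?_
    have hm0 : 0 < m := (mem_Ioc.1 hm).1
    have hg : Nat.gcd m q ≠ 0 := (Nat.gcd_pos_of_pos_left q hm0).ne'
    have h2 : ∑ k ∈ q.divisors, (if k ∣ m then ArithmeticFunction.moebius k else 0) =
        ∑ k ∈ (Nat.gcd m q).divisors, ArithmeticFunction.moebius k := by
      rw [← sum_filter]
      refine sum_congr ?_ fun _ _ => rfl
      ext k
      rw [mem_filter, Nat.mem_divisors, Nat.mem_divisors, Nat.dvd_gcd_iff]
      constructor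
      · rintro ⟨⟨a, _⟩, b⟩
        exact ⟨⟨b, a⟩, hg⟩
      · rintro ⟨⟨a, b⟩, _⟩
        exact ⟨⟨b, by omega⟩, a⟩
    rw [h2, sum_mu]
    push_cast
    rfl
  rw [h1, sum_comm]
  refine sum_congr rfl fun k _ => ?_
  rw [← sum_filter, sum_const, Nat.Ioc_filter_dvd_card_eq_div, nsmul_eq_mul, mul_comm]

private theorem tot_eq (q : ℕ) (hq : 1 ≤ q) :
    (Nat.totient q : ℝ) = ∑ k ∈ q.divisors, ((ArithmeticFunction.moebius k : ℤ) : ℝ) * ((q : ℝ) / k) := by
  have h1 : ((Ioc 0 q).filter (fun m => Nat.Coprime m q)).card = Nat.totient q := by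
    have := Nat.filter_coprime_Ico_eq_totient q 1
    rw [← this]
    congr 1
    ext m
    rw [mem_filter, mem_filter, mem_Ioc, mem_Ico, Nat.coprime_comm]
    constructor
    · rintro ⟨h, h'⟩
      exact ⟨by omega, h'⟩
    · rintro ⟨h, h'⟩
      exact ⟨by omega, h'⟩
  have h2 := cnt q q hq
  rw [h1] at h2
  have h3 : ((Nat.totient q : ℤ) : ℝ) =
      ((∑ k ∈ q.divisors, ArithmeticFunction.moebius k * ((q / k : ℕ) : ℤ) : ℤ) : ℝ) := by
    rw [h2]
  simp only [Int.cast_natCast, Int.cast_sum, Int.cast_mul] at h3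
  rw [h3]
  refine sum_congr rfl fun k hk => ?_
  have hk1 := Nat.dvd_of_mem_divisors hk
  have hk0 : (k : ℝ) ≠ 0 := by
    have := Nat.pos_of_dvd_of_pos hk1 hq
    positivity
  rw [Nat.cast_div hk1 hk0]

theorem cop_count {q A₁ A₂ : ℕ} (hq : 1 ≤ q) (hA : A₁ ≤ A₂) :
    ((Nat.totient q : ℝ) / (q : ℝ)) * ((A₂ : ℝ) - (A₁ : ℝ)) - tau q ≤
      (((Ioc A₁ A₂).filter (fun m => Nat.Coprime m q)).card : ℝ) := by
  have h1 : ((Ioc 0 A₁).filter (fun m => Nat.Coprime m q)).card +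
      ((Ioc A₁ A₂).filter (fun m => Nat.Coprime m q)).card =
      ((Ioc 0 A₂).filter (fun m => Nat.Coprime m q)).card := by
    rw [← card_union_of_disjoint, ← filter_union, Ioc_union_Ioc_eq_Ioc (Nat.zero_le _) hA]
    refine disjoint_filter_filter ?_
    rw [disjoint_left]
    intro x hx hx'
    have h2 := mem_Ioc.1 hx
    have h3 := mem_Ioc.1 hx'
    omega
  have hcast : ∀ A : ℕ, (((Ioc 0 A).filter (fun m => Nat.Coprime m q)).card : ℝ) =
      ∑ k ∈ q.divisors, ((ArithmeticFunction.moebius k : ℤ) : ℝ) * ((A / k : ℕ) : ℝ) := by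
    intro A
    have h2 := congrArg (fun z : ℤ => (z : ℝ)) (cnt q A hq)
    simp only [Int.cast_natCast, Int.cast_sum, Int.cast_mul] at h2
    exact h2
  have h2 : (((Ioc A₁ A₂).filter (fun m => Nat.Coprime m q)).card : ℝ) =
      ∑ k ∈ q.divisors, ((ArithmeticFunction.moebius k : ℤ) : ℝ) *
        (((A₂ / k : ℕ) : ℝ) - ((A₁ / k : ℕ) : ℝ)) := by
    have h3 : (((Ioc 0 A₁).filter (fun m => Nat.Coprime m q)).card : ℝ) +
      (((Ioc A₁ A₂).filter (fun m => Nat.Coprime m q)).card : ℝ) =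
      (((Ioc 0 A₂).filter (fun m => Nat.Coprime m q)).card : ℝ) := by
      exact_mod_cast h1
    rw [hcast, hcast] at h3
    simp only [mul_sub, sum_sub_distrib]
    linarith
  have hq0 : (q : ℝ) ≠ 0 := by positivity
  have h4 : ((Nat.totient q : ℝ) / (q : ℝ)) * ((A₂ : ℝ) - (A₁ : ℝ)) =
      ∑ k ∈ q.divisors, ((ArithmeticFunction.moebius k : ℤ) : ℝ) *
        ((A₂ : ℝ) / k - (A₁ : ℝ) / k) := by
    rw [tot_eq q hq, sum_div, sum_mul]
    refine sum_congr rfl fun k hk => ?_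
    have hk1 := Nat.dvd_of_mem_divisors hk
    have hk0 : (k : ℝ) ≠ 0 := by
      have := Nat.pos_of_dvd_of_pos hk1 hq
      positivity
    field_simp
  have h5 : tau q = ∑ k ∈ q.divisors, (1 : ℝ) := by
    unfold tau
    rw [sum_const, nsmul_eq_mul, mul_one]
  rw [h2, h4, h5, ← sum_sub_distrib]
  refine sum_le_sum fun k hk => ?_
  have hk1 := Nat.dvd_of_mem_divisors hk
  have hk0 : 0 < k := Nat.pos_of_dvd_of_pos hk1 hq
  have hfl : ∀ A : ℕ, ((A / k : ℕ) : ℝ) ≤ (A : ℝ) / k ∧ (A : ℝ) / k < ((A / k : ℕ) : ℝ) + 1 := by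
    intro A
    refine ⟨Nat.cast_div_le, ?_⟩
    rw [div_lt_iff₀ (by positivity)]
    have := Nat.lt_div_mul_add (a := A) hk0
    have h6 : A < (A / k + 1) * k := by
      rw [add_mul, one_mul]
      exact this
    exact_mod_cast h6
  obtain ⟨a1, a2⟩ := hfl A₁
  obtain ⟨b1, b2⟩ := hfl A₂
  have hmu := ArithmeticFunction.moebius_eq_or k
  rcases hmu with h | h | h
  · rw [h]
    norm_num
  · rw [h]
    norm_num
    linarith
  · rw [h]
    norm_num
    linarith

end Pool.Agent.DK10
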