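import Pool.Agent.DK10.BL
import Pool.Agent.DK10.Cop

/-!
# DK10-BoxOne: weighted lower bound on one box

Fix `q ∈ Icc 1 Q` and let `G_q = ∑_{l ∈ Ioc B₁ B₂, (l,q)=1} g l ≥ 0`.  By the definition of `Err` and
`cop_count`,
`∑_m ∑_l [ml ≡ c] g l ≥ (1/φ(q)) ((φ(q)/q)(A₂-A₁) - tau q) G_q - Err q
  = ((A₂ - A₁)/q) G_q - (tau q/φ(q)) G_q - Err q`.
Multiply by `W q ≥ 0` and sum.  By `BL` (`g` is `≤ x^{ε/200} ≤ x^{ε/100}`)
`∑_q W q Err q ≤ x^{ε/200} x^{1-ε/8}`.  Also `B₂ ≤ x^{1-ε}` (as `A₂ ≥ x^ε`, `A₂B₂ ≤ x`), so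
`G_q ≤ x^{ε/200} x^{1-ε}` and by `tau_div_totient` (`θ = ε/100`)
`∑_q W q (tau q/φ q) G_q ≤ x^{ε/200} x^{ε/100} x^{ε/200} x^{1-ε}`.
The sum of the two errors is at most `2 x^{1-ε/8+ε/200} ≤ x^{1-ε/20}` for large `x`.
-/

namespace Pool.Agent.DK10

open Finset

theorem boxOne {ε : ℝ} (hε : 0 < ε) (hε' : ε < 1 / 4) :
    ∀ᶠ x : ℝ in Filter.atTop, ∀ (Q A₁ A₂ B₁ B₂ : ℕ) (c : ℤ) (W g : ℕ → ℝ), (c = 1 ∨ c = -1) →
      (Q : ℝ) ≤ x ^ (1 / 2 - ε) → x ^ ε ≤ (A₂ : ℝ) → (A₂ : ℝ) ≤ x ^ (1 - ε) →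
      (A₂ : ℝ) * (B₂ : ℝ) ≤ x → A₁ ≤ A₂ →
      (∀ q ∈ Icc 1 Q, 0 ≤ W q ∧ W q ≤ x ^ (ε / 200)) →
      (∀ l ∈ Ioc B₁ B₂, 0 ≤ g l ∧ g l ≤ x ^ (ε / 200)) →
      ∑ q ∈ Icc 1 Q, (W q / (q : ℝ)) * (((A₂ : ℝ) - (A₁ : ℝ)) *
          ∑ l ∈ (Ioc B₁ B₂).filter (fun l => Nat.Coprime l q), g l) - x ^ (1 - ε / 20) ≤
        ∑ q ∈ Icc 1 Q, W q * ∑ m ∈ Ioc A₁ A₂, ∑ l ∈ Ioc B₁ B₂,
          (if ((m * l : ℕ) : ℤ) ≡ c [ZMOD (q : ℤ)] then g l else 0) := by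
  have hev : ∀ᶠ x : ℝ in Filter.atTop, (2 : ℝ) ≤ x ^ (7 * ε / 100) :=
    (tendsto_rpow_atTop (by positivity)).eventually_ge_atTop 2
  filter_upwards [BL hε hε', tau_div_totient (θ := ε / 100) (by positivity), hev,
    Filter.eventually_ge_atTop 1] with x hBL htau hx2 hx1
  intro Q A₁ A₂ B₁ B₂ c W g hc hQ hA2 hA2' hAB hA hW hg
  have hx0 : (0 : ℝ) < x := by linarith
  have hB2 : (B₂ : ℝ) ≤ x ^ (1 - ε) := by
    rw [Real.rpow_sub hx0, Real.rpow_one, le_div_iff₀ (Real.rpow_pos_of_pos hx0 ε)]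
    calc (B₂ : ℝ) * x ^ ε ≤ (B₂ : ℝ) * A₂ := mul_le_mul_of_nonneg_left hA2 (Nat.cast_nonneg _)
      _ = (A₂ : ℝ) * B₂ := mul_comm _ _
      _ ≤ x := hAB
  have hQx : (Q : ℝ) ≤ x := hQ.trans (by
    calc x ^ (1 / 2 - ε) ≤ x ^ (1 : ℝ) := Real.rpow_le_rpow_of_exponent_le hx1 (by linarith)
      _ = x := Real.rpow_one x)
  have hE := hBL Q A₁ A₂ B₁ B₂ c g hc hQ hA2 hA2' hAB (fun l hl => by
    rw [abs_of_nonneg (hg l hl).1]
    exact (hg l hl).2.trans (Real.rpow_le_rpow_of_exponent_le hx1 (by linarith)))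
  have hT := htau Q hQx
  have hpos := fun t : ℝ => Real.rpow_pos_of_pos hx0 t
  set G : ℕ → ℝ := fun q => ∑ l ∈ (Ioc B₁ B₂).filter (fun l => Nat.Coprime l q), g l with hG
  have hG0 : ∀ q, 0 ≤ G q := fun q =>
    Finset.sum_nonneg (fun l hl => (hg l (Finset.mem_filter.mp hl).1).1)
  have hG1 : ∀ q, G q ≤ x ^ (ε / 200) * x ^ (1 - ε) := by
    intro q
    calc G q ≤ ∑ l ∈ Ioc B₁ B₂, g l :=
          Finset.sum_le_sum_of_subset_of_nonneg (Finset.filter_subset _ _) (fun l hl _ => (hg l hl).1)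
      _ ≤ ∑ _l ∈ Ioc B₁ B₂, x ^ (ε / 200) := Finset.sum_le_sum (fun l hl => (hg l hl).2)
      _ = ((B₂ - B₁ : ℕ) : ℝ) * x ^ (ε / 200) := by
          rw [Finset.sum_const, Nat.card_Ioc, nsmul_eq_mul]
      _ ≤ (B₂ : ℝ) * x ^ (ε / 200) := by
          refine mul_le_mul_of_nonneg_right ?_ (hpos _).le
          exact_mod_cast Nat.sub_le _ _
      _ ≤ x ^ (ε / 200) * x ^ (1 - ε) := by
          rw [mul_comm]
          exact mul_le_mul_of_nonneg_left hB2 (hpos _).le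
  set S : ℕ → ℝ := fun q => ∑ m ∈ Ioc A₁ A₂, ∑ l ∈ Ioc B₁ B₂,
          (if ((m * l : ℕ) : ℤ) ≡ c [ZMOD (q : ℤ)] then g l else 0) with hS
  have hterm : ∀ q ∈ Icc 1 Q, (W q / (q : ℝ)) * (((A₂ : ℝ) - (A₁ : ℝ)) * G q) -
      x ^ (ε / 200) * (x ^ (ε / 200) * x ^ (1 - ε)) * (tau q / (Nat.totient q : ℝ)) -
      x ^ (ε / 200) * Err q c A₁ A₂ B₁ B₂ g ≤ W q * S q := by
    intro q hq
    have hq1 : 1 ≤ q := (Finset.mem_Icc.mp hq).1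
    have hqr : (0 : ℝ) < q := by exact_mod_cast hq1
    have hφ : (0 : ℝ) < (Nat.totient q : ℝ) := by exact_mod_cast Nat.totient_pos.mpr hq1
    have hτ : 0 ≤ tau q := Nat.cast_nonneg _
    have hcop := cop_count hq1 hA
    have hErr : (1 / (Nat.totient q : ℝ)) * (((Ioc A₁ A₂).filter (fun m => Nat.Coprime m q)).card : ℝ) * G q
        - S q ≤ Err q c A₁ A₂ B₁ B₂ g := by
      have := neg_abs_le (S q - (1 / (Nat.totient q : ℝ)) *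
        (((Ioc A₁ A₂).filter (fun m => Nat.Coprime m q)).card : ℝ) * G q)
      have h2 : Err q c A₁ A₂ B₁ B₂ g = |S q - (1 / (Nat.totient q : ℝ)) *
        (((Ioc A₁ A₂).filter (fun m => Nat.Coprime m q)).card : ℝ) * G q| := rfl
      rw [h2]; linarith
    have hErr0 : 0 ≤ Err q c A₁ A₂ B₁ B₂ g := abs_nonneg _
    have h3 : ((A₂ : ℝ) - (A₁ : ℝ)) / q * G q - tau q / (Nat.totient q : ℝ) * G q ≤
        (1 / (Nat.totient q : ℝ)) * (((Ioc A₁ A₂).filter (fun m => Nat.Coprime m q)).card : ℝ) * G q := by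
      rw [← sub_mul]
      refine mul_le_mul_of_nonneg_right ?_ (hG0 q)
      calc ((A₂ : ℝ) - (A₁ : ℝ)) / q - tau q / (Nat.totient q : ℝ)
          = (1 / (Nat.totient q : ℝ)) * (((Nat.totient q : ℝ) / (q : ℝ)) * ((A₂ : ℝ) - (A₁ : ℝ)) - tau q) := by
            field_simp
        _ ≤ _ := mul_le_mul_of_nonneg_left hcop (by positivity)
    have h4 : ((A₂ : ℝ) - (A₁ : ℝ)) / q * G q - tau q / (Nat.totient q : ℝ) * G q -
        Err q c A₁ A₂ B₁ B₂ g ≤ S q := by linarith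
    have h5 := mul_le_mul_of_nonneg_left h4 (hW q hq).1
    have h6 : W q * (tau q / (Nat.totient q : ℝ) * G q) ≤
        x ^ (ε / 200) * (x ^ (ε / 200) * x ^ (1 - ε)) * (tau q / (Nat.totient q : ℝ)) := by
      have h7 : 0 ≤ tau q / (Nat.totient q : ℝ) := by positivity
      calc W q * (tau q / (Nat.totient q : ℝ) * G q)
          = (tau q / (Nat.totient q : ℝ)) * (W q * G q) := by ring
        _ ≤ (tau q / (Nat.totient q : ℝ)) * (x ^ (ε / 200) * (x ^ (ε / 200) * x ^ (1 - ε))) :=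
            mul_le_mul_of_nonneg_left (mul_le_mul (hW q hq).2 (hG1 q) (hG0 q) (hpos _).le) h7
        _ = _ := by ring
    have h8 : W q * Err q c A₁ A₂ B₁ B₂ g ≤ x ^ (ε / 200) * Err q c A₁ A₂ B₁ B₂ g :=
      mul_le_mul_of_nonneg_right (hW q hq).2 hErr0
    have h9 : (W q / (q : ℝ)) * (((A₂ : ℝ) - (A₁ : ℝ)) * G q) = W q * (((A₂ : ℝ) - (A₁ : ℝ)) / q * G q) := by
      ring
    rw [h9]
    have h10 : W q * (((A₂ : ℝ) - (A₁ : ℝ)) / q * G q - tau q / (Nat.totient q : ℝ) * G q -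
        Err q c A₁ A₂ B₁ B₂ g) = W q * (((A₂ : ℝ) - (A₁ : ℝ)) / q * G q) -
        W q * (tau q / (Nat.totient q : ℝ) * G q) - W q * Err q c A₁ A₂ B₁ B₂ g := by ring
    rw [h10] at h5
    linarith
  have hsum := Finset.sum_le_sum hterm
  rw [Finset.sum_sub_distrib, Finset.sum_sub_distrib, ← Finset.mul_sum, ← Finset.mul_sum] at hsum
  refine le_trans ?_ hsum
  have e1 : x ^ (ε / 200) * ∑ q ∈ Icc 1 Q, Err q c A₁ A₂ B₁ B₂ g ≤ x ^ (1 - 12 * ε / 100) := by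
    calc x ^ (ε / 200) * ∑ q ∈ Icc 1 Q, Err q c A₁ A₂ B₁ B₂ g ≤ x ^ (ε / 200) * x ^ (1 - ε / 8) :=
          mul_le_mul_of_nonneg_left hE (hpos _).le
      _ = x ^ (1 - 12 * ε / 100) := by
          rw [← Real.rpow_add hx0]; congr 1; ring
  have e2 : x ^ (ε / 200) * (x ^ (ε / 200) * x ^ (1 - ε)) *
      ∑ q ∈ Icc 1 Q, (tau q / (Nat.totient q : ℝ)) ≤ x ^ (1 - 12 * ε / 100) := by
    calc x ^ (ε / 200) * (x ^ (ε / 200) * x ^ (1 - ε)) * ∑ q ∈ Icc 1 Q, (tau q / (Nat.totient q : ℝ))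
        ≤ x ^ (ε / 200) * (x ^ (ε / 200) * x ^ (1 - ε)) * x ^ (ε / 100) :=
          mul_le_mul_of_nonneg_left hT (by have := hpos (ε / 200); have := hpos (1 - ε); positivity)
      _ = x ^ (1 - 98 * ε / 100) := by
          rw [← Real.rpow_add hx0, ← Real.rpow_add hx0, ← Real.rpow_add hx0]; congr 1; ring
      _ ≤ x ^ (1 - 12 * ε / 100) := Real.rpow_le_rpow_of_exponent_le hx1 (by linarith)
  have e3 : 2 * x ^ (1 - 12 * ε / 100) ≤ x ^ (1 - ε / 20) := by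
    calc 2 * x ^ (1 - 12 * ε / 100) ≤ x ^ (7 * ε / 100) * x ^ (1 - 12 * ε / 100) :=
          mul_le_mul_of_nonneg_right hx2 (hpos _).le
      _ = x ^ (1 - ε / 20) := by
          rw [← Real.rpow_add hx0]; congr 1; ring
  linarith

end Pool.Agent.DK10
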