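import Pool.Agent.DK10.BoxOne
import Pool.Agent.DK10.BoxAn
import Pool.Agent.DK10.BoxComb

/-!
# DK10-BoxThm: all boxes together

Take `x` large so that `boxAn` and `boxOne` (for this `ε < 1/4`) hold.  Let `r = 1 + δ/8`, `η = δ/8`,
`J = Ico j₀ j₁`.  For every `j ∈ J` apply `boxOne` to `A₁ = Aj x r η j`, `A₂ = Aj x r 1 j`, `B₁ = Lj r j`,
`B₂ = Lj r (j+1)`.  Sum over `j ∈ J` and exchange the sums over `j` and `q`:
* right-hand side, for each `q`: `boxUpper` with `X = ⌊x⌋₊`, `Y = x^(1-ε/10)`;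
* main term, for each `q`: `boxLower` with `T = (1-δ) x`, `lo = x^(2ε)`, `hi = x^(1-3ε)`;
* error: `#J x^(1-ε/20) ≤ j₁ x^(1-ε/20) ≤ x^(1-ε/50)`.
-/

namespace Pool.Agent.DK10

open Finset

theorem boxThm {ε δ : ℝ} (hε : 0 < ε) (hε' : ε < 1 / 20) (hδ : 0 < δ) (hδ' : δ < 1) :
    ∀ᶠ x : ℝ in Filter.atTop, ∀ (Q : ℕ) (c : ℤ) (W g : ℕ → ℝ), (c = 1 ∨ c = -1) →
      (Q : ℝ) ≤ x ^ (1 / 2 - ε) →
      (∀ q ∈ Icc 1 Q, 0 ≤ W q ∧ W q ≤ x ^ (ε / 200)) →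
      (∀ l ∈ Icc 1 ⌊x⌋₊, 0 ≤ g l ∧ g l ≤ x ^ (ε / 200)) →
      (1 - δ) * x * (∑ q ∈ Icc 1 Q, (W q / (q : ℝ)) *
          ∑ l ∈ (Icc 1 ⌊x⌋₊).filter (fun l : ℕ => x ^ (2 * ε) < (l : ℝ) ∧
            (l : ℝ) < x ^ (1 - 3 * ε) ∧ Nat.Coprime l q), g l / (l : ℝ)) - x ^ (1 - ε / 50) ≤
        ∑ q ∈ Icc 1 Q, W q *
          ∑ n ∈ (Icc 1 ⌊x⌋₊).filter (fun n : ℕ => x ^ (1 - ε / 10) < (n : ℝ) ∧
            (n : ℤ) ≡ c [ZMOD (q : ℤ)]), ∑ l ∈ n.divisors, g l := by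
  classical
  filter_upwards [boxAn hε hε' hδ hδ', boxOne hε (by linarith : ε < 1 / 4),
    Filter.eventually_ge_atTop (1 : ℝ)] with x hAn hOne hx1 Q c W g hc hQ hW hg
  obtain ⟨j₀, j₁, hj1, hcov, hJ⟩ := hAn
  have hx0 : 0 < x := by linarith
  set r : ℝ := 1 + δ / 8 with hr
  have hmono : Monotone (Lj r) := Lj_mono (by rw [hr]; linarith)
  -- the inequality for one box
  have hone : ∀ j ∈ Ico j₀ j₁,
      ∑ q ∈ Icc 1 Q, (W q / (q : ℝ)) * (((Aj x r 1 j : ℝ) - (Aj x r (δ / 8) j : ℝ)) *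
          ∑ l ∈ (Ioc (Lj r j) (Lj r (j + 1))).filter (fun l => Nat.Coprime l q), g l) -
          x ^ (1 - ε / 20) ≤
        ∑ q ∈ Icc 1 Q, W q * ∑ m ∈ Ioc (Aj x r (δ / 8) j) (Aj x r 1 j),
          ∑ l ∈ Ioc (Lj r j) (Lj r (j + 1)),
          (if ((m * l : ℕ) : ℤ) ≡ c [ZMOD (q : ℤ)] then g l else 0) := by
    intro j hj
    obtain ⟨h1, h2, h3, h4, h5, h6⟩ := hJ j hj
    refine hOne Q _ _ _ _ c W g hc hQ h1 h2 h3 h4 hW ?_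
    intro l hl
    rw [Finset.mem_Ioc] at hl
    exact hg l (Finset.mem_Icc.2 ⟨by omega, le_trans hl.2 h5⟩)
  have hsum := Finset.sum_le_sum hone
  rw [Finset.sum_sub_distrib, Finset.sum_const, Nat.card_Ico, nsmul_eq_mul,
    Finset.sum_comm, Finset.sum_comm (s := Ico j₀ j₁)] at hsum
  -- upper bound
  have hup : ∑ q ∈ Icc 1 Q, ∑ j ∈ Ico j₀ j₁, W q *
        ∑ m ∈ Ioc (Aj x r (δ / 8) j) (Aj x r 1 j), ∑ l ∈ Ioc (Lj r j) (Lj r (j + 1)),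
          (if ((m * l : ℕ) : ℤ) ≡ c [ZMOD (q : ℤ)] then g l else 0) ≤
      ∑ q ∈ Icc 1 Q, W q *
          ∑ n ∈ (Icc 1 ⌊x⌋₊).filter (fun n : ℕ => x ^ (1 - ε / 10) < (n : ℝ) ∧
            (n : ℤ) ≡ c [ZMOD (q : ℤ)]), ∑ l ∈ n.divisors, g l := by
    apply Finset.sum_le_sum
    intro q hq
    rw [← Finset.mul_sum]
    apply mul_le_mul_of_nonneg_left _ (hW q hq).1
    apply boxUpper (Lj r) (Aj x r (δ / 8)) (Aj x r 1) hmono (Ico j₀ j₁) g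
      (fun l hl => (hg l hl).1)
    intro j hj l hl m hm
    obtain ⟨h7, h8⟩ := ((hJ j hj).2.2.2.2.2 l hl).2 m hm
    refine ⟨h7, ?_⟩
    apply Nat.le_floor
    push_cast
    exact h8
  -- lower bound
  have hlow : (1 - δ) * x * (∑ q ∈ Icc 1 Q, (W q / (q : ℝ)) *
          ∑ l ∈ (Icc 1 ⌊x⌋₊).filter (fun l : ℕ => x ^ (2 * ε) < (l : ℝ) ∧
            (l : ℝ) < x ^ (1 - 3 * ε) ∧ Nat.Coprime l q), g l / (l : ℝ)) ≤
      ∑ q ∈ Icc 1 Q, ∑ j ∈ Ico j₀ j₁, (W q / (q : ℝ)) *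
        (((Aj x r 1 j : ℝ) - (Aj x r (δ / 8) j : ℝ)) *
          ∑ l ∈ (Ioc (Lj r j) (Lj r (j + 1))).filter (fun l => Nat.Coprime l q), g l) := by
    rw [Finset.mul_sum]
    apply Finset.sum_le_sum
    intro q hq
    rw [← Finset.mul_sum]
    have hWq : 0 ≤ W q / (q : ℝ) := div_nonneg (hW q hq).1 (Nat.cast_nonneg _)
    have hb := boxLower (X := ⌊x⌋₊) (q := q) (Lj r) (Aj x r (δ / 8)) (Aj x r 1) hmono
      (Ico j₀ j₁) g (fun l hl => (hg l hl).1) (lo := x ^ (2 * ε)) (hi := x ^ (1 - 3 * ε))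
      (T := (1 - δ) * x) (mul_nonneg (by linarith) hx0.le) hcov
      (fun j hj => (hJ j hj).2.2.2.2.1)
      (fun j hj l hl => ((hJ j hj).2.2.2.2.2 l hl).1)
    calc (1 - δ) * x * ((W q / (q : ℝ)) *
          ∑ l ∈ (Icc 1 ⌊x⌋₊).filter (fun l : ℕ => x ^ (2 * ε) < (l : ℝ) ∧
            (l : ℝ) < x ^ (1 - 3 * ε) ∧ Nat.Coprime l q), g l / (l : ℝ)) =
        (W q / (q : ℝ)) * ((1 - δ) * x *
          ∑ l ∈ (Icc 1 ⌊x⌋₊).filter (fun l : ℕ => x ^ (2 * ε) < (l : ℝ) ∧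
            (l : ℝ) < x ^ (1 - 3 * ε) ∧ Nat.Coprime l q), g l / (l : ℝ)) := by ring
      _ ≤ _ := mul_le_mul_of_nonneg_left hb hWq
  have herr : ((j₁ - j₀ : ℕ) : ℝ) * x ^ (1 - ε / 20) ≤ x ^ (1 - ε / 50) := by
    refine le_trans (mul_le_mul_of_nonneg_right ?_ (Real.rpow_nonneg hx0.le _)) hj1
    exact_mod_cast Nat.sub_le _ _
  linarith

end Pool.Agent.DK10
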