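import Pool.Agent.DK10.LSDefs

/-!
# DK10-Chars: basic facts about the finsets `npc q`, `prm d` of characters

* `sum_prm`, `sum_npc`: `Finset.sum_image`, with injectivity of `χ ↦ (n ↦ χ n)`: two characters modulo
  `q ≥ 1` that agree on all natural numbers are equal, as every element of `ZMod q` is the cast of a
  natural number (`ZMod.natCast_zmod_val`, needs `NeZero q`), `MulChar.ext'` or `DFunLike.ext`.
* `prm_norm_le`: `DirichletCharacter.norm_le_one`.
* `card_prm_le`: the number of all characters modulo `d ≥ 1` is `φ(d)`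
  (`DirichletCharacter.card_eq_totient_of_hasEnoughRootsOfUnity`), `Finset.card_image_le`,
  `Finset.card_filter_le`.
-/

namespace Pool.Agent.DK10

open Finset

private theorem ch_inj {d : ℕ} (hd : 1 ≤ d) :
    Function.Injective (fun (χ : DirichletCharacter ℂ d) (n : ℕ) => χ (n : ZMod d)) := by
  have : NeZero d := ⟨by omega⟩
  intro χ ψ h
  refine DFunLike.ext _ _ fun a => ?_
  have h1 := congrFun h a.val
  simp only [ZMod.natCast_zmod_val] at h1
  exact h1

open Classical in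
theorem sum_prm {d : ℕ} (hd : 1 ≤ d) (Φ : (ℕ → ℂ) → ℝ) :
    ∑ g ∈ prm d, Φ g =
      ∑ χ ∈ (univ : Finset (DirichletCharacter ℂ d)).filter (fun χ => χ.IsPrimitive),
        Φ (fun n => χ (n : ZMod d)) := by
  unfold prm
  rw [sum_image]
  intro χ _ ψ _ h
  exact ch_inj hd h

open Classical in
theorem sum_npc {q : ℕ} (hq : 1 ≤ q) (Φ : (ℕ → ℂ) → ℝ) :
    ∑ g ∈ npc q, Φ g =
      ∑ χ ∈ (univ : Finset (DirichletCharacter ℂ q)).filter (fun χ => χ ≠ 1),
        Φ (fun n => χ (n : ZMod q)) := by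
  unfold npc
  rw [sum_image]
  intro χ _ ψ _ h
  exact ch_inj hq h

private theorem ch_mem {d : ℕ} {g : ℕ → ℂ} (hg : g ∈ prm d) :
    ∃ χ : DirichletCharacter ℂ d, g = fun n : ℕ => χ (n : ZMod d) := by
  classical
  unfold prm at hg
  rw [mem_image] at hg
  obtain ⟨χ, -, h⟩ := hg
  exact ⟨χ, h.symm⟩

theorem prm_norm_le {d : ℕ} {g : ℕ → ℂ} (hg : g ∈ prm d) (n : ℕ) : ‖g n‖ ≤ 1 := by
  obtain ⟨χ, rfl⟩ := ch_mem hg
  exact χ.norm_le_one _

theorem prm_mul {d : ℕ} {g : ℕ → ℂ} (hg : g ∈ prm d) (m n : ℕ) : g (m * n) = g m * g n := by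
  obtain ⟨χ, rfl⟩ := ch_mem hg
  show χ ((m * n : ℕ) : ZMod d) = _
  rw [Nat.cast_mul, map_mul]

theorem prm_periodic {d : ℕ} {g : ℕ → ℂ} (hg : g ∈ prm d) (n : ℕ) : g (n + d) = g n := by
  obtain ⟨χ, rfl⟩ := ch_mem hg
  show χ ((n + d : ℕ) : ZMod d) = _
  rw [Nat.cast_add, ZMod.natCast_self, add_zero]

theorem prm_eq_zero {d : ℕ} {g : ℕ → ℂ} (hg : g ∈ prm d) {n : ℕ} (hn : ¬ Nat.Coprime n d) :
    g n = 0 := by
  obtain ⟨χ, rfl⟩ := ch_mem hg
  exact χ.map_nonunit fun h => hn ((ZMod.isUnit_iff_coprime n d).1 h)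

theorem card_prm_le {d : ℕ} (hd : 1 ≤ d) : ((prm d).card : ℝ) ≤ (Nat.totient d : ℝ) := by
  classical
  have : NeZero d := ⟨by omega⟩
  have h1 : (prm d).card ≤ Nat.totient d := by
    unfold prm
    refine card_image_le.trans ((card_filter_le _ _).trans ?_)
    rw [card_univ, ← Nat.card_eq_fintype_card, DirichletCharacter.card_eq_totient_of_hasEnoughRootsOfUnity]
  exact_mod_cast h1

end Pool.Agent.DK10
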