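import Pool.Agent.DK10.Chars

/-!
# DK10-CharsInt: sums of primitive characters over intervals

* `prm_sum_period`: for `d ≥ 2` a primitive character modulo `d` is not `1`
  (`DirichletCharacter.conductor_one` would give `d = 1`), so `∑_{a : ZMod d} χ a = 0`
  (`MulChar.sum_eq_zero_of_ne_one`), and `d` consecutive integers run over all residues
  (first for `Ioc 0 d` or `range d`, then shift by periodicity: induction on `A`,
  `g (A + d + 1) = g (A + 1)`).
* `prm_interval_le`: split `Ioc A B` into full periods and at most `d` remaining terms of norm `≤ 1`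
  (strong induction on `B - A`: if `B ≥ A + d` remove the first `d` terms, `Finset.sum_Ioc_consecutive`;
  otherwise at most `d` terms of norm at most `1`, `prm_norm_le`).
-/

namespace Pool.Agent.DK10

open Finset

private theorem ci_range {d : ℕ} {g : ℕ → ℂ} (hp : ∀ n, g (n + d) = g n) (A : ℕ) :
    ∑ i ∈ range d, g (A + i) = ∑ i ∈ range d, g i := by
  induction A with
  | zero => simp
  | succ A ih =>
    have h1 := Finset.sum_range_succ (fun i => g (A + i)) d
    have h2 := Finset.sum_range_succ' (fun i => g (A + i)) d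
    rw [h1] at h2
    have h3 : ∀ i, g (A + 1 + i) = g (A + (i + 1)) := fun i => by congr 1; omega
    rw [Finset.sum_congr rfl (fun i _ => h3 i)]
    have h4 : g (A + d) = g (A + 0) := by rw [hp, add_zero]
    rw [h4] at h2
    rw [← ih]
    exact (add_right_cancel h2).symm

theorem prm_sum_period {d : ℕ} (hd : 2 ≤ d) {g : ℕ → ℂ} (hg : g ∈ prm d) (A : ℕ) :
    ∑ n ∈ Ioc A (A + d), g n = 0 := by
  classical
  have hp : ∀ n, g (n + d) = g n := fun n => prm_periodic hg n
  have : NeZero d := ⟨by omega⟩
  have e1 : Ioc A (A + d) = Ico (A + 1) (A + 1 + d) := by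
    ext n
    simp only [Finset.mem_Ioc, Finset.mem_Ico]
    omega
  rw [e1, Finset.sum_Ico_eq_sum_range, Nat.add_sub_cancel_left, ci_range hp]
  unfold prm at hg
  obtain ⟨χ, hχ, rfl⟩ := Finset.mem_image.1 hg
  have hprim := (Finset.mem_filter.1 hχ).2
  have hne : χ ≠ 1 := by
    rintro rfl
    rw [DirichletCharacter.isPrimitive_def, DirichletCharacter.conductor_one] at hprim
    omega
  rw [← MulChar.sum_eq_zero_of_ne_one hne]
  refine Finset.sum_bij' (fun n _ => (n : ZMod d)) (fun a _ => a.val) ?_ ?_ ?_ ?_ ?_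
  · intro n _; exact Finset.mem_univ _
  · intro a _; exact Finset.mem_range.2 (ZMod.val_lt a)
  · intro n hn; exact ZMod.val_cast_of_lt (Finset.mem_range.1 hn)
  · intro a _; exact ZMod.natCast_zmod_val a
  · intro n _; rfl

theorem prm_interval_le {d : ℕ} (hd : 2 ≤ d) {g : ℕ → ℂ} (hg : g ∈ prm d) (A B : ℕ) :
    ‖∑ n ∈ Ioc A B, g n‖ ≤ (d : ℝ) := by
  have key : ∀ k A B : ℕ, B - A ≤ k → ‖∑ n ∈ Ioc A B, g n‖ ≤ (d : ℝ) := by
    intro k
    induction k with
    | zero =>
      intro A B h
      have : Ioc A B = ∅ := Finset.Ioc_eq_empty (by omega)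
      rw [this, Finset.sum_empty, norm_zero]
      exact Nat.cast_nonneg _
    | succ k ih =>
      intro A B h
      by_cases h1 : A + d ≤ B
      · rw [← Finset.sum_Ioc_consecutive g (Nat.le_add_right A d) h1, prm_sum_period hd hg, zero_add]
        exact ih _ _ (by omega)
      · refine (norm_sum_le_of_le _ (fun n _ => prm_norm_le hg n)).trans ?_
        rw [Finset.sum_const, Nat.card_Ioc, nsmul_eq_mul, mul_one]
        exact_mod_cast (by omega : B - A ≤ d)
  exact key (B - A) A B le_rfl

end Pool.Agent.DK10
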