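import Pool.Agent.DK10.LSDefs

/-!
# DK10-DDBound: bounds of the Dirichlet kernel

* `DD_le`: triangle inequality, `‖ee t‖ = 1` (`Complex.norm_exp_ofReal_mul_I` after rewriting).
* `DD_neg`: `DD K (-y)` is the complex conjugate of `DD K y`.
* `DD_le_inv`: geometric sum: `(ee y - 1) * DD K y = ee (K y) - 1` (`mul_geom_sum`,
  `ee (m y) = ee y ^ m`), `‖ee (K y) - 1‖ ≤ 2`, and `‖ee y - 1‖ = 2 |sin (π y)|`
  (`Complex.norm_exp_I_mul_ofReal_sub_one`-type lemma, or compute
  `‖exp(iθ) - 1‖² = 2 - 2 cos θ = 4 sin²(θ/2)`), and `|sin (π y)| ≥ 2 ρ`: subtract the nearest integer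
  `k = round y`: `|sin (π y)| = |sin (π (y - k))|`, `|y - k| ≤ 1/2` and `Real.mul_le_sin`
  (`2/π·t ≤ sin t` for `0 ≤ t ≤ π/2`) gives `|sin (π(y-k))| ≥ 2 |y - k| ≥ 2ρ`.
-/

namespace Pool.Agent.DK10

open Finset

private theorem ee_eq (t : ℝ) : ee t = Complex.exp (((2 * Real.pi * t : ℝ) : ℂ) * Complex.I) := by
  unfold ee
  push_cast
  rfl

private theorem norm_ee (t : ℝ) : ‖ee t‖ = 1 := by
  rw [ee_eq]
  exact Complex.norm_exp_ofReal_mul_I _

theorem DD_le (K : ℕ) (y : ℝ) : ‖DD K y‖ ≤ K := by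
  unfold DD
  refine (norm_sum_le _ _).trans ?_
  simp [norm_ee]

private theorem ee_neg (t : ℝ) : ee (-t) = (starRingEnd ℂ) (ee t) := by
  rw [ee_eq, ee_eq, ← Complex.exp_conj, map_mul, Complex.conj_ofReal, Complex.conj_I]
  congr 1
  push_cast
  ring

theorem DD_neg (K : ℕ) (y : ℝ) : ‖DD K (-y)‖ = ‖DD K y‖ := by
  have h : DD K (-y) = (starRingEnd ℂ) (DD K y) := by
    unfold DD
    rw [map_sum]
    refine Finset.sum_congr rfl fun m _ => ?_
    rw [mul_neg, ee_neg]
  rw [h]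
  exact Complex.norm_conj _

private theorem ee_nat_mul (m : ℕ) (y : ℝ) : ee ((m : ℝ) * y) = ee y ^ m := by
  unfold ee
  rw [← Complex.exp_nat_mul]
  congr 1
  push_cast
  ring

theorem DD_le_inv (K : ℕ) {y ρ : ℝ} (hρ : 0 < ρ) (h : ∀ k : ℤ, ρ ≤ |y - (k : ℝ)|) :
    ‖DD K y‖ ≤ 1 / (2 * ρ) := by
  have h1 : DD K y * (ee y - 1) = ee ((K : ℝ) * y) - 1 := by
    have : DD K y = ∑ m ∈ range K, ee y ^ m := by
      unfold DD
      exact Finset.sum_congr rfl fun m _ => ee_nat_mul m y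
    rw [this, geom_sum_mul, ee_nat_mul]
  have h2 : ‖ee y - 1‖ = 2 * |Real.sin (Real.pi * y)| := by
    rw [ee_eq, mul_comm, Complex.norm_exp_I_mul_ofReal_sub_one, norm_mul]
    simp only [Real.norm_eq_abs]
    rw [abs_of_pos (by norm_num : (0:ℝ) < 2)]
    congr 3
    ring
  have h3 : 2 * ρ ≤ |Real.sin (Real.pi * y)| := by
    set k := round y with hk
    have e1 : |Real.sin (Real.pi * y)| = |Real.sin (Real.pi * (y - k))| := by
      have : Real.pi * (y - k) = Real.pi * y - k * Real.pi := by ring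
      rw [this, Real.sin_sub_int_mul_pi, abs_mul]
      have : |((-1 : ℝ)) ^ k| = 1 := by
        rw [abs_zpow]
        simp
      rw [this, one_mul]
    have e2 : |y - k| ≤ 1 / 2 := abs_sub_round y
    have e3 : |Real.sin (Real.pi * (y - k))| = Real.sin (Real.pi * |y - k|) := by
      rcases le_total 0 (y - k) with hp | hp
      · rw [abs_of_nonneg hp, abs_of_nonneg]
        rw [abs_of_nonneg hp] at e2
        apply Real.sin_nonneg_of_nonneg_of_le_pi (by positivity)
        nlinarith [Real.pi_pos]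
      · rw [abs_of_nonpos hp]
        rw [abs_of_nonpos hp] at e2
        rw [abs_of_nonpos]
        · rw [mul_neg, Real.sin_neg]
        · apply Real.sin_nonpos_of_nonpos_of_neg_pi_le
          · nlinarith [Real.pi_pos]
          · nlinarith [Real.pi_pos]
    have e4 : 2 / Real.pi * (Real.pi * |y - k|) ≤ Real.sin (Real.pi * |y - k|) := by
      apply Real.mul_le_sin (by positivity)
      nlinarith [Real.pi_pos]
    have e5 : 2 / Real.pi * (Real.pi * |y - k|) = 2 * |y - k| := by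
      field_simp
    rw [e1, e3]
    have := h k
    linarith
  have h4 : ‖ee ((K : ℝ) * y) - 1‖ ≤ 2 := by
    refine (norm_sub_le _ _).trans ?_
    rw [norm_ee]
    norm_num
  have h5 : ‖DD K y‖ * ‖ee y - 1‖ ≤ 2 := by
    rw [← norm_mul, h1]
    exact h4
  rw [h2] at h5
  rw [le_div_iff₀ (by positivity)]
  have := norm_nonneg (DD K y)
  nlinarith

end Pool.Agent.DK10
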