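import Mathlib

/-!
# DK10: lower bounds for the sum of d_κ(n) d_3(n+1).  Definitions.

Author of the skeleton: helper10.
-/

namespace Pool.Agent.DK10

open Finset

/-- The generalised divisor function `d_κ`: `d_κ(p^a) = κ(κ+1)…(κ+a-1)/a!`, multiplicative. -/
noncomputable def dk (κ : ℝ) (n : ℕ) : ℝ :=
  ∏ p ∈ n.primeFactors, ∏ i ∈ range (n.factorization p), (κ + (i : ℝ)) / ((i : ℝ) + 1)

/-- Number of divisors, as a real number. -/
noncomputable def tau (n : ℕ) : ℝ := (n.divisors.card : ℝ)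

/-- `d_3(n)`: the number of ordered triples of positive integers with product `n`. -/
noncomputable def d3 (n : ℕ) : ℝ := ((Nat.finMulAntidiag 3 n).card : ℝ)

/-- The sum `S_κ(x)`. -/
noncomputable def SS (κ x : ℝ) : ℝ := ∑ n ∈ Icc 1 ⌊x⌋₊, dk κ n * d3 (n + 1)

/-- Weighted count of the divisors `b` of `N` with `b < N / b`; it is the number of triples
`(m₁, m₂, m₃)` with product `N` and `m₂ m₃ < m₁`. -/
noncomputable def TT (N : ℕ) : ℝ := ∑ b ∈ N.divisors.filter (fun b => b * b < N), tau b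

/-- Number of ordered factorisations `l = m₂ m₃` with both factors `< Y`. -/
noncomputable def rr (l Y : ℕ) : ℝ :=
  ((l.divisorsAntidiagonal.filter (fun p => p.1 < Y ∧ p.2 < Y)).card : ℝ)

/-- The number of triples `(m₁, m₂, m₃)` with product `N`, with `m₂, m₃ < m₁ < m₂ m₃`. -/
noncomputable def RR (N : ℕ) : ℝ := ∑ l ∈ N.divisors.filter (fun l => N < l * l), rr l (N / l)

/-- The sum of `d_{κ-1}(a)` over the divisors `a` of `n` with `a² < n`. -/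
noncomputable def KK (κ : ℝ) (n : ℕ) : ℝ :=
  ∑ a ∈ n.divisors.filter (fun a => a * a < n), dk (κ - 1) a

/-- The constant `G_κ = ∏_p (1 - (1 - (1 - 1/p)^(κ-1)) (1 - (1 - 1/p)^2))`. -/
noncomputable def GG (κ : ℝ) : ℝ :=
  ∏' p : Nat.Primes,
    (1 - (1 - (1 - 1 / ((p : ℕ) : ℝ)) ^ (κ - 1)) * (1 - (1 - 1 / ((p : ℕ) : ℝ)) ^ 2))

/-- The weight of a triple `(a, m, k)`. -/
noncomputable def wt (κ : ℝ) (t : ℕ × ℕ × ℕ) : ℝ :=
  if t.1 ≠ 0 ∧ t.2.1 ≠ 0 ∧ t.2.2 ≠ 0 ∧ Nat.Coprime t.1 (t.2.1 * t.2.2) then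
    dk (κ - 1) t.1 / ((t.1 : ℝ) * (t.2.1 : ℝ) * (t.2.2 : ℝ)) else 0

/-- The logarithmic position of a triple. -/
noncomputable def pos (t : ℕ × ℕ × ℕ) : ℝ × ℝ × ℝ :=
  (Real.log (t.1 : ℝ), Real.log (t.2.1 : ℝ), Real.log (t.2.2 : ℝ))

open Classical in
/-- The total weight of the triples whose position divided by `L` lies in `U`. -/
noncomputable def ms (κ : ℝ) (U : Set (ℝ × ℝ × ℝ)) (L : ℝ) : ℝ :=
  ∑' t : ℕ × ℕ × ℕ, if ((pos t).1 / L, (pos t).2.1 / L, (pos t).2.2 / L) ∈ U then wt κ t else 0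

/-- Planar region of the first part. -/
def T1 (ε : ℝ) : Set (ℝ × ℝ) := {p | 0 < p.1 ∧ 0 < p.2 ∧ p.1 + p.2 < 1 / 2 - ε}

/-- Planar region of the second part. -/
def T2 (ε : ℝ) : Set (ℝ × ℝ) :=
  {p | 0 < p.1 ∧ 0 < p.2 ∧ 1 / 2 + ε < p.1 + p.2 ∧ 2 * p.1 + p.2 < 1 - ε ∧ p.1 + 2 * p.2 < 1 - ε}

/-- Region of the first part. -/
def U1 (ε : ℝ) : Set (ℝ × ℝ × ℝ) := Set.Ioo (2 * ε) (1 - 3 * ε) ×ˢ T1 ε

/-- Region of the second part. -/
def U2 (ε : ℝ) : Set (ℝ × ℝ × ℝ) := Set.Ioo 0 (1 / 2 - ε) ×ˢ T2 ε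

end Pool.Agent.DK10
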