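import Pool.Agent.DK10.DkMul

/-!
# DK10-TauBound: `tau n ≤ C n^θ`

Proof of `tau_bound`.  `tau n = ∏_p (a_p + 1)`, `n^θ = ∏_p p^{θ a_p}`.  For a prime `p` with `p^θ ≥ 2`:
`(a+1) ≤ 2^a ≤ p^{θ a}`.  For the finitely many other primes `(a + 1) ≤ D · p^{θ a}` with a constant
`D ≥ 1` (as `p^{θ a} ≥ 2^{θ a} ≥ 1 + θ a log 2`, `D = 1 + 1/(θ log 2)` works for every prime).  So
`tau n ≤ D^{k} n^θ` where `k` is the number of primes `p` with `p^θ < 2` (there are at most
`⌈2^{1/θ}⌉` of them).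
In Lean: `Nat.Coprime.card_divisors_mul`, or the product formula `Nat.card_divisors`
(`n ≠ 0 → #n.divisors = ∏ p ∈ n.primeFactors, (n.factorization p + 1)`) and
`Nat.factorization_prod_pow_eq_self`; write `tau n = ∏_{p ∈ primeFactors} (a_p+1)` and split the product
into the primes `< P₀` and `≥ P₀`.
`tau_le_rpow`: take `C` for the exponent `θ/2`: `tau n ≤ C n^{θ/2} ≤ C x^{θ/2} ≤ x^θ` for large `x`.
(See also the team file Pool/Agent for a ready divisor bound, if there is one.)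
-/

namespace Pool.Agent.DK10

open Finset

private theorem tb_step {θ : ℝ} (hθ : 0 < θ) (p a : ℕ) (hp : 2 ≤ p) :
    ((a : ℝ) + 1) ≤ (1 + 1 / (θ * Real.log 2)) * ((p : ℝ) ^ a) ^ θ := by
  have hl : 0 < Real.log 2 := Real.log_pos (by norm_num)
  have hp2 : (2 : ℝ) ≤ (p : ℝ) := by exact_mod_cast hp
  have h1 : ((2 : ℝ) ^ a) ^ θ ≤ ((p : ℝ) ^ a) ^ θ := by
    apply Real.rpow_le_rpow (by positivity) _ hθ.le
    exact pow_le_pow_left₀ (by norm_num) hp2 a
  have h2 : ((2 : ℝ) ^ a) ^ θ = Real.exp (θ * a * Real.log 2) := by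
    rw [← Real.rpow_natCast, ← Real.rpow_mul (by norm_num), Real.rpow_def_of_pos (by norm_num)]
    congr 1
    ring
  have h3 : 1 + θ * a * Real.log 2 ≤ Real.exp (θ * a * Real.log 2) := by
    have := Real.add_one_le_exp (θ * a * Real.log 2)
    linarith
  have h4 : 1 + θ * a * Real.log 2 ≤ ((p : ℝ) ^ a) ^ θ := by linarith
  have h0 : 0 ≤ θ * a * Real.log 2 := by positivity
  calc ((a : ℝ) + 1) ≤ (1 + 1 / (θ * Real.log 2)) * (1 + θ * a * Real.log 2) := by
        have e : (1 / (θ * Real.log 2)) * (θ * a * Real.log 2) = a := by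
          field_simp
        have e2 : 0 ≤ 1 / (θ * Real.log 2) := by positivity
        nlinarith
    _ ≤ _ := mul_le_mul_of_nonneg_left h4 (by positivity)

private theorem tb_big {θ : ℝ} (p a : ℕ) (hp : (2 : ℝ) ≤ (p : ℝ) ^ θ) :
    ((a : ℝ) + 1) ≤ ((p : ℝ) ^ a) ^ θ := by
  have e : ((p : ℝ) ^ a) ^ θ = ((p : ℝ) ^ θ) ^ a := by
    rw [← Real.rpow_natCast, ← Real.rpow_natCast, ← Real.rpow_mul (by positivity),
      ← Real.rpow_mul (by positivity), mul_comm]
  rw [e]
  have h1 : ((a : ℝ) + 1) ≤ (2 : ℝ) ^ a := by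
    have := Nat.lt_two_pow_self (n := a)
    exact_mod_cast this
  exact h1.trans (pow_le_pow_left₀ (by norm_num) hp a)

theorem tau_bound {θ : ℝ} (hθ : 0 < θ) :
    ∃ C : ℝ, 0 < C ∧ ∀ n : ℕ, n ≠ 0 → tau n ≤ C * (n : ℝ) ^ θ := by
  have hl : 0 < Real.log 2 := Real.log_pos (by norm_num)
  set D : ℝ := 1 + 1 / (θ * Real.log 2) with hD
  have hD1 : 1 ≤ D := by
    have : 0 ≤ 1 / (θ * Real.log 2) := by positivity
    linarith
  set P : ℕ := ⌈(2 : ℝ) ^ (1 / θ)⌉₊ with hP
  refine ⟨D ^ P, by positivity, fun n hn => ?_⟩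
  have h1 : tau n = ∏ p ∈ n.primeFactors, ((n.factorization p : ℝ) + 1) := by
    unfold tau
    rw [Nat.card_divisors hn]
    push_cast
    rfl
  have h2 : (n : ℝ) ^ θ = ∏ p ∈ n.primeFactors, ((p : ℝ) ^ (n.factorization p)) ^ θ := by
    have e : (n : ℝ) = ∏ p ∈ n.primeFactors, (p : ℝ) ^ (n.factorization p) := by
      conv_lhs => rw [← Nat.prod_factorization_pow_eq_self hn]
      rw [Finsupp.prod, Nat.support_factorization]
      push_cast
      rfl
    conv_lhs => rw [e]
    rw [Real.finsetProd_rpow]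
    intro i _
    positivity
  have h3 : ∏ p ∈ n.primeFactors, ((n.factorization p : ℝ) + 1) ≤
      ∏ p ∈ n.primeFactors, ((if p < P then D else 1) * ((p : ℝ) ^ (n.factorization p)) ^ θ) := by
    apply Finset.prod_le_prod
    · intro i _; positivity
    · intro p hp
      have hp' := Nat.prime_of_mem_primeFactors hp
      split_ifs with h
      · exact tb_step hθ p _ hp'.two_le
      · rw [one_mul]
        apply tb_big
        have h5 : (2 : ℝ) ^ (1 / θ) ≤ (p : ℝ) := (Nat.le_ceil _).trans (by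
          have : P ≤ p := by omega
          exact_mod_cast this)
        calc (2 : ℝ) = ((2 : ℝ) ^ (1 / θ)) ^ θ := by
              rw [← Real.rpow_mul (by norm_num), one_div, inv_mul_cancel₀ hθ.ne', Real.rpow_one]
          _ ≤ (p : ℝ) ^ θ := Real.rpow_le_rpow (by positivity) h5 hθ.le
  have h4 : ∏ p ∈ n.primeFactors, (if p < P then D else 1) ≤ D ^ P := by
    rw [Finset.prod_ite, Finset.prod_const, Finset.prod_const_one, mul_one]
    apply pow_le_pow_right₀ hD1
    calc (n.primeFactors.filter (fun p => p < P)).card ≤ (Finset.range P).card := by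
          apply Finset.card_le_card
          intro x hx
          simp only [Finset.mem_filter] at hx
          simp [hx.2]
      _ = P := Finset.card_range P
  rw [h1]
  refine h3.trans ?_
  rw [Finset.prod_mul_distrib, ← h2]
  exact mul_le_mul_of_nonneg_right h4 (by positivity)

theorem tau_le_rpow {θ : ℝ} (hθ : 0 < θ) :
    ∀ᶠ x : ℝ in Filter.atTop, ∀ n : ℕ, n ≠ 0 → (n : ℝ) ≤ x → tau n ≤ x ^ θ := by
  obtain ⟨C, hC, h⟩ := tau_bound (half_pos hθ)
  have h1 : ∀ᶠ x : ℝ in Filter.atTop, C ≤ x ^ (θ / 2) :=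
    (tendsto_rpow_atTop (half_pos hθ)).eventually_ge_atTop C
  filter_upwards [h1, Filter.eventually_gt_atTop 0] with x hx hx0 n hn hnx
  calc tau n ≤ C * (n : ℝ) ^ (θ / 2) := h n hn
    _ ≤ x ^ (θ / 2) * x ^ (θ / 2) := by
        apply mul_le_mul hx _ (by positivity) (by positivity)
        exact Real.rpow_le_rpow (by positivity) hnx (half_pos hθ).le
    _ = x ^ θ := by
        rw [← Real.rpow_add hx0]
        congr 1
        ring

end Pool.Agent.DK10
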