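import Pool.Agent.DK10.DkConv
import Pool.Agent.DK10.TauBound

namespace Pool.Agent.DK10

open Finset

private theorem dk_le_tau_pow (K : ℕ) : ∀ n : ℕ, n ≠ 0 → dk ((K : ℝ) + 1) n ≤ tau n ^ K := by
  induction K with
  | zero =>
    intro n _
    simp [dk_one_left]
  | succ K ih =>
    intro n hn
    rw [dk_eq_sum_divisors _ hn]
    have h1 : ∀ l ∈ n.divisors, dk (((K + 1 : ℕ) : ℝ) + 1 - 1) l ≤ tau n ^ K := by
      intro l hl
      have hl0 : l ≠ 0 := (Nat.pos_of_mem_divisors hl).ne'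
      have e : ((K + 1 : ℕ) : ℝ) + 1 - 1 = (K : ℝ) + 1 := by push_cast; ring
      rw [e]
      refine le_trans (ih l hl0) ?_
      apply pow_le_pow_left₀ (Nat.cast_nonneg _)
      unfold tau
      exact_mod_cast Finset.card_le_card
        (Nat.divisors_subset_of_dvd hn (Nat.dvd_of_mem_divisors hl))
    calc ∑ l ∈ n.divisors, dk (((K + 1 : ℕ) : ℝ) + 1 - 1) l
        ≤ ∑ _l ∈ n.divisors, tau n ^ K := Finset.sum_le_sum h1
      _ = tau n ^ (K + 1) := by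
        rw [Finset.sum_const, nsmul_eq_mul, pow_succ, mul_comm]
        rfl

theorem dk_bound (κ : ℝ) (hκ : 0 ≤ κ) {θ : ℝ} (hθ : 0 < θ) :
    ∃ C : ℝ, 0 < C ∧ ∀ n : ℕ, n ≠ 0 → dk κ n ≤ C * (n : ℝ) ^ θ := by
  set K : ℕ := ⌈κ⌉₊ with hK
  obtain ⟨C, hC, hb⟩ := tau_bound (θ := θ / ((K : ℝ) + 1)) (by positivity)
  refine ⟨C ^ K, by positivity, ?_⟩
  intro n hn
  have hn1 : (1 : ℝ) ≤ (n : ℝ) := by exact_mod_cast Nat.one_le_iff_ne_zero.2 hn
  have h1 : dk κ n ≤ dk ((K : ℝ) + 1) n :=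
    dk_mono hκ (le_trans (Nat.le_ceil κ) (by rw [hK]; linarith)) n
  have h2 := dk_le_tau_pow K n hn
  have h3 : tau n ^ K ≤ (C * (n : ℝ) ^ (θ / ((K : ℝ) + 1))) ^ K :=
    pow_le_pow_left₀ (Nat.cast_nonneg _) (hb n hn) K
  have h4 : (C * (n : ℝ) ^ (θ / ((K : ℝ) + 1))) ^ K ≤ C ^ K * (n : ℝ) ^ θ := by
    rw [mul_pow, ← Real.rpow_natCast ((n : ℝ) ^ (θ / ((K : ℝ) + 1))), ← Real.rpow_mul (by linarith)]
    apply mul_le_mul_of_nonneg_left _ (by positivity)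
    apply Real.rpow_le_rpow_of_exponent_le hn1
    rw [div_mul_eq_mul_div, div_le_iff₀ (by positivity)]
    nlinarith
  linarith

/-- Uniform version used later: all values up to `x` are at most `x^θ`, for large `x`. -/
theorem dk_le_rpow (κ : ℝ) (hκ : 0 ≤ κ) {θ : ℝ} (hθ : 0 < θ) :
    ∀ᶠ x : ℝ in Filter.atTop, ∀ n : ℕ, n ≠ 0 → (n : ℝ) ≤ x → dk κ n ≤ x ^ θ := by
  obtain ⟨C, hC, hb⟩ := dk_bound κ hκ (θ := θ / 2) (by positivity)
  have ht : Filter.Tendsto (fun x : ℝ => x ^ (θ / 2)) Filter.atTop Filter.atTop :=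
    tendsto_rpow_atTop (by positivity)
  filter_upwards [ht.eventually_ge_atTop C, Filter.eventually_ge_atTop (1 : ℝ)] with x hx hx1 n hn hnx
  have hn0 : (0 : ℝ) ≤ (n : ℝ) := Nat.cast_nonneg _
  have h1 : (n : ℝ) ^ (θ / 2) ≤ x ^ (θ / 2) := Real.rpow_le_rpow hn0 hnx (by positivity)
  calc dk κ n ≤ C * (n : ℝ) ^ (θ / 2) := hb n hn
    _ ≤ x ^ (θ / 2) * x ^ (θ / 2) := mul_le_mul hx h1 (by positivity) (by positivity)
    _ = x ^ θ := by
      rw [← Real.rpow_add (by linarith)]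
      congr 1
      ring

end Pool.Agent.DK10
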