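import Pool.Agent.DK10.DkMul

/-!
# DK10-DkConv: `d_{κ+μ} = d_κ * d_μ` (Dirichlet convolution)

Proof.
1. `pochVander`: with `P κ a = ∏ i ∈ range a, (κ+i)/(i+1)` one has
   `P (κ+μ) a = ∑ x ∈ antidiagonal a, P κ x.1 * P μ x.2`.
   Either from `PowerSeries.binomialSeries_add` (Mathlib.RingTheory.PowerSeries.Binomial) with
   `Ring.choose (-κ) a = (-1)^a P κ a`, or directly: let `C a` be the right-hand side.  From
   `(a+1) P κ (a+1) = (κ+a) P κ a` one gets
   `(a+1) C (a+1) = ∑_{i+j=a+1} (i + j) P κ i P μ j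
      = ∑_{i+j=a} ((κ+i) + (μ+j)) P κ i P μ j = (κ+μ+a) C a`,
   and induction on `a`.
2. For `n ≠ 0`: both sides are multiplicative arithmetic functions
   (`ArithmeticFunction.IsMultiplicative.mul` for the convolution of
   `A κ := ⟨fun n => if n = 0 then 0 else dk κ n, _⟩`), and they agree on prime powers by 1.
   (`ArithmeticFunction.IsMultiplicative.eq_iff_eq_on_prime_powers`,
   `Nat.divisorsAntidiagonal` of a prime power: `Nat.sum_divisorsAntidiagonal...`,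
   `Nat.Prime.divisors...`/`Nat.divisors_prime_pow`.)
-/

namespace Pool.Agent.DK10

open Finset

private theorem dkc_step (κ : ℝ) (a : ℕ) :
    ((a : ℝ) + 1) * ∏ i ∈ range (a + 1), (κ + (i : ℝ)) / ((i : ℝ) + 1) =
      (κ + a) * ∏ i ∈ range a, (κ + (i : ℝ)) / ((i : ℝ) + 1) := by
  rw [prod_range_succ]
  have h : ((a : ℝ) + 1) ≠ 0 := by positivity
  field_simp

theorem pochVander (κ μ : ℝ) (a : ℕ) :
    ∏ i ∈ range a, (κ + μ + (i : ℝ)) / ((i : ℝ) + 1) =
      ∑ x ∈ antidiagonal a, (∏ i ∈ range x.1, (κ + (i : ℝ)) / ((i : ℝ) + 1)) *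
        ∏ i ∈ range x.2, (μ + (i : ℝ)) / ((i : ℝ) + 1) := by
  induction a with
  | zero => simp
  | succ a ih =>
    have h : ((a : ℝ) + 1) ≠ 0 := by positivity
    apply mul_left_cancel₀ h
    rw [dkc_step (κ + μ) a, ih]
    set P : ℕ → ℝ := fun m => ∏ i ∈ range m, (κ + (i : ℝ)) / ((i : ℝ) + 1) with hP
    set Q : ℕ → ℝ := fun m => ∏ i ∈ range m, (μ + (i : ℝ)) / ((i : ℝ) + 1) with hQ
    have hP1 : ∀ m : ℕ, ((m : ℝ) + 1) * P (m + 1) = (κ + m) * P m := fun m => dkc_step κ m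
    have hQ1 : ∀ m : ℕ, ((m : ℝ) + 1) * Q (m + 1) = (μ + m) * Q m := fun m => dkc_step μ m
    show (κ + μ + (a : ℝ)) * ∑ x ∈ antidiagonal a, P x.1 * Q x.2 =
      ((a : ℝ) + 1) * ∑ x ∈ antidiagonal (a + 1), P x.1 * Q x.2
    have e1 : ∑ x ∈ antidiagonal (a + 1), (x.1 : ℝ) * (P x.1 * Q x.2) =
        ∑ x ∈ antidiagonal a, (κ + x.1) * (P x.1 * Q x.2) := by
      rw [Finset.Nat.sum_antidiagonal_succ]
      simp only [Nat.cast_zero, zero_mul, zero_add]
      refine sum_congr rfl fun x _ => ?_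
      have := hP1 x.1
      push_cast
      rw [← mul_assoc, this, mul_assoc]
    have e2 : ∑ x ∈ antidiagonal (a + 1), (x.2 : ℝ) * (P x.1 * Q x.2) =
        ∑ x ∈ antidiagonal a, (μ + x.2) * (P x.1 * Q x.2) := by
      rw [Finset.Nat.sum_antidiagonal_succ']
      simp only [Nat.cast_zero, zero_mul, zero_add]
      refine sum_congr rfl fun x _ => ?_
      have := hQ1 x.2
      push_cast
      rw [mul_left_comm, this]
      ring
    have e3 : ((a : ℝ) + 1) * ∑ x ∈ antidiagonal (a + 1), P x.1 * Q x.2 =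
        ∑ x ∈ antidiagonal (a + 1), (x.1 : ℝ) * (P x.1 * Q x.2) +
          ∑ x ∈ antidiagonal (a + 1), (x.2 : ℝ) * (P x.1 * Q x.2) := by
      rw [mul_sum, ← sum_add_distrib]
      refine sum_congr rfl fun x hx => ?_
      have hx' := mem_antidiagonal.1 hx
      have : (a : ℝ) + 1 = x.1 + x.2 := by exact_mod_cast hx'.symm
      rw [this]
      ring
    rw [e3, e1, e2, mul_sum, ← sum_add_distrib]
    refine sum_congr rfl fun x hx => ?_
    have hx' := mem_antidiagonal.1 hx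
    have : (a : ℝ) = x.1 + x.2 := by exact_mod_cast hx'.symm
    rw [this]
    ring

/-- `dk κ` as an arithmetic function -/
private noncomputable def dkA (κ : ℝ) : ArithmeticFunction ℝ :=
  ⟨fun n => if n = 0 then 0 else dk κ n, by simp⟩

private theorem dkA_apply (κ : ℝ) {n : ℕ} (hn : n ≠ 0) : dkA κ n = dk κ n := by
  show (if n = 0 then 0 else dk κ n) = dk κ n
  rw [if_neg hn]

private theorem dkA_mult (κ : ℝ) : (dkA κ).IsMultiplicative := by
  refine ⟨?_, ?_⟩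
  · rw [dkA_apply κ one_ne_zero, dk_one_right]
  · intro m n h
    rcases eq_or_ne m 0 with rfl | hm
    · simp
    rcases eq_or_ne n 0 with rfl | hn
    · simp
    rw [dkA_apply κ hm, dkA_apply κ hn, dkA_apply κ (mul_ne_zero hm hn), dk_mul κ h]

private theorem dkA_add (κ μ : ℝ) : dkA (κ + μ) = dkA κ * dkA μ := by
  rw [ArithmeticFunction.IsMultiplicative.eq_iff_eq_on_prime_powers _ (dkA_mult _) _ ((dkA_mult κ).mul (dkA_mult μ))]
  intro p i hp
  rw [dkA_apply _ (pow_ne_zero _ hp.ne_zero), dk_prime_pow _ hp, pochVander, ArithmeticFunction.mul_apply,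
    Nat.sum_divisorsAntidiagonal (fun a b => dkA κ a * dkA μ b), Nat.sum_divisors_prime_pow hp,
    Finset.Nat.sum_antidiagonal_eq_sum_range_succ (fun x y => (∏ i ∈ range x, (κ + (i : ℝ)) / ((i : ℝ) + 1)) *
        ∏ i ∈ range y, (μ + (i : ℝ)) / ((i : ℝ) + 1))]
  refine sum_congr rfl fun j hj => ?_
  have hj' : j ≤ i := Nat.lt_succ_iff.1 (mem_range.1 hj)
  rw [Nat.pow_div hj' hp.pos, dkA_apply _ (pow_ne_zero _ hp.ne_zero), dkA_apply _ (pow_ne_zero _ hp.ne_zero),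
    dk_prime_pow _ hp, dk_prime_pow _ hp]

theorem dk_add (κ μ : ℝ) {n : ℕ} (hn : n ≠ 0) :
    dk (κ + μ) n = ∑ x ∈ n.divisorsAntidiagonal, dk κ x.1 * dk μ x.2 := by
  have h := congrArg (fun f : ArithmeticFunction ℝ => f n) (dkA_add κ μ)
  simp only [ArithmeticFunction.mul_apply] at h
  rw [dkA_apply _ hn] at h
  rw [h]
  refine sum_congr rfl fun x hx => ?_
  have hx' := Nat.mem_divisorsAntidiagonal.1 hx
  have h0 : x.1 * x.2 ≠ 0 := by rw [hx'.1]; exact hx'.2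
  rw [dkA_apply _ (left_ne_zero_of_mul h0), dkA_apply _ (right_ne_zero_of_mul h0)]

/-- `d_κ(n) = ∑_{l ∣ n} d_{κ-1}(l)`. -/
theorem dk_eq_sum_divisors (κ : ℝ) {n : ℕ} (hn : n ≠ 0) :
    dk κ n = ∑ l ∈ n.divisors, dk (κ - 1) l := by
  have h : κ = κ - 1 + 1 := by ring
  conv_lhs => rw [h]
  rw [dk_add _ _ hn]
  have h1 : ∀ x ∈ n.divisorsAntidiagonal, dk (κ - 1) x.1 * dk 1 x.2 = dk (κ - 1) x.1 := by
    intro x _
    rw [dk_one_left, mul_one]
  rw [sum_congr rfl h1]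
  exact Nat.sum_divisorsAntidiagonal (fun a _ => dk (κ - 1) a)

theorem dk_two {n : ℕ} (hn : n ≠ 0) : dk 2 n = tau n := by
  rw [dk_eq_sum_divisors 2 hn]
  have h : (2 : ℝ) - 1 = 1 := by norm_num
  rw [h]
  simp only [dk_one_left, sum_const, nsmul_eq_mul, mul_one]
  rfl

end Pool.Agent.DK10
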