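import Pool.Agent.DK10.Defs

/-!
# DK10-DkMul: basic properties of `dk`

All are short.  Hints.
* `dk_mul`: if `a = 0` or `b = 0` the other one is `1`.  Otherwise `Nat.Coprime.primeFactors_mul`
  (or `Nat.Coprime.primeFactors_mul`), `Finset.prod_union` (disjoint by
  `Nat.Coprime.disjoint_primeFactors`) and `Nat.factorization_mul`; for `p ∣ a` the factorization of
  `b` at `p` is zero (`Nat.factorization_eq_zero_of_not_dvd`).  Or use
  `Nat.Coprime.factorization...`-lemmas.
* `dk_one_left`: every factor is `(1 + i)/(i + 1) = 1`.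
* `dk_mono`: `Finset.prod_le_prod` twice.
* `dk_continuous`: `continuity`/`fun_prop` on finite products.
-/

namespace Pool.Agent.DK10

open Finset

theorem dk_nonneg {κ : ℝ} (hκ : 0 ≤ κ) (n : ℕ) : 0 ≤ dk κ n := by
  unfold dk
  refine prod_nonneg fun p _ => prod_nonneg fun i _ => ?_
  positivity

theorem dk_pos {κ : ℝ} (hκ : 0 < κ) (n : ℕ) : 0 < dk κ n := by
  unfold dk
  refine prod_pos fun p _ => prod_pos fun i _ => ?_
  positivity

theorem dk_one_right (κ : ℝ) : dk κ 1 = 1 := by
  unfold dk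
  simp

theorem dk_prime_pow (κ : ℝ) {p : ℕ} (hp : p.Prime) (a : ℕ) :
    dk κ (p ^ a) = ∏ i ∈ range a, (κ + (i : ℝ)) / ((i : ℝ) + 1) := by
  unfold dk
  rcases Nat.eq_zero_or_pos a with rfl | ha
  · simp
  · rw [Nat.primeFactors_prime_pow ha.ne' hp, prod_singleton, Nat.Prime.factorization_pow hp]
    simp

theorem dk_mul (κ : ℝ) {a b : ℕ} (h : Nat.Coprime a b) : dk κ (a * b) = dk κ a * dk κ b := by
  rcases Nat.eq_zero_or_pos a with rfl | ha
  · rw [Nat.coprime_zero_left] at h
    subst h
    simp [dk_one_right]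
  rcases Nat.eq_zero_or_pos b with rfl | hb
  · rw [Nat.coprime_zero_right] at h
    subst h
    simp [dk_one_right]
  unfold dk
  rw [h.primeFactors_mul, prod_union h.disjoint_primeFactors]
  congr 1
  · refine prod_congr rfl fun p hp => ?_
    have hpb : ¬ p ∣ b := fun hd => Nat.Prime.one_lt (Nat.prime_of_mem_primeFactors hp) |>.ne'
      (Nat.eq_one_of_dvd_coprimes h (Nat.dvd_of_mem_primeFactors hp) hd)
    rw [Nat.factorization_mul ha.ne' hb.ne', Finsupp.add_apply,
      Nat.factorization_eq_zero_of_not_dvd hpb, add_zero]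
  · refine prod_congr rfl fun p hp => ?_
    have hpa : ¬ p ∣ a := fun hd => Nat.Prime.one_lt (Nat.prime_of_mem_primeFactors hp) |>.ne'
      (Nat.eq_one_of_dvd_coprimes h hd (Nat.dvd_of_mem_primeFactors hp))
    rw [Nat.factorization_mul ha.ne' hb.ne', Finsupp.add_apply,
      Nat.factorization_eq_zero_of_not_dvd hpa, zero_add]

theorem dk_one_left (n : ℕ) : dk 1 n = 1 := by
  unfold dk
  refine prod_eq_one fun p _ => prod_eq_one fun i _ => ?_
  rw [add_comm (1 : ℝ)]
  exact div_self (by positivity)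

theorem dk_mono {κ κ' : ℝ} (h0 : 0 ≤ κ) (h : κ ≤ κ') (n : ℕ) : dk κ n ≤ dk κ' n := by
  unfold dk
  refine prod_le_prod (fun p _ => prod_nonneg fun i _ => by positivity) fun p _ => ?_
  refine prod_le_prod (fun i _ => by positivity) fun i _ => ?_
  exact div_le_div_of_nonneg_right (by linarith) (by positivity)

theorem dk_continuous (n : ℕ) : Continuous (fun κ : ℝ => dk κ n) := by
  unfold dk
  fun_prop

end Pool.Agent.DK10
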