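import Pool.Agent.DK10.DDBound

/-!
# DK10-Spacing: the row sums of the dual large sieve

Fix `r`.  For `s ≠ r` let `y_s := x r - x s - round (x r - x s) ∈ [-1/2, 1/2]`, `ρ_s = |y_s| ≥ δ`.
For every integer `k`, `|x r - x s - k| ≥ ρ_s` (the nearest integer property: `round_le`), so by
`DD_le_inv` `‖DD K (x r - x s)‖² ≤ 1/(4 ρ_s²)`.
For `s ≠ s'` (both `≠ r`): `|y_s - y_{s'}| ≥ δ`, since `y_s - y_{s'} = x s' - x s - integer`.
Put `j_s := ⌊|y_s| / δ⌋₊ ≥ 1` and the sign `σ_s := (0 ≤ y_s)`.  The map `s ↦ (σ_s, j_s)` is injective on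
`s ≠ r` (two points of the same sign in the same interval `[jδ, (j+1)δ)` have distance `< δ`).
As `ρ_s ≥ j_s δ`, `∑_{s≠r} 1/(4ρ_s²) ≤ (1/4) · 2 · ∑_{j=1}^J 1/(jδ)² ≤ (1/2)(2/δ²) = 1/δ²`, where
`∑_{j=1}^J 1/j² ≤ 2 - 1/J ≤ 2`.  The term `s = r` is at most `K²` (`DD_le`).
-/

namespace Pool.Agent.DK10

open Finset

private theorem helper23_sq (J : ℕ) :
    ∑ j ∈ Icc 1 (J + 1), 1 / (j : ℝ) ^ 2 ≤ 2 - 1 / ((J : ℝ) + 1) := by
  induction J with
  | zero => simp; norm_num
  | succ J ih =>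
    rw [Finset.sum_Icc_succ_top (by omega)]
    have h1 : 1 / (((J + 1 + 1 : ℕ)) : ℝ) ^ 2 ≤ 1 / ((J : ℝ) + 1) - 1 / ((J : ℝ) + 2) := by
      have h0 : (0 : ℝ) ≤ J := Nat.cast_nonneg J
      have e : 1 / ((J : ℝ) + 1) - 1 / ((J : ℝ) + 2) = 1 / (((J : ℝ) + 1) * ((J : ℝ) + 2)) := by
        field_simp
        ring
      rw [e]
      apply one_div_le_one_div_of_le (by positivity)
      push_cast
      nlinarith
    push_cast at h1 ⊢
    have e2 : (J : ℝ) + 1 + 1 = (J : ℝ) + 2 := by ring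
    rw [e2] at h1 ⊢
    linarith

private theorem helper23_sq2 (J : ℕ) : ∑ j ∈ Icc 1 J, 1 / (j : ℝ) ^ 2 ≤ 2 := by
  cases J with
  | zero => simp
  | succ J =>
    have h := helper23_sq J
    have h0 : (0 : ℝ) ≤ 1 / ((J : ℝ) + 1) := by positivity
    linarith

theorem spacing {ι : Type} [Fintype ι] [DecidableEq ι] (x : ι → ℝ) {δ : ℝ} (hδ : 0 < δ)
    (hsep : ∀ r s, r ≠ s → ∀ k : ℤ, δ ≤ |x r - x s - (k : ℝ)|) (K : ℕ) (r : ι) :
    ∑ s, ‖DD K (x r - x s)‖ ^ 2 ≤ (K : ℝ) ^ 2 + 1 / δ ^ 2 := by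
  classical
  set y : ι → ℝ := fun s => x r - x s - (round (x r - x s) : ℝ) with hy
  set j : ι → ℕ := fun s => ⌊|y s| / δ⌋₊ with hj
  set J : ℕ := univ.sup j with hJ
  have hyδ : ∀ s, s ≠ r → δ ≤ |y s| := fun s hs => hsep r s (Ne.symm hs) _
  have hj1 : ∀ s, s ≠ r → 1 ≤ j s := by
    intro s hs
    apply Nat.le_floor
    rw [Nat.cast_one, one_le_div hδ]
    exact hyδ s hs
  have hjy : ∀ s, (j s : ℝ) * δ ≤ |y s| := by
    intro s
    have h := Nat.floor_le (div_nonneg (abs_nonneg (y s)) hδ.le)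
    rwa [le_div_iff₀ hδ] at h
  have hjy2 : ∀ s, |y s| < ((j s : ℝ) + 1) * δ := by
    intro s
    have h := Nat.lt_floor_add_one (|y s| / δ)
    rwa [div_lt_iff₀ hδ] at h
  -- each term
  have hterm : ∀ s, s ≠ r → ‖DD K (x r - x s)‖ ^ 2 ≤ 1 / (4 * δ ^ 2) * (1 / (j s : ℝ) ^ 2) := by
    intro s hs
    have hpos : 0 < |y s| := lt_of_lt_of_le hδ (hyδ s hs)
    have h1 : ‖DD K (x r - x s)‖ ≤ 1 / (2 * |y s|) :=
      DD_le_inv K hpos (fun k => round_le (x r - x s) k)
    have hj0 : (0 : ℝ) < j s := by exact_mod_cast (hj1 s hs)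
    have h2 : 1 / (2 * |y s|) ≤ 1 / (2 * ((j s : ℝ) * δ)) := by
      apply one_div_le_one_div_of_le (by positivity)
      have := hjy s
      linarith
    have h3 : ‖DD K (x r - x s)‖ ^ 2 ≤ (1 / (2 * ((j s : ℝ) * δ))) ^ 2 :=
      pow_le_pow_left₀ (norm_nonneg _) (h1.trans h2) 2
    refine h3.trans (le_of_eq ?_)
    field_simp
    norm_num
  -- injectivity
  set g : ι → Bool × ℕ := fun s => (decide (0 ≤ y s), j s) with hg
  have hinj : Set.InjOn g ((univ.erase r : Finset ι) : Set ι) := by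
    intro s hs s' hs' hgs
    by_contra hne
    have h1 : decide (0 ≤ y s) = decide (0 ≤ y s') := congrArg Prod.fst hgs
    have h2 : j s = j s' := congrArg Prod.snd hgs
    have h3 : (0 ≤ y s ↔ 0 ≤ y s') := by
      constructor
      · intro h
        have := h1
        rw [decide_eq_true h] at this
        exact of_decide_eq_true this.symm
      · intro h
        have := h1
        rw [decide_eq_true h] at this
        exact of_decide_eq_true this
    have hlt : |y s - y s'| < δ := by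
      have a1 := hjy s
      have a2 := hjy2 s
      have b1 := hjy s'
      have b2 := hjy2 s'
      rw [← h2] at b1 b2
      by_cases h : 0 ≤ y s
      · have h' := h3.1 h
        rw [abs_of_nonneg h] at a1 a2
        rw [abs_of_nonneg h'] at b1 b2
        rw [abs_lt]
        constructor <;> linarith
      · have h' : ¬ 0 ≤ y s' := fun hh => h (h3.2 hh)
        push Not at h h'
        rw [abs_of_neg h] at a1 a2
        rw [abs_of_neg h'] at b1 b2
        rw [abs_lt]
        constructor <;> linarith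
    have hge := hsep s' s (Ne.symm hne) (round (x r - x s) - round (x r - x s'))
    have e : x s' - x s - ((round (x r - x s) - round (x r - x s') : ℤ) : ℝ) = y s - y s' := by
      simp only [hy]
      push_cast
      ring
    rw [e] at hge
    linarith
  have hsum : ∑ s ∈ univ.erase r, ‖DD K (x r - x s)‖ ^ 2 ≤ 1 / δ ^ 2 := by
    calc ∑ s ∈ univ.erase r, ‖DD K (x r - x s)‖ ^ 2
        ≤ ∑ s ∈ univ.erase r, 1 / (4 * δ ^ 2) * (1 / ((g s).2 : ℝ) ^ 2) :=
          Finset.sum_le_sum (fun s hs => hterm s (Finset.ne_of_mem_erase hs))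
      _ = ∑ p ∈ (univ.erase r).image g, 1 / (4 * δ ^ 2) * (1 / (p.2 : ℝ) ^ 2) := by
          rw [Finset.sum_image hinj]
      _ ≤ ∑ p ∈ (univ : Finset Bool) ×ˢ Icc 1 J, 1 / (4 * δ ^ 2) * (1 / (p.2 : ℝ) ^ 2) := by
          apply Finset.sum_le_sum_of_subset_of_nonneg
          · intro p hp
            rw [Finset.mem_image] at hp
            obtain ⟨s, hs, rfl⟩ := hp
            rw [Finset.mem_product]
            refine ⟨Finset.mem_univ _, ?_⟩
            rw [Finset.mem_Icc]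
            exact ⟨hj1 s (Finset.ne_of_mem_erase hs), Finset.le_sup (f := j) (Finset.mem_univ s)⟩
          · intro p _ _
            positivity
      _ = 2 * (1 / (4 * δ ^ 2) * ∑ k ∈ Icc 1 J, 1 / (k : ℝ) ^ 2) := by
          rw [Finset.sum_product]
          simp only [← Finset.mul_sum]
          rw [Finset.sum_const]
          simp
          ring
      _ ≤ 2 * (1 / (4 * δ ^ 2) * 2) := by
          have := helper23_sq2 J
          gcongr
      _ = 1 / δ ^ 2 := by
          field_simp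
          norm_num
  have hr : ‖DD K (x r - x r)‖ ^ 2 ≤ (K : ℝ) ^ 2 :=
    pow_le_pow_left₀ (norm_nonneg _) (DD_le K _) 2
  rw [← Finset.add_sum_erase univ _ (Finset.mem_univ r)]
  linarith

end Pool.Agent.DK10
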