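import Pool.Agent.DK10.Fejer
import Pool.Agent.DK10.Spacing

/-!
# DK10-DualLS: the dual large sieve

`dual_ls`: `K := 2N + ⌈1/δ⌉₊`, so `K ≥ 1/δ > 0`.  By `fejer` and `2‖b r‖‖b s‖ ≤ ‖b r‖² + ‖b s‖²`, symmetry
(`DD_neg`) and `spacing`,
`(K/2) ∑_n ‖·‖² ≤ ∑_r ‖b r‖² ∑_s ‖DD K (x r - x s)‖² ≤ (K² + 1/δ²) ∑ ‖b r‖²`, hence
`∑_n ‖·‖² ≤ (2K + 2/(K δ²)) ∑ ‖b r‖² ≤ (2K + 2/δ) ∑ ‖b r‖²` and `2K + 2/δ ≤ 4N + 2 + 4/δ`, which is at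
most `20 (N + 1/δ)` when `N ≥ 1`.  For `N = 0` the left-hand side is `0`.
-/

namespace Pool.Agent.DK10

open Finset

theorem dual_ls {ι : Type} [Fintype ι] [DecidableEq ι] (x : ι → ℝ) {δ : ℝ} (hδ : 0 < δ)
    (hsep : ∀ r s, r ≠ s → ∀ k : ℤ, δ ≤ |x r - x s - (k : ℝ)|) (b : ι → ℂ) (N : ℕ) :
    ∑ n ∈ Icc 1 N, ‖∑ r, b r * ee ((n : ℝ) * x r)‖ ^ 2 ≤
      20 * ((N : ℝ) + 1 / δ) * ∑ r, ‖b r‖ ^ 2 := by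
  rcases Nat.eq_zero_or_pos N with hN | hN
  · subst hN
    have h0 : (0 : ℝ) ≤ ∑ r, ‖b r‖ ^ 2 := Finset.sum_nonneg fun r _ => by positivity
    have h1 : (0 : ℝ) < 1 / δ := by positivity
    simp only [show Icc 1 0 = (∅ : Finset ℕ) from rfl, Finset.sum_empty]
    positivity
  have hN1 : (1 : ℝ) ≤ N := by exact_mod_cast hN
  have hd : (0 : ℝ) < 1 / δ := by positivity
  obtain ⟨K, hK⟩ : ∃ K : ℕ, K = 2 * N + ⌈1 / δ⌉₊ := ⟨_, rfl⟩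
  have hK2 : 2 * N ≤ K := by omega
  have hKge : 1 / δ ≤ (K : ℝ) := by
    have := Nat.le_ceil (1 / δ)
    have h2 : ((⌈1 / δ⌉₊ : ℕ) : ℝ) ≤ (K : ℝ) := by
      exact_mod_cast (by omega : ⌈1 / δ⌉₊ ≤ K)
    linarith
  have hKle : (K : ℝ) ≤ 2 * N + 1 / δ + 1 := by
    have := (Nat.ceil_lt_add_one hd.le).le
    rw [hK]
    push_cast
    linarith
  have hKpos : (0 : ℝ) < K := lt_of_lt_of_le hd hKge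
  have hB0 : (0 : ℝ) ≤ ∑ r, ‖b r‖ ^ 2 := Finset.sum_nonneg fun r _ => by positivity
  have hf := fejer x b hK2
  have hS : ∑ r, ∑ s, ‖b r‖ * ‖b s‖ * ‖DD K (x r - x s)‖ ^ 2 ≤
      ((K : ℝ) ^ 2 + 1 / δ ^ 2) * ∑ r, ‖b r‖ ^ 2 := by
    have e1 : ∑ r, ∑ s, ‖b r‖ * ‖b s‖ * ‖DD K (x r - x s)‖ ^ 2 ≤
        ∑ r, ∑ s, (‖b r‖ ^ 2 / 2 * ‖DD K (x r - x s)‖ ^ 2 +
          ‖b s‖ ^ 2 / 2 * ‖DD K (x r - x s)‖ ^ 2) := by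
      refine Finset.sum_le_sum fun r _ => Finset.sum_le_sum fun s _ => ?_
      have hD : 0 ≤ ‖DD K (x r - x s)‖ ^ 2 := by positivity
      have h2 : ‖b r‖ * ‖b s‖ ≤ ‖b r‖ ^ 2 / 2 + ‖b s‖ ^ 2 / 2 := by
        nlinarith [sq_nonneg (‖b r‖ - ‖b s‖)]
      have := mul_le_mul_of_nonneg_right h2 hD
      linarith
    have e2 : ∑ r, ∑ s, ‖b r‖ ^ 2 / 2 * ‖DD K (x r - x s)‖ ^ 2 ≤
        ((K : ℝ) ^ 2 + 1 / δ ^ 2) / 2 * ∑ r, ‖b r‖ ^ 2 := by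
      rw [Finset.mul_sum]
      refine Finset.sum_le_sum fun r _ => ?_
      rw [← Finset.mul_sum]
      have := mul_le_mul_of_nonneg_left (spacing x hδ hsep K r)
        (by positivity : (0 : ℝ) ≤ ‖b r‖ ^ 2 / 2)
      linarith
    have e3 : ∑ r, ∑ s, ‖b s‖ ^ 2 / 2 * ‖DD K (x r - x s)‖ ^ 2 =
        ∑ r, ∑ s, ‖b r‖ ^ 2 / 2 * ‖DD K (x r - x s)‖ ^ 2 := by
      rw [Finset.sum_comm]
      refine Finset.sum_congr rfl fun r _ => Finset.sum_congr rfl fun s _ => ?_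
      rw [← DD_neg K (x r - x s), neg_sub]
    have e4 : ∑ r, ∑ s, (‖b r‖ ^ 2 / 2 * ‖DD K (x r - x s)‖ ^ 2 +
          ‖b s‖ ^ 2 / 2 * ‖DD K (x r - x s)‖ ^ 2) =
        ∑ r, ∑ s, ‖b r‖ ^ 2 / 2 * ‖DD K (x r - x s)‖ ^ 2 +
        ∑ r, ∑ s, ‖b s‖ ^ 2 / 2 * ‖DD K (x r - x s)‖ ^ 2 := by
      rw [← Finset.sum_add_distrib]
      exact Finset.sum_congr rfl fun r _ => Finset.sum_add_distrib
    rw [e4, e3] at e1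
    linarith
  have hX0 : (0 : ℝ) ≤ ∑ n ∈ Icc 1 N, ‖∑ r, b r * ee ((n : ℝ) * x r)‖ ^ 2 :=
    Finset.sum_nonneg fun n _ => by positivity
  have hmain : (K : ℝ) / 2 * ∑ n ∈ Icc 1 N, ‖∑ r, b r * ee ((n : ℝ) * x r)‖ ^ 2 ≤
      ((K : ℝ) ^ 2 + 1 / δ ^ 2) * ∑ r, ‖b r‖ ^ 2 := hf.trans hS
  have hc : ((K : ℝ) ^ 2 + 1 / δ ^ 2) ≤ (K : ℝ) / 2 * (20 * ((N : ℝ) + 1 / δ)) := by
    have h1 : 1 / δ ^ 2 = (1 / δ) * (1 / δ) := by field_simp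
    rw [h1]
    have h2 : (1 / δ) * (1 / δ) ≤ (K : ℝ) * (1 / δ) := mul_le_mul_of_nonneg_right hKge hd.le
    have h3 : (K : ℝ) * K ≤ K * (2 * N + 1 / δ + 1) := mul_le_mul_of_nonneg_left hKle hKpos.le
    have h4 : (K : ℝ) * 1 ≤ K * N := mul_le_mul_of_nonneg_left hN1 hKpos.le
    nlinarith
  have h5 := mul_le_mul_of_nonneg_right hc hB0
  have h6 : (K : ℝ) / 2 * ∑ n ∈ Icc 1 N, ‖∑ r, b r * ee ((n : ℝ) * x r)‖ ^ 2 ≤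
      (K : ℝ) / 2 * (20 * ((N : ℝ) + 1 / δ) * ∑ r, ‖b r‖ ^ 2) := by
    calc _ ≤ _ := hmain
      _ ≤ _ := h5
      _ = _ := by ring
  exact le_of_mul_le_mul_left h6 (by positivity)

end Pool.Agent.DK10
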