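import Pool.Agent.DK10.F4Rat

/-!
# DK10-F4: the circle inequality `κ ∑_{a ∣ n, a² < n} d_{κ-1}(a) ≤ d_κ(n)` for real `κ ≥ 2`

Both sides are continuous in `κ` (`dk_continuous` composed with `κ ↦ κ - 1`; `KK` is a finite sum over a
finset not depending on `κ`), and every real `κ ≥ 2` is a limit of rationals `≥ 2`; a rational number
`≥ 2` is `N/M` with `M ≥ 1`, `2M ≤ N` (`f4_rat`).
(E.g. the set `{κ | κ * KK κ n ≤ dk κ n}` is closed and contains all rationals `≥ 2`; choose rationals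
`q_k` with `κ < q_k < κ + 1/(k+1)` by `exists_rat_btwn`, `ge_of_tendsto`/`le_of_tendsto_of_tendsto'`.)
-/

namespace Pool.Agent.DK10

open Finset

theorem f4 {κ : ℝ} (hκ : 2 ≤ κ) {n : ℕ} (hn : n ≠ 0) : κ * KK κ n ≤ dk κ n := by
  have hc : Continuous (fun κ : ℝ => dk κ n - κ * KK κ n) := by
    have h1 : Continuous (fun κ : ℝ => KK κ n) := by
      unfold KK
      refine continuous_finsetSum _ (fun a _ => ?_)
      exact (dk_continuous a).comp (continuous_id.sub continuous_const)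
    exact (dk_continuous n).sub (continuous_id.mul h1)
  by_contra hcon
  rw [not_le] at hcon
  have hneg : dk κ n - κ * KK κ n < 0 := by linarith
  have hev : ∀ᶠ x in nhds κ, dk x n - x * KK x n < 0 :=
    hc.continuousAt.eventually_lt continuousAt_const hneg
  obtain ⟨δ, hδ, hball⟩ := Metric.eventually_nhds_iff.mp hev
  obtain ⟨q, hq1, hq2⟩ := exists_rat_btwn (show κ < κ + δ by linarith)
  have h3 : dk (q : ℝ) n - (q : ℝ) * KK (q : ℝ) n < 0 := by
    apply hball
    rw [Real.dist_eq, abs_of_pos (by linarith)]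
    linarith
  have hq2' : (2 : ℝ) ≤ (q : ℝ) := by linarith
  have hq0 : (0 : ℚ) ≤ q := by
    have : (0 : ℝ) ≤ (q : ℝ) := by linarith
    exact_mod_cast this
  have hnum : (0 : ℤ) ≤ q.num := Rat.num_nonneg.mpr hq0
  obtain ⟨N, hN⟩ := Int.eq_ofNat_of_zero_le hnum
  have hden : (0 : ℝ) < (q.den : ℝ) := by exact_mod_cast q.den_pos
  have hqe : (q : ℝ) = (N : ℝ) / (q.den : ℝ) := by
    rw [Rat.cast_def, hN]
    simp
  have hMN : 2 * q.den ≤ N := by
    rw [hqe, le_div_iff₀ hden] at hq2'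
    exact_mod_cast hq2'
  have h4 := f4_rat (N := N) (M := q.den) q.den_pos hMN hn
  rw [← hqe] at h4
  linarith

end Pool.Agent.DK10
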