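import Pool.Agent.DK10.Defs

/-!
# DK10-Katona: at most `M` of the `N` arcs of length `M` have a large product

Arcs of length `M` on the circle `ZMod N`, where `2M ≤ N`.  Let `t : ZMod N → ℕ` have product `n ≥ 1`,
and call `j` good if `n < (∏_{i<M} t (j+i))²`.

Proof of `katona`.  If `j` and `j'` are both good, then their arcs meet: if they are disjoint then
the product `b b'` of the two arc products divides `n` (a product over a subset of the circle), so
`b b' ≤ n`, while `b² > n` and `b'² > n` give `(b b')² > n²`.
If there is no good `j` we are done.  Otherwise fix a good `j₀`.  Every good `j` has an arc that meets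
the one of `j₀`, so `j = j₀ + s` with `-M < s < M`.  For `s = 1, …, M-1` the arcs starting at `j₀+s`
and at `j₀+s-M` are disjoint (they are two consecutive arcs of length `M`, and `2M ≤ N`), so at most
one of `j₀+s`, `j₀+s-M` is good.  Together with `j₀` there are at most `1 + (M-1) = M` good `j`.
In Lean: map a good `j` to `ψ(j) ∈ range M`: write `j - j₀ = s` (`s ∈ range M`) or
`j - j₀ = s - M` (`1 ≤ s < M`) and put `ψ(j) = s`; `ψ` is injective on the good set
(`Finset.card_le_card_of_injOn`).  The case `M = 0` is trivial (no good `j`, as `n < 1` fails).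
-/

namespace Pool.Agent.DK10

open Finset

private theorem kat_cast {N : ℕ} [NeZero N] {a b : ℕ} (ha : a < N) (hb : b < N)
    (h : (a : ZMod N) = (b : ZMod N)) : a = b := by
  rw [ZMod.natCast_eq_natCast_iff'] at h
  rwa [Nat.mod_eq_of_lt ha, Nat.mod_eq_of_lt hb] at h

private theorem kat_meet {N M : ℕ} [NeZero N] (hMN : 2 * M ≤ N) (t : ZMod N → ℕ) {n : ℕ} (hn : n ≠ 0)
    (ht : ∏ j, t j = n) (j j' : ZMod N)
    (hj : n < (∏ i ∈ range M, t (j + (i : ZMod N))) ^ 2)
    (hj' : n < (∏ i ∈ range M, t (j' + (i : ZMod N))) ^ 2) :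
    ∃ i < M, ∃ i' < M, j + (i : ZMod N) = j' + (i' : ZMod N) := by
  classical
  by_contra hcon
  push Not at hcon
  have inj : ∀ j : ZMod N, Set.InjOn (fun i : ℕ => j + (i : ZMod N)) (range M : Set ℕ) := by
    intro j a ha b hb hab
    have ha' : a < M := by simpa using ha
    have hb' : b < M := by simpa using hb
    exact kat_cast (by omega) (by omega) (add_left_cancel hab)
  have him : ∀ j : ZMod N, ∏ i ∈ range M, t (j + (i : ZMod N))
      = ∏ y ∈ (range M).image (fun i : ℕ => j + (i : ZMod N)), t y := by
    intro j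
    rw [Finset.prod_image (inj j)]
  have hdis : Disjoint ((range M).image (fun i : ℕ => j + (i : ZMod N)))
      ((range M).image (fun i : ℕ => j' + (i : ZMod N))) := by
    rw [Finset.disjoint_left]
    intro y hy hy'
    obtain ⟨a, ha, rfl⟩ := Finset.mem_image.1 hy
    obtain ⟨b, hb, hab⟩ := Finset.mem_image.1 hy'
    exact hcon a (Finset.mem_range.1 ha) b (Finset.mem_range.1 hb) hab.symm
  have hdvd : (∏ i ∈ range M, t (j + (i : ZMod N))) * (∏ i ∈ range M, t (j' + (i : ZMod N))) ∣ n := by
    rw [him j, him j', ← Finset.prod_union hdis, ← ht]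
    exact Finset.prod_dvd_prod_of_subset _ _ _ (Finset.subset_univ _)
  have hle := Nat.le_of_dvd (Nat.pos_of_ne_zero hn) hdvd
  have h1 := Nat.mul_lt_mul'' hj hj'
  have h2 := Nat.mul_le_mul hle hle
  have h3 : (∏ i ∈ range M, t (j + (i : ZMod N))) ^ 2 * (∏ i ∈ range M, t (j' + (i : ZMod N))) ^ 2
      = (∏ i ∈ range M, t (j + (i : ZMod N))) * (∏ i ∈ range M, t (j' + (i : ZMod N)))
        * ((∏ i ∈ range M, t (j + (i : ZMod N))) * (∏ i ∈ range M, t (j' + (i : ZMod N)))) := by ring
  omega

theorem katona {N M : ℕ} [NeZero N] (hMN : 2 * M ≤ N) (t : ZMod N → ℕ) {n : ℕ} (hn : n ≠ 0)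
    (ht : ∏ j, t j = n) :
    (univ.filter (fun j : ZMod N => n < (∏ i ∈ range M, t (j + (i : ZMod N))) ^ 2)).card ≤ M := by
  classical
  rcases Finset.eq_empty_or_nonempty
    (univ.filter (fun j : ZMod N => n < (∏ i ∈ range M, t (j + (i : ZMod N))) ^ 2)) with h0 | ⟨j₀, hj₀⟩
  · rw [h0, Finset.card_empty]
    exact Nat.zero_le _
  · have g0 := (Finset.mem_filter.1 hj₀).2
    have key : ∀ j : ZMod N, n < (∏ i ∈ range M, t (j + (i : ZMod N))) ^ 2 →
        ∃ s < M, j = j₀ + (s : ZMod N) ∨ (1 ≤ s ∧ j + (M : ZMod N) = j₀ + (s : ZMod N)) := by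
      intro j hj
      obtain ⟨i, hi, i', hi', he⟩ := kat_meet hMN t hn ht j j₀ hj g0
      rcases Nat.lt_or_ge i' i with h | h
      · refine ⟨M - (i - i'), by omega, Or.inr ⟨by omega, ?_⟩⟩
        have e1 : M = (M - (i - i')) + (i - i') := by omega
        have e2 : i = (i - i') + i' := by omega
        have e3 : j + ((i - i' : ℕ) : ZMod N) = j₀ := by
          rw [e2, Nat.cast_add, ← add_assoc] at he
          exact add_right_cancel he
        conv_lhs => rw [e1]
        rw [Nat.cast_add, ← e3]
        ring
      · refine ⟨i' - i, by omega, Or.inl ?_⟩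
        have e2 : i' = (i' - i) + i := by omega
        rw [e2, Nat.cast_add, ← add_assoc] at he
        exact add_right_cancel he
    choose! ψ hψ1 hψ2 using key
    have hcard : (univ.filter (fun j : ZMod N => n < (∏ i ∈ range M, t (j + (i : ZMod N))) ^ 2)).card
        ≤ (range M).card := by
      refine Finset.card_le_card_of_injOn ψ ?_ ?_
      · intro j hj
        have := (Finset.mem_filter.1 (Finset.mem_coe.1 hj)).2
        simpa using hψ1 j this
      · intro j hj j' hj' he
        have g := (Finset.mem_filter.1 (Finset.mem_coe.1 hj)).2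
        have g' := (Finset.mem_filter.1 (Finset.mem_coe.1 hj')).2
        have hs := hψ1 j g
        have h := hψ2 j g
        have h' := hψ2 j' g'
        rw [← he] at h'
        -- two disjoint consecutive arcs cannot both be good
        have two : ∀ a b : ZMod N, n < (∏ i ∈ range M, t (a + (i : ZMod N))) ^ 2 →
            n < (∏ i ∈ range M, t (b + (i : ZMod N))) ^ 2 → b + (M : ZMod N) = a → False := by
          intro a b ha hb hab
          obtain ⟨i, hi, i', hi', he⟩ := kat_meet hMN t hn ht a b ha hb
          rw [← hab, add_assoc, ← Nat.cast_add] at he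
          have := kat_cast (N := N) (a := M + i) (b := i') (by omega) (by omega) (add_left_cancel he)
          omega
        rcases h with h | ⟨h1, h⟩
        · rcases h' with h' | ⟨h1', h'⟩
          · rw [h, h']
          · exact (two j j' g g' (h'.trans h.symm)).elim
        · rcases h' with h' | ⟨h1', h'⟩
          · exact (two j' j g' g (h.trans h'.symm)).elim
          · exact add_right_cancel (h.trans h'.symm)
    rwa [Finset.card_range] at hcard

end Pool.Agent.DK10
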