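import Pool.Agent.DK10.TupBlock
import Pool.Agent.DK10.Katona

/-!
# DK10-F4Rat: the circle inequality for rational `κ ≥ 2`

`f4_rat`: `κ = N/M` with `M ≥ 1`, `2M ≤ N`.  Put `θ = 1/M` and
`w(t) = ∏_{j ∈ ZMod N} d_θ(t j) ≥ 0` for `t ∈ tup (ZMod N) n`.  For each `j : ZMod N` let
`B_j = {j, j+1, …, j+M-1}` (a finset of card `M`, image of `range M`; `i ↦ (i : ZMod N)` is injective
on `range M` as `M ≤ N`).  By `tup_block` with `φ b = if n < b^2 then 1 else 0`
`∑_t w(t) [n < (∏_{B_j} t)²] = ∑_{b ∣ n, n < b²} d_1(b) d_{κ-1}(n/b) = ∑_{a ∣ n, a² < n} d_{κ-1}(a)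
 = KK κ n` (`dk_one_left`, reindex `a = n/b`: `Nat.sum_div_divisors` ; `n < b²` iff `(n/b)² < n` as
`n = b (n/b)`; note `M·θ = 1` and `(N - M) θ = κ - 1`; `ZMod.card N = N`).
Sum over `j`, exchange the sums and use `katona`:
`N · KK κ n = ∑_t w(t) #{j : …} ≤ M ∑_t w(t) = M d_κ(n)` (`tup_sum`, `N·θ = κ`).
-/

namespace Pool.Agent.DK10

open Finset

/-- the sum over the divisors `b` with `n < b²` -/
private theorem sum_large_div (κ : ℝ) {n : ℕ} (hn : n ≠ 0) :
    ∑ b ∈ n.divisors, (if n < b ^ 2 then (1 : ℝ) else 0) * dk 1 b * dk (κ - 1) (n / b) = KK κ n := by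
  unfold KK
  rw [sum_filter, ← Nat.sum_div_divisors n (fun a => if a * a < n then dk (κ - 1) a else 0)]
  refine sum_congr rfl fun b hb => ?_
  obtain ⟨c, hc⟩ := (Nat.mem_divisors.mp hb).1
  have hb0 : 0 < b := Nat.pos_of_ne_zero fun h => hn (by rw [hc, h, zero_mul])
  have hc0 : 0 < c := Nat.pos_of_ne_zero fun h => hn (by rw [hc, h, mul_zero])
  have hnb : n / b = c := by rw [hc, Nat.mul_div_cancel_left _ hb0]
  rw [hnb, dk_one_left, mul_one]
  have hiff : n < b ^ 2 ↔ c * c < n := by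
    rw [hc, pow_two, Nat.mul_lt_mul_left hb0, Nat.mul_lt_mul_right hc0]
  by_cases h : n < b ^ 2
  · rw [if_pos h, if_pos (hiff.mp h), one_mul]
  · rw [if_neg h, if_neg (fun h' => h (hiff.mpr h')), zero_mul]

theorem f4_rat {N M : ℕ} (hM : 1 ≤ M) (hMN : 2 * M ≤ N) {n : ℕ} (hn : n ≠ 0) :
    ((N : ℝ) / (M : ℝ)) * KK ((N : ℝ) / (M : ℝ)) n ≤ dk ((N : ℝ) / (M : ℝ)) n := by
  classical
  have : NeZero N := ⟨by omega⟩
  have hM0 : (0 : ℝ) < M := by exact_mod_cast hM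
  obtain ⟨κ, hκ⟩ : ∃ κ : ℝ, κ = (N : ℝ) / (M : ℝ) := ⟨_, rfl⟩
  obtain ⟨θ, hθ⟩ : ∃ θ : ℝ, θ = 1 / (M : ℝ) := ⟨_, rfl⟩
  have hθ0 : 0 ≤ θ := by rw [hθ]; positivity
  have hinj : Set.InjOn (fun i : ℕ => (i : ZMod N)) (range M : Set ℕ) := by
    intro a ha b hb hab
    have ha' : a < M := by simpa using ha
    have hb' : b < M := by simpa using hb
    have h1 := congrArg ZMod.val hab
    simp only [ZMod.val_natCast] at h1
    rwa [Nat.mod_eq_of_lt (by omega), Nat.mod_eq_of_lt (by omega)] at h1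
  have hinjj : ∀ j : ZMod N, Set.InjOn (fun i : ℕ => j + (i : ZMod N)) (range M : Set ℕ) := by
    intro j a ha b hb hab
    exact hinj ha hb (add_left_cancel hab)
  let B : ZMod N → Finset (ZMod N) := fun j => (range M).image (fun i : ℕ => j + (i : ZMod N))
  have hBc : ∀ j, (B j).card = M := by
    intro j
    rw [card_image_of_injOn (hinjj j), card_range]
  have hBp : ∀ (j : ZMod N) (t : ZMod N → ℕ), ∏ i ∈ B j, t i = ∏ i ∈ range M, t (j + (i : ZMod N)) := by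
    intro j t
    exact prod_image (fun a ha b hb hab => hinjj j (by simpa using ha) (by simpa using hb) hab)
  have hblock : ∀ j : ZMod N, ∑ t ∈ tup (ZMod N) n, (∏ i, dk θ (t i)) *
      (if n < (∏ i ∈ range M, t (j + (i : ZMod N))) ^ 2 then (1 : ℝ) else 0) = KK κ n := by
    intro j
    have h1 := tup_block (ZMod N) (B j) θ hn (fun b => if n < b ^ 2 then (1 : ℝ) else 0)
    simp only [hBp] at h1
    rw [h1, ← sum_large_div κ hn]
    refine sum_congr rfl fun b _ => ?_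
    have e1 : ((B j).card : ℝ) * θ = 1 := by
      rw [hBc, hθ]; field_simp
    have e2 : ((Fintype.card (ZMod N) : ℝ) - ((B j).card : ℝ)) * θ = κ - 1 := by
      rw [hBc, hθ, hκ, ZMod.card]; field_simp
    rw [e1, e2]
  have hsum : (N : ℝ) * KK κ n = ∑ t ∈ tup (ZMod N) n, (∏ i, dk θ (t i)) *
      ((univ.filter (fun j : ZMod N => n < (∏ i ∈ range M, t (j + (i : ZMod N))) ^ 2)).card : ℝ) := by
    have h1 : (N : ℝ) * KK κ n = ∑ j : ZMod N, KK κ n := by
      rw [sum_const, card_univ, ZMod.card, nsmul_eq_mul]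
    rw [h1, ← sum_congr rfl (fun j _ => hblock j), sum_comm]
    refine sum_congr rfl fun t _ => ?_
    rw [← mul_sum, sum_boole]
  have hle : (N : ℝ) * KK κ n ≤ dk κ n * M := by
    have h2 : dk κ n = ∑ t ∈ tup (ZMod N) n, ∏ i, dk θ (t i) := by
      rw [tup_sum (ZMod N) θ hn, ZMod.card, hθ, hκ, mul_one_div]
    rw [hsum, h2, sum_mul]
    refine sum_le_sum fun t ht => ?_
    refine mul_le_mul_of_nonneg_left ?_ (prod_nonneg fun i _ => dk_nonneg hθ0 _)
    exact_mod_cast katona hMN t hn ((mem_tup hn).mp ht)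
  rw [← hκ]
  have h3 : (N : ℝ) = κ * M := by
    rw [hκ]; field_simp
  rw [h3] at hle
  refine le_of_mul_le_mul_right ?_ hM0
  linarith

end Pool.Agent.DK10
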