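import Pool.Agent.DK10.ALS

/-!
# DK10-Farey: the large sieve at the Farey fractions

Apply `als` with index type the subtype of the finset of pairs
`(d, a)`, `d ∈ Icc 1 D`, `a ∈ (range d).filter (Coprime a d)` (e.g. the finset
`(Icc 1 D).sigma (fun d => (range d).filter (fun a => Nat.Coprime a d))` coerced to a type,
`Finset.sum_coe_sort`, `Finset.sum_sigma`), `x (d,a) = a / d` and `δ = 1/D²` (if `D = 0` the sum is
empty).  Separation: `|a/d - a'/d' - k| = |a d' - a' d - k d d'| / (d d')`, the numerator is an integer;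
if it is nonzero the quotient is at least `1/(d d') ≥ 1/D²`.  If it is zero, `a/d = a'/d' + k` with both
fractions in `[0,1)` gives `k = 0` and `a d' = a' d`, so by coprimality `d = d'` and `a = a'`.
-/

namespace Pool.Agent.DK10

open Finset

private theorem farey_sep {D d d' a a' : ℕ} (hd : 1 ≤ d) (hdD : d ≤ D) (hd' : 1 ≤ d') (hdD' : d' ≤ D)
    (ha : a < d) (ha' : a' < d') (hc : Nat.Coprime a d) (hc' : Nat.Coprime a' d')
    (hne : ¬ (d = d' ∧ a = a')) (k : ℤ) :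
    1 / (D : ℝ) ^ 2 ≤ |(a : ℝ) / (d : ℝ) - (a' : ℝ) / (d' : ℝ) - (k : ℝ)| := by
  have h1 : (0 : ℝ) < d := by exact_mod_cast hd
  have h2 : (0 : ℝ) < d' := by exact_mod_cast hd'
  have h3 : (0 : ℝ) < D := lt_of_lt_of_le h1 (by exact_mod_cast hdD)
  set m : ℤ := (a : ℤ) * d' - a' * d - k * (d * d') with hm
  have e : (a : ℝ) / (d : ℝ) - (a' : ℝ) / (d' : ℝ) - (k : ℝ) = (m : ℝ) / ((d : ℝ) * d') := by
    rw [hm]
    push_cast
    field_simp
  have hm0 : m ≠ 0 := by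
    intro h0
    have b1 : (a : ℤ) * d' < d * d' := by
      have : a * d' < d * d' := Nat.mul_lt_mul_of_pos_right ha hd'
      exact_mod_cast this
    have b2 : (a' : ℤ) * d < d * d' := by
      have : a' * d < d' * d := Nat.mul_lt_mul_of_pos_right ha' hd
      have h : a' * d < d * d' := by rwa [mul_comm d d']
      exact_mod_cast h
    have b3 : (0 : ℤ) ≤ (a : ℤ) * d' := by positivity
    have b4 : (0 : ℤ) ≤ (a' : ℤ) * d := by positivity
    have b5 : (0 : ℤ) < (d : ℤ) * d' := by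
      have : 0 < d * d' := Nat.mul_pos hd hd'
      exact_mod_cast this
    have hk : k = 0 := by
      by_contra hk
      rcases lt_or_gt_of_ne hk with hk | hk
      · have : k * ((d : ℤ) * d') ≤ -1 * ((d : ℤ) * d') := mul_le_mul_of_nonneg_right (by omega) b5.le
        rw [hm] at h0
        linarith
      · have : 1 * ((d : ℤ) * d') ≤ k * ((d : ℤ) * d') := mul_le_mul_of_nonneg_right (by omega) b5.le
        rw [hm] at h0
        linarith
    rw [hm, hk] at h0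
    have h4 : (a : ℤ) * d' = a' * d := by linarith
    have h5 : a * d' = a' * d := by exact_mod_cast h4
    have h6 : d ∣ d' := hc.symm.dvd_of_dvd_mul_left (by rw [h5]; exact dvd_mul_left d a')
    have h7 : d' ∣ d := hc'.symm.dvd_of_dvd_mul_left (by rw [← h5]; exact dvd_mul_left d' a)
    have h8 : d = d' := Nat.dvd_antisymm h6 h7
    apply hne
    refine ⟨h8, ?_⟩
    rw [← h8] at h5
    exact Nat.eq_of_mul_eq_mul_right hd h5
  rw [e, abs_div, abs_of_pos (mul_pos h1 h2)]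
  have hm1 : (1 : ℝ) ≤ |(m : ℝ)| := by
    have := Int.one_le_abs hm0
    exact_mod_cast this
  have hDD : (d : ℝ) * d' ≤ (D : ℝ) ^ 2 := by
    have g1 : (d : ℝ) ≤ D := by exact_mod_cast hdD
    have g2 : (d' : ℝ) ≤ D := by exact_mod_cast hdD'
    rw [sq]
    exact mul_le_mul g1 g2 h2.le h3.le
  calc 1 / (D : ℝ) ^ 2 ≤ 1 / ((d : ℝ) * d') := one_div_le_one_div_of_le (mul_pos h1 h2) hDD
    _ ≤ |(m : ℝ)| / ((d : ℝ) * d') := div_le_div_of_nonneg_right hm1 (mul_pos h1 h2).le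

theorem farey (D N : ℕ) (c : ℕ → ℂ) :
    ∑ d ∈ Icc 1 D, ∑ a ∈ (range d).filter (fun a => Nat.Coprime a d),
        ‖∑ n ∈ Icc 1 N, c n * ee ((n : ℝ) * ((a : ℝ) / (d : ℝ)))‖ ^ 2 ≤
      20 * ((N : ℝ) + (D : ℝ) ^ 2) * ∑ n ∈ Icc 1 N, ‖c n‖ ^ 2 := by
  rcases Nat.eq_zero_or_pos D with hD | hD
  · subst hD
    rw [Icc_eq_empty (by norm_num), sum_empty]
    positivity
  let S : Finset ((_ : ℕ) × ℕ) := (Icc 1 D).sigma (fun d => (range d).filter (fun a => Nat.Coprime a d))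
  let x : S → ℝ := fun z => (z.1.2 : ℝ) / (z.1.1 : ℝ)
  have hD' : (0 : ℝ) < D := by exact_mod_cast hD
  have hδ : (0 : ℝ) < 1 / (D : ℝ) ^ 2 := by positivity
  have hsep : ∀ r s : S, r ≠ s → ∀ k : ℤ, 1 / (D : ℝ) ^ 2 ≤ |x r - x s - (k : ℝ)| := by
    rintro ⟨⟨d, a⟩, hr⟩ ⟨⟨d', a'⟩, hs⟩ hne k
    have hr' := mem_sigma.1 hr
    have hs' := mem_sigma.1 hs
    simp only [mem_Icc, mem_filter, mem_range] at hr' hs'
    refine farey_sep hr'.1.1 hr'.1.2 hs'.1.1 hs'.1.2 hr'.2.1 hs'.2.1 hr'.2.2 hs'.2.2 ?_ k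
    rintro ⟨rfl, rfl⟩
    exact hne rfl
  have h := als x hδ hsep c N
  rw [one_div_one_div] at h
  refine le_trans (le_of_eq ?_) h
  have e1 := Finset.sum_coe_sort S
    (fun z : (_ : ℕ) × ℕ => ‖∑ n ∈ Icc 1 N, c n * ee ((n : ℝ) * ((z.2 : ℝ) / (z.1 : ℝ)))‖ ^ 2)
  have e2 := Finset.sum_sigma (Icc 1 D) (fun d => (range d).filter (fun a => Nat.Coprime a d))
    (fun z : (_ : ℕ) × ℕ => ‖∑ n ∈ Icc 1 N, c n * ee ((n : ℝ) * ((z.2 : ℝ) / (z.1 : ℝ)))‖ ^ 2)
  exact (e1.trans e2).symm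

end Pool.Agent.DK10
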