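import Pool.Agent.DK10.LSDefs

/-!
# DK10-Fejer

Proof of `fejer`.  For `z : ℤ` (or real) put `V z = ∑ r, b r * ee (z * x r)`.  Consider
`Σ := ∑_{m, m' ∈ range K} ‖V (m - m')‖²` (real-cast difference).
Upper bound: `‖V z‖² = ∑_{r,s} b r * conj (b s) * ee (z (x r - x s))` (complex identity,
`ee (a+b) = ee a * ee b`, `conj (ee a) = ee (-a)`), and
`∑_{m,m'} ee ((m - m') y) = DD K y * conj (DD K y) = ‖DD K y‖²`, so
`Σ = re ∑_{r,s} b r conj (b s) ‖DD K (x r - x s)‖² ≤ ∑_{r,s} ‖b r‖ ‖b s‖ ‖DD K (x r - x s)‖²`.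
Lower bound: the pairs `(m' + n, m')` with `n ∈ Icc 1 N`, `m' ∈ range (K - n)` are distinct elements of
`range K × range K`, so `Σ ≥ ∑_{n ∈ Icc 1 N} (K - n) ‖V n‖² ≥ (K/2) ∑ ‖V n‖²` because `n ≤ N ≤ K/2`.
-/

namespace Pool.Agent.DK10

open Finset

theorem ee_add (a b : ℝ) : ee (a + b) = ee a * ee b := by
  unfold ee
  rw [← Complex.exp_add]
  congr 1
  push_cast
  ring

theorem ee_norm (a : ℝ) : ‖ee a‖ = 1 := by
  unfold ee
  have : (2 * Real.pi * a * Complex.I : ℂ) = ((2 * Real.pi * a : ℝ) : ℂ) * Complex.I := by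
    push_cast; ring
  rw [this]
  exact Complex.norm_exp_ofReal_mul_I _

theorem ee_conj (a : ℝ) : (starRingEnd ℂ) (ee a) = ee (-a) := by
  unfold ee
  rw [← Complex.exp_conj]
  congr 1
  simp only [map_mul, Complex.conj_I, Complex.conj_ofReal]
  rw [show (starRingEnd ℂ) (2 : ℂ) = 2 from Complex.conj_ofNat 2]
  push_cast
  ring

private theorem fejer_sq (w : ℂ) : ((‖w‖ ^ 2 : ℝ) : ℂ) = w * (starRingEnd ℂ) w := by
  rw [Complex.mul_conj, Complex.normSq_eq_norm_sq]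

private theorem fejer_V {ι : Type} [Fintype ι] (x : ι → ℝ) (b : ι → ℂ) (z : ℝ) :
    ((‖∑ r, b r * ee (z * x r)‖ ^ 2 : ℝ) : ℂ) =
      ∑ r, ∑ s, b r * (starRingEnd ℂ) (b s) * ee (z * (x r - x s)) := by
  rw [fejer_sq, map_sum, Finset.sum_mul_sum]
  refine Finset.sum_congr rfl fun r _ => Finset.sum_congr rfl fun s _ => ?_
  rw [map_mul, ee_conj]
  have : z * (x r - x s) = z * x r + -(z * x s) := by ring
  rw [this, ee_add]
  ring

private theorem fejer_D (K : ℕ) (y : ℝ) :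
    ∑ m ∈ range K, ∑ m' ∈ range K, ee (((m : ℝ) - m') * y) = ((‖DD K y‖ ^ 2 : ℝ) : ℂ) := by
  rw [fejer_sq]
  unfold DD
  rw [map_sum, Finset.sum_mul_sum]
  refine Finset.sum_congr rfl fun m _ => Finset.sum_congr rfl fun m' _ => ?_
  rw [ee_conj, ← ee_add]
  congr 1
  ring

private theorem fejer_upper {ι : Type} [Fintype ι] (x : ι → ℝ) (b : ι → ℂ) (K : ℕ) :
    ∑ m ∈ range K, ∑ m' ∈ range K, ‖∑ r, b r * ee (((m : ℝ) - m') * x r)‖ ^ 2 ≤
      ∑ r, ∑ s, ‖b r‖ * ‖b s‖ * ‖DD K (x r - x s)‖ ^ 2 := by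
  have h1 : ((∑ m ∈ range K, ∑ m' ∈ range K, ‖∑ r, b r * ee (((m : ℝ) - m') * x r)‖ ^ 2 : ℝ) : ℂ) =
      ∑ r, ∑ s, b r * (starRingEnd ℂ) (b s) * ((‖DD K (x r - x s)‖ ^ 2 : ℝ) : ℂ) := by
    push_cast
    have h2 : ∀ m ∈ range K, ∀ m' ∈ range K,
        ((‖∑ r, b r * ee (((m : ℝ) - m') * x r)‖ : ℂ)) ^ 2 =
          ∑ r, ∑ s, b r * (starRingEnd ℂ) (b s) * ee (((m : ℝ) - m') * (x r - x s)) := by
      intro m _ m' _
      have := fejer_V x b ((m : ℝ) - m')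
      push_cast at this
      exact this
    rw [Finset.sum_congr rfl fun m hm => Finset.sum_congr rfl fun m' hm' => h2 m hm m' hm']
    have h3 : ∀ m ∈ range K, ∑ m' ∈ range K, ∑ r, ∑ s,
        b r * (starRingEnd ℂ) (b s) * ee (((m : ℝ) - m') * (x r - x s)) =
        ∑ r, ∑ s, b r * (starRingEnd ℂ) (b s) * ∑ m' ∈ range K, ee (((m : ℝ) - m') * (x r - x s)) := by
      intro m _
      rw [Finset.sum_comm]
      refine Finset.sum_congr rfl fun r _ => ?_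
      rw [Finset.sum_comm]
      refine Finset.sum_congr rfl fun s _ => ?_
      rw [Finset.mul_sum]
    rw [Finset.sum_congr rfl h3, Finset.sum_comm]
    refine Finset.sum_congr rfl fun r _ => ?_
    rw [Finset.sum_comm]
    refine Finset.sum_congr rfl fun s _ => ?_
    rw [← Finset.mul_sum]
    congr 1
    have := fejer_D K (x r - x s)
    push_cast at this
    exact this
  have h0 : 0 ≤ ∑ m ∈ range K, ∑ m' ∈ range K, ‖∑ r, b r * ee (((m : ℝ) - m') * x r)‖ ^ 2 :=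
    Finset.sum_nonneg fun m _ => Finset.sum_nonneg fun m' _ => sq_nonneg _
  have h4 := congrArg norm h1
  rw [Complex.norm_of_nonneg h0] at h4
  rw [h4]
  refine (norm_sum_le _ _).trans (Finset.sum_le_sum fun r _ => ?_)
  refine (norm_sum_le _ _).trans (Finset.sum_le_sum fun s _ => ?_)
  rw [norm_mul, norm_mul, RCLike.norm_conj, Complex.norm_of_nonneg (sq_nonneg _)]

private theorem fejer_lower (V : ℝ → ℝ) (hV : ∀ z, 0 ≤ V z) {N K : ℕ} (hK : 2 * N ≤ K) :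
    ((K : ℝ) / 2) * ∑ n ∈ Icc 1 N, V n ≤ ∑ m ∈ range K, ∑ m' ∈ range K, V ((m : ℝ) - m') := by
  have h1 : ∑ m ∈ range K, ∑ m' ∈ range K, V ((m : ℝ) - m') =
      ∑ p ∈ range K ×ˢ range K, V ((p.1 : ℝ) - p.2) := by
    rw [Finset.sum_product]
  let T : Finset (ℕ × ℕ) := (Icc 1 N ×ˢ range K).filter fun q => q.2 < K - q.1
  let φ : ℕ × ℕ → ℕ × ℕ := fun q => (q.2 + q.1, q.2)
  have hinj : Set.InjOn φ (T : Set (ℕ × ℕ)) := by
    rintro ⟨a, b⟩ _ ⟨c, d⟩ _ h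
    simp only [φ, Prod.mk.injEq] at h
    ext
    · simp only; omega
    · simp only; omega
  have hsub : T.image φ ⊆ range K ×ˢ range K := by
    intro p hp
    rw [mem_image] at hp
    obtain ⟨q, hq, rfl⟩ := hp
    simp only [T, mem_filter, mem_product, mem_Icc, mem_range] at hq
    simp only [φ, mem_product, mem_range]
    omega
  have h2 : ∑ q ∈ T, V (q.1 : ℝ) ≤ ∑ p ∈ range K ×ˢ range K, V ((p.1 : ℝ) - p.2) := by
    have h3 : ∑ p ∈ T.image φ, V ((p.1 : ℝ) - p.2) = ∑ q ∈ T, V (q.1 : ℝ) := by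
      rw [Finset.sum_image hinj]
      refine Finset.sum_congr rfl fun q _ => ?_
      simp only [φ]
      push_cast
      congr 1
      ring
    rw [← h3]
    exact Finset.sum_le_sum_of_subset_of_nonneg hsub fun p _ _ => hV _
  have h4 : ∑ q ∈ T, V (q.1 : ℝ) = ∑ n ∈ Icc 1 N, ((K - n : ℕ) : ℝ) * V n := by
    simp only [T]
    rw [Finset.sum_filter, Finset.sum_product]
    refine Finset.sum_congr rfl fun n _ => ?_
    rw [← Finset.sum_filter]
    have : (range K).filter (fun m => m < K - n) = range (K - n) := by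
      ext m
      simp only [mem_filter, mem_range]
      omega
    rw [this]
    simp only [Finset.sum_const, card_range, nsmul_eq_mul]
  rw [h1]
  refine le_trans ?_ h2
  rw [h4, Finset.mul_sum]
  refine Finset.sum_le_sum fun n hn => ?_
  rw [mem_Icc] at hn
  refine mul_le_mul_of_nonneg_right ?_ (hV _)
  have h5 : n ≤ K := by omega
  rw [Nat.cast_sub h5]
  have h6 : (2 : ℝ) * n ≤ K := by exact_mod_cast (by omega : 2 * n ≤ K)
  linarith

theorem fejer {ι : Type} [Fintype ι] (x : ι → ℝ) (b : ι → ℂ) {N K : ℕ} (hK : 2 * N ≤ K) :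
    ((K : ℝ) / 2) * ∑ n ∈ Icc 1 N, ‖∑ r, b r * ee ((n : ℝ) * x r)‖ ^ 2 ≤
      ∑ r, ∑ s, ‖b r‖ * ‖b s‖ * ‖DD K (x r - x s)‖ ^ 2 :=
  (fejer_lower (fun z => ‖∑ r, b r * ee (z * x r)‖ ^ 2) (fun _ => sq_nonneg _) hK).trans
    (fejer_upper x b K)

end Pool.Agent.DK10
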