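import Pool.Agent.DK10.LSDefs

/-!
# DK10-Gauss1: the modulus of the Gauss sum of a primitive character

`gauss_norm_sq`: for a primitive character `χ` modulo `d` and the standard additive character
`e = ZMod.stdAddChar` of `ZMod d` (`e j = exp(2πij/d)`), `‖gaussSum χ e‖² = d`.
Proof (Parseval).  `gaussSum_mulShift_of_isPrimitive`: `gaussSum χ (e.mulShift a) = χ⁻¹ a · gaussSum χ e`.
So `∑_a ‖gaussSum χ (e.mulShift a)‖² = φ(d) ‖gaussSum χ e‖²` (`‖χ⁻¹ a‖ = 1` for units and `0` otherwise;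
the number of units is `φ(d)`: `ZMod.card_units_eq_totient`).
On the other hand the left-hand side is `∑_a ∑_{b,c} χ b conj(χ c) e(a(b - c)) = d ∑_b ‖χ b‖² = d φ(d)`
by orthogonality of additive characters (`AddChar.sum_eq_zero_of_ne_one`/
`AddChar.sum_mulShift` : `∑ x, e (x * b) = if b = 0 then card else 0`, with
`ZMod.isPrimitive_stdAddChar`).
-/

namespace Pool.Agent.DK10

open Finset

private theorem norm_inv_apply {d : ℕ} [NeZero d] (χ : DirichletCharacter ℂ d) (a : ZMod d) :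
    ‖χ⁻¹ a‖ = ‖χ a‖ := by
  by_cases ha : IsUnit a
  · rw [← ha.unit_spec, χ⁻¹.unit_norm_eq_one, χ.unit_norm_eq_one]
  · rw [MulChar.map_nonunit _ ha, MulChar.map_nonunit _ ha]

private theorem gauss_parseval {d : ℕ} [NeZero d] (χ : DirichletCharacter ℂ d) :
    ∑ a : ZMod d, gaussSum χ ((ZMod.stdAddChar (N := d)).mulShift a) *
      (starRingEnd ℂ) (gaussSum χ ((ZMod.stdAddChar (N := d)).mulShift a)) =
      (d : ℂ) * ∑ b : ZMod d, χ b * (starRingEnd ℂ) (χ b) := by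
  classical
  have h1 : ∀ a : ZMod d, gaussSum χ ((ZMod.stdAddChar (N := d)).mulShift a) *
      (starRingEnd ℂ) (gaussSum χ ((ZMod.stdAddChar (N := d)).mulShift a)) =
      ∑ b : ZMod d, ∑ c : ZMod d, χ b * (starRingEnd ℂ) (χ c) *
        (ZMod.stdAddChar (N := d)) (a * (b - c)) := by
    intro a
    rw [gaussSum, map_sum, Finset.sum_mul_sum]
    refine Finset.sum_congr rfl fun b _ => Finset.sum_congr rfl fun c _ => ?_
    have e1 : (starRingEnd ℂ) (χ c * (ZMod.stdAddChar (N := d)) (a * c)) =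
        (starRingEnd ℂ) (χ c) * (ZMod.stdAddChar (N := d)) (-(a * c)) := by
      rw [RingHom.map_mul, ← AddChar.map_neg_eq_conj]
    rw [AddChar.mulShift_apply, AddChar.mulShift_apply, e1,
      mul_sub, sub_eq_add_neg, AddChar.map_add_eq_mul]
    ring
  rw [Finset.sum_congr rfl fun a _ => h1 a, Finset.sum_comm]
  rw [Finset.mul_sum]
  refine Finset.sum_congr rfl fun b _ => ?_
  rw [Finset.sum_comm]
  have h2 : ∀ c : ZMod d, ∑ a : ZMod d, χ b * (starRingEnd ℂ) (χ c) *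
      (ZMod.stdAddChar (N := d)) (a * (b - c)) =
      if c = b then (d : ℂ) * (χ b * (starRingEnd ℂ) (χ b)) else 0 := by
    intro c
    rw [← Finset.mul_sum, AddChar.sum_mulShift _ (ZMod.isPrimitive_stdAddChar d)]
    by_cases hcb : c = b
    · subst hcb
      simp [ZMod.card, mul_comm]
    · have : b - c ≠ 0 := fun h => hcb (sub_eq_zero.1 h).symm
      simp [this, hcb]
  rw [Finset.sum_congr rfl fun c _ => h2 c]
  simp

theorem gauss_norm_sq {d : ℕ} [NeZero d] {χ : DirichletCharacter ℂ d} (hχ : χ.IsPrimitive) :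
    ‖gaussSum χ (ZMod.stdAddChar (N := d))‖ ^ 2 = (d : ℝ) := by
  set g := gaussSum χ (ZMod.stdAddChar (N := d)) with hg
  have h1 := gauss_parseval χ
  have h2 : ∀ a : ZMod d, gaussSum χ ((ZMod.stdAddChar (N := d)).mulShift a) *
      (starRingEnd ℂ) (gaussSum χ ((ZMod.stdAddChar (N := d)).mulShift a)) =
      ((‖χ a‖ ^ 2 * ‖g‖ ^ 2 : ℝ) : ℂ) := by
    intro a
    rw [Complex.mul_conj, Complex.normSq_eq_norm_sq,
      gaussSum_mulShift_of_isPrimitive _ hχ a, norm_mul, norm_inv_apply, mul_pow]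
  have h3 : ∀ b : ZMod d, χ b * (starRingEnd ℂ) (χ b) = ((‖χ b‖ ^ 2 : ℝ) : ℂ) := by
    intro b
    rw [Complex.mul_conj, Complex.normSq_eq_norm_sq]
  rw [Finset.sum_congr rfl fun a _ => h2 a, Finset.sum_congr rfl fun b _ => h3 b] at h1
  have h4 : ∑ a : ZMod d, ‖χ a‖ ^ 2 * ‖g‖ ^ 2 = (d : ℝ) * ∑ b : ZMod d, ‖χ b‖ ^ 2 := by
    exact_mod_cast h1
  have hpos : 0 < ∑ b : ZMod d, ‖χ b‖ ^ 2 := by
    refine Finset.sum_pos' (fun b _ => by positivity) ⟨1, Finset.mem_univ _, ?_⟩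
    rw [map_one, norm_one]; norm_num
  rw [← Finset.sum_mul, mul_comm] at h4
  exact mul_right_cancel₀ hpos.ne' h4

end Pool.Agent.DK10
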