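import Pool.Agent.DK10.Chars
import Pool.Agent.DK10.Gauss1

/-!
# DK10-Gauss2: from additive to multiplicative characters

`charLS`: for `χ` primitive modulo `d`, `χ⁻¹` is primitive too (`DirichletCharacter.conductor_inv`), and
`χ n · gaussSum χ⁻¹ e = gaussSum χ⁻¹ (e.mulShift n) = ∑_a χ⁻¹ a e(n a)`
(`gaussSum_mulShift_of_isPrimitive`, `inv_inv`; `e = ZMod.stdAddChar`).  Put
`T a = ∑_{n ∈ Icc 1 N} c n * ee (n * (a / d))` for `a : ZMod d` (through `ZMod.val`;
`ZMod.stdAddChar (n a) = ee (n * (a.val / d))`, see `ZMod.stdAddChar_coe`, `ZMod.toCircle...`).  So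
`(∑_n c n χ n) gaussSum χ⁻¹ e = ∑_a χ⁻¹ a T a` and hence, by `gauss_norm_sq`,
`d ‖∑_n c n χ n‖² = ‖∑_a χ⁻¹ a T a‖²`.
Sum over the primitive `χ` (`sum_prm`), enlarge to all characters modulo `d`, and use orthogonality
(`DirichletCharacter.sum_char_inv_mul_char_eq` or `sum_characters_eq`):
`∑_χ ‖∑_a χ⁻¹ a T a‖² = φ(d) ∑_{a unit} ‖T a‖²`; the units of `ZMod d` correspond to
`(range d).filter (Coprime · d)`.
-/

namespace Pool.Agent.DK10

open Finset

private theorem ga2_orth {d : ℕ} [NeZero d] {b : ZMod d} (hb : IsUnit b) (a : ZMod d) :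
    ∑ χ : DirichletCharacter ℂ d, χ a * (starRingEnd ℂ) (χ b) = if b = a then (d.totient : ℂ) else 0 := by
  rw [← DirichletCharacter.sum_char_inv_mul_char_eq ℂ hb a]
  refine Finset.sum_congr rfl (fun χ _ => ?_)
  rw [mul_comm]
  congr 1
  have h1 : (starRingEnd ℂ) (χ b) = χ⁻¹ b := MulChar.star_apply' χ b
  rw [h1, MulChar.inv_apply]
  obtain ⟨u, rfl⟩ := hb
  rw [Ring.inverse_unit, ZMod.inv_coe_unit]

private theorem ga2_pars {d : ℕ} [NeZero d] (f : ZMod d → ℂ) :
    ∑ χ : DirichletCharacter ℂ d, ‖∑ a, χ a * f a‖ ^ 2 =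
      (d.totient : ℝ) * ∑ a ∈ (univ : Finset (ZMod d)).filter (fun a => IsUnit a), ‖f a‖ ^ 2 := by
  classical
  have key : ((∑ χ : DirichletCharacter ℂ d, ‖∑ a, χ a * f a‖ ^ 2 : ℝ) : ℂ) =
      (((d.totient : ℝ) * ∑ a ∈ (univ : Finset (ZMod d)).filter (fun a => IsUnit a), ‖f a‖ ^ 2 : ℝ) : ℂ) := by
    push_cast
    calc ∑ χ : DirichletCharacter ℂ d, ((‖∑ a, χ a * f a‖ : ℂ)) ^ 2
        = ∑ χ : DirichletCharacter ℂ d, ∑ b, ∑ a, (f a * (starRingEnd ℂ) (f b)) * (χ a * (starRingEnd ℂ) (χ b)) := by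
          refine Finset.sum_congr rfl (fun χ _ => ?_)
          rw [← Complex.mul_conj', map_sum, Finset.sum_mul_sum, Finset.sum_comm]
          refine Finset.sum_congr rfl (fun b _ => Finset.sum_congr rfl (fun a _ => ?_))
          rw [map_mul]; ring
      _ = ∑ b, ∑ a, (f a * (starRingEnd ℂ) (f b)) * ∑ χ : DirichletCharacter ℂ d, (χ a * (starRingEnd ℂ) (χ b)) := by
          rw [Finset.sum_comm]
          refine Finset.sum_congr rfl (fun b _ => ?_)
          rw [Finset.sum_comm]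
          refine Finset.sum_congr rfl (fun a _ => ?_)
          rw [Finset.mul_sum]
      _ = ∑ b ∈ (univ : Finset (ZMod d)).filter (fun a => IsUnit a), (d.totient : ℂ) * (‖f b‖ : ℂ) ^ 2 := by
          rw [Finset.sum_filter]
          refine Finset.sum_congr rfl (fun b _ => ?_)
          by_cases hb : IsUnit b
          · rw [if_pos hb]
            simp only [ga2_orth hb]
            rw [Finset.sum_eq_single b]
            · rw [if_pos rfl, Complex.mul_conj']; ring
            · intro a _ hab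
              rw [if_neg (fun h => hab h.symm), mul_zero]
            · intro h; exact absurd (mem_univ b) h
          · rw [if_neg hb]
            refine Finset.sum_eq_zero (fun a _ => ?_)
            rw [Finset.sum_eq_zero, mul_zero]
            intro χ _
            rw [MulChar.map_nonunit χ hb, map_zero, mul_zero]
      _ = (d.totient : ℂ) * ∑ a ∈ (univ : Finset (ZMod d)).filter (fun a => IsUnit a), (‖f a‖ : ℂ) ^ 2 := by
          rw [Finset.mul_sum]
  exact_mod_cast key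

private theorem ga2_key {d : ℕ} [NeZero d] {χ : DirichletCharacter ℂ d} (hχ : χ.IsPrimitive) (N : ℕ) (c : ℕ → ℂ) :
    (d : ℝ) * ‖∑ n ∈ Icc 1 N, c n * χ (n : ZMod d)‖ ^ 2 =
      ‖∑ a, χ⁻¹ a * ∑ n ∈ Icc 1 N, c n * ZMod.stdAddChar ((n : ZMod d) * a)‖ ^ 2 := by
  have hinv : (χ⁻¹).IsPrimitive := by
    unfold DirichletCharacter.IsPrimitive at hχ ⊢
    rw [DirichletCharacter.conductor_inv]; exact hχ
  have h1 : (∑ n ∈ Icc 1 N, c n * χ (n : ZMod d)) * gaussSum χ⁻¹ (ZMod.stdAddChar (N := d)) =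
      ∑ a, χ⁻¹ a * ∑ n ∈ Icc 1 N, c n * ZMod.stdAddChar ((n : ZMod d) * a) := by
    rw [Finset.sum_mul]
    simp only [Finset.mul_sum]
    rw [Finset.sum_comm]
    refine Finset.sum_congr rfl (fun n _ => ?_)
    have h2 := gaussSum_mulShift_of_isPrimitive (ZMod.stdAddChar (N := d)) hinv (n : ZMod d)
    rw [inv_inv] at h2
    rw [mul_assoc, ← h2, gaussSum, Finset.mul_sum]
    refine Finset.sum_congr rfl (fun a _ => ?_)
    rw [AddChar.mulShift_apply]; ring
  rw [← h1, norm_mul, mul_pow, gauss_norm_sq hinv, mul_comm]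

theorem charLS {d : ℕ} (hd : 1 ≤ d) (N : ℕ) (c : ℕ → ℂ) :
    ((d : ℝ) / (Nat.totient d : ℝ)) * ∑ g ∈ prm d, ‖∑ n ∈ Icc 1 N, c n * g n‖ ^ 2 ≤
      ∑ a ∈ (range d).filter (fun a => Nat.Coprime a d),
        ‖∑ n ∈ Icc 1 N, c n * ee ((n : ℝ) * ((a : ℝ) / (d : ℝ)))‖ ^ 2 := by
  classical
  have : NeZero d := ⟨by omega⟩
  have htot : (0 : ℝ) < (Nat.totient d : ℝ) := by
    exact_mod_cast Nat.totient_pos.mpr (by omega)
  rw [div_mul_eq_mul_div, div_le_iff₀ htot, sum_prm hd, Finset.mul_sum]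
  set T : ZMod d → ℂ := fun a => ∑ n ∈ Icc 1 N, c n * ZMod.stdAddChar ((n : ZMod d) * a) with hT
  calc ∑ χ ∈ (univ : Finset (DirichletCharacter ℂ d)).filter (fun χ => χ.IsPrimitive),
          (d : ℝ) * ‖∑ n ∈ Icc 1 N, c n * χ (n : ZMod d)‖ ^ 2
      = ∑ χ ∈ (univ : Finset (DirichletCharacter ℂ d)).filter (fun χ => χ.IsPrimitive),
          ‖∑ a, χ⁻¹ a * T a‖ ^ 2 := by
        refine Finset.sum_congr rfl (fun χ hχ => ?_)
        exact ga2_key (Finset.mem_filter.mp hχ).2 N c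
    _ ≤ ∑ χ : DirichletCharacter ℂ d, ‖∑ a, χ⁻¹ a * T a‖ ^ 2 :=
        Finset.sum_le_sum_of_subset_of_nonneg (Finset.filter_subset _ _) (fun _ _ _ => by positivity)
    _ = ∑ χ : DirichletCharacter ℂ d, ‖∑ a, χ a * T a‖ ^ 2 :=
        Equiv.sum_comp (Equiv.inv (DirichletCharacter ℂ d)) (fun χ => ‖∑ a, χ a * T a‖ ^ 2)
    _ = (d.totient : ℝ) * ∑ a ∈ (univ : Finset (ZMod d)).filter (fun a => IsUnit a), ‖T a‖ ^ 2 := ga2_pars T
    _ = (∑ a ∈ (range d).filter (fun a => Nat.Coprime a d),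
        ‖∑ n ∈ Icc 1 N, c n * ee ((n : ℝ) * ((a : ℝ) / (d : ℝ)))‖ ^ 2) * (d.totient : ℝ) := by
        rw [mul_comm]
        congr 1
        symm
        refine Finset.sum_bij (fun j _ => (j : ZMod d)) ?_ ?_ ?_ ?_
        · intro j hj
          rw [Finset.mem_filter] at hj ⊢
          exact ⟨mem_univ _, (ZMod.isUnit_iff_coprime j d).mpr hj.2⟩
        · intro i hi j hj hij
          rw [Finset.mem_filter, Finset.mem_range] at hi hj
          have h := congrArg ZMod.val hij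
          rwa [ZMod.val_natCast_of_lt hi.1, ZMod.val_natCast_of_lt hj.1] at h
        · intro a ha
          rw [Finset.mem_filter] at ha
          refine ⟨a.val, ?_, ZMod.natCast_zmod_val a⟩
          rw [Finset.mem_filter, Finset.mem_range]
          refine ⟨ZMod.val_lt a, (ZMod.isUnit_iff_coprime a.val d).mp ?_⟩
          rw [ZMod.natCast_zmod_val]; exact ha.2
        · intro j _
          congr 2
          rw [hT]
          refine Finset.sum_congr rfl (fun n _ => ?_)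
          congr 1
          have h3 : (n : ZMod d) * (j : ZMod d) = (((n * j : ℕ) : ℤ) : ZMod d) := by push_cast; ring
          rw [h3, ZMod.stdAddChar_coe, ee]
          congr 1
          push_cast
          ring

end Pool.Agent.DK10
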