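import Pool.Agent.DK10.KarDefs

/-!
# DK10-Weier: the Weierstrass theorem on the unit cube as an induction principle

Let `K = Set.Icc (0 : ℝ × ℝ × ℝ) 1` (the unit cube, compact).
`weierstrass3`: the monomials span a dense subspace of `C(K, ℝ)`.  By
`ContinuousMap.subalgebra_topologicalClosure_eq_top_of_separatesPoints` the subalgebra
`Algebra.adjoin ℝ {y₁, y₂, y₃}` generated by the three coordinate functions is dense
(it separates points); by `Algebra.adjoin_eq_span` it is the span of the submonoid generated by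
`y₁, y₂, y₃`, whose elements are the monomials `y₁^p y₂^q y₃^r` (`Submonoid.closure_induction`).
Stated here as an induction principle: a predicate `P` on functions which holds for the monomials, is
stable under linear combinations, and under uniform limits on `K`, holds for all continuous functions.
In `hlim` one only needs: for every `η > 0` there is a polynomial (finite linear combination of monomials)
`g` with `|f - g| ≤ η` on `K`; `g` is continuous and satisfies `P` by `hmon`, `hadd`, `hsmul` (induction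
over the finite combination, e.g. `Submodule.span_induction` for the set of restrictions: show that every
element of the span is the restriction to `K` of a continuous `g` with `P g`).
-/

namespace Pool.Agent.DK10

open MeasureTheory Filter Topology

private def cc1 : C(Set.Icc (0 : ℝ × ℝ × ℝ) 1, ℝ) := ⟨fun y => y.1.1, by fun_prop⟩

private def cc2 : C(Set.Icc (0 : ℝ × ℝ × ℝ) 1, ℝ) := ⟨fun y => y.1.2.1, by fun_prop⟩

private def cc3 : C(Set.Icc (0 : ℝ × ℝ × ℝ) 1, ℝ) := ⟨fun y => y.1.2.2, by fun_prop⟩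

private lemma mem_closure_mon (g : C(Set.Icc (0 : ℝ × ℝ × ℝ) 1, ℝ))
    (hg : g ∈ Submonoid.closure ({cc1, cc2, cc3} : Set C(Set.Icc (0 : ℝ × ℝ × ℝ) 1, ℝ))) :
    ∃ p q r : ℕ, g = cc1 ^ p * cc2 ^ q * cc3 ^ r := by
  induction hg using Submonoid.closure_induction with
  | mem x hx =>
    rcases hx with rfl | rfl | rfl
    · exact ⟨1, 0, 0, by simp⟩
    · exact ⟨0, 1, 0, by simp⟩
    · exact ⟨0, 0, 1, by simp⟩
  | one => exact ⟨0, 0, 0, by simp⟩
  | mul x y _ _ hx hy =>
    obtain ⟨p, q, r, rfl⟩ := hx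
    obtain ⟨p', q', r', rfl⟩ := hy
    exact ⟨p + p', q + q', r + r', by ring⟩

theorem weierstrass3 (P : (ℝ × ℝ × ℝ → ℝ) → Prop)
    (hmon : ∀ p q r : ℕ, P (fun y => y.1 ^ p * y.2.1 ^ q * y.2.2 ^ r))
    (hadd : ∀ f g, Continuous f → Continuous g → P f → P g → P (fun y => f y + g y))
    (hsmul : ∀ (a : ℝ) f, Continuous f → P f → P (fun y => a * f y))
    (hlim : ∀ f, Continuous f → (∀ η : ℝ, 0 < η → ∃ g, Continuous g ∧ P g ∧
      ∀ y ∈ Set.Icc (0 : ℝ × ℝ × ℝ) 1, |f y - g y| ≤ η) → P f)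
    (f : ℝ × ℝ × ℝ → ℝ) (hf : Continuous f) : P f := by
  have : CompactSpace (Set.Icc (0 : ℝ × ℝ × ℝ) 1) := isCompact_iff_compactSpace.1 isCompact_Icc
  set A : Subalgebra ℝ C(Set.Icc (0 : ℝ × ℝ × ℝ) 1, ℝ) :=
    Algebra.adjoin ℝ ({cc1, cc2, cc3} : Set C(Set.Icc (0 : ℝ × ℝ × ℝ) 1, ℝ)) with hA
  have hsep : A.SeparatesPoints := by
    intro x y hxy
    have h1 : cc1 ∈ A := Algebra.subset_adjoin (by simp)
    have h2 : cc2 ∈ A := Algebra.subset_adjoin (by simp)
    have h3 : cc3 ∈ A := Algebra.subset_adjoin (by simp)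
    by_contra hcon
    push Not at hcon
    apply hxy
    have e1 := hcon cc1 ⟨cc1, h1, rfl⟩
    have e2 := hcon cc2 ⟨cc2, h2, rfl⟩
    have e3 := hcon cc3 ⟨cc3, h3, rfl⟩
    exact Subtype.ext (Prod.ext e1 (Prod.ext e2 e3))
  have htop := ContinuousMap.subalgebra_topologicalClosure_eq_top_of_separatesPoints A hsep
  have hspan : ∀ g ∈ A, ∃ G : ℝ × ℝ × ℝ → ℝ, Continuous G ∧ P G ∧
      ∀ y : Set.Icc (0 : ℝ × ℝ × ℝ) 1, g y = G y.1 := by
    intro g hg
    rw [hA, ← Subalgebra.mem_toSubmodule, Algebra.adjoin_eq_span] at hg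
    induction hg using Submodule.span_induction with
    | mem x hx =>
      obtain ⟨p, q, r, rfl⟩ := mem_closure_mon x hx
      exact ⟨fun y => y.1 ^ p * y.2.1 ^ q * y.2.2 ^ r, by fun_prop, hmon p q r, fun y => rfl⟩
    | zero =>
      refine ⟨fun y => 0 * (y.1 ^ 0 * y.2.1 ^ 0 * y.2.2 ^ 0), by fun_prop,
        hsmul 0 _ (by fun_prop) (hmon 0 0 0), fun y => ?_⟩
      simp
    | add x y _ _ hx hy =>
      obtain ⟨F, hF, hPF, hFe⟩ := hx
      obtain ⟨G, hG, hPG, hGe⟩ := hy
      exact ⟨fun y => F y + G y, hF.add hG, hadd F G hF hG hPF hPG, fun z => by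
        rw [ContinuousMap.add_apply, hFe, hGe]⟩
    | smul a x _ hx =>
      obtain ⟨F, hF, hPF, hFe⟩ := hx
      exact ⟨fun y => a * F y, continuous_const.mul hF, hsmul a F hF hPF, fun z => by
        rw [ContinuousMap.smul_apply, hFe, smul_eq_mul]⟩
  refine hlim f hf (fun η hη => ?_)
  set f0 : C(Set.Icc (0 : ℝ × ℝ × ℝ) 1, ℝ) := ⟨fun y => f y.1, by fun_prop⟩ with hf0
  have hmem : f0 ∈ A.topologicalClosure := by
    rw [htop]
    exact Algebra.mem_top
  have hmem' : f0 ∈ closure (A : Set C(Set.Icc (0 : ℝ × ℝ × ℝ) 1, ℝ)) := by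
    rw [← Subalgebra.topologicalClosure_coe]
    exact hmem
  obtain ⟨g, hg, hd⟩ := Metric.mem_closure_iff.1 hmem' η hη
  obtain ⟨G, hG, hPG, hGe⟩ := hspan g hg
  refine ⟨G, hG, hPG, fun y hy => ?_⟩
  have h1 := (ContinuousMap.dist_lt_iff hη).1 hd ⟨y, hy⟩
  rw [Real.dist_eq, hGe] at h1
  exact h1.le

end Pool.Agent.DK10
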