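import Pool.Agent.DK10.KarMom
import Pool.Agent.DK10.Weier

/-!
# DK10-KarA: convergence for all continuous test functions

Let `K = Set.Icc (0 : ℝ × ℝ × ℝ) 1` (the unit cube, compact).
`karA`: use `weierstrass3` with `P f := f continuous and Tendsto (fun L => Lam w X ρ L f) atTop (𝓝 (c ∫ f(exp(-z)) dν))`.
 * monomials: `Lam w X ρ L (y₁^p y₂^q y₃^r)` is the expression in `LapHyp.lim` (`Real.exp_add`,
   `Real.exp_nat_mul`), and `nu_moment`.
 * linear combinations: summability of every `w i * exp(-|X i|/L) * f(exp(-X i/L))` for `f` bounded on `K`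
   (comparison with `LapHyp.summ`; the points `exp(-X i/L)` lie in `K` because `X i ≥ 0`, `L > 0`), and
   integrability (bounded measurable function, probability measure).
 * uniform limits: if `|f - g| ≤ η` on `K`, then `|Lam f - Lam g| ≤ η Lam 1` and `Lam 1 → c`
   (case `p = q = r = 0`), `|∫ f - ∫ g| ≤ η` (`nu_nonneg_ae`: a.e. `exp(-z) ∈ K`).  So for every `η > 0`
   eventually `|Lam f - c∫f| ≤ η (c + 1) + η + |c| η`, which gives the limit.
-/

namespace Pool.Agent.DK10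

open MeasureTheory Filter Topology

private lemma cube_bound (f : ℝ × ℝ × ℝ → ℝ) (hf : Continuous f) :
    ∃ M : ℝ, 0 ≤ M ∧ ∀ y ∈ Set.Icc (0 : ℝ × ℝ × ℝ) 1, |f y| ≤ M := by
  obtain ⟨M, hM⟩ := (isCompact_Icc (a := (0 : ℝ × ℝ × ℝ)) (b := 1)).exists_bound_of_continuousOn
    hf.continuousOn
  exact ⟨max M 0, le_max_right _ _, fun y hy => le_trans (hM y hy) (le_max_left _ _)⟩

private lemma exp_mem_cube {a b c : ℝ} (ha : a ≤ 0) (hb : b ≤ 0) (hc : c ≤ 0) :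
    (Real.exp a, Real.exp b, Real.exp c) ∈ Set.Icc (0 : ℝ × ℝ × ℝ) 1 := by
  rw [Set.mem_Icc, Prod.le_def, Prod.le_def, Prod.le_def, Prod.le_def]
  exact ⟨⟨(Real.exp_pos a).le, (Real.exp_pos b).le, (Real.exp_pos c).le⟩,
    ⟨Real.exp_le_one_iff.2 ha, Real.exp_le_one_iff.2 hb, Real.exp_le_one_iff.2 hc⟩⟩

private lemma pt_mem_cube {ι : Type} {w : ι → ℝ} {X : ι → ℝ × ℝ × ℝ} {ρ c : ℝ}
    (H : LapHyp w X ρ c) {L : ℝ} (hL : 0 < L) (i : ι) :
    (Real.exp (-(X i).1 / L), Real.exp (-(X i).2.1 / L), Real.exp (-(X i).2.2 / L)) ∈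
      Set.Icc (0 : ℝ × ℝ × ℝ) 1 := by
  obtain ⟨h1, h2, h3⟩ := H.xnn i
  exact exp_mem_cube (div_nonpos_of_nonpos_of_nonneg (by linarith) hL.le)
    (div_nonpos_of_nonpos_of_nonneg (by linarith) hL.le)
    (div_nonpos_of_nonpos_of_nonneg (by linarith) hL.le)

private lemma lam_summ {ι : Type} {w : ι → ℝ} {X : ι → ℝ × ℝ × ℝ} {ρ c : ℝ}
    (H : LapHyp w X ρ c) {L : ℝ} (hL : 0 < L) (f : ℝ × ℝ × ℝ → ℝ) (hf : Continuous f) :
    Summable fun i => w i * Real.exp (-((X i).1 + (X i).2.1 + (X i).2.2) / L) *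
      f (Real.exp (-(X i).1 / L), Real.exp (-(X i).2.1 / L), Real.exp (-(X i).2.2 / L)) := by
  obtain ⟨M, hM0, hM⟩ := cube_bound f hf
  refine Summable.of_norm_bounded ((H.summ L hL).mul_right M) (fun i => ?_)
  have h0 : 0 ≤ w i * Real.exp (-((X i).1 + (X i).2.1 + (X i).2.2) / L) :=
    mul_nonneg (H.wnn i) (Real.exp_pos _).le
  rw [Real.norm_eq_abs, abs_mul, abs_of_nonneg h0]
  exact mul_le_mul_of_nonneg_left (hM _ (pt_mem_cube H hL i)) h0

private lemma nu_integrable {ρ : ℝ} (hρ : 0 < ρ) (f : ℝ × ℝ × ℝ → ℝ) (hf : Continuous f) :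
    Integrable (fun z : ℝ × ℝ × ℝ =>
      f (Real.exp (-z.1), Real.exp (-z.2.1), Real.exp (-z.2.2))) (nu ρ) := by
  have := nu_prob hρ
  obtain ⟨M, hM0, hM⟩ := cube_bound f hf
  refine (integrable_const M).mono' (Continuous.aestronglyMeasurable (by fun_prop)) ?_
  filter_upwards [nu_nonneg_ae hρ] with z hz
  exact hM _ (exp_mem_cube (by linarith [hz.1]) (by linarith [hz.2.1]) (by linarith [hz.2.2]))

private lemma int_close {ρ : ℝ} (hρ : 0 < ρ) (f g : ℝ × ℝ × ℝ → ℝ) (hf : Continuous f)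
    (hg : Continuous g) {η : ℝ} (h : ∀ y ∈ Set.Icc (0 : ℝ × ℝ × ℝ) 1, |f y - g y| ≤ η) :
    |(∫ z : ℝ × ℝ × ℝ, f (Real.exp (-z.1), Real.exp (-z.2.1), Real.exp (-z.2.2)) ∂(nu ρ)) -
      ∫ z : ℝ × ℝ × ℝ, g (Real.exp (-z.1), Real.exp (-z.2.1), Real.exp (-z.2.2)) ∂(nu ρ)| ≤ η := by
  have := nu_prob hρ
  rw [← integral_sub (nu_integrable hρ f hf) (nu_integrable hρ g hg)]
  have h1 := norm_integral_le_of_norm_le_const (μ := nu ρ) (C := η)
    (f := fun z : ℝ × ℝ × ℝ => f (Real.exp (-z.1), Real.exp (-z.2.1), Real.exp (-z.2.2)) -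
      g (Real.exp (-z.1), Real.exp (-z.2.1), Real.exp (-z.2.2))) (by
      filter_upwards [nu_nonneg_ae hρ] with z hz
      exact h _ (exp_mem_cube (by linarith [hz.1]) (by linarith [hz.2.1]) (by linarith [hz.2.2])))
  simpa using h1

private lemma lam_close {ι : Type} {w : ι → ℝ} {X : ι → ℝ × ℝ × ℝ} {ρ c : ℝ}
    (H : LapHyp w X ρ c) {L : ℝ} (hL : 0 < L) (f g : ℝ × ℝ × ℝ → ℝ) (hf : Continuous f)
    (hg : Continuous g) {η : ℝ} (h : ∀ y ∈ Set.Icc (0 : ℝ × ℝ × ℝ) 1, |f y - g y| ≤ η) :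
    |Lam w X ρ L f - Lam w X ρ L g| ≤ η * Lam w X ρ L (fun _ => 1) := by
  have hp : 0 < L ^ (-(ρ + 2)) := Real.rpow_pos_of_pos hL _
  have hs1 := lam_summ H hL (fun _ => (1 : ℝ)) continuous_const
  have hsf := lam_summ H hL f hf
  have hsg := lam_summ H hL g hg
  unfold Lam
  rw [← mul_sub, abs_mul, abs_of_pos hp, ← hsf.tsum_sub hsg]
  have h2 : ∀ i, ‖w i * Real.exp (-((X i).1 + (X i).2.1 + (X i).2.2) / L) *
      f (Real.exp (-(X i).1 / L), Real.exp (-(X i).2.1 / L), Real.exp (-(X i).2.2 / L)) -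
      w i * Real.exp (-((X i).1 + (X i).2.1 + (X i).2.2) / L) *
      g (Real.exp (-(X i).1 / L), Real.exp (-(X i).2.1 / L), Real.exp (-(X i).2.2 / L))‖ ≤
      η * (w i * Real.exp (-((X i).1 + (X i).2.1 + (X i).2.2) / L) * 1) := by
    intro i
    have h0 : 0 ≤ w i * Real.exp (-((X i).1 + (X i).2.1 + (X i).2.2) / L) :=
      mul_nonneg (H.wnn i) (Real.exp_pos _).le
    rw [← mul_sub, Real.norm_eq_abs, abs_mul, abs_of_nonneg h0, mul_one, mul_comm η]
    exact mul_le_mul_of_nonneg_left (h _ (pt_mem_cube H hL i)) h0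
  have h3 := tsum_of_norm_bounded (hs1.mul_left η).hasSum h2
  rw [Real.norm_eq_abs, tsum_mul_left] at h3
  calc L ^ (-(ρ + 2)) * _ ≤ L ^ (-(ρ + 2)) * _ := mul_le_mul_of_nonneg_left h3 hp.le
    _ = _ := by ring

private lemma lam_mon {ι : Type} {w : ι → ℝ} {X : ι → ℝ × ℝ × ℝ} {ρ c : ℝ} (hρ : 0 < ρ)
    (H : LapHyp w X ρ c) (p q r : ℕ) :
    Tendsto (fun L : ℝ => Lam w X ρ L (fun y => y.1 ^ p * y.2.1 ^ q * y.2.2 ^ r)) atTop
      (𝓝 (c * ∫ z, (fun y : ℝ × ℝ × ℝ => y.1 ^ p * y.2.1 ^ q * y.2.2 ^ r)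
        (Real.exp (-z.1), Real.exp (-z.2.1), Real.exp (-z.2.2)) ∂(nu ρ))) := by
  have h1 := H.lim p q r
  rw [← nu_moment hρ p q r] at h1
  refine h1.congr (fun L => ?_)
  unfold Lam
  congr 1
  refine tsum_congr (fun i => ?_)
  simp only
  rw [← Real.exp_nat_mul, ← Real.exp_nat_mul, ← Real.exp_nat_mul, mul_assoc, ← Real.exp_add,
    ← Real.exp_add, ← Real.exp_add]
  congr 2
  ring

theorem karA {ι : Type} {w : ι → ℝ} {X : ι → ℝ × ℝ × ℝ} {ρ c : ℝ} (hρ : 0 < ρ)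
    (H : LapHyp w X ρ c) (f : ℝ × ℝ × ℝ → ℝ) (hf : Continuous f) :
    Tendsto (fun L : ℝ => Lam w X ρ L f) atTop
      (𝓝 (c * ∫ z, f (Real.exp (-z.1), Real.exp (-z.2.1), Real.exp (-z.2.2)) ∂(nu ρ))) := by
  refine weierstrass3 (fun f => Tendsto (fun L : ℝ => Lam w X ρ L f) atTop
      (𝓝 (c * ∫ z, f (Real.exp (-z.1), Real.exp (-z.2.1), Real.exp (-z.2.2)) ∂(nu ρ))))
    (lam_mon hρ H) ?_ ?_ ?_ f hf
  · intro f g hf hg h1 h2
    have h3 := h1.add h2
    rw [← mul_add, ← integral_add (nu_integrable hρ f hf) (nu_integrable hρ g hg)] at h3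
    refine h3.congr' ?_
    filter_upwards [eventually_gt_atTop (0 : ℝ)] with L hL
    unfold Lam
    rw [← mul_add, ← (lam_summ H hL f hf).tsum_add (lam_summ H hL g hg)]
    congr 1
    exact tsum_congr (fun i => by ring)
  · intro a f hf h1
    have h2 := h1.const_mul a
    have h3 : a * (c * ∫ z, f (Real.exp (-z.1), Real.exp (-z.2.1), Real.exp (-z.2.2)) ∂(nu ρ)) =
        c * ∫ z, a * f (Real.exp (-z.1), Real.exp (-z.2.1), Real.exp (-z.2.2)) ∂(nu ρ) := by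
      rw [integral_const_mul]
      ring
    rw [h3] at h2
    refine h2.congr (fun L => ?_)
    unfold Lam
    rw [mul_left_comm, ← tsum_mul_left]
    congr 1
    exact tsum_congr (fun i => by ring)
  · intro f hf happ
    rw [Metric.tendsto_nhds]
    intro ε hε
    have hc : (0 : ℝ) < 2 * |c| + 2 := by positivity
    obtain ⟨g, hg, hPg, hfg⟩ := happ (ε / (2 * |c| + 2)) (by positivity)
    set η := ε / (2 * |c| + 2) with hη
    have hη0 : 0 < η := by positivity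
    have hεη : ε = η * (2 * |c| + 2) := by rw [hη]; field_simp
    have hone := lam_mon hρ H 0 0 0
    simp only [pow_zero, mul_one] at hone
    have := nu_prob hρ
    have hone' : c * ∫ _ : ℝ × ℝ × ℝ, (1 : ℝ) ∂(nu ρ) = c := by simp
    rw [hone'] at hone
    have hg' := Metric.tendsto_nhds.1 hPg η hη0
    have h1' := hone.eventually (gt_mem_nhds (show c < |c| + 1 by linarith [le_abs_self c]))
    filter_upwards [eventually_gt_atTop (0 : ℝ), hg', h1'] with L hL h4 h5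
    have h6 := lam_close H hL f g hf hg hfg
    have h7 := int_close hρ f g hf hg hfg
    rw [Real.dist_eq] at h4 ⊢
    have h8 : |c * (∫ z, f (Real.exp (-z.1), Real.exp (-z.2.1), Real.exp (-z.2.2)) ∂(nu ρ)) -
        c * ∫ z, g (Real.exp (-z.1), Real.exp (-z.2.1), Real.exp (-z.2.2)) ∂(nu ρ)| ≤ |c| * η := by
      rw [← mul_sub, abs_mul]
      exact mul_le_mul_of_nonneg_left h7 (abs_nonneg c)
    have h9 : η * Lam w X ρ L (fun _ => 1) ≤ η * (|c| + 1) :=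
      mul_le_mul_of_nonneg_left h5.le hη0.le
    generalize (c * ∫ z, f (Real.exp (-z.1), Real.exp (-z.2.1), Real.exp (-z.2.2)) ∂(nu ρ)) = A at *
    generalize (c * ∫ z, g (Real.exp (-z.1), Real.exp (-z.2.1), Real.exp (-z.2.2)) ∂(nu ρ)) = B at *
    rw [abs_lt] at h4 ⊢
    rw [abs_le] at h6 h8
    constructor <;> nlinarith

end Pool.Agent.DK10
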