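import Pool.Agent.DK10.Defs

/-!
# DK10-KarDefs: definitions for the three-dimensional Tauberian theorem
-/

namespace Pool.Agent.DK10

open MeasureTheory Filter Topology

/-- The limit law: `Gamma(ρ) ⊗ Exp(1) ⊗ Exp(1)`. -/
noncomputable def nu (ρ : ℝ) : Measure (ℝ × ℝ × ℝ) :=
  (ProbabilityTheory.gammaMeasure ρ 1).prod
    ((ProbabilityTheory.gammaMeasure 1 1).prod (ProbabilityTheory.gammaMeasure 1 1))

/-- The weighted and normalised sum of `f(exp(-X/L))`. -/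
noncomputable def Lam {ι : Type} (w : ι → ℝ) (X : ι → ℝ × ℝ × ℝ) (ρ L : ℝ)
    (f : ℝ × ℝ × ℝ → ℝ) : ℝ :=
  L ^ (-(ρ + 2)) * ∑' i, w i * Real.exp (-((X i).1 + (X i).2.1 + (X i).2.2) / L) *
    f (Real.exp (-(X i).1 / L), Real.exp (-(X i).2.1 / L), Real.exp (-(X i).2.2 / L))

/-- Hypotheses on the Laplace transforms. -/
structure LapHyp {ι : Type} (w : ι → ℝ) (X : ι → ℝ × ℝ × ℝ) (ρ c : ℝ) : Prop where
  wnn : ∀ i, 0 ≤ w i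
  xnn : ∀ i, 0 ≤ (X i).1 ∧ 0 ≤ (X i).2.1 ∧ 0 ≤ (X i).2.2
  summ : ∀ L : ℝ, 0 < L → Summable fun i =>
    w i * Real.exp (-((X i).1 + (X i).2.1 + (X i).2.2) / L)
  lim : ∀ p q r : ℕ, Tendsto (fun L : ℝ => L ^ (-(ρ + 2)) * ∑' i, w i *
      Real.exp (-(((p : ℝ) + 1) * (X i).1 + ((q : ℝ) + 1) * (X i).2.1 +
        ((r : ℝ) + 1) * (X i).2.2) / L)) atTop
    (𝓝 (c * (((p : ℝ) + 1) ^ (-ρ) * ((q : ℝ) + 1)⁻¹ * ((r : ℝ) + 1)⁻¹)))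

end Pool.Agent.DK10
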