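import Pool.Agent.DK10.KarDefs

/-!
# DK10-KarMom: the moments of the limit law

`nu_prob`: products of probability measures (`ProbabilityTheory.isProbabilityMeasure_gammaMeasure`).
`nu_moment`: the integrand is a product, so `MeasureTheory.integral_prod_mul` (twice) reduces to the
one-dimensional integrals `∫ exp(-p u) d(gammaMeasure ρ 1)(u) = (p+1)^(-ρ)`: unfold
`ProbabilityTheory.gammaMeasure` (`volume.withDensity (gammaPDF ρ 1)`),
`integral_withDensity_eq_integral_toReal_smul`, and `Real.integral_rpow_mul_exp_neg_mul_Ioi`: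
`∫ u in Ioi 0, u^(ρ-1) exp(-(p+1) u) = (1/(p+1))^ρ Γ(ρ)`.  (Or use the moment generating function of the
gamma law if Mathlib has it.)  For `ρ = 1` this gives `(q+1)⁻¹`.
`nu_nonneg_ae`: almost everywhere all coordinates are nonnegative (density zero on negative numbers).
-/

namespace Pool.Agent.DK10

open MeasureTheory Filter Topology

private theorem km_meas (a : ℝ) : Measurable (ProbabilityTheory.gammaPDF a 1) := by
  unfold ProbabilityTheory.gammaPDF
  exact (ProbabilityTheory.measurable_gammaPDFReal a 1).ennreal_ofReal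

private theorem km_key {a : ℝ} (ha : 0 < a) (p : ℕ) :
    ∫ u, Real.exp (-u) ^ p ∂(ProbabilityTheory.gammaMeasure a 1) = ((p : ℝ) + 1) ^ (-a) := by
  have hp : (0 : ℝ) < (p : ℝ) + 1 := by positivity
  have hG := Real.Gamma_pos_of_pos ha
  unfold ProbabilityTheory.gammaMeasure
  rw [integral_withDensity_eq_integral_toReal_smul (km_meas a)
    (ae_of_all _ fun x => by unfold ProbabilityTheory.gammaPDF; exact ENNReal.ofReal_lt_top)]
  have e : (fun x : ℝ => (ProbabilityTheory.gammaPDF a 1 x).toReal • Real.exp (-x) ^ p)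
      = Set.indicator (Set.Ici 0) (fun x => (Real.Gamma a)⁻¹ *
        (x ^ (a - 1) * Real.exp (-(((p : ℝ) + 1) * x)))) := by
    funext x
    by_cases hx : 0 ≤ x
    · rw [Set.indicator_of_mem (show x ∈ Set.Ici (0 : ℝ) from hx),
        ProbabilityTheory.gammaPDF_of_nonneg hx, ENNReal.toReal_ofReal (by positivity), smul_eq_mul,
        Real.one_rpow, ← Real.exp_nat_mul]
      have e2 : Real.exp (-(((p : ℝ) + 1) * x)) = Real.exp (-(1 * x)) * Real.exp (p * -x) := by
        rw [← Real.exp_add]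
        congr 1
        ring
      rw [e2, one_div]
      ring
    · rw [Set.indicator_of_notMem (show x ∉ Set.Ici (0 : ℝ) from hx),
        ProbabilityTheory.gammaPDF_of_neg (not_le.1 hx)]
      simp
  rw [e, integral_indicator measurableSet_Ici, integral_Ici_eq_integral_Ioi, integral_const_mul,
    Real.integral_rpow_mul_exp_neg_mul_Ioi ha hp, one_div, Real.inv_rpow hp.le,
    Real.rpow_neg hp.le]
  field_simp

private theorem km_nonneg (a : ℝ) :
    ∀ᵐ u ∂(ProbabilityTheory.gammaMeasure a 1), 0 ≤ u := by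
  unfold ProbabilityTheory.gammaMeasure
  rw [ae_withDensity_iff (km_meas a)]
  refine ae_of_all _ fun x hx => ?_
  by_contra h
  exact hx (ProbabilityTheory.gammaPDF_of_neg (not_le.1 h))

theorem nu_prob {ρ : ℝ} (hρ : 0 < ρ) : IsProbabilityMeasure (nu ρ) := by
  haveI := ProbabilityTheory.isProbabilityMeasure_gammaMeasure hρ one_pos
  haveI := ProbabilityTheory.isProbabilityMeasure_gammaMeasure (a := 1) one_pos one_pos
  unfold nu
  infer_instance

theorem nu_moment {ρ : ℝ} (hρ : 0 < ρ) (p q r : ℕ) :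
    ∫ z, Real.exp (-z.1) ^ p * Real.exp (-z.2.1) ^ q * Real.exp (-z.2.2) ^ r ∂(nu ρ) =
      ((p : ℝ) + 1) ^ (-ρ) * ((q : ℝ) + 1)⁻¹ * ((r : ℝ) + 1)⁻¹ := by
  haveI := ProbabilityTheory.isProbabilityMeasure_gammaMeasure hρ one_pos
  haveI := ProbabilityTheory.isProbabilityMeasure_gammaMeasure (a := 1) one_pos one_pos
  unfold nu
  have e : (fun z : ℝ × ℝ × ℝ => Real.exp (-z.1) ^ p * Real.exp (-z.2.1) ^ q *
      Real.exp (-z.2.2) ^ r)
      = fun z => (fun u : ℝ => Real.exp (-u) ^ p) z.1 *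
        (fun y : ℝ × ℝ => (fun u : ℝ => Real.exp (-u) ^ q) y.1 *
          (fun u : ℝ => Real.exp (-u) ^ r) y.2) z.2 := by
    funext z
    exact mul_assoc _ _ _
  rw [e, integral_prod_mul (fun u : ℝ => Real.exp (-u) ^ p)
    (fun y : ℝ × ℝ => (fun u : ℝ => Real.exp (-u) ^ q) y.1 *
      (fun u : ℝ => Real.exp (-u) ^ r) y.2),
    integral_prod_mul (fun u : ℝ => Real.exp (-u) ^ q) (fun u : ℝ => Real.exp (-u) ^ r),
    km_key hρ p, km_key one_pos q, km_key one_pos r, Real.rpow_neg_one, Real.rpow_neg_one,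
    mul_assoc]

theorem nu_nonneg_ae {ρ : ℝ} (hρ : 0 < ρ) : ∀ᵐ z ∂(nu ρ), 0 ≤ z.1 ∧ 0 ≤ z.2.1 ∧ 0 ≤ z.2.2 := by
  haveI := ProbabilityTheory.isProbabilityMeasure_gammaMeasure hρ one_pos
  haveI := ProbabilityTheory.isProbabilityMeasure_gammaMeasure (a := 1) one_pos one_pos
  unfold nu
  have h1 := (Measure.quasiMeasurePreserving_fst (μ := ProbabilityTheory.gammaMeasure ρ 1)
    (ν := (ProbabilityTheory.gammaMeasure 1 1).prod (ProbabilityTheory.gammaMeasure 1 1))).ae
    (km_nonneg ρ)
  have h2 := (Measure.quasiMeasurePreserving_snd (μ := ProbabilityTheory.gammaMeasure ρ 1)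
    (ν := (ProbabilityTheory.gammaMeasure 1 1).prod (ProbabilityTheory.gammaMeasure 1 1))).ae
    ((Measure.quasiMeasurePreserving_fst (μ := ProbabilityTheory.gammaMeasure 1 1)
      (ν := ProbabilityTheory.gammaMeasure 1 1)).ae (km_nonneg 1))
  have h3 := (Measure.quasiMeasurePreserving_snd (μ := ProbabilityTheory.gammaMeasure ρ 1)
    (ν := (ProbabilityTheory.gammaMeasure 1 1).prod (ProbabilityTheory.gammaMeasure 1 1))).ae
    ((Measure.quasiMeasurePreserving_snd (μ := ProbabilityTheory.gammaMeasure 1 1)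
      (ν := ProbabilityTheory.gammaMeasure 1 1)).ae (km_nonneg 1))
  filter_upwards [h1, h2, h3] with z a b c using ⟨a, b, c⟩

end Pool.Agent.DK10
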