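import Pool.Agent.DK10.KarA

/-!
# DK10-KarU: lower bound for open sets

Let `E z = exp(z.1 + z.2.1 + z.2.2)`, `U` open with all coordinates of its points `< R` (`R > 0`).
Step 1.  There is a continuous `h : ℝ × ℝ × ℝ → ℝ`, `0 ≤ h ≤ 1`, `h = 0` off `U`, with
`t < c ∫ h E dν`.  If `U = univ` it is impossible (coordinates `< R`).  Take
`h_k z = min 1 (k * Metric.infDist z Uᶜ)`; `h_k ↑ 1_U` pointwise (on the open set `U`, `infDist > 0`), and
`|h_k E| ≤ 1_U E ≤ exp(3R)`, so `∫ h_k E dν → ∫_U E dν` (dominated convergence), and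
`t < c ∫_U E dν`.
Step 2.  Put `T y = max y (exp(-R))` and
`f y = h(-log (T y.1), -log (T y.2.1), -log (T y.2.2)) / (T y.1 * T y.2.1 * T y.2.2)`, continuous on all of
`ℝ × ℝ × ℝ` since `T y > 0`.  For every `z`: `f(exp(-z)) = h z * E z`.  Indeed if all coordinates of `z`
are `≤ R` then `T (exp(-z.i)) = exp(-z.i)`.  Otherwise some coordinate `z.i > R`; then `-log (T ..) = R` for
this coordinate, so the argument of `h` has a coordinate equal to `R` and is not in `U`: `f = 0`; and
`z ∉ U`, `h z = 0`.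
Step 3.  `Lam w X ρ L f = L^(-(ρ+2)) ∑' w i h(X i/L)` and
`∑' w i h(X i/L) ≤ ∑' (if X i/L ∈ U then w i else 0)` (the latter is summable: its terms are at most
`exp(3R) * w i * exp(-(X i).sum/L)`, `LapHyp.summ`).  By `karA`, `Lam w X ρ L f → c ∫ h E dν > t`.
So eventually `t ≤ L^(-(ρ+2)) ∑' ...`; multiply by `L^(ρ+2)`.
-/

namespace Pool.Agent.DK10

open MeasureTheory Filter Topology

private lemma approxU {ρ c : ℝ} (hρ : 0 < ρ) {U : Set (ℝ × ℝ × ℝ)} (hU : IsOpen U) {R : ℝ}
    (hUR : ∀ z ∈ U, z.1 < R ∧ z.2.1 < R ∧ z.2.2 < R) {t : ℝ}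
    (ht : t < c * ∫ z in U, Real.exp (z.1 + z.2.1 + z.2.2) ∂(nu ρ)) :
    ∃ h : ℝ × ℝ × ℝ → ℝ, Continuous h ∧ (∀ z, 0 ≤ h z) ∧ (∀ z, h z ≤ 1) ∧ (∀ z, z ∉ U → h z = 0) ∧
      t < c * ∫ z, h z * Real.exp (z.1 + z.2.1 + z.2.2) ∂(nu ρ) := by
  have := nu_prob hρ
  have hne : (Uᶜ).Nonempty := by
    refine ⟨(R, 0, 0), fun h => ?_⟩
    exact lt_irrefl _ (hUR _ h).1
  set h : ℕ → ℝ × ℝ × ℝ → ℝ := fun k z => min 1 ((k : ℝ) * Metric.infDist z Uᶜ) with hh
  have hcont : ∀ k, Continuous (h k) := fun k =>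
    continuous_const.min (continuous_const.mul (Metric.continuous_infDist_pt _))
  have h0 : ∀ k z, 0 ≤ h k z := fun k z =>
    le_min zero_le_one (mul_nonneg (Nat.cast_nonneg k) Metric.infDist_nonneg)
  have h1 : ∀ k z, h k z ≤ 1 := fun k z => min_le_left _ _
  have h2 : ∀ k z, z ∉ U → h k z = 0 := by
    intro k z hz
    have h3 : Metric.infDist z Uᶜ = 0 := Metric.infDist_zero_of_mem hz
    simp [hh, h3]
  have hlim : Tendsto (fun k => ∫ z, h k z * Real.exp (z.1 + z.2.1 + z.2.2) ∂(nu ρ)) atTop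
      (𝓝 (∫ z, U.indicator (fun z => Real.exp (z.1 + z.2.1 + z.2.2)) z ∂(nu ρ))) := by
    refine tendsto_integral_of_dominated_convergence (fun _ => Real.exp (3 * R)) ?_ ?_ ?_ ?_
    · intro k
      have h4 := hcont k
      exact Continuous.aestronglyMeasurable (by fun_prop)
    · exact integrable_const _
    · intro k
      refine Filter.Eventually.of_forall (fun z => ?_)
      rw [Real.norm_eq_abs, abs_of_nonneg (mul_nonneg (h0 k z) (Real.exp_pos _).le)]
      by_cases hz : z ∈ U
      · have h4 : Real.exp (z.1 + z.2.1 + z.2.2) ≤ Real.exp (3 * R) := by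
          apply Real.exp_le_exp.2
          obtain ⟨a1, a2, a3⟩ := hUR z hz
          linarith
        calc h k z * Real.exp (z.1 + z.2.1 + z.2.2) ≤ 1 * Real.exp (z.1 + z.2.1 + z.2.2) :=
              mul_le_mul_of_nonneg_right (h1 k z) (Real.exp_pos _).le
          _ ≤ _ := by rw [one_mul]; exact h4
      · rw [h2 k z hz, zero_mul]
        exact (Real.exp_pos _).le
    · refine Filter.Eventually.of_forall (fun z => ?_)
      by_cases hz : z ∈ U
      · rw [Set.indicator_of_mem hz]
        have hd : 0 < Metric.infDist z Uᶜ := by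
          refine lt_of_le_of_ne Metric.infDist_nonneg (fun he => ?_)
          have h5 : z ∈ Uᶜ := (hU.isClosed_compl.mem_iff_infDist_zero hne).2 he.symm
          exact h5 hz
        have h6 : Tendsto (fun k : ℕ => (k : ℝ) * Metric.infDist z Uᶜ) atTop atTop :=
          tendsto_natCast_atTop_atTop.atTop_mul_const hd
        refine tendsto_const_nhds.congr' ?_
        filter_upwards [h6.eventually_ge_atTop 1] with k hk
        simp only [hh]
        rw [min_eq_left hk, one_mul]
      · rw [Set.indicator_of_notMem hz]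
        refine tendsto_const_nhds.congr (fun k => ?_)
        rw [h2 k z hz, zero_mul]
  rw [integral_indicator hU.measurableSet] at hlim
  have h7 := (hlim.const_mul c).eventually (lt_mem_nhds ht)
  obtain ⟨k, hk⟩ := h7.exists
  exact ⟨h k, hcont k, h0 k, h1 k, h2 k, hk⟩

private lemma trunc_le {R u : ℝ} (h : u ≤ R) :
    max (Real.exp (-u)) (Real.exp (-R)) = Real.exp (-u) :=
  max_eq_left (Real.exp_le_exp.2 (by linarith))

private lemma trunc_gt {R u : ℝ} (h : R < u) :
    -Real.log (max (Real.exp (-u)) (Real.exp (-R))) = R := by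
  rw [max_eq_right (Real.exp_le_exp.2 (by linarith)), Real.log_exp, neg_neg]

private lemma liftU {U : Set (ℝ × ℝ × ℝ)} {R : ℝ}
    (hUR : ∀ z ∈ U, z.1 < R ∧ z.2.1 < R ∧ z.2.2 < R) (h : ℝ × ℝ × ℝ → ℝ) (hc : Continuous h)
    (h0 : ∀ z, z ∉ U → h z = 0) :
    ∃ f : ℝ × ℝ × ℝ → ℝ, Continuous f ∧ ∀ a b c : ℝ,
      f (Real.exp (-a), Real.exp (-b), Real.exp (-c)) = h (a, b, c) * Real.exp (a + b + c) := by
  have hpos : ∀ y : ℝ, 0 < max y (Real.exp (-R)) := fun y =>
    lt_of_lt_of_le (Real.exp_pos _) (le_max_right _ _)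
  have hcm : Continuous fun y : ℝ => max y (Real.exp (-R)) := continuous_id.max continuous_const
  have hcl : Continuous fun y : ℝ => -Real.log (max y (Real.exp (-R))) :=
    (hcm.log (fun y => (hpos y).ne')).neg
  refine ⟨fun y => h (-Real.log (max y.1 (Real.exp (-R))), -Real.log (max y.2.1 (Real.exp (-R))),
      -Real.log (max y.2.2 (Real.exp (-R)))) /
      (max y.1 (Real.exp (-R)) * max y.2.1 (Real.exp (-R)) * max y.2.2 (Real.exp (-R))), ?_, ?_⟩
  · refine Continuous.div ?_ ?_ ?_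
    · exact hc.comp ((hcl.comp continuous_fst).prodMk
        ((hcl.comp (continuous_fst.comp continuous_snd)).prodMk
          (hcl.comp (continuous_snd.comp continuous_snd))))
    · exact ((hcm.comp continuous_fst).mul (hcm.comp (continuous_fst.comp continuous_snd))).mul
        (hcm.comp (continuous_snd.comp continuous_snd))
    · intro y
      exact (mul_pos (mul_pos (hpos _) (hpos _)) (hpos _)).ne'
  · intro a b c
    simp only
    by_cases ha : a ≤ R
    · by_cases hb : b ≤ R
      · by_cases hcc : c ≤ R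
        · rw [trunc_le ha, trunc_le hb, trunc_le hcc, Real.log_exp, Real.log_exp, Real.log_exp,
            neg_neg, neg_neg, neg_neg, ← Real.exp_add, ← Real.exp_add, div_eq_mul_inv,
            ← Real.exp_neg]
          congr 2
          ring
        · have hz : (a, b, c) ∉ U := fun hm => absurd (hUR _ hm).2.2 (by
            push Not at hcc
            simp only
            linarith)
          rw [trunc_gt (not_le.1 hcc), h0 _ hz, zero_mul]
          have hz' : ∀ x y : ℝ, (x, y, R) ∉ U := fun x y hm => lt_irrefl _ (hUR _ hm).2.2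
          rw [h0 _ (hz' _ _), zero_div]
      · have hz : (a, b, c) ∉ U := fun hm => absurd (hUR _ hm).2.1 (by
          push Not at hb
          simp only
          linarith)
        rw [trunc_gt (not_le.1 hb), h0 _ hz, zero_mul]
        have hz' : ∀ x y : ℝ, (x, R, y) ∉ U := fun x y hm => lt_irrefl _ (hUR _ hm).2.1
        rw [h0 _ (hz' _ _), zero_div]
    · have hz : (a, b, c) ∉ U := fun hm => absurd (hUR _ hm).1 (by
        push Not at ha
        simp only
        linarith)
      rw [trunc_gt (not_le.1 ha), h0 _ hz, zero_mul]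
      have hz' : ∀ x y : ℝ, (R, x, y) ∉ U := fun x y hm => lt_irrefl _ (hUR _ hm).1
      rw [h0 _ (hz' _ _), zero_div]

open Classical in
theorem karU {ι : Type} {w : ι → ℝ} {X : ι → ℝ × ℝ × ℝ} {ρ c : ℝ} (hρ : 0 < ρ)
    (H : LapHyp w X ρ c) {U : Set (ℝ × ℝ × ℝ)} (hU : IsOpen U) {R : ℝ} (hR : 0 < R)
    (hUR : ∀ z ∈ U, z.1 < R ∧ z.2.1 < R ∧ z.2.2 < R) {t : ℝ}
    (ht : t < c * ∫ z in U, Real.exp (z.1 + z.2.1 + z.2.2) ∂(nu ρ)) :
    ∀ᶠ L : ℝ in atTop, t * L ^ (ρ + 2) ≤
      ∑' i, if ((X i).1 / L, (X i).2.1 / L, (X i).2.2 / L) ∈ U then w i else 0 := by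
  obtain ⟨h, hc, h0, h1, h2, h3⟩ := approxU hρ hU hUR ht
  obtain ⟨f, hf, hfh⟩ := liftU hUR h hc h2
  have hK := karA hρ H f hf
  simp only [hfh] at hK
  filter_upwards [hK.eventually (lt_mem_nhds h3), eventually_gt_atTop (0 : ℝ)] with L hL1 hL
  have hterm : ∀ i, w i * Real.exp (-((X i).1 + (X i).2.1 + (X i).2.2) / L) *
      f (Real.exp (-(X i).1 / L), Real.exp (-(X i).2.1 / L), Real.exp (-(X i).2.2 / L)) =
      w i * h ((X i).1 / L, (X i).2.1 / L, (X i).2.2 / L) := by
    intro i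
    rw [neg_div, neg_div, neg_div, neg_div, hfh]
    have he : Real.exp (-(((X i).1 + (X i).2.1 + (X i).2.2) / L)) *
        Real.exp ((X i).1 / L + (X i).2.1 / L + (X i).2.2 / L) = 1 := by
      rw [← Real.exp_add, Real.exp_eq_one_iff]
      ring
    calc _ = w i * h ((X i).1 / L, (X i).2.1 / L, (X i).2.2 / L) *
          (Real.exp (-(((X i).1 + (X i).2.1 + (X i).2.2) / L)) *
        Real.exp ((X i).1 / L + (X i).2.1 / L + (X i).2.2 / L)) := by ring
      _ = _ := by rw [he, mul_one]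
  have hle : ∀ i, w i * h ((X i).1 / L, (X i).2.1 / L, (X i).2.2 / L) ≤
      if ((X i).1 / L, (X i).2.1 / L, (X i).2.2 / L) ∈ U then w i else 0 := by
    intro i
    split_ifs with hi
    · exact mul_le_of_le_one_right (H.wnn i) (h1 _)
    · rw [h2 _ hi, mul_zero]
  have hsU : Summable fun i =>
      if ((X i).1 / L, (X i).2.1 / L, (X i).2.2 / L) ∈ U then w i else 0 := by
    refine Summable.of_nonneg_of_le (fun i => ?_) (fun i => ?_)
      ((H.summ L hL).mul_left (Real.exp (3 * R)))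
    · split_ifs
      · exact H.wnn i
      · exact le_rfl
    · split_ifs with hi
      · have h4 : (1 : ℝ) ≤ Real.exp (3 * R) *
            Real.exp (-((X i).1 + (X i).2.1 + (X i).2.2) / L) := by
          rw [← Real.exp_add]
          apply Real.one_le_exp
          obtain ⟨a1, a2, a3⟩ := hUR _ hi
          simp only at a1 a2 a3
          have : -((X i).1 + (X i).2.1 + (X i).2.2) / L =
            -((X i).1 / L) - (X i).2.1 / L - (X i).2.2 / L := by ring
          rw [this]
          linarith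
        calc w i = w i * 1 := (mul_one _).symm
          _ ≤ w i * (Real.exp (3 * R) *
            Real.exp (-((X i).1 + (X i).2.1 + (X i).2.2) / L)) :=
              mul_le_mul_of_nonneg_left h4 (H.wnn i)
          _ = _ := by ring
      · exact mul_nonneg (Real.exp_pos _).le (mul_nonneg (H.wnn i) (Real.exp_pos _).le)
  have hsh : Summable fun i => w i * h ((X i).1 / L, (X i).2.1 / L, (X i).2.2 / L) :=
    Summable.of_nonneg_of_le (fun i => mul_nonneg (H.wnn i) (h0 _)) hle hsU
  have hts := hsh.tsum_le_tsum hle hsU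
  unfold Lam at hL1
  rw [tsum_congr hterm] at hL1
  have hp : 0 < L ^ (ρ + 2) := Real.rpow_pos_of_pos hL _
  have h5 : L ^ (-(ρ + 2)) * L ^ (ρ + 2) = 1 := by
    rw [← Real.rpow_add hL, neg_add_cancel, Real.rpow_zero]
  calc t * L ^ (ρ + 2) ≤ (L ^ (-(ρ + 2)) *
        ∑' i, w i * h ((X i).1 / L, (X i).2.1 / L, (X i).2.2 / L)) * L ^ (ρ + 2) :=
        mul_le_mul_of_nonneg_right hL1.le hp.le
    _ = (L ^ (-(ρ + 2)) * L ^ (ρ + 2)) *
        ∑' i, w i * h ((X i).1 / L, (X i).2.1 / L, (X i).2.2 / L) := by ring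
    _ = ∑' i, w i * h ((X i).1 / L, (X i).2.1 / L, (X i).2.2 / L) := by rw [h5, one_mul]
    _ ≤ _ := hts

end Pool.Agent.DK10
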