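import Pool.Agent.DK10.Defs

/-!
# DK10-LSDefs: definitions for the large sieve
-/

namespace Pool.Agent.DK10

open Finset

/-- `e(t) = exp(2πit)`. -/
noncomputable def ee (t : ℝ) : ℂ := Complex.exp (2 * Real.pi * t * Complex.I)

/-- `D_K(y) = ∑_{m<K} e(my)`. -/
noncomputable def DD (K : ℕ) (y : ℝ) : ℂ := ∑ m ∈ range K, ee ((m : ℝ) * y)

open Classical in
/-- The non-principal Dirichlet characters modulo `q`, as functions on `ℕ`. -/
noncomputable def npc (q : ℕ) : Finset (ℕ → ℂ) :=
  ((univ : Finset (DirichletCharacter ℂ q)).filter (fun χ => χ ≠ 1)).image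
    (fun χ n => χ (n : ZMod q))

open Classical in
/-- The primitive Dirichlet characters modulo `d`, as functions on `ℕ`. -/
noncomputable def prm (d : ℕ) : Finset (ℕ → ℂ) :=
  ((univ : Finset (DirichletCharacter ℂ d)).filter (fun χ => χ.IsPrimitive)).image
    (fun χ n => χ (n : ZMod d))

/-- The function `g` made zero on the integers not coprime to `e`. -/
noncomputable def res (g : ℕ → ℂ) (e : ℕ) : ℕ → ℂ := fun n => if Nat.Coprime n e then g n else 0

end Pool.Agent.DK10
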