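import Pool.Agent.DK10.DkMul

/-!
# DK10-MsFin: `ms` as a finite sum

For `U` contained in `{z | z.1 ≤ 1, z.2.1 ≤ 1, z.2.2 ≤ 1}` and `x > 1`: a triple `t = (a, m, k)` whose
term in `ms κ U (log x)` is nonzero has `a, m, k ≥ 1` (otherwise `wt κ t = 0`), and
`log a/log x ≤ 1` gives `a ≤ x`, i.e. `a ≤ ⌊x⌋₊`, and the same for `m`, `k`.  So `tsum_eq_sum`.
`wt_nonneg`: `dk_nonneg` and positivity.
-/

namespace Pool.Agent.DK10

open Finset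

theorem wt_nonneg {κ : ℝ} (hκ : 1 ≤ κ) (t : ℕ × ℕ × ℕ) : 0 ≤ wt κ t := by
  unfold wt
  split_ifs with h
  · exact div_nonneg (dk_nonneg (by linarith) _) (by positivity)
  · exact le_refl 0

private theorem msfin_le {x : ℝ} (hx : 1 < x) {a : ℕ} (ha : a ≠ 0) (h : Real.log (a : ℝ) / Real.log x ≤ 1) :
    a ∈ Icc 1 ⌊x⌋₊ := by
  have h0 : 0 < Real.log x := Real.log_pos hx
  rw [div_le_one h0] at h
  have h1 : (0 : ℝ) < a := by exact_mod_cast Nat.pos_of_ne_zero ha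
  have h2 : (a : ℝ) ≤ x := (Real.log_le_log_iff h1 (by linarith)).1 h
  exact Finset.mem_Icc.2 ⟨Nat.pos_of_ne_zero ha, Nat.le_floor h2⟩

open Classical in
theorem ms_eq {κ : ℝ} {U : Set (ℝ × ℝ × ℝ)} (hU : ∀ z ∈ U, z.1 ≤ 1 ∧ z.2.1 ≤ 1 ∧ z.2.2 ≤ 1)
    {x : ℝ} (hx : 1 < x) :
    ms κ U (Real.log x) =
      ∑ t ∈ (Icc 1 ⌊x⌋₊) ×ˢ ((Icc 1 ⌊x⌋₊) ×ˢ (Icc 1 ⌊x⌋₊)),
        if ((pos t).1 / Real.log x, (pos t).2.1 / Real.log x, (pos t).2.2 / Real.log x) ∈ U then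
          wt κ t else 0 := by
  unfold ms
  refine tsum_eq_sum fun t ht => ?_
  by_contra hne
  split_ifs at hne with h
  · have h1 := hU _ h
    simp only [pos] at h1
    have h2 : t.1 ≠ 0 ∧ t.2.1 ≠ 0 ∧ t.2.2 ≠ 0 := by
      unfold wt at hne
      split_ifs at hne with h3
      · exact ⟨h3.1, h3.2.1, h3.2.2.1⟩
      · exact absurd rfl hne
    apply ht
    rw [Finset.mem_product, Finset.mem_product]
    exact ⟨msfin_le hx h2.1 h1.1, msfin_le hx h2.2.1 h1.2.1, msfin_le hx h2.2.2 h1.2.2⟩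
  · exact hne rfl

end Pool.Agent.DK10
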