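import Pool.Agent.DK10.ZFac

/-!
# DK10-ZLim: the limit of the product of the local factors

`HH_eq_exp`: `HH κ α β γ = exp (∑' p, log hfac(...))` (`Real.rexp_tsum_eq_tprod`, positivity by
`hfac_bounds`, summability of the logarithms by `log_hfac_le`, `prime_rpow_le`, `summable_prime_sq` with
`b = 1/p`).
`HH_zero`: `p^(-(1+0)) = 1/p` and `(1 - 1/p)^2 = (1 - 1/p)(1 - 1/p)`.  `GG_multipliable`, `GG_pos` follow.
`HH_tendsto`: for each `p` the factor tends to the factor with `α = β = γ = 0` as `L → ∞`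
(`p^(-(1+A/L)) → p^(-1)`, continuity of `rpow` in the exponent and of `t ↦ t^(κ-1)`, `log` continuous at a
positive number), with the uniform summable bound of `log_hfac_le`, valid for all `L > 0`:
`tendsto_tsum_of_dominated_convergence`; then continuity of `exp`.
-/

namespace Pool.Agent.DK10

open Finset Filter Topology

private theorem prime_ge_two (p : Nat.Primes) : (2 : ℝ) ≤ ((p : ℕ) : ℝ) := by
  exact_mod_cast p.2.two_le

private theorem hfac_pos {κ α β γ : ℝ} (hκ : 2 ≤ κ) (hα : 0 ≤ α) (hβ : 0 ≤ β) (hγ : 0 ≤ γ)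
    (p : Nat.Primes) : 0 < hfac κ (((p : ℕ) : ℝ) ^ (-(1 + α)))
      (((p : ℕ) : ℝ) ^ (-(1 + β))) (((p : ℕ) : ℝ) ^ (-(1 + γ))) := by
  obtain ⟨a1, a2, a3⟩ := prime_rpow_le hα p
  obtain ⟨b1, b2, -⟩ := prime_rpow_le hβ p
  obtain ⟨c1, c2, -⟩ := prime_rpow_le hγ p
  exact lt_of_lt_of_le (Real.rpow_pos_of_pos (by norm_num) _)
    (hfac_bounds hκ a3 a1 a2 b1 b2 c1 c2).1

private theorem log_hfac_bound {κ α β γ : ℝ} (hκ : 2 ≤ κ) (hα : 0 ≤ α) (hβ : 0 ≤ β) (hγ : 0 ≤ γ)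
    (p : Nat.Primes) : ‖Real.log (hfac κ (((p : ℕ) : ℝ) ^ (-(1 + α)))
      (((p : ℕ) : ℝ) ^ (-(1 + β))) (((p : ℕ) : ℝ) ^ (-(1 + γ))))‖ ≤
      2 ^ (κ - 1) * (2 * (κ - 1)) * (1 / ((p : ℕ) : ℝ)) ^ 2 := by
  obtain ⟨a1, a2, a3⟩ := prime_rpow_le hα p
  obtain ⟨b1, b2, -⟩ := prime_rpow_le hβ p
  obtain ⟨c1, c2, -⟩ := prime_rpow_le hγ p
  rw [Real.norm_eq_abs]
  exact log_hfac_le hκ a3 a1 a2 b1 b2 c1 c2

theorem HH_eq_exp {κ α β γ : ℝ} (hκ : 2 ≤ κ) (hα : 0 ≤ α) (hβ : 0 ≤ β) (hγ : 0 ≤ γ) :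
    HH κ α β γ = Real.exp (∑' p : Nat.Primes, Real.log (hfac κ (((p : ℕ) : ℝ) ^ (-(1 + α)))
      (((p : ℕ) : ℝ) ^ (-(1 + β))) (((p : ℕ) : ℝ) ^ (-(1 + γ))))) := by
  unfold HH
  refine (Real.rexp_tsum_eq_tprod (fun p => hfac_pos hκ hα hβ hγ p) ?_).symm
  exact Summable.of_norm_bounded (summable_prime_sq _) fun p => log_hfac_bound hκ hα hβ hγ p

private theorem hfac_zero (κ : ℝ) (p : Nat.Primes) :
    hfac κ (((p : ℕ) : ℝ) ^ (-(1 + (0 : ℝ)))) (((p : ℕ) : ℝ) ^ (-(1 + (0 : ℝ))))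
      (((p : ℕ) : ℝ) ^ (-(1 + (0 : ℝ)))) =
    (1 - (1 - (1 - 1 / ((p : ℕ) : ℝ)) ^ (κ - 1)) * (1 - (1 - 1 / ((p : ℕ) : ℝ)) ^ 2)) := by
  have h : ((p : ℕ) : ℝ) ^ (-(1 + (0 : ℝ))) = 1 / ((p : ℕ) : ℝ) := by
    rw [add_zero, Real.rpow_neg_one, one_div]
  rw [h]
  unfold hfac
  rw [pow_two]

theorem HH_zero {κ : ℝ} : HH κ 0 0 0 = GG κ := by
  unfold HH GG
  exact tprod_congr fun p => hfac_zero κ p

theorem GG_multipliable {κ : ℝ} (hκ : 2 ≤ κ) :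
    Multipliable (fun p : Nat.Primes =>
      (1 - (1 - (1 - 1 / ((p : ℕ) : ℝ)) ^ (κ - 1)) * (1 - (1 - 1 / ((p : ℕ) : ℝ)) ^ 2))) := by
  have h := HH_multipliable hκ le_rfl le_rfl le_rfl
  exact h.congr fun p => hfac_zero κ p

theorem GG_pos {κ : ℝ} (hκ : 2 ≤ κ) : 0 < GG κ := by
  rw [← HH_zero, HH_eq_exp hκ le_rfl le_rfl le_rfl]
  exact Real.exp_pos _

theorem HH_tendsto {κ A B C : ℝ} (hκ : 2 ≤ κ) (hA : 0 < A) (hB : 0 < B) (hC : 0 < C) :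
    Tendsto (fun L : ℝ => HH κ (A / L) (B / L) (C / L)) atTop (𝓝 (GG κ)) := by
  have hlim : ∀ (D : ℝ) (p : Nat.Primes), Tendsto (fun L : ℝ => ((p : ℕ) : ℝ) ^ (-(1 + D / L)))
      atTop (𝓝 (((p : ℕ) : ℝ) ^ (-(1 + (0 : ℝ))))) := by
    intro D p
    have h1 : Tendsto (fun L : ℝ => -(1 + D / L)) atTop (𝓝 (-(1 + (0 : ℝ)))) :=
      (tendsto_const_nhds.add (tendsto_const_nhds.div_atTop tendsto_id)).neg
    have hp : (((p : ℕ) : ℝ)) ≠ 0 := by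
      have := prime_ge_two p
      positivity
    exact tendsto_const_nhds.rpow h1 (Or.inl hp)
  have hfacl : ∀ p : Nat.Primes, Tendsto (fun L : ℝ => Real.log (hfac κ
      (((p : ℕ) : ℝ) ^ (-(1 + A / L))) (((p : ℕ) : ℝ) ^ (-(1 + B / L)))
      (((p : ℕ) : ℝ) ^ (-(1 + C / L))))) atTop (𝓝 (Real.log (hfac κ
      (((p : ℕ) : ℝ) ^ (-(1 + (0 : ℝ)))) (((p : ℕ) : ℝ) ^ (-(1 + (0 : ℝ))))
      (((p : ℕ) : ℝ) ^ (-(1 + (0 : ℝ))))))) := by
    intro p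
    refine Tendsto.log ?_ (hfac_pos hκ le_rfl le_rfl le_rfl p).ne'
    unfold hfac
    have h1 := (tendsto_const_nhds (x := (1 : ℝ))).sub (hlim A p)
    have h2 := (tendsto_const_nhds (x := (1 : ℝ))).sub (hlim B p)
    have h3 := (tendsto_const_nhds (x := (1 : ℝ))).sub (hlim C p)
    have h4 := h1.rpow_const (p := κ - 1) (Or.inr (by linarith))
    exact tendsto_const_nhds.sub ((tendsto_const_nhds.sub h4).mul
      (tendsto_const_nhds.sub (h2.mul h3)))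
  have hmain : Tendsto (fun L : ℝ => Real.exp (∑' p : Nat.Primes, Real.log (hfac κ
      (((p : ℕ) : ℝ) ^ (-(1 + A / L))) (((p : ℕ) : ℝ) ^ (-(1 + B / L)))
      (((p : ℕ) : ℝ) ^ (-(1 + C / L)))))) atTop (𝓝 (GG κ)) := by
    rw [← HH_zero, HH_eq_exp hκ le_rfl le_rfl le_rfl]
    refine (Real.continuous_exp.tendsto _).comp ?_
    refine tendsto_tsum_of_dominated_convergence
      (bound := fun p : Nat.Primes => 2 ^ (κ - 1) * (2 * (κ - 1)) * (1 / ((p : ℕ) : ℝ)) ^ 2)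
      (summable_prime_sq _) hfacl ?_
    filter_upwards [eventually_gt_atTop 0] with L hL p
    exact log_hfac_bound hκ (by positivity) (by positivity) (by positivity) p
  refine hmain.congr' ?_
  filter_upwards [eventually_gt_atTop 0] with L hL
  exact (HH_eq_exp hκ (by positivity) (by positivity) (by positivity)).symm

end Pool.Agent.DK10
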