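import Pool.Agent.DK10.ZTriple
import Pool.Agent.DK10.ZLim
import Pool.Agent.DK10.KarDefs
import Pool.Agent.DK10.MsFin

/-!
# DK10-Lap: the Laplace transform hypotheses hold

`zr_tendsto`: for `A > 0`, `L⁻¹ zr(1 + A/L) → A⁻¹` as `L → ∞`: Mathlib's
`tendsto_sub_mul_tsum_nat_rpow : Tendsto (fun s => (s - 1) * ∑' n, 1/n^s) (𝓝[>] 1) (𝓝 1)` composed with
`s = 1 + A/L`, where `s - 1 = A/L`.

`lapHyp`: `wnn` is `wt_nonneg`; `xnn`: `Real.log_natCast_nonneg`; `summ`: `triple_hasSum` with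
`α = β = γ = 1/L`.  `lim`: with `α = (p+1)/L`, `β = (q+1)/L`, `γ = (r+1)/L`, for `L > 0`:
`L^(-(ρ+2)) ∑' = (L⁻¹ zr(1+β)) (L⁻¹ zr(1+γ)) (L⁻¹ zr(1+α))^ρ HH κ α β γ`, `ρ = κ - 1`
(`Real.mul_rpow`, `Real.rpow_neg`, `Real.rpow_add`, positivity), which tends to
`(q+1)⁻¹ (r+1)⁻¹ ((p+1)⁻¹)^ρ GG κ` by `zr_tendsto` and `HH_tendsto`
(`Tendsto.congr'` with `eventually_gt_atTop 0`).
-/

namespace Pool.Agent.DK10

open Finset Filter Topology

theorem zr_tendsto {A : ℝ} (hA : 0 < A) :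
    Tendsto (fun L : ℝ => L⁻¹ * zr (1 + A / L)) atTop (𝓝 A⁻¹) := by
  have h1 : Tendsto (fun L : ℝ => 1 + A / L) atTop (𝓝[>] 1) := by
    rw [tendsto_nhdsWithin_iff]
    constructor
    · have h2 : Tendsto (fun L : ℝ => 1 + A / L) atTop (𝓝 (1 + 0)) :=
        tendsto_const_nhds.add (tendsto_const_nhds.div_atTop tendsto_id)
      rw [add_zero] at h2
      exact h2
    · filter_upwards [eventually_gt_atTop 0] with L hL
      have h3 : 0 < A / L := div_pos hA hL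
      exact lt_add_of_pos_right 1 h3
  have h4 := (tendsto_sub_mul_tsum_nat_rpow.comp h1).const_mul A⁻¹
  rw [mul_one] at h4
  refine h4.congr' ?_
  filter_upwards [eventually_gt_atTop 0] with L hL
  simp only [Function.comp_apply, zr]
  have hA0 : A ≠ 0 := hA.ne'
  have hL0 : L ≠ 0 := hL.ne'
  rw [← mul_assoc]
  congr 1
  field_simp
  ring

private theorem lap_zr_nonneg (s : ℝ) : 0 ≤ zr s := by
  unfold zr
  exact tsum_nonneg fun n => div_nonneg zero_le_one (Real.rpow_nonneg (Nat.cast_nonneg n) s)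

theorem lapHyp {κ : ℝ} (hκ : 2 ≤ κ) : LapHyp (wt κ) pos (κ - 1) (GG κ) := by
  refine ⟨fun i => wt_nonneg (by linarith) i, fun i => ⟨Real.log_natCast_nonneg _,
    Real.log_natCast_nonneg _, Real.log_natCast_nonneg _⟩, ?_, ?_⟩
  · intro L hL
    have h1 : 0 < 1 / L := one_div_pos.2 hL
    refine (triple_hasSum hκ h1 h1 h1).summable.congr fun t => ?_
    congr 2
    field_simp
  · intro p q r
    have hA : (0 : ℝ) < (p : ℝ) + 1 := by positivity
    have hB : (0 : ℝ) < (q : ℝ) + 1 := by positivity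
    have hC : (0 : ℝ) < (r : ℝ) + 1 := by positivity
    have h1 := ((zr_tendsto hB).mul (zr_tendsto hC)).mul
      (((zr_tendsto hA).rpow_const (p := κ - 1) (Or.inl (inv_pos.2 hA).ne')).mul (HH_tendsto hκ hA hB hC))
    have h2 : ((q : ℝ) + 1)⁻¹ * ((r : ℝ) + 1)⁻¹ * ((((p : ℝ) + 1)⁻¹) ^ (κ - 1) * GG κ) =
        GG κ * (((p : ℝ) + 1) ^ (-(κ - 1)) * ((q : ℝ) + 1)⁻¹ * ((r : ℝ) + 1)⁻¹) := by
      rw [Real.inv_rpow hA.le, Real.rpow_neg hA.le]
      ring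
    rw [h2] at h1
    refine h1.congr' ?_
    filter_upwards [eventually_gt_atTop 0] with L hL
    have h3 := (triple_hasSum hκ (div_pos hA hL) (div_pos hB hL) (div_pos hC hL)).tsum_eq
    have h4 : (∑' i, wt κ i * Real.exp (-(((p : ℝ) + 1) * (pos i).1 + ((q : ℝ) + 1) * (pos i).2.1 +
        ((r : ℝ) + 1) * (pos i).2.2) / L)) = ∑' t : ℕ × ℕ × ℕ, wt κ t *
        Real.exp (-(((p : ℝ) + 1) / L * (pos t).1 + ((q : ℝ) + 1) / L * (pos t).2.1 +
          ((r : ℝ) + 1) / L * (pos t).2.2)) := by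
      refine tsum_congr fun t => ?_
      congr 2
      field_simp
    rw [h4, h3, Real.mul_rpow (inv_nonneg.2 hL.le) (lap_zr_nonneg _)]
    have h5 : L ^ (-(κ - 1 + 2)) = L⁻¹ * L⁻¹ * (L⁻¹) ^ (κ - 1) := by
      rw [Real.inv_rpow hL.le, ← Real.rpow_neg hL.le, ← Real.rpow_neg_one, ← Real.rpow_add hL,
        ← Real.rpow_add hL]
      congr 1
      ring
    rw [h5]
    ring

end Pool.Agent.DK10
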