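import Pool.Agent.DK10.Farey
import Pool.Agent.DK10.Gauss2

/-!
# DK10-MLS: the multiplicative large sieve and the bilinear dyadic bound

`mls`: sum `charLS` over `d ∈ Icc 1 D` and use `farey`.

`bilin_dyadic`: for `D < d` one has `1/φ(d) ≤ (1/D) (d/φ(d))`.  So the left-hand side is at most
`(1/D) ∑_{d ∈ Icc 1 (2D)} (d/φ(d)) ∑_g X_g Y_g`, and by Cauchy-Schwarz (over the pairs `(d,g)` with
weights `d/φ(d)`) and `mls` with `D` replaced by `2D` (`(2D)² = 4D²`) it is at most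
`(1/D) √(20 (N₁ + 4D²) ∑‖a‖²) √(20 (N₂ + 4D²) ∑‖b‖²)`.
(`Finset.sum_mul_sq_le_sq_mul_sq` or `Real.sum_mul_le_sqrt_mul_sqrt` over a sigma finset, functions
`√(d/φ(d)) X_g`, `√(d/φ(d)) Y_g`.)
-/

namespace Pool.Agent.DK10

open Finset

theorem mls (D N : ℕ) (c : ℕ → ℂ) :
    ∑ d ∈ Icc 1 D, ((d : ℝ) / (Nat.totient d : ℝ)) *
        ∑ g ∈ prm d, ‖∑ n ∈ Icc 1 N, c n * g n‖ ^ 2 ≤
      20 * ((N : ℝ) + (D : ℝ) ^ 2) * ∑ n ∈ Icc 1 N, ‖c n‖ ^ 2 :=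
  (Finset.sum_le_sum fun _ hd => charLS (mem_Icc.1 hd).1 N c).trans (farey D N c)

theorem bilin_dyadic {D N₁ N₂ : ℕ} (hD : 1 ≤ D) (a b : ℕ → ℂ) :
    ∑ d ∈ Ioc D (2 * D), (1 / (Nat.totient d : ℝ)) *
        ∑ g ∈ prm d, ‖∑ m ∈ Icc 1 N₁, a m * g m‖ * ‖∑ l ∈ Icc 1 N₂, b l * g l‖ ≤
      (1 / (D : ℝ)) * √(20 * ((N₁ : ℝ) + 4 * (D : ℝ) ^ 2) * ∑ m ∈ Icc 1 N₁, ‖a m‖ ^ 2) *
        √(20 * ((N₂ : ℝ) + 4 * (D : ℝ) ^ 2) * ∑ l ∈ Icc 1 N₂, ‖b l‖ ^ 2) := by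
  have hD0 : (0 : ℝ) < D := by exact_mod_cast hD
  have h1 : ∑ d ∈ Ioc D (2 * D), (1 / (Nat.totient d : ℝ)) *
        ∑ g ∈ prm d, ‖∑ m ∈ Icc 1 N₁, a m * g m‖ * ‖∑ l ∈ Icc 1 N₂, b l * g l‖ ≤
      ∑ d ∈ Ioc D (2 * D), (1 / (D : ℝ)) * (((d : ℝ) / (Nat.totient d : ℝ)) *
        ∑ g ∈ prm d, ‖∑ m ∈ Icc 1 N₁, a m * g m‖ * ‖∑ l ∈ Icc 1 N₂, b l * g l‖) := by
    refine Finset.sum_le_sum fun d hd => ?_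
    rw [← mul_assoc]
    refine mul_le_mul_of_nonneg_right ?_ (Finset.sum_nonneg fun _ _ => by positivity)
    have hd1 : (D : ℝ) ≤ d := by exact_mod_cast (mem_Ioc.1 hd).1.le
    have ht : (0 : ℝ) < (Nat.totient d : ℝ) := by
      exact_mod_cast Nat.totient_pos.mpr (lt_of_lt_of_le hD (mem_Ioc.1 hd).1.le)
    rw [one_div_mul_eq_div, div_div, div_le_div_iff₀ ht (mul_pos ht hD0)]
    nlinarith
  have h2 : ∑ d ∈ Ioc D (2 * D), (1 / (D : ℝ)) * (((d : ℝ) / (Nat.totient d : ℝ)) *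
        ∑ g ∈ prm d, ‖∑ m ∈ Icc 1 N₁, a m * g m‖ * ‖∑ l ∈ Icc 1 N₂, b l * g l‖) ≤
      (1 / (D : ℝ)) * ∑ d ∈ Icc 1 (2 * D), (((d : ℝ) / (Nat.totient d : ℝ)) *
        ∑ g ∈ prm d, ‖∑ m ∈ Icc 1 N₁, a m * g m‖ * ‖∑ l ∈ Icc 1 N₂, b l * g l‖) := by
    rw [← Finset.mul_sum]
    refine mul_le_mul_of_nonneg_left ?_ (by positivity)
    refine Finset.sum_le_sum_of_subset_of_nonneg ?_ fun _ _ _ => by positivity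
    intro d hd
    rw [mem_Ioc] at hd
    rw [mem_Icc]
    omega
  have h3 : ∑ d ∈ Icc 1 (2 * D), (((d : ℝ) / (Nat.totient d : ℝ)) *
        ∑ g ∈ prm d, ‖∑ m ∈ Icc 1 N₁, a m * g m‖ * ‖∑ l ∈ Icc 1 N₂, b l * g l‖) ≤
      ∑ d ∈ Icc 1 (2 * D), √(((d : ℝ) / (Nat.totient d : ℝ)) * ∑ g ∈ prm d, ‖∑ m ∈ Icc 1 N₁, a m * g m‖ ^ 2) *
        √(((d : ℝ) / (Nat.totient d : ℝ)) * ∑ g ∈ prm d, ‖∑ l ∈ Icc 1 N₂, b l * g l‖ ^ 2) := by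
    refine Finset.sum_le_sum fun d _ => ?_
    have hw : (0 : ℝ) ≤ (d : ℝ) / (Nat.totient d : ℝ) := by positivity
    rw [Real.sqrt_mul hw, Real.sqrt_mul hw]
    have h4 := Real.sum_mul_le_sqrt_mul_sqrt (prm d) (fun g => ‖∑ m ∈ Icc 1 N₁, a m * g m‖)
      (fun g => ‖∑ l ∈ Icc 1 N₂, b l * g l‖)
    calc ((d : ℝ) / (Nat.totient d : ℝ)) *
          ∑ g ∈ prm d, ‖∑ m ∈ Icc 1 N₁, a m * g m‖ * ‖∑ l ∈ Icc 1 N₂, b l * g l‖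
        ≤ ((d : ℝ) / (Nat.totient d : ℝ)) * (√(∑ g ∈ prm d, ‖∑ m ∈ Icc 1 N₁, a m * g m‖ ^ 2) *
          √(∑ g ∈ prm d, ‖∑ l ∈ Icc 1 N₂, b l * g l‖ ^ 2)) := mul_le_mul_of_nonneg_left h4 hw
      _ = (√((d : ℝ) / (Nat.totient d : ℝ)) * √((d : ℝ) / (Nat.totient d : ℝ))) *
          (√(∑ g ∈ prm d, ‖∑ m ∈ Icc 1 N₁, a m * g m‖ ^ 2) *
          √(∑ g ∈ prm d, ‖∑ l ∈ Icc 1 N₂, b l * g l‖ ^ 2)) := by rw [Real.mul_self_sqrt hw]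
      _ = _ := by ring
  have h5 : ∑ d ∈ Icc 1 (2 * D),
        √(((d : ℝ) / (Nat.totient d : ℝ)) * ∑ g ∈ prm d, ‖∑ m ∈ Icc 1 N₁, a m * g m‖ ^ 2) *
        √(((d : ℝ) / (Nat.totient d : ℝ)) * ∑ g ∈ prm d, ‖∑ l ∈ Icc 1 N₂, b l * g l‖ ^ 2) ≤
      √(20 * ((N₁ : ℝ) + 4 * (D : ℝ) ^ 2) * ∑ m ∈ Icc 1 N₁, ‖a m‖ ^ 2) *
        √(20 * ((N₂ : ℝ) + 4 * (D : ℝ) ^ 2) * ∑ l ∈ Icc 1 N₂, ‖b l‖ ^ 2) := by
    refine (Real.sum_sqrt_mul_sqrt_le _ (fun _ => by positivity) (fun _ => by positivity)).trans ?_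
    have e : ((2 * D : ℕ) : ℝ) ^ 2 = 4 * (D : ℝ) ^ 2 := by push_cast; ring
    have g1 := mls (2 * D) N₁ a
    have g2 := mls (2 * D) N₂ b
    rw [e] at g1 g2
    exact mul_le_mul (Real.sqrt_le_sqrt g1) (Real.sqrt_le_sqrt g2) (Real.sqrt_nonneg _) (Real.sqrt_nonneg _)
  rw [mul_assoc]
  exact h1.trans (h2.trans (mul_le_mul_of_nonneg_left (h3.trans h5) (by positivity)))

end Pool.Agent.DK10
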