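import Pool.Agent.DK10.MsFin

/-!
# DK10-Part2A

Let `gg x ε l = #{(y,z) : y z = l, y < x^(1-ε/10)/l, z < x^(1-ε/10)/l}` if `x^(1/2+ε) < l`, else `0`.

`ms_le_two` (finite combinatorics).  Use `ms_eq`.  A triple `t = (a, m, k)` (entries in `Icc 1 ⌊x⌋₊`)
with position `(u,v,w)` in `U2 ε`: `a < x^(1/2-ε)`, so `a ∈ Icc 1 Q`, `Q = ⌊x^(1/2-ε)⌋₊`; `l := m k` has
`log l/log x = v + w > 1/2 + ε`, so `l > x^(1/2+ε) > x^(2ε)`; adding the last two inequalities of `T2`,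
`v + w < (2/3)(1-ε) < 1 - 3ε` (`ε < 1/20`), so `l < x^(1-3ε)` and `l ∈ Icc 1 ⌊x⌋₊`;
`2v + w < 1 - ε < 1 - ε/10` gives `m < x^(1-ε/10)/l`, similarly `k < x^(1-ε/10)/l`; if `wt ≠ 0`
then `l` is coprime to `a`.  The weight is `dk (κ-1) a/(a l)`.  Sum over the triples with given `a`, `l`:
at most `gg x ε l` pairs `(m,k)`.
-/

namespace Pool.Agent.DK10

open Finset

/-- The coefficient of the long variable in part 2. -/
noncomputable def gg (x ε : ℝ) (l : ℕ) : ℝ :=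
  if x ^ (1 / 2 + ε) < (l : ℝ) then
    ((l.divisorsAntidiagonal.filter (fun p => (p.1 : ℝ) < x ^ (1 - ε / 10) / (l : ℝ) ∧
      (p.2 : ℝ) < x ^ (1 - ε / 10) / (l : ℝ))).card : ℝ) else 0

private theorem gg_nonneg' (x ε : ℝ) (l : ℕ) : 0 ≤ gg x ε l := by
  unfold gg
  split_ifs
  · positivity
  · exact le_rfl

private theorem U2_le_one {ε : ℝ} (hε : 0 < ε) : ∀ z ∈ U2 ε, z.1 ≤ 1 ∧ z.2.1 ≤ 1 ∧ z.2.2 ≤ 1 := by
  rintro ⟨u, v, w⟩ hz
  simp only [U2, T2, Set.mem_prod, Set.mem_Ioo, Set.mem_ofPred_eq] at hz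
  obtain ⟨⟨h1, h2⟩, h3, h4, h5, h6, h7⟩ := hz
  refine ⟨?_, ?_, ?_⟩ <;> dsimp only <;> linarith

private theorem lt_rpow_of_log {x y c : ℝ} (hx : 1 < x) (hy : 0 < y) (h : Real.log y < c * Real.log x) :
    y < x ^ c := by
  have hx0 : 0 < x := by linarith
  rw [← Real.log_lt_log_iff hy (Real.rpow_pos_of_pos hx0 c), Real.log_rpow hx0]
  exact h

private theorem rpow_lt_of_log {x y c : ℝ} (hx : 1 < x) (hy : 0 < y) (h : c * Real.log x < Real.log y) :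
    x ^ c < y := by
  have hx0 : 0 < x := by linarith
  rw [← Real.log_lt_log_iff (Real.rpow_pos_of_pos hx0 c) hy, Real.log_rpow hx0]
  exact h

private theorem key {ε : ℝ} (hε : 0 < ε) (hε' : ε < 1 / 20) {x : ℝ} (hx : 1 < x) {a m k : ℕ}
    (ha : 1 ≤ a) (hm : 1 ≤ m) (hk : 1 ≤ k)
    (h : (Real.log (a : ℝ) / Real.log x, Real.log (m : ℝ) / Real.log x,
      Real.log (k : ℝ) / Real.log x) ∈ U2 ε) :
    (a : ℝ) < x ^ (1 / 2 - ε) ∧ x ^ (1 / 2 + ε) < ((m * k : ℕ) : ℝ) ∧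
      x ^ (2 * ε) < ((m * k : ℕ) : ℝ) ∧ ((m * k : ℕ) : ℝ) < x ^ (1 - 3 * ε) ∧
      (m : ℝ) < x ^ (1 - ε / 10) / ((m * k : ℕ) : ℝ) ∧
      (k : ℝ) < x ^ (1 - ε / 10) / ((m * k : ℕ) : ℝ) := by
  have hL : 0 < Real.log x := Real.log_pos hx
  simp only [U2, T2, Set.mem_prod, Set.mem_Ioo, Set.mem_ofPred_eq] at h
  obtain ⟨⟨h1, h2⟩, h3, h4, h5, h6, h7⟩ := h
  have ha0 : (0 : ℝ) < a := by exact_mod_cast ha
  have hm0 : (0 : ℝ) < m := by exact_mod_cast hm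
  have hk0 : (0 : ℝ) < k := by exact_mod_cast hk
  have hl0 : (0 : ℝ) < ((m * k : ℕ) : ℝ) := by
    push_cast
    positivity
  have hlog : Real.log ((m * k : ℕ) : ℝ) = Real.log m + Real.log k := by
    push_cast
    rw [Real.log_mul hm0.ne' hk0.ne']
  have e1 : Real.log (a : ℝ) < (1 / 2 - ε) * Real.log x := (div_lt_iff₀ hL).1 h2
  have e5 : (1 / 2 + ε) * Real.log x < Real.log m + Real.log k := by
    rw [← add_div] at h5
    exact (lt_div_iff₀ hL).1 h5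
  have e6 : 2 * Real.log m + Real.log k < (1 - ε) * Real.log x := by
    have : (2 * Real.log m + Real.log k) / Real.log x < 1 - ε := by
      calc _ = 2 * (Real.log m / Real.log x) + Real.log k / Real.log x := by ring
        _ < _ := h6
    exact (div_lt_iff₀ hL).1 this
  have e7 : Real.log m + 2 * Real.log k < (1 - ε) * Real.log x := by
    have : (Real.log m + 2 * Real.log k) / Real.log x < 1 - ε := by
      calc _ = Real.log m / Real.log x + 2 * (Real.log k / Real.log x) := by ring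
        _ < _ := h7
    exact (div_lt_iff₀ hL).1 this
  have hεL : 0 < ε * Real.log x := mul_pos hε hL
  refine ⟨lt_rpow_of_log hx ha0 e1, rpow_lt_of_log hx hl0 (by rw [hlog]; exact e5),
    rpow_lt_of_log hx hl0 ?_, lt_rpow_of_log hx hl0 ?_, ?_, ?_⟩
  · rw [hlog]
    nlinarith
  · rw [hlog]
    nlinarith
  · rw [lt_div_iff₀ hl0]
    refine lt_rpow_of_log hx (by positivity) ?_
    rw [Real.log_mul hm0.ne' hl0.ne', hlog]
    nlinarith
  · rw [lt_div_iff₀ hl0]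
    refine lt_rpow_of_log hx (by positivity) ?_
    rw [Real.log_mul hk0.ne' hl0.ne', hlog]
    nlinarith

theorem ms_le_two {κ ε : ℝ} (hκ : 1 ≤ κ) (hε : 0 < ε) (hε' : ε < 1 / 20) {x : ℝ} (hx : 1 < x) :
    ms κ (U2 ε) (Real.log x) ≤
      ∑ a ∈ Icc 1 ⌊x ^ (1 / 2 - ε)⌋₊, (dk (κ - 1) a / (a : ℝ)) *
          ∑ l ∈ (Icc 1 ⌊x⌋₊).filter (fun l : ℕ => x ^ (2 * ε) < (l : ℝ) ∧
            (l : ℝ) < x ^ (1 - 3 * ε) ∧ Nat.Coprime l a), gg x ε l / (l : ℝ) := by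
  classical
  have hx0 : (0 : ℝ) < x := by linarith
  rw [ms_eq (U2_le_one hε) hx]
  set N := ⌊x⌋₊ with hN
  set Q := ⌊x ^ (1 / 2 - ε)⌋₊ with hQ
  set B := (Icc 1 N) ×ˢ ((Icc 1 N) ×ˢ (Icc 1 N)) with hB
  set S := B.filter (fun t : ℕ × ℕ × ℕ => (((pos t).1 / Real.log x, (pos t).2.1 / Real.log x,
    (pos t).2.2 / Real.log x) ∈ U2 ε) ∧ Nat.Coprime t.1 (t.2.1 * t.2.2)) with hS
  have hnn : ∀ a : ℕ, 0 ≤ dk (κ - 1) a := by
    intro a
    unfold dk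
    refine Finset.prod_nonneg fun p _ => Finset.prod_nonneg fun i _ => ?_
    have : (0 : ℝ) ≤ (i : ℝ) := Nat.cast_nonneg i
    refine div_nonneg ?_ ?_ <;> linarith
  -- restrict to S
  have h1' : ∑ t ∈ B, (if ((pos t).1 / Real.log x, (pos t).2.1 / Real.log x,
      (pos t).2.2 / Real.log x) ∈ U2 ε then wt κ t else 0) =
      ∑ t ∈ S, dk (κ - 1) t.1 / ((t.1 : ℝ) * (t.2.1 : ℝ) * (t.2.2 : ℝ)) := by
    rw [hS, Finset.sum_filter]
    refine Finset.sum_congr rfl fun t ht => ?_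
    rw [hB, mem_product, mem_product, mem_Icc, mem_Icc, mem_Icc] at ht
    by_cases hU : ((pos t).1 / Real.log x, (pos t).2.1 / Real.log x,
      (pos t).2.2 / Real.log x) ∈ U2 ε
    · by_cases hc : Nat.Coprime t.1 (t.2.1 * t.2.2)
      · rw [if_pos hU, if_pos ⟨hU, hc⟩]
        unfold wt
        rw [if_pos ⟨by omega, by omega, by omega, hc⟩]
      · rw [if_pos hU, if_neg (fun h => hc h.2)]
        unfold wt
        rw [if_neg (fun h => hc h.2.2.2)]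
    · rw [if_neg hU, if_neg (fun h => hU h.1)]
  have hkey : ∀ t ∈ S, (1 ≤ t.1 ∧ 1 ≤ t.2.1 ∧ 1 ≤ t.2.2 ∧ Nat.Coprime t.1 (t.2.1 * t.2.2)) ∧
      (t.1 : ℝ) < x ^ (1 / 2 - ε) ∧ x ^ (1 / 2 + ε) < ((t.2.1 * t.2.2 : ℕ) : ℝ) ∧
      x ^ (2 * ε) < ((t.2.1 * t.2.2 : ℕ) : ℝ) ∧ ((t.2.1 * t.2.2 : ℕ) : ℝ) < x ^ (1 - 3 * ε) ∧
      (t.2.1 : ℝ) < x ^ (1 - ε / 10) / ((t.2.1 * t.2.2 : ℕ) : ℝ) ∧
      (t.2.2 : ℝ) < x ^ (1 - ε / 10) / ((t.2.1 * t.2.2 : ℕ) : ℝ) := by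
    intro t ht
    rw [hS, mem_filter, hB, mem_product, mem_product, mem_Icc, mem_Icc, mem_Icc] at ht
    obtain ⟨⟨ht1, ht2, ht3⟩, hU, hc⟩ := ht
    exact ⟨⟨ht1.1, ht2.1, ht3.1, hc⟩, key hε hε' hx ht1.1 ht2.1 ht3.1 hU⟩
  refine h1'.le.trans ?_
  have hmapa : ∀ t ∈ S, t.1 ∈ Icc 1 Q := by
    intro t ht
    obtain ⟨⟨a1, -⟩, a2, -⟩ := hkey t ht
    rw [mem_Icc]
    exact ⟨a1, Nat.le_floor a2.le⟩
  rw [← Finset.sum_fiberwise_of_maps_to hmapa]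
  refine Finset.sum_le_sum fun a ha => ?_
  have hmapl : ∀ t ∈ S.filter (fun t => t.1 = a), t.2.1 * t.2.2 ∈ (Icc 1 N).filter
      (fun l : ℕ => x ^ (2 * ε) < (l : ℝ) ∧ (l : ℝ) < x ^ (1 - 3 * ε) ∧ Nat.Coprime l a) := by
    intro t ht
    rw [mem_filter] at ht
    obtain ⟨ht, hta⟩ := ht
    obtain ⟨⟨a1, a2, a3, a4⟩, b1, b2, b3, b4, b5, b6⟩ := hkey t ht
    rw [mem_filter, mem_Icc]
    refine ⟨⟨Nat.one_le_iff_ne_zero.2 (Nat.mul_ne_zero (by omega) (by omega)), ?_⟩, b3, b4, ?_⟩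
    · refine Nat.le_floor ?_
      refine b4.le.trans ?_
      calc x ^ (1 - 3 * ε) ≤ x ^ (1 : ℝ) := Real.rpow_le_rpow_of_exponent_le hx.le (by linarith)
        _ = x := Real.rpow_one x
    · rw [← hta]
      exact a4.symm
  rw [← Finset.sum_fiberwise_of_maps_to hmapl, Finset.mul_sum]
  refine Finset.sum_le_sum fun l hl => ?_
  rw [mem_filter, mem_Icc] at hl
  have hl0 : (0 : ℝ) < l := by exact_mod_cast hl.1.1
  have ha0 : (0 : ℝ) < a := by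
    rw [mem_Icc] at ha
    exact_mod_cast ha.1
  have hterm : ∀ t ∈ (S.filter (fun t => t.1 = a)).filter (fun t => t.2.1 * t.2.2 = l),
      dk (κ - 1) t.1 / ((t.1 : ℝ) * (t.2.1 : ℝ) * (t.2.2 : ℝ)) = dk (κ - 1) a / (a : ℝ) / (l : ℝ) := by
    intro t ht
    rw [mem_filter, mem_filter] at ht
    obtain ⟨⟨-, hta⟩, htl⟩ := ht
    rw [hta, ← htl]
    push_cast
    rw [mul_assoc, div_div]
  rw [Finset.sum_congr rfl hterm, Finset.sum_const, nsmul_eq_mul]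
  have hcard : ((((S.filter (fun t => t.1 = a)).filter (fun t => t.2.1 * t.2.2 = l)).card : ℕ) : ℝ) ≤
      gg x ε l := by
    rcases Finset.eq_empty_or_nonempty
      ((S.filter (fun t => t.1 = a)).filter (fun t => t.2.1 * t.2.2 = l)) with h0 | ⟨t0, ht0⟩
    · rw [h0, Finset.card_empty]
      exact_mod_cast gg_nonneg' x ε l
    · rw [mem_filter, mem_filter] at ht0
      obtain ⟨⟨ht0, hta⟩, htl⟩ := ht0
      obtain ⟨-, b1, b2, b3, b4, b5, b6⟩ := hkey t0 ht0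
      rw [htl] at b2
      unfold gg
      rw [if_pos b2]
      refine Nat.cast_le.2 ?_
      refine Finset.card_le_card_of_injOn (fun t => t.2) ?_ ?_
      · intro t ht
        rw [Finset.mem_coe, mem_filter, mem_filter] at ht
        obtain ⟨⟨ht, hta'⟩, htl'⟩ := ht
        obtain ⟨-, c1, c2, c3, c4, c5, c6⟩ := hkey t ht
        rw [htl'] at c5 c6
        rw [Finset.mem_coe, mem_filter, Nat.mem_divisorsAntidiagonal]
        exact ⟨⟨htl', by omega⟩, c5, c6⟩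
      · intro t ht t' ht' htt
        rw [Finset.mem_coe, mem_filter, mem_filter] at ht ht'
        exact Prod.ext (ht.1.2.trans ht'.1.2.symm) htt
  calc (((S.filter (fun t => t.1 = a)).filter (fun t => t.2.1 * t.2.2 = l)).card : ℝ) *
        (dk (κ - 1) a / (a : ℝ) / (l : ℝ)) ≤ gg x ε l * (dk (κ - 1) a / (a : ℝ) / (l : ℝ)) :=
      mul_le_mul_of_nonneg_right hcard (div_nonneg (div_nonneg (hnn a) ha0.le) hl0.le)
    _ = dk (κ - 1) a / (a : ℝ) * (gg x ε l / (l : ℝ)) := by ring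

end Pool.Agent.DK10
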