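import Pool.Agent.DK10.BoxThm
import Pool.Agent.DK10.Part2A
import Pool.Agent.DK10.DkBound

/-!
# DK10-Part2

Let `gg x ε l = #{(y,z) : y z = l, y < x^(1-ε/10)/l, z < x^(1-ε/10)/l}` if `x^(1/2+ε) < l`, else `0`.

`part2`.  Apply `boxThm` with `Q = ⌊x^(1/2-ε)⌋₊`, `c = 1`, `W = dk (κ-1)`, `g = gg x ε`
(`0 ≤ g l ≤ tau l ≤ x^(ε/200)`).  The main term is at least `(1-δ) x ms κ (U2 ε) (log x)`.  For the
right-hand side: let `N ≤ x`, `N > x^(1-ε/10)`, `N ≡ 1 [ZMOD a]`, `a ≤ Q`, and `n = N - 1 ≥ 1`.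
(i) `a ∣ n` and `a*a ≤ x^(1-2ε) < x^(1-ε/10) - 1 < n` for large `x`; so for fixed `N` the sum of
`dk (κ-1) a` over such `a` is at most `KK κ n`.
(ii) `∑_{l ∣ N} gg x ε l ≤ RR N`: if `l ∣ N` and `x^(1/2+ε) < l` then `N ≤ x < l*l`, and
`y < x^(1-ε/10)/l < N/l` (real division, exact since `l ∣ N`) gives `y < N / l` in `ℕ`; so
`gg x ε l ≤ rr l (N / l)`.
Exchange the sums; `N = n + 1`, and all `n ∈ Icc 1 ⌊x⌋₊` contribute nonnegative terms.
-/

namespace Pool.Agent.DK10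

open Finset

private lemma gg_nonneg (x ε : ℝ) (l : ℕ) : 0 ≤ gg x ε l := by
  unfold gg
  split_ifs
  · positivity
  · exact le_rfl

private lemma rr_nonneg (l Y : ℕ) : 0 ≤ rr l Y := by
  unfold rr
  positivity

private lemma RR_nonneg (N : ℕ) : 0 ≤ RR N := by
  unfold RR
  exact sum_nonneg fun l _ => rr_nonneg _ _

private lemma gg_le_tau (x ε : ℝ) (l : ℕ) : gg x ε l ≤ tau l := by
  unfold gg tau
  split_ifs
  · have h2 : l.divisorsAntidiagonal.card = l.divisors.card := by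
      rw [← Nat.map_div_right_divisors, card_map]
    have h1 := card_filter_le l.divisorsAntidiagonal
      (fun p => (p.1 : ℝ) < x ^ (1 - ε / 10) / (l : ℝ) ∧ (p.2 : ℝ) < x ^ (1 - ε / 10) / (l : ℝ))
    rw [h2] at h1
    exact_mod_cast h1
  · positivity

private lemma sum_gg_le {x ε : ℝ} (hε : 0 < ε) (hx : 1 < x) {N : ℕ} (hNx : (N : ℝ) ≤ x)
    (hN2 : x ^ (1 - ε / 10) < (N : ℝ)) : ∑ l ∈ N.divisors, gg x ε l ≤ RR N := by
  have hx0 : 0 < x := by linarith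
  unfold RR
  rw [sum_filter]
  apply sum_le_sum
  intro l hl
  have hlN := Nat.dvd_of_mem_divisors hl
  have hl0 : 0 < l := Nat.pos_of_mem_divisors hl
  by_cases h : x ^ (1 / 2 + ε) < (l : ℝ)
  · have hlt : N < l * l := by
      have h1 : x ^ (1 / 2 + ε) * x ^ (1 / 2 + ε) < (l : ℝ) * l :=
        mul_lt_mul'' h h (Real.rpow_nonneg hx0.le _) (Real.rpow_nonneg hx0.le _)
      have h2 : x ≤ x ^ (1 / 2 + ε) * x ^ (1 / 2 + ε) := by
        rw [← Real.rpow_add hx0]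
        calc x = x ^ (1 : ℝ) := (Real.rpow_one x).symm
          _ ≤ x ^ (1 / 2 + ε + (1 / 2 + ε)) :=
              Real.rpow_le_rpow_of_exponent_le hx.le (by linarith)
      have h3 : (N : ℝ) < (l : ℝ) * l := by linarith
      exact_mod_cast h3
    rw [if_pos hlt]
    unfold gg rr
    rw [if_pos h]
    have hdiv : x ^ (1 - ε / 10) / (l : ℝ) < ((N / l : ℕ) : ℝ) := by
      rw [Nat.cast_div hlN (by exact_mod_cast hl0.ne')]
      exact div_lt_div_of_pos_right hN2 (by exact_mod_cast hl0)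
    have hsub : (l.divisorsAntidiagonal.filter
        (fun p => (p.1 : ℝ) < x ^ (1 - ε / 10) / (l : ℝ) ∧
          (p.2 : ℝ) < x ^ (1 - ε / 10) / (l : ℝ))) ⊆
        (l.divisorsAntidiagonal.filter (fun p => p.1 < N / l ∧ p.2 < N / l)) := by
      intro p hp
      rw [mem_filter] at hp ⊢
      refine ⟨hp.1, ?_, ?_⟩
      · exact_mod_cast hp.2.1.trans hdiv
      · exact_mod_cast hp.2.2.trans hdiv
    exact_mod_cast card_le_card hsub
  · have : gg x ε l = 0 := by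
      unfold gg
      rw [if_neg h]
    rw [this]
    split_ifs
    · exact rr_nonneg _ _
    · exact le_rfl

theorem part2 {κ ε δ : ℝ} (hκ : 2 ≤ κ) (hε : 0 < ε) (hε' : ε < 1 / 20) (hδ : 0 < δ) (hδ' : δ < 1) :
    ∀ᶠ x : ℝ in Filter.atTop,
      (1 - δ) * x * ms κ (U2 ε) (Real.log x) - x ^ (1 - ε / 50) ≤
        ∑ n ∈ Icc 1 ⌊x⌋₊, KK κ n * RR (n + 1) := by
  have Elarge : ∀ᶠ x : ℝ in Filter.atTop, x ^ (1 - 2 * ε) + 1 < x ^ (1 - ε / 10) := by
    filter_upwards [(tendsto_rpow_atTop (by positivity : (0 : ℝ) < ε)).eventually_gt_atTop 2,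
      Filter.eventually_gt_atTop 1] with x h1 h2
    have hx0 : 0 < x := by linarith
    have h3 : 1 ≤ x ^ (1 - 2 * ε) := Real.one_le_rpow h2.le (by linarith)
    have h4 : x ^ (1 - 2 * ε) * x ^ ε ≤ x ^ (1 - ε / 10) := by
      rw [← Real.rpow_add hx0]
      exact Real.rpow_le_rpow_of_exponent_le h2.le (by linarith)
    nlinarith
  filter_upwards [boxThm hε hε' hδ hδ', tau_le_rpow (by positivity : (0 : ℝ) < ε / 200),
    dk_le_rpow (κ - 1) (by linarith) (by positivity : (0 : ℝ) < ε / 200), Elarge,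
    Filter.eventually_gt_atTop 1] with x hbox htau hdk hlarge hx
  have hx0 : 0 < x := by linarith
  set Q : ℕ := ⌊x ^ (1 / 2 - ε)⌋₊ with hQ
  have hQx : (Q : ℝ) ≤ x ^ (1 / 2 - ε) := Nat.floor_le (Real.rpow_nonneg hx0.le _)
  have hQx' : x ^ (1 / 2 - ε) ≤ x := by
    calc x ^ (1 / 2 - ε) ≤ x ^ (1 : ℝ) :=
          Real.rpow_le_rpow_of_exponent_le hx.le (by linarith)
      _ = x := Real.rpow_one x
  have hW0 : ∀ q : ℕ, 0 ≤ dk (κ - 1) q := fun q => dk_nonneg (by linarith) q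
  have hb := hbox Q 1 (dk (κ - 1)) (gg x ε) (Or.inl rfl) hQx
    (fun q hq => by
      rw [mem_Icc] at hq
      refine ⟨hW0 q, hdk q (by omega) ?_⟩
      have : (q : ℝ) ≤ (Q : ℝ) := by exact_mod_cast hq.2
      linarith)
    (fun l hl => by
      rw [mem_Icc] at hl
      refine ⟨gg_nonneg _ _ _, (gg_le_tau _ _ _).trans (htau l (by omega) ?_)⟩
      exact (Nat.le_floor_iff hx0.le).mp hl.2)
  have hms := ms_le_two (κ := κ) (by linarith) hε hε' hx
  rw [← hQ] at hms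
  have hms' : (1 - δ) * x * ms κ (U2 ε) (Real.log x) ≤
      (1 - δ) * x * ∑ a ∈ Icc 1 Q, (dk (κ - 1) a / (a : ℝ)) *
          ∑ l ∈ (Icc 1 ⌊x⌋₊).filter (fun l : ℕ => x ^ (2 * ε) < (l : ℝ) ∧
            (l : ℝ) < x ^ (1 - 3 * ε) ∧ Nat.Coprime l a), gg x ε l / (l : ℝ) :=
    mul_le_mul_of_nonneg_left hms (mul_nonneg (by linarith) hx0.le)
  refine le_trans (by linarith) (le_trans hb ?_)
  -- the right-hand side
  set F : Finset ℕ := (Icc 1 ⌊x⌋₊).filter (fun n : ℕ => x ^ (1 - ε / 10) < (n : ℝ)) with hF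
  have hswap : ∑ q ∈ Icc 1 Q, dk (κ - 1) q *
          ∑ n ∈ (Icc 1 ⌊x⌋₊).filter (fun n : ℕ => x ^ (1 - ε / 10) < (n : ℝ) ∧
            (n : ℤ) ≡ 1 [ZMOD (q : ℤ)]), ∑ l ∈ n.divisors, gg x ε l =
      ∑ n ∈ F, (∑ q ∈ (Icc 1 Q).filter (fun q : ℕ => (n : ℤ) ≡ 1 [ZMOD (q : ℤ)]),
        dk (κ - 1) q) * ∑ l ∈ n.divisors, gg x ε l := by
    have h1 : ∀ q ∈ Icc 1 Q, dk (κ - 1) q *
          ∑ n ∈ (Icc 1 ⌊x⌋₊).filter (fun n : ℕ => x ^ (1 - ε / 10) < (n : ℝ) ∧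
            (n : ℤ) ≡ 1 [ZMOD (q : ℤ)]), ∑ l ∈ n.divisors, gg x ε l =
        ∑ n ∈ F, if (n : ℤ) ≡ 1 [ZMOD (q : ℤ)] then
          dk (κ - 1) q * ∑ l ∈ n.divisors, gg x ε l else 0 := by
      intro q _
      rw [← sum_filter, hF, filter_filter, mul_sum]
    rw [sum_congr rfl h1, sum_comm]
    apply sum_congr rfl
    intro n _
    rw [← sum_filter, sum_mul]
  rw [hswap]
  have hFmem : ∀ N ∈ F, 2 ≤ N ∧ (N : ℝ) ≤ x ∧ x ^ (1 - ε / 10) < (N : ℝ) := by
    intro N hN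
    rw [hF, mem_filter, mem_Icc] at hN
    have h1 : 1 ≤ x ^ (1 - ε / 10) := Real.one_le_rpow hx.le (by linarith)
    have h2 : (1 : ℝ) < (N : ℝ) := lt_of_le_of_lt h1 hN.2
    have h3 : 1 < N := by exact_mod_cast h2
    exact ⟨h3, (Nat.le_floor_iff hx0.le).mp hN.1.2, hN.2⟩
  have hterm : ∀ N ∈ F, (∑ q ∈ (Icc 1 Q).filter (fun q : ℕ => (N : ℤ) ≡ 1 [ZMOD (q : ℤ)]),
        dk (κ - 1) q) * ∑ l ∈ N.divisors, gg x ε l ≤ KK κ (N - 1) * RR (N - 1 + 1) := by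
    intro N hN
    obtain ⟨hN2, hNx, hNl⟩ := hFmem N hN
    rw [Nat.sub_add_cancel (by omega : 1 ≤ N)]
    apply mul_le_mul _ (sum_gg_le hε hx hNx hNl) (sum_nonneg fun l _ => gg_nonneg _ _ _)
      (sum_nonneg fun a _ => hW0 a)
    apply sum_le_sum_of_subset_of_nonneg
    · intro q hq
      rw [mem_filter, mem_Icc] at hq
      rw [mem_filter, Nat.mem_divisors]
      have hdvd : q ∣ N - 1 := by
        have h1 := (Int.modEq_iff_dvd.mp hq.2.symm)
        have h2 : ((N : ℤ) - 1) = ((N - 1 : ℕ) : ℤ) := by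
          rw [Nat.cast_sub (by omega : 1 ≤ N)]
          simp
        rw [h2] at h1
        exact_mod_cast h1
      refine ⟨⟨hdvd, by omega⟩, ?_⟩
      have hqQ : (q : ℝ) ≤ x ^ (1 / 2 - ε) := by
        have : (q : ℝ) ≤ (Q : ℝ) := by exact_mod_cast hq.1.2
        linarith
      have hqq : (q : ℝ) * q ≤ x ^ (1 - 2 * ε) := by
        calc (q : ℝ) * q ≤ x ^ (1 / 2 - ε) * x ^ (1 / 2 - ε) :=
              mul_le_mul hqQ hqQ (Nat.cast_nonneg _) (Real.rpow_nonneg hx0.le _)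
          _ = x ^ (1 - 2 * ε) := by
              rw [← Real.rpow_add hx0]
              congr 1
              ring
      have h3 : ((q * q : ℕ) : ℝ) < ((N - 1 : ℕ) : ℝ) := by
        rw [Nat.cast_sub (by omega : 1 ≤ N)]
        push_cast
        linarith
      exact_mod_cast h3
    · intro a _ _
      exact hW0 a
  refine le_trans (sum_le_sum hterm) ?_
  have himg : ∑ N ∈ F, KK κ (N - 1) * RR (N - 1 + 1) =
      ∑ n ∈ F.image (fun N => N - 1), KK κ n * RR (n + 1) := by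
    rw [sum_image]
    intro a ha b hb hab
    have h1 := (hFmem a ha).1
    have h2 := (hFmem b hb).1
    simp only at hab
    omega
  rw [himg]
  apply sum_le_sum_of_subset_of_nonneg
  · intro n hn
    rw [mem_image] at hn
    obtain ⟨N, hN, rfl⟩ := hn
    have h1 := (hFmem N hN).1
    rw [hF, mem_filter, mem_Icc] at hN
    rw [mem_Icc]
    omega
  · intro n _ _
    exact mul_nonneg (sum_nonneg fun a _ => hW0 a) (RR_nonneg _)

end Pool.Agent.DK10
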