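import Pool.Agent.DK10.Defs

/-!
# DK10-Trip: `3 TT(N) + 3 RR(N) ≤ d_3(N)`

Triples `f : Fin 3 → ℕ` with product `N ≥ 1` (`Nat.finMulAntidiag 3 N`, `Nat.mem_finMulAntidiag`).
For `i : Fin 3` let `A i` be the set of those with `∏_{j ≠ i} f j < f i` (say
`f (i+1) * f (i+2) < f i`) and `B i` the set of those with `f (i+1) < f i`, `f (i+2) < f i` and
`f i < f (i+1) * f (i+2)`.
* The six sets `A 0, A 1, A 2, B 0, B 1, B 2` are pairwise disjoint: on `A i` and on `B i` the entry
  `f i` is the strict maximum (on `A i`: `f j ≤ f (i+1) f (i+2) < f i` because all entries are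
  `≥ 1`), so the index `i` is determined, and `A i`, `B i` are disjoint by the two opposite strict
  inequalities.
* `#(A i) = TT N`: the map `f ↦ (f i, f(i+1), f(i+2))`; group by `b = f (i+1) * f (i+2)`, a divisor of
  `N` with `f i = N / b`, and `b < N / b` iff `b * b < N` (as `b ∣ N`); there are `tau b` pairs
  `(f(i+1), f(i+2))` with product `b`.
* `#(B i) = RR N`: group by `l = f (i+1) * f (i+2)`, `f i = N / l`; `N / l < l` iff `N < l * l`; the
  number of pairs is `rr l (N / l)`.
Only the inequalities `TT N ≤ #(A i)`, `RR N ≤ #(B i)` are needed: inject the sigma-type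
`{(b, (x, y)) : b ∣ N, b*b < N, x*y = b}` into `A i` by `(b, (x,y)) ↦` the triple with `f i = N / b`,
`f (i+1) = x`, `f (i+2) = y` (e.g. `Finset.card_le_card_of_injOn` and `Finset.card_sigma`).
One may also first prove it for `i = 0` and transport by the cyclic shift of `Fin 3`.
(`tau b = #(b.divisorsAntidiagonal)`: `Nat.card_divisorsAntidiagonal`-type lemma, or
`Nat.map_div_right_divisors`.)
-/

namespace Pool.Agent.DK10

open Finset

/-- the triple with entries `z`, `x`, `y` at `i`, `i + 1`, `i + 2` -/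
private def mk3 (i : Fin 3) (z x y : ℕ) : Fin 3 → ℕ :=
  fun j => if j = i then z else if j = i + 1 then x else y

private theorem mk3_prod (i : Fin 3) (z x y : ℕ) : ∏ j, mk3 i z x y j = z * (x * y) := by
  rw [Fin.prod_univ_three]
  fin_cases i
  · show (if (0 : Fin 3) = 0 then z else if (0 : Fin 3) = 0 + 1 then x else y) *
      (if (1 : Fin 3) = 0 then z else if (1 : Fin 3) = 0 + 1 then x else y) *
      (if (2 : Fin 3) = 0 then z else if (2 : Fin 3) = 0 + 1 then x else y) = _
    rw [if_pos (by decide), if_neg (by decide), if_pos (by decide), if_neg (by decide),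
      if_neg (by decide)]
    ring
  · show (if (0 : Fin 3) = 1 then z else if (0 : Fin 3) = 1 + 1 then x else y) *
      (if (1 : Fin 3) = 1 then z else if (1 : Fin 3) = 1 + 1 then x else y) *
      (if (2 : Fin 3) = 1 then z else if (2 : Fin 3) = 1 + 1 then x else y) = _
    rw [if_neg (by decide), if_neg (by decide), if_pos (by decide), if_neg (by decide),
      if_pos (by decide)]
    ring
  · show (if (0 : Fin 3) = 2 then z else if (0 : Fin 3) = 2 + 1 then x else y) *
      (if (1 : Fin 3) = 2 then z else if (1 : Fin 3) = 2 + 1 then x else y) *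
      (if (2 : Fin 3) = 2 then z else if (2 : Fin 3) = 2 + 1 then x else y) = _
    rw [if_neg (by decide), if_pos (by decide), if_neg (by decide), if_neg (by decide),
      if_pos (by decide)]
    ring

private theorem mk3_self (i : Fin 3) (z x y : ℕ) : mk3 i z x y i = z := if_pos rfl

private theorem mk3_one (i : Fin 3) (z x y : ℕ) : mk3 i z x y (i + 1) = x := by
  unfold mk3
  rw [if_neg (by revert i; decide), if_pos rfl]

private theorem mk3_two (i : Fin 3) (z x y : ℕ) : mk3 i z x y (i + 2) = y := by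
  unfold mk3
  rw [if_neg (by revert i; decide), if_neg (by revert i; decide)]

private theorem mk3_lt {i j : Fin 3} {z x y : ℕ} (hx : x < z) (hy : y < z) (h : j ≠ i) :
    mk3 i z x y j < z := by
  unfold mk3
  rw [if_neg h]
  split_ifs
  · exact hx
  · exact hy

private theorem mk3_inj {i i' : Fin 3} {z x y z' x' y' : ℕ} (hx : x < z) (hy : y < z)
    (hx' : x' < z') (hy' : y' < z') (h : mk3 i z x y = mk3 i' z' x' y') :
    i = i' ∧ z = z' ∧ x = x' ∧ y = y' := by
  have hi : i = i' := by
    by_contra hne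
    have h1 : z < z' := by
      have := mk3_lt (i := i') (j := i) hx' hy' hne
      rwa [← h, mk3_self] at this
    have h2 : z' < z := by
      have := mk3_lt (i := i) (j := i') hx hy (Ne.symm hne)
      rwa [h, mk3_self] at this
    omega
  subst hi
  refine ⟨rfl, ?_, ?_, ?_⟩
  · have := congrFun h i
    rwa [mk3_self, mk3_self] at this
  · have := congrFun h (i + 1)
    rwa [mk3_one, mk3_one] at this
  · have := congrFun h (i + 2)
    rwa [mk3_two, mk3_two] at this

/-- the pairs `(b, (x, y))` with `b = x y`, `x, y < N / b`, `b ≠ N / b` -/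
private def W3 (N : ℕ) : Finset (Σ _ : ℕ, ℕ × ℕ) :=
  (N.divisors.filter (fun b => b * b ≠ N)).sigma
    fun b => b.divisorsAntidiagonal.filter (fun p => p.1 < N / b ∧ p.2 < N / b)

private theorem card_W3 {N : ℕ} (hN : N ≠ 0) : ((W3 N).card : ℝ) = TT N + RR N := by
  have h1 : ((W3 N).card : ℝ) = ∑ b ∈ N.divisors.filter (fun b => b * b ≠ N), rr b (N / b) := by
    unfold W3 rr
    rw [card_sigma, Nat.cast_sum]
  have h2 : N.divisors.filter (fun b => b * b ≠ N) =
      N.divisors.filter (fun b => b * b < N) ∪ N.divisors.filter (fun b => N < b * b) := by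
    rw [← filter_or]
    refine filter_congr fun b _ => ?_
    exact ne_iff_lt_or_gt
  rw [h1, h2, sum_union]
  · unfold TT RR
    congr 1
    refine sum_congr rfl fun b hb => ?_
    obtain ⟨hb1, hb2⟩ := mem_filter.1 hb
    have hbd : b ∣ N := Nat.dvd_of_mem_divisors hb1
    have hb0 : 0 < b := Nat.pos_of_dvd_of_pos hbd (Nat.pos_of_ne_zero hN)
    have hlt : b < N / b := by
      obtain ⟨c, rfl⟩ := hbd
      rw [Nat.mul_div_cancel_left _ hb0]
      exact Nat.lt_of_mul_lt_mul_left hb2
    unfold rr tau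
    rw [filter_true_of_mem, ← Nat.map_div_right_divisors, card_map]
    intro p hp
    rw [Nat.mem_divisorsAntidiagonal] at hp
    have hp1 : p.1 ∣ b := ⟨p.2, hp.1.symm⟩
    have hp2 : p.2 ∣ b := ⟨p.1, by rw [← hp.1, mul_comm]⟩
    exact ⟨lt_of_le_of_lt (Nat.le_of_dvd hb0 hp1) hlt, lt_of_le_of_lt (Nat.le_of_dvd hb0 hp2) hlt⟩
  · rw [disjoint_left]
    intro b hb hb'
    have h3 := (mem_filter.1 hb).2
    have h4 := (mem_filter.1 hb').2
    omega

theorem trip {N : ℕ} (hN : N ≠ 0) : 3 * TT N + 3 * RR N ≤ d3 N := by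
  have hcard : ((univ : Finset (Fin 3)) ×ˢ W3 N).card ≤ (Nat.finMulAntidiag 3 N).card := by
    refine card_le_card_of_injOn (fun q => mk3 q.1 (N / q.2.1) q.2.2.1 q.2.2.2) ?_ ?_
    · intro q hq
      have hq2 := (mem_product.1 (mem_coe.1 hq)).2
      unfold W3 at hq2
      obtain ⟨hb, hp⟩ := mem_sigma.1 hq2
      have hbd : q.2.1 ∣ N := Nat.dvd_of_mem_divisors (mem_filter.1 hb).1
      have hp1 := (Nat.mem_divisorsAntidiagonal.1 (mem_filter.1 hp).1).1
      rw [mem_coe, Nat.mem_finMulAntidiag]
      refine ⟨?_, hN⟩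
      show ∏ j, mk3 q.1 (N / q.2.1) q.2.2.1 q.2.2.2 j = N
      rw [mk3_prod, hp1, Nat.div_mul_cancel hbd]
    · intro q hq q' hq' h
      obtain ⟨i, b, x, y⟩ := q
      obtain ⟨i', b', x', y'⟩ := q'
      have hq2 := (mem_product.1 (mem_coe.1 hq)).2
      have hq2' := (mem_product.1 (mem_coe.1 hq')).2
      unfold W3 at hq2 hq2'
      obtain ⟨hb, hp⟩ := mem_sigma.1 hq2
      obtain ⟨hb', hp'⟩ := mem_sigma.1 hq2'
      obtain ⟨hp1, hp2⟩ := mem_filter.1 hp
      obtain ⟨hp1', hp2'⟩ := mem_filter.1 hp'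
      have e1 : x * y = b := (Nat.mem_divisorsAntidiagonal.1 hp1).1
      have e2 : x' * y' = b' := (Nat.mem_divisorsAntidiagonal.1 hp1').1
      obtain ⟨g1, g2, g3, g4⟩ := mk3_inj hp2.1 hp2.2 hp2'.1 hp2'.2 h
      subst g1
      simp only at g3 g4
      subst g3
      subst g4
      have : b = b' := by rw [← e1, ← e2]
      subst this
      rfl
  rw [card_product, card_univ, Fintype.card_fin] at hcard
  have h1 : (3 : ℝ) * ((W3 N).card : ℝ) ≤ ((Nat.finMulAntidiag 3 N).card : ℝ) := by
    exact_mod_cast hcard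
  rw [card_W3 hN] at h1
  unfold d3
  linarith

end Pool.Agent.DK10
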