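import Pool.Agent.DK10.KarDefs

/-!
# DK10-Vol: the volumes

`vol_prod`: `E z = exp(z.1) exp(z.2.1) exp(z.2.2)`, `nu ρ` is a product measure, so the integral over
`Ioo a b ×ˢ T` is `(∫_{Ioo a b} exp u d(gammaMeasure ρ 1)) · (∫_T exp(v) exp(w) d(gammaMeasure 1 1)²)`
(`MeasureTheory.setIntegral_prod_mul`).  The gamma measure is `volume.withDensity (gammaPDF ρ 1)` with
`gammaPDFReal ρ 1 u = u^(ρ-1)/Γ(ρ) · exp(-u)` for `u ≥ 0`, so the first factor is
`∫_{Ioo a b} u^(ρ-1)/Γ(ρ) du = (b^ρ - a^ρ)/(ρ Γ(ρ))` (`integral_rpow`, `Real.Gamma_add_one`), and the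
second is `∫_T 1 = volume T` because `T` lies in the open positive quadrant (for the product of the two
`withDensity` measures: `MeasureTheory.prod_withDensity`, or Fubini).
-/

namespace Pool.Agent.DK10

open MeasureTheory Filter Topology

private theorem vol_one {ρ a b : ℝ} (hρ : 0 < ρ) (ha : 0 ≤ a) (hab : a ≤ b) :
    ∫ u in Set.Ioo a b, Real.exp u ∂(ProbabilityTheory.gammaMeasure ρ 1) =
      (b ^ ρ - a ^ ρ) / Real.Gamma (ρ + 1) := by
  unfold ProbabilityTheory.gammaMeasure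
  have hm : Measurable (ProbabilityTheory.gammaPDF ρ 1) :=
    (ProbabilityTheory.measurable_gammaPDFReal ρ 1).ennreal_ofReal
  rw [setIntegral_withDensity_eq_setIntegral_toReal_smul hm
    (Filter.Eventually.of_forall fun x => ENNReal.ofReal_lt_top) _ measurableSet_Ioo]
  have h1 : ∫ x in Set.Ioo a b, (ProbabilityTheory.gammaPDF ρ 1 x).toReal • Real.exp x =
      ∫ x in Set.Ioo a b, (Real.Gamma ρ)⁻¹ * x ^ (ρ - 1) := by
    refine setIntegral_congr_fun measurableSet_Ioo ?_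
    intro x hx
    have hx0 : 0 < x := lt_of_le_of_lt ha hx.1
    simp only [smul_eq_mul]
    rw [ProbabilityTheory.gammaPDF_of_nonneg hx0.le, ENNReal.toReal_ofReal (by
      have := Real.Gamma_pos_of_pos hρ
      positivity)]
    rw [Real.one_rpow, one_mul]
    have he : Real.exp (-x) * Real.exp x = 1 := by
      rw [← Real.exp_add]; simp
    calc 1 / Real.Gamma ρ * x ^ (ρ - 1) * Real.exp (-x) * Real.exp x
        = 1 / Real.Gamma ρ * x ^ (ρ - 1) * (Real.exp (-x) * Real.exp x) := by ring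
      _ = (Real.Gamma ρ)⁻¹ * x ^ (ρ - 1) := by rw [he, mul_one, one_div]
  rw [h1, integral_const_mul, ← integral_Ioc_eq_integral_Ioo, ← intervalIntegral.integral_of_le hab,
    integral_rpow (Or.inl (by linarith)), sub_add_cancel, Real.Gamma_add_one hρ.ne']
  have := Real.Gamma_pos_of_pos hρ
  field_simp

private theorem vol_pdf {x : ℝ} (hx : 0 < x) :
    ProbabilityTheory.gammaPDF 1 1 x = ENNReal.ofReal (Real.exp (-x)) := by
  rw [ProbabilityTheory.gammaPDF_of_nonneg hx.le]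
  simp

private theorem vol_two {T : Set (ℝ × ℝ)} (hT : MeasurableSet T)
    (hpos : ∀ p ∈ T, 0 < p.1 ∧ 0 < p.2) :
    ∫ z in T, Real.exp (z.1 + z.2) ∂((ProbabilityTheory.gammaMeasure 1 1).prod
      (ProbabilityTheory.gammaMeasure 1 1)) = (volume T).toReal := by
  unfold ProbabilityTheory.gammaMeasure
  have hm : Measurable (ProbabilityTheory.gammaPDF 1 1) :=
    (ProbabilityTheory.measurable_gammaPDFReal 1 1).ennreal_ofReal
  rw [prod_withDensity hm hm]
  have hm2 : Measurable (fun z : ℝ × ℝ => ProbabilityTheory.gammaPDF 1 1 z.1 *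
      ProbabilityTheory.gammaPDF 1 1 z.2) := (hm.comp measurable_fst).mul (hm.comp measurable_snd)
  rw [setIntegral_withDensity_eq_setIntegral_toReal_smul hm2
    (Filter.Eventually.of_forall fun x =>
      ENNReal.mul_lt_top ENNReal.ofReal_lt_top ENNReal.ofReal_lt_top) _ hT]
  have h1 : ∫ z in T, (ProbabilityTheory.gammaPDF 1 1 z.1 *
      ProbabilityTheory.gammaPDF 1 1 z.2).toReal • Real.exp (z.1 + z.2) ∂(volume.prod volume) =
      ∫ z in T, (1 : ℝ) ∂(volume.prod volume) := by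
    refine setIntegral_congr_fun hT ?_
    intro z hz
    obtain ⟨hz1, hz2⟩ := hpos z hz
    simp only [smul_eq_mul]
    rw [vol_pdf hz1, vol_pdf hz2, ENNReal.toReal_mul, ENNReal.toReal_ofReal (Real.exp_pos _).le,
      ENNReal.toReal_ofReal (Real.exp_pos _).le, ← Real.exp_add, ← Real.exp_add]
    have : -z.1 + -z.2 + (z.1 + z.2) = 0 := by ring
    rw [this, Real.exp_zero]
  rw [h1, setIntegral_const, smul_eq_mul, mul_one]
  rfl

theorem vol_prod {ρ a b : ℝ} (hρ : 0 < ρ) (ha : 0 ≤ a) (hab : a ≤ b) {T : Set (ℝ × ℝ)}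
    (hT : MeasurableSet T) (hpos : ∀ p ∈ T, 0 < p.1 ∧ 0 < p.2) {R : ℝ}
    (hbd : ∀ p ∈ T, p.1 < R ∧ p.2 < R) :
    ∫ z in Set.Ioo a b ×ˢ T, Real.exp (z.1 + z.2.1 + z.2.2) ∂(nu ρ) =
      (b ^ ρ - a ^ ρ) / Real.Gamma (ρ + 1) * (volume T).toReal := by
  have hP : IsProbabilityMeasure (ProbabilityTheory.gammaMeasure ρ 1) :=
    ProbabilityTheory.isProbabilityMeasure_gammaMeasure hρ one_pos
  have hP1 : IsProbabilityMeasure (ProbabilityTheory.gammaMeasure 1 1) :=
    ProbabilityTheory.isProbabilityMeasure_gammaMeasure one_pos one_pos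
  unfold nu
  have h1 : ∀ z : ℝ × ℝ × ℝ, Real.exp (z.1 + z.2.1 + z.2.2) =
      Real.exp z.1 * (fun y : ℝ × ℝ => Real.exp (y.1 + y.2)) z.2 := by
    intro z
    simp only
    rw [← Real.exp_add, add_assoc]
  simp_rw [h1]
  rw [setIntegral_prod_mul (fun u : ℝ => Real.exp u) (fun y : ℝ × ℝ => Real.exp (y.1 + y.2)),
    vol_one hρ ha hab, vol_two hT hpos]

end Pool.Agent.DK10
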