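import Pool.Agent.DK10.Defs

/-!
# DK10-VolT: the areas of the two planar regions

`vol_T1`: right isosceles triangle with legs `s = 1/2 - ε`: area `s²/2`.  It is the region
`{(v,w) : v ∈ (0,s), 0 < w < s - v}`: `volume_regionBetween_eq_integral`, or
`MeasureTheory.Measure.prod_apply` and `∫_0^s (s - v) dv`.

`vol_T2`: triangle with vertices `(1/2-2ε, 3ε)`, `(3ε, 1/2-2ε)`, `((1-ε)/3, (1-ε)/3)`; area
`(1-10ε)²/24`.  With `s = 1/2 + ε`, `u = 1 - ε`: the conditions `0 < v`, `0 < w` follow from the other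
three (for `0 < ε < 1/20`).  For `v ∈ (3ε, u/3]` the section is `s - v < w < (u - v)/2`, of length
`(u-v)/2 - (s-v) = (v - 3ε)/2`; for `v ∈ (u/3, 1/2-2ε)` it is `s - v < w < u - 2v`, of length
`u - s - v = 1/2 - 2ε - v`.  So the area is `((u/3 - 3ε)²)/4 + (1/2 - 2ε - u/3)²/2
 = (1-10ε)²/36 + (1-10ε)²/72 = (1-10ε)²/24`.
(Either compute the measure by `MeasureTheory.Measure.prod_apply` and the lengths of the sections, or
split `T2` in two `regionBetween` sets; a line has measure zero.  Another way: `T2` is the image of the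
standard triangle `{a > 0, b > 0, a + b < 1}` under an affine map with determinant `(1-10ε)²/12`,
`MeasureTheory.Measure.addHaar_image_linearMap`.)
-/

namespace Pool.Agent.DK10

open MeasureTheory Filter Topology

private theorem volT_T1_eq {ε : ℝ} (hε : 0 < ε) (hε' : ε < 1 / 20) :
    T1 ε = regionBetween (fun _ => (0 : ℝ)) (fun v => 1 / 2 - ε - v) (Set.Ioo 0 (1 / 2 - ε)) := by
  have _ := hε
  have _ := hε'
  ext p
  simp only [T1, regionBetween, Set.mem_setOf_eq, Set.mem_Ioo]
  constructor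
  · rintro ⟨h1, h2, h3⟩
    exact ⟨⟨h1, by linarith⟩, h2, by linarith⟩
  · rintro ⟨⟨h1, h2⟩, h3, h4⟩
    exact ⟨h1, h3, by linarith⟩

private theorem volT_T2_eq {ε : ℝ} (hε : 0 < ε) (hε' : ε < 1 / 20) :
    T2 ε = regionBetween (fun v => 1 / 2 + ε - v) (fun v => min ((1 - ε - v) / 2) (1 - ε - 2 * v))
      (Set.Ioo (3 * ε) (1 / 2 - 2 * ε)) := by
  have _ := hε'
  ext p
  simp only [T2, regionBetween, Set.mem_setOf_eq, Set.mem_Ioo, lt_min_iff]
  constructor
  · rintro ⟨h1, h2, h3, h4, h5⟩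
    exact ⟨⟨by linarith, by linarith⟩, by linarith, by linarith, by linarith⟩
  · rintro ⟨⟨h1, h2⟩, h3, h4, h5⟩
    exact ⟨by linarith, by linarith, by linarith, by linarith, by linarith⟩

private theorem volT_region {f g : ℝ → ℝ} (hf : Continuous f) (hg : Continuous g) {a b : ℝ} (hab : a ≤ b)
    (hfg : ∀ x ∈ Set.Ioo a b, f x ≤ g x) :
    (volume (regionBetween f g (Set.Ioo a b))).toReal = ∫ x in a..b, (g x - f x) := by
  have h1 := volume_regionBetween_eq_integral (μ := (volume : Measure ℝ)) (f := f) (g := g)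
    (s := Set.Ioo a b) ((hf.integrableOn_Icc (a := a) (b := b)).mono_set Set.Ioo_subset_Icc_self)
    ((hg.integrableOn_Icc (a := a) (b := b)).mono_set Set.Ioo_subset_Icc_self) measurableSet_Ioo hfg
  rw [Measure.volume_eq_prod, h1, intervalIntegral.integral_of_le hab, integral_Ioc_eq_integral_Ioo]
  refine ENNReal.toReal_ofReal (setIntegral_nonneg measurableSet_Ioo fun x hx => ?_)
  exact sub_nonneg.2 (hfg x hx)

theorem vol_T1 {ε : ℝ} (hε : 0 < ε) (hε' : ε < 1 / 20) :
    (volume (T1 ε)).toReal = (1 / 2 - ε) ^ 2 / 2 := by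
  rw [volT_T1_eq hε hε', volT_region continuous_const (by fun_prop) (by linarith)
    (fun x hx => by have := hx.2; linarith)]
  have h1 : ∀ x : ℝ, 1 / 2 - ε - x - 0 = (1 / 2 - ε) - x := fun x => by ring
  simp only [h1]
  rw [intervalIntegral.integral_sub (by simp) (by simp), intervalIntegral.integral_const, integral_id,
    smul_eq_mul]
  ring

theorem vol_T2 {ε : ℝ} (hε : 0 < ε) (hε' : ε < 1 / 20) :
    (volume (T2 ε)).toReal = (1 - 10 * ε) ^ 2 / 24 := by
  rw [volT_T2_eq hε hε', volT_region (by fun_prop) (by fun_prop) (by linarith)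
    (fun x hx => by
      have h1 := hx.1
      have h2 := hx.2
      exact le_min (by linarith) (by linarith))]
  have hI : ∀ a b : ℝ, IntervalIntegrable
      (fun x => min ((1 - ε - x) / 2) (1 - ε - 2 * x) - (1 / 2 + ε - x)) volume a b := fun a b =>
    Continuous.intervalIntegrable (by fun_prop) a b
  rw [← intervalIntegral.integral_add_adjacent_intervals (hI (3 * ε) ((1 - ε) / 3))
    (hI ((1 - ε) / 3) (1 / 2 - 2 * ε))]
  have e1 : ∫ x in (3 * ε)..((1 - ε) / 3), (min ((1 - ε - x) / 2) (1 - ε - 2 * x) - (1 / 2 + ε - x)) =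
      ∫ x in (3 * ε)..((1 - ε) / 3), (x * (1 / 2) - 3 * ε / 2) := by
    refine intervalIntegral.integral_congr fun x hx => ?_
    rw [Set.uIcc_of_le (by linarith)] at hx
    have h2 := hx.2
    show min _ _ - _ = _
    rw [min_eq_left (by linarith)]
    ring
  have e2 : ∫ x in ((1 - ε) / 3)..(1 / 2 - 2 * ε), (min ((1 - ε - x) / 2) (1 - ε - 2 * x) - (1 / 2 + ε - x)) =
      ∫ x in ((1 - ε) / 3)..(1 / 2 - 2 * ε), ((1 / 2 - 2 * ε) - x) := by
    refine intervalIntegral.integral_congr fun x hx => ?_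
    rw [Set.uIcc_of_le (by linarith)] at hx
    have h1 := hx.1
    show min _ _ - _ = _
    rw [min_eq_right (by linarith)]
    ring
  rw [e1, e2, intervalIntegral.integral_sub (Continuous.intervalIntegrable (by fun_prop) _ _) (by simp),
    intervalIntegral.integral_sub (by simp) (by simp), intervalIntegral.integral_mul_const,
    intervalIntegral.integral_const, intervalIntegral.integral_const, integral_id, integral_id,
    smul_eq_mul, smul_eq_mul]
  ring

theorem isOpen_T1 (ε : ℝ) : IsOpen (T1 ε) := by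
  have h : T1 ε = {p : ℝ × ℝ | 0 < p.1} ∩ ({p : ℝ × ℝ | 0 < p.2} ∩ {p : ℝ × ℝ | p.1 + p.2 < 1 / 2 - ε}) := rfl
  rw [h]
  exact (isOpen_lt continuous_const continuous_fst).inter
    ((isOpen_lt continuous_const continuous_snd).inter (isOpen_lt (by fun_prop) continuous_const))

theorem isOpen_T2 (ε : ℝ) : IsOpen (T2 ε) := by
  have h : T2 ε = {p : ℝ × ℝ | 0 < p.1} ∩ ({p : ℝ × ℝ | 0 < p.2} ∩ ({p : ℝ × ℝ | 1 / 2 + ε < p.1 + p.2} ∩
      ({p : ℝ × ℝ | 2 * p.1 + p.2 < 1 - ε} ∩ {p : ℝ × ℝ | p.1 + 2 * p.2 < 1 - ε}))) := rfl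
  rw [h]
  exact (isOpen_lt continuous_const continuous_fst).inter
    ((isOpen_lt continuous_const continuous_snd).inter ((isOpen_lt continuous_const (by fun_prop)).inter
      ((isOpen_lt (by fun_prop) continuous_const).inter (isOpen_lt (by fun_prop) continuous_const))))

end Pool.Agent.DK10
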