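import Pool.Agent.DK10.Part1
import Pool.Agent.DK10.Part2
import Pool.Agent.DK10.F4
import Pool.Agent.DK10.Trip
import Pool.Agent.DK10.Lap
import Pool.Agent.DK10.KarU
import Pool.Agent.DK10.Vol
import Pool.Agent.DK10.VolT

/-!
# DK10-Main: assembly
-/

namespace Pool.Agent.DK10

open Finset Filter Topology MeasureTheory

/-- first constant -/
noncomputable def V1 (κ ε : ℝ) : ℝ :=
  ((1 - 3 * ε) ^ (κ - 1) - (2 * ε) ^ (κ - 1)) / Real.Gamma κ * ((1 / 2 - ε) ^ 2 / 2)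

/-- second constant -/
noncomputable def V2 (κ ε : ℝ) : ℝ :=
  ((1 / 2 - ε) ^ (κ - 1) - 0 ^ (κ - 1)) / Real.Gamma κ * ((1 - 10 * ε) ^ 2 / 24)

theorem ms_lower_one {κ ε t : ℝ} (hκ : 2 ≤ κ) (hε : 0 < ε) (hε' : ε < 1 / 20)
    (ht : t < GG κ * V1 κ ε) :
    ∀ᶠ L : ℝ in atTop, t * L ^ (κ + 1) ≤ ms κ (U1 ε) L := by
  have hopen : IsOpen (U1 ε) := isOpen_Ioo.prod (isOpen_T1 ε)
  have hbd : ∀ z ∈ U1 ε, z.1 < 1 ∧ z.2.1 < 1 ∧ z.2.2 < 1 := by
    rintro ⟨u, v, w⟩ hz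
    simp only [U1, T1, Set.mem_prod, Set.mem_Ioo, Set.mem_ofPred_eq] at hz
    refine ⟨?_, ?_, ?_⟩ <;> simp only <;> linarith [hz.1.1, hz.1.2, hz.2.1, hz.2.2.1, hz.2.2.2]
  have hvol := vol_prod (ρ := κ - 1) (a := 2 * ε) (b := 1 - 3 * ε) (T := T1 ε) (R := 1)
    (by linarith) (by linarith) (by linarith) (isOpen_T1 ε).measurableSet
    (fun p hp => ⟨hp.1, hp.2.1⟩)
    (fun p hp => by
      have h1 := hp.1
      have h2 := hp.2.1
      have h3 := hp.2.2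
      constructor <;> linarith)
  rw [vol_T1 hε hε'] at hvol
  have hk := karU (by linarith : (0 : ℝ) < κ - 1) (lapHyp hκ) hopen one_pos hbd (t := t) (by
    have : κ - 1 + 1 = κ := by ring
    rw [this] at hvol
    unfold U1
    rw [hvol]
    exact ht)
  filter_upwards [hk] with L hL
  have : κ - 1 + 2 = κ + 1 := by ring
  rw [this] at hL
  exact hL

theorem ms_lower_two {κ ε t : ℝ} (hκ : 2 ≤ κ) (hε : 0 < ε) (hε' : ε < 1 / 20)
    (ht : t < GG κ * V2 κ ε) :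
    ∀ᶠ L : ℝ in atTop, t * L ^ (κ + 1) ≤ ms κ (U2 ε) L := by
  have hopen : IsOpen (U2 ε) := isOpen_Ioo.prod (isOpen_T2 ε)
  have hbd : ∀ z ∈ U2 ε, z.1 < 1 ∧ z.2.1 < 1 ∧ z.2.2 < 1 := by
    rintro ⟨u, v, w⟩ hz
    simp only [U2, T2, Set.mem_prod, Set.mem_Ioo, Set.mem_ofPred_eq] at hz
    refine ⟨?_, ?_, ?_⟩ <;> simp only <;>
      linarith [hz.1.1, hz.1.2, hz.2.1, hz.2.2.1, hz.2.2.2.1, hz.2.2.2.2.1, hz.2.2.2.2.2]
  have hvol := vol_prod (ρ := κ - 1) (a := 0) (b := 1 / 2 - ε) (T := T2 ε) (R := 1)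
    (by linarith) le_rfl (by linarith) (isOpen_T2 ε).measurableSet
    (fun p hp => ⟨hp.1, hp.2.1⟩)
    (fun p hp => by
      have h1 := hp.1
      have h2 := hp.2.1
      have h3 := hp.2.2.2.1
      have h4 := hp.2.2.2.2
      constructor <;> linarith)
  rw [vol_T2 hε hε'] at hvol
  have hk := karU (by linarith : (0 : ℝ) < κ - 1) (lapHyp hκ) hopen one_pos hbd (t := t) (by
    have : κ - 1 + 1 = κ := by ring
    rw [this] at hvol
    unfold U2
    rw [hvol]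
    exact ht)
  filter_upwards [hk] with L hL
  have : κ - 1 + 2 = κ + 1 := by ring
  rw [this] at hL
  exact hL

theorem RR_nonneg (N : ℕ) : 0 ≤ RR N :=
  Finset.sum_nonneg fun _ _ => Nat.cast_nonneg _

theorem pointwise {κ : ℝ} (hκ : 2 ≤ κ) {n : ℕ} (hn : n ≠ 0) :
    3 * (dk κ n * TT (n + 1)) + 3 * κ * (KK κ n * RR (n + 1)) ≤ dk κ n * d3 (n + 1) := by
  have h1 := trip (N := n + 1) (by omega)
  have h2 := f4 hκ hn
  have h3 := dk_nonneg (κ := κ) (by linarith) n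
  have h4 := RR_nonneg (n + 1)
  nlinarith [mul_le_mul_of_nonneg_left h1 h3, mul_le_mul_of_nonneg_right h2 h4]

theorem SS_ge {κ : ℝ} (hκ : 2 ≤ κ) (x : ℝ) :
    3 * (∑ n ∈ Icc 1 ⌊x⌋₊, dk κ n * TT (n + 1)) +
      3 * κ * (∑ n ∈ Icc 1 ⌊x⌋₊, KK κ n * RR (n + 1)) ≤ SS κ x := by
  unfold SS
  rw [Finset.mul_sum, Finset.mul_sum, ← Finset.sum_add_distrib]
  apply Finset.sum_le_sum
  intro n hn
  rw [Finset.mem_Icc] at hn
  exact pointwise hκ (by omega)

theorem V_tendsto {κ : ℝ} (hκ : 2 ≤ κ) :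
    Tendsto (fun ε : ℝ => (1 - ε) * (3 * V1 κ ε + 3 * κ * V2 κ ε)) (𝓝[>] 0)
      (𝓝 ((3 + κ * 2 ^ (1 - κ)) / (8 * Real.Gamma κ))) := by
  have hc : ContinuousAt (fun ε : ℝ => (1 - ε) * (3 * V1 κ ε + 3 * κ * V2 κ ε)) 0 := by
    unfold V1 V2
    have h1 : ContinuousAt (fun ε : ℝ => (1 - 3 * ε) ^ (κ - 1)) 0 := by
      apply ContinuousAt.rpow_const
      · fun_prop
      · right; linarith
    have h2 : ContinuousAt (fun ε : ℝ => (2 * ε) ^ (κ - 1)) 0 := by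
      apply ContinuousAt.rpow_const
      · fun_prop
      · right; linarith
    have h3 : ContinuousAt (fun ε : ℝ => (1 / 2 - ε) ^ (κ - 1)) 0 := by
      apply ContinuousAt.rpow_const
      · fun_prop
      · right; linarith
    fun_prop
  have hv : (fun ε : ℝ => (1 - ε) * (3 * V1 κ ε + 3 * κ * V2 κ ε)) 0 =
      (3 + κ * 2 ^ (1 - κ)) / (8 * Real.Gamma κ) := by
    have hΓ : Real.Gamma κ ≠ 0 := (Real.Gamma_pos_of_pos (by linarith)).ne'
    have h0 : (0 : ℝ) ^ (κ - 1) = 0 := Real.zero_rpow (by linarith)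
    have h2 : (1 / 2 : ℝ) ^ (κ - 1) = 2 ^ (1 - κ) := by
      rw [one_div, Real.inv_rpow (by norm_num), ← Real.rpow_neg (by norm_num)]
      congr 1
      ring
    simp only [V1, V2, mul_zero, sub_zero, Real.one_rpow, h0, h2]
    field_simp
    ring
  rw [← hv]
  exact hc.tendsto.mono_left nhdsWithin_le_nhds

theorem main {κ : ℝ} (hκ : 2 ≤ κ) {c : ℝ} (hc : c < (3 + κ * 2 ^ (1 - κ)) / 4) :
    ∀ᶠ x : ℝ in atTop,
      c * (GG κ / (2 * Real.Gamma κ) * x * (Real.log x) ^ (κ + 1)) ≤ SS κ x := by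
  have hΓ : 0 < Real.Gamma κ := Real.Gamma_pos_of_pos (by linarith)
  have hG : 0 < GG κ := GG_pos hκ
  have hc' : c / (2 * Real.Gamma κ) < (3 + κ * 2 ^ (1 - κ)) / (8 * Real.Gamma κ) := by
    rw [div_lt_div_iff₀ (by positivity) (by positivity)]
    nlinarith
  have hev := (V_tendsto hκ).eventually (lt_mem_nhds hc')
  have hsm : ∀ᶠ ε : ℝ in 𝓝[>] 0, ε < 1 / 20 :=
    mem_nhdsWithin_of_mem_nhds (Iio_mem_nhds (by norm_num))
  obtain ⟨ε, hε1, hε', hε⟩ := (hev.and (hsm.and self_mem_nhdsWithin)).exists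
  have hε : 0 < ε := hε
  -- slack
  set D : ℝ := (1 - ε) * (3 * V1 κ ε + 3 * κ * V2 κ ε) - c / (2 * Real.Gamma κ) with hD
  have hDpos : 0 < D := by rw [hD]; linarith
  set η : ℝ := GG κ * D / (2 * (3 + 3 * κ)) with hη
  have hηpos : 0 < η := by positivity
  have h1 := ms_lower_one hκ hε hε' (t := GG κ * V1 κ ε - η) (by linarith)
  have h2 := ms_lower_two hκ hε hε' (t := GG κ * V2 κ ε - η) (by linarith)
  have h1' := Real.tendsto_log_atTop.eventually h1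
  have h2' := Real.tendsto_log_atTop.eventually h2
  have p1 := part1 hκ hε hε' hε (by linarith : ε < 1)
  have p2 := part2 hκ hε hε' hε (by linarith : ε < 1)
  -- the error is small
  have herr : ∀ᶠ x : ℝ in atTop, (3 + 3 * κ) * x ^ (1 - ε / 50) ≤
      (GG κ * D / 2) * (x * (Real.log x) ^ (κ + 1)) := by
    have t1 : Tendsto (fun x : ℝ => x ^ (-(ε / 50))) atTop (𝓝 0) :=
      tendsto_rpow_neg_atTop (by positivity)
    have hpos : 0 < GG κ * D / 2 / (3 + 3 * κ) := by positivity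
    filter_upwards [t1.eventually (gt_mem_nhds hpos), eventually_gt_atTop (Real.exp 1)] with x hx hx1
    have hx0 : 0 < x := lt_trans (Real.exp_pos 1) hx1
    have hlog : 1 ≤ Real.log x := by
      rw [Real.le_log_iff_exp_le hx0]; exact hx1.le
    have hpow : 1 ≤ (Real.log x) ^ (κ + 1) := Real.one_le_rpow hlog (by linarith)
    have hsplit : x ^ (1 - ε / 50) = x * x ^ (-(ε / 50)) := by
      rw [show 1 - ε / 50 = 1 + -(ε / 50) by ring, Real.rpow_add hx0, Real.rpow_one]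
    rw [hsplit]
    have e1 : (3 + 3 * κ) * (x * x ^ (-(ε / 50))) ≤ GG κ * D / 2 * x := by
      have : x ^ (-(ε / 50)) * (3 + 3 * κ) ≤ GG κ * D / 2 := by
        rw [lt_div_iff₀ (by positivity)] at hx
        exact hx.le
      calc (3 + 3 * κ) * (x * x ^ (-(ε / 50))) = x * (x ^ (-(ε / 50)) * (3 + 3 * κ)) := by ring
        _ ≤ x * (GG κ * D / 2) := mul_le_mul_of_nonneg_left this hx0.le
        _ = GG κ * D / 2 * x := by ring
    calc (3 + 3 * κ) * (x * x ^ (-(ε / 50))) ≤ GG κ * D / 2 * x := e1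
      _ ≤ (GG κ * D / 2) * (x * (Real.log x) ^ (κ + 1)) := by
          have : x ≤ x * (Real.log x) ^ (κ + 1) := le_mul_of_one_le_right hx0.le hpow
          exact mul_le_mul_of_nonneg_left this (by positivity)
  filter_upwards [h1', h2', p1, p2, herr, eventually_gt_atTop (Real.exp 1)] with
    x q1 q2 q3 q4 q5 hx1
  have hx0 : 0 < x := lt_trans (Real.exp_pos 1) hx1
  have hlog : 0 < (Real.log x) ^ (κ + 1) := by
    apply Real.rpow_pos_of_pos
    have : 1 < Real.log x := by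
      rw [Real.lt_log_iff_exp_lt hx0]; exact hx1
    linarith
  set P : ℝ := x * (Real.log x) ^ (κ + 1) with hP
  have hPpos : 0 < P := by positivity
  have hS := SS_ge hκ x
  have a1 : (1 - ε) * (GG κ * V1 κ ε - η) * P ≤ (1 - ε) * x * ms κ (U1 ε) (Real.log x) := by
    have := mul_le_mul_of_nonneg_left q1 (mul_nonneg (by linarith) hx0.le : 0 ≤ (1 - ε) * x)
    calc (1 - ε) * (GG κ * V1 κ ε - η) * P
        = (1 - ε) * x * ((GG κ * V1 κ ε - η) * (Real.log x) ^ (κ + 1)) := by rw [hP]; ring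
      _ ≤ _ := this
  have a2 : (1 - ε) * (GG κ * V2 κ ε - η) * P ≤ (1 - ε) * x * ms κ (U2 ε) (Real.log x) := by
    have := mul_le_mul_of_nonneg_left q2 (mul_nonneg (by linarith) hx0.le : 0 ≤ (1 - ε) * x)
    calc (1 - ε) * (GG κ * V2 κ ε - η) * P
        = (1 - ε) * x * ((GG κ * V2 κ ε - η) * (Real.log x) ^ (κ + 1)) := by rw [hP]; ring
      _ ≤ _ := this
  have hκ3 : 0 ≤ 3 * κ := by linarith
  have b1 : 3 * ((1 - ε) * (GG κ * V1 κ ε - η) * P) - 3 * x ^ (1 - ε / 50) ≤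
      3 * (∑ n ∈ Icc 1 ⌊x⌋₊, dk κ n * TT (n + 1)) := by linarith
  have b2 : 3 * κ * ((1 - ε) * (GG κ * V2 κ ε - η) * P) - 3 * κ * x ^ (1 - ε / 50) ≤
      3 * κ * (∑ n ∈ Icc 1 ⌊x⌋₊, KK κ n * RR (n + 1)) := by
    have := mul_le_mul_of_nonneg_left (le_trans (sub_le_sub_right a2 _) q4) hκ3
    linarith
  have hmain : (1 - ε) * (3 * V1 κ ε + 3 * κ * V2 κ ε) = D + c / (2 * Real.Gamma κ) := by
    rw [hD]; ring
  have hη2 : (3 + 3 * κ) * η = GG κ * D / 2 := by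
    rw [hη]; field_simp
  have hfin : c * (GG κ / (2 * Real.Gamma κ) * x * (Real.log x) ^ (κ + 1)) =
      GG κ * (c / (2 * Real.Gamma κ)) * P := by
    rw [hP]; ring
  rw [hfin]
  have e : 3 * ((1 - ε) * (GG κ * V1 κ ε - η) * P) + 3 * κ * ((1 - ε) * (GG κ * V2 κ ε - η) * P)
      = GG κ * (D + c / (2 * Real.Gamma κ)) * P - (1 - ε) * ((3 + 3 * κ) * η) * P := by
    rw [← hmain]; ring
  rw [hη2] at e
  have e3 : (1 - ε) * (GG κ * D / 2) * P ≤ (GG κ * D / 2) * P := by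
    have h0 : 0 ≤ ε * ((GG κ * D / 2) * P) := by positivity
    calc (1 - ε) * (GG κ * D / 2) * P = (GG κ * D / 2) * P - ε * ((GG κ * D / 2) * P) := by ring
      _ ≤ (GG κ * D / 2) * P := by linarith
  linarith [b1, b2, hS, q5, e, e3]

end Pool.Agent.DK10
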