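import Pool.Agent.DK10.Chars

/-!
# DK10-Orth: detection of a congruence by characters

For `q ≥ 1` and `c = ±1` (a unit modulo `q`), by `DirichletCharacter.sum_char_inv_mul_char_eq`
(`∑_χ χ a⁻¹ * χ b = if a = b then φ(q) else 0` for `a` a unit), for `m, l ∈ ℕ`
`[m l ≡ c mod q] = (1/φ(q)) ∑_χ χ(c⁻¹) χ(m) χ(l)`.
The principal character contributes `(1/φ(q)) #{m ∈ SM coprime to q} ∑_{l ∈ SL coprime to q} β l`
(`MulChar.one_apply...`: `1 a = 1` for units and `0` otherwise; `ZMod.isUnit_iff_coprime`).  So the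
difference is `(1/φ(q)) ∑_{χ ≠ 1} χ(c⁻¹) (∑_m χ m)(∑_l β l χ l)`; take norms, `‖χ(c⁻¹)‖ ≤ 1`, and
rewrite with `sum_npc`.
(Condition `((m * l : ℕ) : ℤ) ≡ c [ZMOD q]` iff `((m : ZMod q) * (l : ZMod q)) = (c : ZMod q)`:
`ZMod.intCast_eq_intCast_iff`.)
-/

namespace Pool.Agent.DK10

open Finset

theorem orth {q : ℕ} (hq : 1 ≤ q) {c : ℤ} (hc : c = 1 ∨ c = -1) (SM SL : Finset ℕ) (β : ℕ → ℝ) :
    |(∑ m ∈ SM, ∑ l ∈ SL, if ((m * l : ℕ) : ℤ) ≡ c [ZMOD (q : ℤ)] then β l else 0) -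
        (1 / (Nat.totient q : ℝ)) * ((SM.filter (fun m => Nat.Coprime m q)).card : ℝ) *
          ∑ l ∈ SL.filter (fun l => Nat.Coprime l q), β l| ≤
      (1 / (Nat.totient q : ℝ)) *
        ∑ f ∈ npc q, ‖∑ m ∈ SM, f m‖ * ‖∑ l ∈ SL, (β l : ℂ) * f l‖ := by
  classical
  have : NeZero q := ⟨by omega⟩
  have hφ : (0 : ℝ) < (Nat.totient q : ℝ) := by
    exact_mod_cast Nat.totient_pos.2 (by omega)
  have hφC : ((Nat.totient q : ℝ) : ℂ) ≠ 0 := by
    exact_mod_cast hφ.ne'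
  have hcz : IsUnit (c : ZMod q) := by
    rcases hc with rfl | rfl
    · simp
    · simp
  have hdet : ∀ m l : ℕ,
      ((if ((m * l : ℕ) : ℤ) ≡ c [ZMOD (q : ℤ)] then β l else 0 : ℝ) : ℂ) =
        (1 / ((Nat.totient q : ℝ) : ℂ)) * ∑ χ : DirichletCharacter ℂ q,
          χ (c : ZMod q)⁻¹ * (χ (m : ZMod q) * ((β l : ℂ) * χ (l : ZMod q))) := by
    intro m l
    have h1 : ∑ χ : DirichletCharacter ℂ q,
        χ (c : ZMod q)⁻¹ * (χ (m : ZMod q) * ((β l : ℂ) * χ (l : ZMod q))) =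
        (β l : ℂ) * ∑ χ : DirichletCharacter ℂ q,
          χ (c : ZMod q)⁻¹ * χ ((m : ZMod q) * (l : ZMod q)) := by
      rw [Finset.mul_sum]
      refine Finset.sum_congr rfl fun χ _ => ?_
      rw [map_mul]; ring
    have h2 : ((m * l : ℕ) : ℤ) ≡ c [ZMOD (q : ℤ)] ↔
        (c : ZMod q) = (m : ZMod q) * (l : ZMod q) := by
      rw [← ZMod.intCast_eq_intCast_iff, eq_comm]
      push_cast
      rfl
    rw [h1, DirichletCharacter.sum_char_inv_mul_char_eq ℂ hcz]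
    by_cases h : (c : ZMod q) = (m : ZMod q) * (l : ZMod q)
    · rw [if_pos (h2.2 h), if_pos h]
      have hφN : ((Nat.totient q : ℕ) : ℂ) ≠ 0 := by
        simpa using hφC
      rw [Complex.ofReal_natCast]
      field_simp
    · rw [if_neg (fun h' => h (h2.1 h')), if_neg h]
      simp
  have htot : ((∑ m ∈ SM, ∑ l ∈ SL,
      (if ((m * l : ℕ) : ℤ) ≡ c [ZMOD (q : ℤ)] then β l else 0) : ℝ) : ℂ) =
      (1 / ((Nat.totient q : ℝ) : ℂ)) * ∑ χ : DirichletCharacter ℂ q,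
        χ (c : ZMod q)⁻¹ * ((∑ m ∈ SM, χ (m : ZMod q)) *
          ∑ l ∈ SL, (β l : ℂ) * χ (l : ZMod q)) := by
    rw [Complex.ofReal_sum]
    simp only [Complex.ofReal_sum]
    rw [Finset.sum_congr rfl fun m _ => Finset.sum_congr rfl fun l _ => hdet m l]
    simp only [← Finset.mul_sum]
    congr 1
    rw [Finset.sum_congr rfl fun m _ => Finset.sum_comm, Finset.sum_comm]
    refine Finset.sum_congr rfl fun χ _ => ?_
    rw [Finset.sum_mul_sum, Finset.mul_sum]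
    refine Finset.sum_congr rfl fun m _ => ?_
    rw [Finset.mul_sum]
  have hval : ∀ n : ℕ, (1 : DirichletCharacter ℂ q) (n : ZMod q) =
      if Nat.Coprime n q then 1 else 0 := by
    intro n
    by_cases h : Nat.Coprime n q
    · rw [if_pos h, MulChar.one_apply ((ZMod.isUnit_iff_coprime n q).2 h)]
    · rw [if_neg h, MulChar.map_nonunit _ fun h' => h ((ZMod.isUnit_iff_coprime n q).1 h')]
  have hinv : IsUnit ((c : ZMod q)⁻¹) := by
    rcases hc with rfl | rfl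
    · simp
    · have : ((-1 : ℤ) : ZMod q)⁻¹ = -1 := by
        push_cast
        exact ZMod.inv_neg_one q
      rw [this]; simp
  have hone : (1 : DirichletCharacter ℂ q) (c : ZMod q)⁻¹ *
      ((∑ m ∈ SM, (1 : DirichletCharacter ℂ q) (m : ZMod q)) *
        ∑ l ∈ SL, (β l : ℂ) * (1 : DirichletCharacter ℂ q) (l : ZMod q)) =
      ((((SM.filter (fun m => Nat.Coprime m q)).card : ℝ) *
        ∑ l ∈ SL.filter (fun l => Nat.Coprime l q), β l : ℝ) : ℂ) := by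
    rw [MulChar.one_apply hinv, one_mul]
    simp only [hval]
    rw [Finset.sum_boole, Complex.ofReal_mul, Complex.ofReal_sum, Finset.sum_filter,
      Complex.ofReal_natCast]
    refine congrArg₂ (· * ·) rfl (Finset.sum_congr rfl fun l _ => ?_)
    split_ifs <;> simp
  have hsplit : ∑ χ : DirichletCharacter ℂ q,
        χ (c : ZMod q)⁻¹ * ((∑ m ∈ SM, χ (m : ZMod q)) *
          ∑ l ∈ SL, (β l : ℂ) * χ (l : ZMod q)) =
      (1 : DirichletCharacter ℂ q) (c : ZMod q)⁻¹ *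
      ((∑ m ∈ SM, (1 : DirichletCharacter ℂ q) (m : ZMod q)) *
        ∑ l ∈ SL, (β l : ℂ) * (1 : DirichletCharacter ℂ q) (l : ZMod q)) +
      ∑ χ ∈ (univ : Finset (DirichletCharacter ℂ q)).filter (fun χ => χ ≠ 1),
        χ (c : ZMod q)⁻¹ * ((∑ m ∈ SM, χ (m : ZMod q)) *
          ∑ l ∈ SL, (β l : ℂ) * χ (l : ZMod q)) := by
    rw [Finset.filter_ne']
    exact (Finset.add_sum_erase Finset.univ (fun χ : DirichletCharacter ℂ q =>
      χ (c : ZMod q)⁻¹ * ((∑ m ∈ SM, χ (m : ZMod q)) *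
          ∑ l ∈ SL, (β l : ℂ) * χ (l : ZMod q))) (Finset.mem_univ 1)).symm
  have hdiff : (((∑ m ∈ SM, ∑ l ∈ SL,
        if ((m * l : ℕ) : ℤ) ≡ c [ZMOD (q : ℤ)] then β l else 0) -
        (1 / (Nat.totient q : ℝ)) * ((SM.filter (fun m => Nat.Coprime m q)).card : ℝ) *
          ∑ l ∈ SL.filter (fun l => Nat.Coprime l q), β l : ℝ) : ℂ) =
      (1 / ((Nat.totient q : ℝ) : ℂ)) *
        ∑ χ ∈ (univ : Finset (DirichletCharacter ℂ q)).filter (fun χ => χ ≠ 1),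
        χ (c : ZMod q)⁻¹ * ((∑ m ∈ SM, χ (m : ZMod q)) *
          ∑ l ∈ SL, (β l : ℂ) * χ (l : ZMod q)) := by
    rw [Complex.ofReal_sub, htot, hsplit, hone]
    push_cast
    ring
  have hnorm := congrArg norm hdiff
  rw [Complex.norm_real, Real.norm_eq_abs] at hnorm
  rw [hnorm, norm_mul, norm_div, norm_one, Complex.norm_real, Real.norm_eq_abs,
    abs_of_pos hφ]
  refine mul_le_mul_of_nonneg_left ?_ (by positivity)
  have hnpc : ∑ χ ∈ (univ : Finset (DirichletCharacter ℂ q)).filter (fun χ => χ ≠ 1),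
      ‖∑ m ∈ SM, χ (m : ZMod q)‖ * ‖∑ l ∈ SL, (β l : ℂ) * χ (l : ZMod q)‖ =
      ∑ f ∈ npc q, ‖∑ m ∈ SM, f m‖ * ‖∑ l ∈ SL, (β l : ℂ) * f l‖ := by
    rw [sum_npc hq]
    refine Finset.sum_congr ?_ fun _ _ => rfl
    ext χ
    simp only [Finset.mem_filter]
  rw [← hnpc]
  refine (norm_sum_le _ _).trans (Finset.sum_le_sum fun χ _ => ?_)
  rw [norm_mul, norm_mul]
  calc ‖χ (c : ZMod q)⁻¹‖ * (‖∑ m ∈ SM, χ (m : ZMod q)‖ *
        ‖∑ l ∈ SL, (β l : ℂ) * χ (l : ZMod q)‖)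
      ≤ 1 * (‖∑ m ∈ SM, χ (m : ZMod q)‖ *
        ‖∑ l ∈ SL, (β l : ℂ) * χ (l : ZMod q)‖) :=
        mul_le_mul_of_nonneg_right (χ.norm_le_one _) (by positivity)
    _ = _ := one_mul _

end Pool.Agent.DK10
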