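import Pool.Agent.DK10.MsFin

/-!
# DK10-Part1A

`ms_le_one` (finite combinatorics).  Use `ms_eq`.  A triple `t = (a, m, k)` (entries in `Icc 1 ⌊x⌋₊`) with
position in `U1 ε` satisfies `x^(2ε) < a < x^(1-3ε)` (from `2ε < log a/log x < 1-3ε`, `Real.log_rpow`,
`Real.log_lt_log_iff`), `m k < x^(1/2-ε)` so `q := m k ∈ Icc 1 Q` with `Q = ⌊x^(1/2-ε)⌋₊`, and if
`wt ≠ 0`, `a` is coprime to `q`.  Its weight is `dk (κ-1) a/(a q)`.  Sum over the triples with given `q`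
and `a`: there are at most `#(q.divisorsAntidiagonal) = tau q` pairs `(m,k)`.  So
`ms κ (U1 ε) (log x) ≤ ∑_{q ≤ Q} (tau q/q) ∑_{l, x^(2ε) < l < x^(1-3ε), (l,q)=1} dk (κ-1) l/l`.
-/

namespace Pool.Agent.DK10

open Finset

private theorem p1a_lt {x a s : ℝ} (hx : 1 < x) (ha : 0 < a) (h : Real.log a / Real.log x < s) : a < x ^ s := by
  have hL : 0 < Real.log x := Real.log_pos hx
  have hx0 : 0 < x := by linarith
  rw [div_lt_iff₀ hL] at h
  rw [← Real.log_lt_log_iff ha (Real.rpow_pos_of_pos hx0 s), Real.log_rpow hx0]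
  exact h

private theorem p1a_gt {x a s : ℝ} (hx : 1 < x) (ha : 0 < a) (h : s < Real.log a / Real.log x) : x ^ s < a := by
  have hL : 0 < Real.log x := Real.log_pos hx
  have hx0 : 0 < x := by linarith
  rw [lt_div_iff₀ hL] at h
  rw [← Real.log_lt_log_iff (Real.rpow_pos_of_pos hx0 s) ha, Real.log_rpow hx0]
  exact h

theorem ms_le_one {κ ε : ℝ} (hκ : 1 ≤ κ) (hε : 0 < ε) (hε' : ε < 1 / 20) {x : ℝ} (hx : 1 < x) :
    ms κ (U1 ε) (Real.log x) ≤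
      ∑ q ∈ Icc 1 ⌊x ^ (1 / 2 - ε)⌋₊, (tau q / (q : ℝ)) *
          ∑ l ∈ (Icc 1 ⌊x⌋₊).filter (fun l : ℕ => x ^ (2 * ε) < (l : ℝ) ∧
            (l : ℝ) < x ^ (1 - 3 * ε) ∧ Nat.Coprime l q), dk (κ - 1) l / (l : ℝ) := by
  classical
  have hL : 0 < Real.log x := Real.log_pos hx
  have hx0 : 0 < x := by linarith
  have hU : ∀ z ∈ U1 ε, z.1 ≤ 1 ∧ z.2.1 ≤ 1 ∧ z.2.2 ≤ 1 := by
    rintro ⟨a, m, k⟩ hz
    have h1 : 2 * ε < a ∧ a < 1 - 3 * ε := hz.1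
    have h2 : 0 < m ∧ 0 < k ∧ m + k < 1 / 2 - ε := hz.2
    refine ⟨?_, ?_, ?_⟩
    · show a ≤ 1
      linarith
    · show m ≤ 1
      linarith
    · show k ≤ 1
      linarith
  rw [ms_eq hU hx, ← sum_filter]
  set cube := (Icc 1 ⌊x⌋₊) ×ˢ ((Icc 1 ⌊x⌋₊) ×ˢ (Icc 1 ⌊x⌋₊)) with hcube
  set S₀ := cube.filter (fun t : ℕ × ℕ × ℕ => ((pos t).1 / Real.log x, (pos t).2.1 / Real.log x, (pos t).2.2 / Real.log x)
    ∈ U1 ε) with hS₀
  have hS : ∑ t ∈ S₀, wt κ t = ∑ t ∈ S₀.filter (fun t => Nat.Coprime t.1 (t.2.1 * t.2.2)), wt κ t := by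
    symm
    apply sum_filter_of_ne
    intro t _ ht
    by_contra hc
    apply ht
    rw [wt, if_neg]
    intro h
    exact hc h.2.2.2
  have hS' : (∑ a ∈ cube with ((pos a).1 / Real.log x, (pos a).2.1 / Real.log x, (pos a).2.2 / Real.log x) ∈ U1 ε, wt κ a)
      = ∑ t ∈ S₀, wt κ t := rfl
  rw [hS', hS]
  set S := S₀.filter (fun t => Nat.Coprime t.1 (t.2.1 * t.2.2)) with hSdef
  set Q := ⌊x ^ (1 / 2 - ε)⌋₊ with hQ
  let Fq : ℕ → Finset ℕ := fun q => (Icc 1 ⌊x⌋₊).filter (fun l : ℕ => x ^ (2 * ε) < (l : ℝ) ∧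
            (l : ℝ) < x ^ (1 - 3 * ε) ∧ Nat.Coprime l q)
  let T : Finset ((_ : ℕ) × ℕ) := (Icc 1 Q).sigma Fq
  let g : ℕ × ℕ × ℕ → (_ : ℕ) × ℕ := fun t => ⟨t.2.1 * t.2.2, t.1⟩
  -- facts about the elements of S
  have hmem : ∀ t ∈ S, 1 ≤ t.1 ∧ t.1 ≤ ⌊x⌋₊ ∧ 1 ≤ t.2.1 ∧ 1 ≤ t.2.2 ∧ Nat.Coprime t.1 (t.2.1 * t.2.2) ∧
      2 * ε < Real.log t.1 / Real.log x ∧ Real.log t.1 / Real.log x < 1 - 3 * ε ∧
      Real.log t.2.1 / Real.log x + Real.log t.2.2 / Real.log x < 1 / 2 - ε := by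
    intro t ht
    have h1 := mem_filter.1 ht
    have h2 := mem_filter.1 h1.1
    have h3 := mem_product.1 h2.1
    have h4 := mem_product.1 h3.2
    have h5 := mem_Icc.1 h3.1
    have h6 := mem_Icc.1 h4.1
    have h7 := mem_Icc.1 h4.2
    have h8 := h2.2
    have h9 : 2 * ε < Real.log t.1 / Real.log x ∧ Real.log t.1 / Real.log x < 1 - 3 * ε := h8.1
    have h10 : 0 < Real.log t.2.1 / Real.log x ∧ 0 < Real.log t.2.2 / Real.log x ∧
      Real.log t.2.1 / Real.log x + Real.log t.2.2 / Real.log x < 1 / 2 - ε := h8.2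
    exact ⟨h5.1, h5.2, h6.1, h7.1, h1.2, h9.1, h9.2, h10.2.2⟩
  have hmaps : ∀ t ∈ S, g t ∈ T := by
    intro t ht
    obtain ⟨a1, a2, a3, a4, a5, a6, a7, a8⟩ := hmem t ht
    have b1 : (0 : ℝ) < t.1 := by exact_mod_cast a1
    have b2 : (0 : ℝ) < t.2.1 := by exact_mod_cast a3
    have b3 : (0 : ℝ) < t.2.2 := by exact_mod_cast a4
    refine mem_sigma.2 ⟨mem_Icc.2 ⟨Nat.mul_pos a3 a4, ?_⟩, mem_filter.2 ⟨mem_Icc.2 ⟨a1, a2⟩, ?_, ?_, a5⟩⟩
    · apply Nat.le_floor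
      have c1 : Real.log ((t.2.1 : ℝ) * t.2.2) / Real.log x < 1 / 2 - ε := by
        rw [Real.log_mul b2.ne' b3.ne', add_div]
        exact a8
      have c2 := p1a_lt hx (mul_pos b2 b3) c1
      have c3 : (((t.2.1 * t.2.2 : ℕ)) : ℝ) = (t.2.1 : ℝ) * t.2.2 := by push_cast; ring
      show (((t.2.1 * t.2.2 : ℕ)) : ℝ) ≤ _
      rw [c3]
      exact c2.le
    · exact p1a_gt hx b1 a6
    · exact p1a_lt hx b1 a7
  rw [← sum_fiberwise_of_maps_to hmaps]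
  have hR : ∑ q ∈ Icc 1 Q, (tau q / (q : ℝ)) * ∑ l ∈ Fq q, dk (κ - 1) l / (l : ℝ) =
      ∑ y ∈ T, (tau y.1 / (y.1 : ℝ)) * (dk (κ - 1) y.2 / (y.2 : ℝ)) := by
    simp only [mul_sum]
    rw [Finset.sum_sigma]
  refine le_trans (sum_le_sum ?_) (le_of_eq hR.symm)
  rintro ⟨q, l⟩ hy
  have hy' := mem_sigma.1 hy
  have hq : 1 ≤ q := (mem_Icc.1 hy'.1).1
  have hl : 1 ≤ l := (mem_Icc.1 (mem_filter.1 hy'.2).1).1
  have hq' : (0 : ℝ) < q := by exact_mod_cast hq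
  have hl' : (0 : ℝ) < l := by exact_mod_cast hl
  have hd : 0 ≤ dk (κ - 1) l := dk_nonneg (by linarith) l
  have hval : ∀ t ∈ S.filter (fun t => g t = ⟨q, l⟩), wt κ t = dk (κ - 1) l / ((l : ℝ) * q) := by
    intro t ht
    obtain ⟨ht1, ht2⟩ := mem_filter.1 ht
    obtain ⟨a1, a2, a3, a4, a5, -, -, -⟩ := hmem t ht1
    have e1 : t.2.1 * t.2.2 = q := congrArg Sigma.fst ht2
    have e2 : t.1 = l := by
      have := congrArg (fun y : (_ : ℕ) × ℕ => y.2) ht2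
      exact this
    rw [wt, if_pos ⟨by omega, by omega, by omega, a5⟩, e2, ← e1]
    push_cast
    rw [mul_assoc]
  have hcard : (((S.filter (fun t => g t = ⟨q, l⟩)).card : ℕ) : ℝ) ≤ tau q := by
    have h1 : (S.filter (fun t => g t = ⟨q, l⟩)).card ≤ q.divisorsAntidiagonal.card := by
      apply card_le_card_of_injOn (fun t => t.2)
      · intro t ht
        have ht2 := (mem_filter.1 ht).2
        have e1 : t.2.1 * t.2.2 = q := congrArg Sigma.fst ht2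
        show t.2 ∈ ((q.divisorsAntidiagonal : Finset (ℕ × ℕ)) : Set (ℕ × ℕ))
        rw [mem_coe, Nat.mem_divisorsAntidiagonal]
        exact ⟨e1, by omega⟩
      · intro t ht t' ht' h
        have ht2 := (mem_filter.1 ht).2
        have ht2' := (mem_filter.1 ht').2
        have e2 : t.1 = l := congrArg (fun y : (_ : ℕ) × ℕ => y.2) ht2
        have e2' : t'.1 = l := congrArg (fun y : (_ : ℕ) × ℕ => y.2) ht2'
        exact Prod.ext (e2.trans e2'.symm) h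
    have h2 : q.divisorsAntidiagonal.card = q.divisors.card := by
      rw [← Nat.map_div_right_divisors, card_map]
    rw [tau]
    rw [h2] at h1
    exact_mod_cast h1
  rw [sum_congr rfl hval, sum_const, nsmul_eq_mul]
  calc (((S.filter (fun t => g t = ⟨q, l⟩)).card : ℕ) : ℝ) * (dk (κ - 1) l / ((l : ℝ) * q))
      ≤ tau q * (dk (κ - 1) l / ((l : ℝ) * q)) := mul_le_mul_of_nonneg_right hcard (by positivity)
    _ = (tau q / (q : ℝ)) * (dk (κ - 1) l / (l : ℝ)) := by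
        field_simp

end Pool.Agent.DK10
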