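import Pool.Agent.DK10.BoxThm
import Pool.Agent.DK10.Part1A
import Pool.Agent.DK10.DkBound

/-!
# DK10-Part1

`part1`.  Apply `boxThm` with `Q = ⌊x^(1/2-ε)⌋₊`, `c = -1`, `W = tau`, `g = dk (κ-1)`; the bounds on `W`, `g`
by `tau_le_rpow`, `dk_le_rpow` with exponent `ε/200` (and `dk_nonneg`).  The main term is at least
`(1-δ) x ms κ (U1 ε) (log x)` by `ms_le_one`.  For the right-hand side: `∑_{l ∣ n} dk (κ-1) l = dk κ n`
(`dk_eq_sum_divisors`); exchange the sums: it is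
`∑_{n ≤ x, n > x^(1-ε/10)} dk κ n ∑_{q ≤ Q, q ∣ n+1} tau q` (`n ≡ -1 [ZMOD q]` iff `q ∣ n+1`), and for such
`n` and `q` one has `q*q ≤ x^(1-2ε) < x^(1-ε/10) < n < n+1`, so the inner sum is at most `TT (n+1)`; the
other `n` contribute nonnegative terms to `∑ dk κ n * TT (n+1)`.
-/

namespace Pool.Agent.DK10

open Finset

private theorem p1_sum {κ x Y : ℝ} (hκ : 1 ≤ κ) {Q : ℕ} (hQ : (Q : ℝ) * Q ≤ Y) :
    ∑ q ∈ Icc 1 Q, tau q *
          ∑ n ∈ (Icc 1 ⌊x⌋₊).filter (fun n : ℕ => Y < (n : ℝ) ∧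
            (n : ℤ) ≡ -1 [ZMOD (q : ℤ)]), ∑ l ∈ n.divisors, dk (κ - 1) l ≤
      ∑ n ∈ Icc 1 ⌊x⌋₊, dk κ n * TT (n + 1) := by
  have h1 : ∀ q ∈ Icc 1 Q, tau q *
          ∑ n ∈ (Icc 1 ⌊x⌋₊).filter (fun n : ℕ => Y < (n : ℝ) ∧
            (n : ℤ) ≡ -1 [ZMOD (q : ℤ)]), ∑ l ∈ n.divisors, dk (κ - 1) l
      = ∑ n ∈ Icc 1 ⌊x⌋₊, if Y < (n : ℝ) ∧ (n : ℤ) ≡ -1 [ZMOD (q : ℤ)] then tau q * dk κ n else 0 := by
    intro q _
    rw [Finset.mul_sum, Finset.sum_filter]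
    refine Finset.sum_congr rfl fun n hn => ?_
    have hn0 : n ≠ 0 := by
      have := (Finset.mem_Icc.1 hn).1
      omega
    rw [← dk_eq_sum_divisors κ hn0]
  rw [Finset.sum_congr rfl h1, Finset.sum_comm]
  refine Finset.sum_le_sum fun n hn => ?_
  rw [← Finset.sum_filter, ← Finset.sum_mul, mul_comm]
  refine mul_le_mul_of_nonneg_left ?_ (dk_nonneg (by linarith) n)
  unfold TT
  refine Finset.sum_le_sum_of_subset_of_nonneg ?_ ?_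
  · intro q hq
    rw [Finset.mem_filter, Finset.mem_Icc] at hq
    obtain ⟨⟨hq1, hqQ⟩, hYn, hmod⟩ := hq
    rw [Finset.mem_filter, Nat.mem_divisors]
    refine ⟨⟨?_, by omega⟩, ?_⟩
    · have h2 : (q : ℤ) ∣ (n : ℤ) + 1 := by
        have h3 := hmod.symm.dvd
        rwa [sub_neg_eq_add] at h3
      exact_mod_cast h2
    · have h2 : (q : ℝ) * q ≤ Q * Q := by
        have h3 : (q : ℝ) ≤ Q := by exact_mod_cast hqQ
        exact mul_le_mul h3 h3 (by positivity) (by positivity)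
      have h4 : (q : ℝ) * q < (n : ℝ) + 1 := by linarith
      exact_mod_cast h4
  · intro q _ _
    unfold tau
    positivity

theorem part1 {κ ε δ : ℝ} (hκ : 2 ≤ κ) (hε : 0 < ε) (hε' : ε < 1 / 20) (hδ : 0 < δ) (hδ' : δ < 1) :
    ∀ᶠ x : ℝ in Filter.atTop,
      (1 - δ) * x * ms κ (U1 ε) (Real.log x) - x ^ (1 - ε / 50) ≤
        ∑ n ∈ Icc 1 ⌊x⌋₊, dk κ n * TT (n + 1) := by
  filter_upwards [boxThm hε hε' hδ hδ', tau_le_rpow (θ := ε / 200) (by positivity),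
    dk_le_rpow (κ - 1) (by linarith) (θ := ε / 200) (by positivity), Filter.eventually_gt_atTop (1 : ℝ)]
    with x hbox htau hdk hx
  have hx0 : (0 : ℝ) < x := by linarith
  have hQ : ((⌊x ^ (1 / 2 - ε)⌋₊ : ℕ) : ℝ) ≤ x ^ (1 / 2 - ε) := Nat.floor_le (by positivity)
  have hQx : x ^ (1 / 2 - ε) ≤ x := by
    calc x ^ (1 / 2 - ε) ≤ x ^ (1 : ℝ) := Real.rpow_le_rpow_of_exponent_le hx.le (by linarith)
      _ = x := Real.rpow_one x
  have h := hbox ⌊x ^ (1 / 2 - ε)⌋₊ (-1) tau (dk (κ - 1)) (Or.inr rfl) hQ ?_ ?_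
  · have hms := ms_le_one (κ := κ) (ε := ε) (by linarith) hε hε' hx
    have h2 : (1 - δ) * x * ms κ (U1 ε) (Real.log x) ≤ (1 - δ) * x *
        ∑ q ∈ Icc 1 ⌊x ^ (1 / 2 - ε)⌋₊, (tau q / (q : ℝ)) *
          ∑ l ∈ (Icc 1 ⌊x⌋₊).filter (fun l : ℕ => x ^ (2 * ε) < (l : ℝ) ∧
            (l : ℝ) < x ^ (1 - 3 * ε) ∧ Nat.Coprime l q), dk (κ - 1) l / (l : ℝ) :=
      mul_le_mul_of_nonneg_left hms (mul_nonneg (by linarith) hx0.le)
    have h3 : ((⌊x ^ (1 / 2 - ε)⌋₊ : ℕ) : ℝ) * (⌊x ^ (1 / 2 - ε)⌋₊ : ℕ) ≤ x ^ (1 - ε / 10) := by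
      calc ((⌊x ^ (1 / 2 - ε)⌋₊ : ℕ) : ℝ) * (⌊x ^ (1 / 2 - ε)⌋₊ : ℕ)
          ≤ x ^ (1 / 2 - ε) * x ^ (1 / 2 - ε) := mul_le_mul hQ hQ (by positivity) (by positivity)
        _ = x ^ (1 - 2 * ε) := by
          rw [← Real.rpow_add hx0]
          congr 1
          ring
        _ ≤ x ^ (1 - ε / 10) := Real.rpow_le_rpow_of_exponent_le hx.le (by linarith)
    have h4 : x ^ (1 - ε / 10) < x := by
      calc x ^ (1 - ε / 10) < x ^ (1 : ℝ) := Real.rpow_lt_rpow_of_exponent_lt hx (by linarith)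
        _ = x := Real.rpow_one x
    have h5 := p1_sum (κ := κ) (x := x) (Y := x ^ (1 - ε / 10)) (by linarith) h3
    linarith
  · intro q hq
    rw [Finset.mem_Icc] at hq
    refine ⟨by unfold tau; positivity, htau q (by omega) ?_⟩
    have : (q : ℝ) ≤ (⌊x ^ (1 / 2 - ε)⌋₊ : ℕ) := by exact_mod_cast hq.2
    linarith
  · intro l hl
    rw [Finset.mem_Icc] at hl
    refine ⟨dk_nonneg (by linarith) l, hdk l (by omega) ?_⟩
    have : (l : ℝ) ≤ (⌊x⌋₊ : ℕ) := by exact_mod_cast hl.2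
    exact this.trans (Nat.floor_le hx0.le)

end Pool.Agent.DK10
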