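import Pool.Agent.DK10.DkConv

/-!
# DK10-Tup: sums over tuples with given product

`tup ι n` is the finite set of all functions `t : ι → ℕ` with `∏ i, t i = n` (for `n ≠ 0`).

`tup_sum`: `∑_{t ∈ tup ι n} ∏_i d_θ(t i) = d_{|ι| θ}(n)`.  Induction on the finite type
(`Fintype.induction_empty_option`, i.e. types `Option α`, with `Equiv.piOptionEquivProd`, and
invariance under `Equiv`), with `dk_add` (and `dk 0 n = [n = 1]` in the empty case: for `n ≥ 2` the product
defining `dk 0 n` has a factor `(0+0)/(0+1) = 0`).  Another way: in the commutative monoid algebra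
`MonoidAlgebra ℝ ℕ` (multiplicative monoid `ℕ`) put `F θ = ∑ a ∈ n.divisors, single a (dk θ a)`;
the coefficient at `n` of `∏_i F θ` is the left-hand side by `Finset.prod_univ_sum`.
(You may also first prove it for `ι = Fin d` by induction on `d` with `Fin.consEquiv`, and transport.)
-/

namespace Pool.Agent.DK10

open Finset

/-- Tuples of positive integers with product `n`. -/
def tup (ι : Type) [Fintype ι] [DecidableEq ι] (n : ℕ) : Finset (ι → ℕ) :=
  (Fintype.piFinset (fun _ : ι => n.divisors)).filter (fun t => ∏ i, t i = n)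

theorem mem_tup {ι : Type} [Fintype ι] [DecidableEq ι] {n : ℕ} (hn : n ≠ 0) {t : ι → ℕ} :
    t ∈ tup ι n ↔ ∏ i, t i = n := by
  unfold tup
  rw [Finset.mem_filter, Fintype.mem_piFinset]
  refine ⟨fun h => h.2, fun h => ⟨fun i => ?_, h⟩⟩
  rw [Nat.mem_divisors]
  exact ⟨h ▸ Finset.dvd_prod_of_mem t (Finset.mem_univ i), hn⟩

private lemma dk_zero_left {n : ℕ} (hn : n ≠ 0) : dk 0 n = if n = 1 then 1 else 0 := by
  split_ifs with h
  · rw [h, dk_one_right]
  · obtain ⟨p, hp, hpn⟩ := Nat.exists_prime_and_dvd h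
    unfold dk
    apply Finset.prod_eq_zero (i := p) (Nat.mem_primeFactors.mpr ⟨hp, hpn, hn⟩)
    apply Finset.prod_eq_zero (i := 0)
    · rw [Finset.mem_range]
      exact hp.factorization_pos_of_dvd hn hpn
    · simp

private lemma tup_sum_fin (θ : ℝ) (d : ℕ) : ∀ {n : ℕ}, n ≠ 0 →
    ∑ t ∈ tup (Fin d) n, ∏ i, dk θ (t i) = dk ((d : ℝ) * θ) n := by
  induction d with
  | zero =>
    intro n hn
    rw [Nat.cast_zero, zero_mul, dk_zero_left hn]
    by_cases h : n = 1
    · rw [if_pos h]
      have h2 : tup (Fin 0) n = {fun i => i.elim0} := by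
        ext t
        rw [mem_tup hn, Finset.mem_singleton]
        constructor
        · intro _
          exact funext fun i => i.elim0
        · intro _
          simp [h]
      rw [h2]
      simp
    · rw [if_neg h]
      have h2 : tup (Fin 0) n = ∅ := by
        ext t
        rw [mem_tup hn]
        simp [Ne.symm h]
      rw [h2]
      simp
  | succ d ih =>
    intro n hn
    have e1 : ((d + 1 : ℕ) : ℝ) * θ = θ + (d : ℝ) * θ := by
      push_cast; ring
    rw [e1, dk_add θ _ hn]
    have e2 : ∀ x ∈ n.divisorsAntidiagonal, dk θ x.1 * dk ((d : ℝ) * θ) x.2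
        = ∑ t ∈ tup (Fin d) x.2, dk θ x.1 * ∏ i, dk θ (t i) := by
      intro x hx
      have hx2 := Nat.mem_divisorsAntidiagonal.mp hx
      have h0 : x.2 ≠ 0 := by
        rintro h
        apply hx2.2
        rw [← hx2.1, h, mul_zero]
      rw [← ih h0, Finset.mul_sum]
    rw [Finset.sum_congr rfl e2, Finset.sum_sigma']
    refine Finset.sum_bij' (fun t _ => ⟨(t 0, ∏ i : Fin d, t i.succ), fun i => t i.succ⟩)
      (fun s _ => Fin.cons s.1.1 s.2) ?_ ?_ ?_ ?_ ?_
    · intro t ht
      rw [mem_tup hn, Fin.prod_univ_succ] at ht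
      have h0 : (∏ i : Fin d, t i.succ) ≠ 0 := by
        intro h
        apply hn
        rw [← ht, h, mul_zero]
      rw [Finset.mem_sigma, Nat.mem_divisorsAntidiagonal]
      refine ⟨⟨ht, hn⟩, ?_⟩
      show _ ∈ tup (Fin d) (∏ i : Fin d, t i.succ)
      rw [mem_tup h0]
    · rintro ⟨⟨a, b⟩, t⟩ hs
      rw [Finset.mem_sigma, Nat.mem_divisorsAntidiagonal] at hs
      obtain ⟨⟨h1, _⟩, h2⟩ := hs
      have h1' : a * b = n := h1
      have h0 : b ≠ 0 := by
        rintro h
        apply hn
        rw [← h1', h, mul_zero]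
      have h2' : t ∈ tup (Fin d) b := h2
      rw [mem_tup h0] at h2'
      rw [mem_tup hn, Fin.prod_univ_succ]
      simp only [Fin.cons_zero, Fin.cons_succ]
      rw [h2']
      exact h1'
    · intro t _
      exact Fin.cons_self_tail t
    · rintro ⟨⟨a, b⟩, t⟩ hs
      rw [Finset.mem_sigma, Nat.mem_divisorsAntidiagonal] at hs
      obtain ⟨⟨h1, _⟩, h2⟩ := hs
      have h1' : a * b = n := h1
      have h0 : b ≠ 0 := by
        rintro h
        apply hn
        rw [← h1', h, mul_zero]
      have h2' : t ∈ tup (Fin d) b := h2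
      rw [mem_tup h0] at h2'
      simp only [Fin.cons_zero, Fin.cons_succ]
      rw [h2']
    · intro t _
      rw [Fin.prod_univ_succ]

theorem tup_sum (ι : Type) [Fintype ι] [DecidableEq ι] (θ : ℝ) {n : ℕ} (hn : n ≠ 0) :
    ∑ t ∈ tup ι n, ∏ i, dk θ (t i) = dk ((Fintype.card ι : ℝ) * θ) n := by
  rw [← tup_sum_fin θ (Fintype.card ι) hn]
  let e := Fintype.equivFin ι
  refine Finset.sum_bij' (fun t _ => fun i => t (e.symm i)) (fun t _ => fun i => t (e i))
    ?_ ?_ ?_ ?_ ?_
  · intro t ht
    rw [mem_tup hn] at ht ⊢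
    rw [← ht]
    exact Equiv.prod_comp e.symm t
  · intro t ht
    rw [mem_tup hn] at ht ⊢
    rw [← ht]
    exact Equiv.prod_comp e t
  · intro t _
    funext i
    simp
  · intro t _
    funext i
    simp
  · intro t _
    exact (Equiv.prod_comp e.symm (fun i => dk θ (t i))).symm

end Pool.Agent.DK10
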