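import Pool.Agent.DK10.Tup

/-!
# DK10-TupBlock: grouping the tuples by the product over a block

`tup_block`: split a tuple into its restrictions to `B` and to the complement
(`Equiv.piEquivPiSubtypeProd (fun i => i ∈ B) (fun _ => ℕ)`), so that the sum is
`∑_{b c = n} φ b (∑_{t ∈ tup {i // i ∈ B} b} ∏ d_θ)(∑_{t ∈ tup {i // i ∉ B} c} ∏ d_θ)`, and apply
`tup_sum` twice (`Fintype.card_coe`, `Fintype.card_subtype_compl`), with
`∑ over n.divisorsAntidiagonal = ∑ over b ∈ n.divisors with c = n/b`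
(`Nat.sum_divisorsAntidiagonal`).  The product over `univ` splits by
`Fintype.prod_subtype_mul_prod_subtype` or `Finset.prod_mul_prod_compl` + `Finset.prod_coe_sort`.
-/

namespace Pool.Agent.DK10

open Finset

private theorem tb_split {M : Type} [CommMonoid M] {ι : Type} [Fintype ι] [DecidableEq ι] (B : Finset ι)
    (t : ι → M) : (∏ i : {i // i ∈ B}, t i) * ∏ i : {i // i ∉ B}, t i = ∏ i, t i := by
  rw [← prod_subtype B (fun x => Iff.rfl) t, ← prod_subtype Bᶜ (fun x => mem_compl) t, prod_mul_prod_compl]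

theorem tup_block (ι : Type) [Fintype ι] [DecidableEq ι] (B : Finset ι) (θ : ℝ) {n : ℕ}
    (hn : n ≠ 0) (φ : ℕ → ℝ) :
    ∑ t ∈ tup ι n, (∏ i, dk θ (t i)) * φ (∏ i ∈ B, t i) =
      ∑ b ∈ n.divisors, φ b * dk ((B.card : ℝ) * θ) b *
        dk (((Fintype.card ι : ℝ) - (B.card : ℝ)) * θ) (n / b) := by
  have hc1 : (Fintype.card {i // i ∈ B} : ℝ) = B.card := by
    rw [Fintype.card_of_subtype B (fun x => Iff.rfl)]
  have hc2 : (Fintype.card {i // i ∉ B} : ℝ) = (Fintype.card ι : ℝ) - (B.card : ℝ) := by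
    rw [Fintype.card_of_subtype Bᶜ (fun x => mem_compl), card_compl, Nat.cast_sub (card_le_univ B)]
  have hprod : ∀ t : ι → ℕ, ∏ i ∈ B, t i = ∏ i : {i // i ∈ B}, t i := fun t =>
    prod_subtype B (fun x => Iff.rfl) t
  have hsplit : ∀ t : ι → ℕ, (∏ i : {i // i ∈ B}, t i) * ∏ i : {i // i ∉ B}, t i = ∏ i, t i := fun t =>
    tb_split B t
  have hsplitR : ∀ t : ι → ℝ, (∏ i : {i // i ∈ B}, t i) * ∏ i : {i // i ∉ B}, t i = ∏ i, t i := fun t =>
    tb_split B t
  have hmaps : ∀ t ∈ tup ι n, ∏ i ∈ B, t i ∈ n.divisors := by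
    intro t ht
    rw [mem_tup hn] at ht
    rw [Nat.mem_divisors]
    refine ⟨?_, hn⟩
    rw [hprod, ← ht, ← hsplit t]
    exact Dvd.intro _ rfl
  rw [← sum_fiberwise_of_maps_to hmaps]
  refine sum_congr rfl fun b hb => ?_
  rw [Nat.mem_divisors] at hb
  have hb0 : b ≠ 0 := fun h => hn (by rw [h] at hb; exact Nat.eq_zero_of_zero_dvd hb.1)
  have hbn : n / b ≠ 0 := by
    intro h
    have := Nat.div_mul_cancel hb.1
    rw [h, zero_mul] at this
    exact hn this.symm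
  rw [← hc2, ← hc1, ← tup_sum {i // i ∈ B} θ hb0, ← tup_sum {i // i ∉ B} θ hbn, mul_assoc, sum_mul_sum,
    ← sum_product', mul_sum]
  refine sum_nbij' (fun t => (fun i => t i, fun i => t i))
    (fun u i => if h : i ∈ B then u.1 ⟨i, h⟩ else u.2 ⟨i, h⟩) ?_ ?_ ?_ ?_ ?_
  · intro t ht
    rw [mem_filter, mem_tup hn, hprod] at ht
    rw [mem_product, mem_tup hb0, mem_tup hbn]
    refine ⟨ht.2, ?_⟩
    have h1 := hsplit t
    rw [ht.1, ht.2] at h1
    show ∏ i : {i // i ∉ B}, t i = n / b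
    rw [← h1, Nat.mul_div_cancel_left _ (Nat.pos_of_ne_zero hb0)]
  · intro u hu
    rw [mem_product, mem_tup hb0, mem_tup hbn] at hu
    have h1 : ∏ i : {i // i ∈ B}, (if h : (i : ι) ∈ B then u.1 ⟨i, h⟩ else u.2 ⟨i, h⟩) = b := by
      rw [← hu.1]
      refine prod_congr rfl fun i _ => ?_
      rw [dif_pos i.2]
    have h2 : ∏ i : {i // i ∉ B}, (if h : (i : ι) ∈ B then u.1 ⟨i, h⟩ else u.2 ⟨i, h⟩) = n / b := by
      rw [← hu.2]
      refine prod_congr rfl fun i _ => ?_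
      rw [dif_neg i.2]
    rw [mem_filter, mem_tup hn, hprod]
    refine ⟨?_, h1⟩
    rw [← hsplit, h1, h2, Nat.mul_div_cancel' hb.1]
  · intro t _
    funext i
    by_cases h : i ∈ B
    · simp only [h, dif_pos]
    · simp only [h, dif_neg, not_false_eq_true]
  · intro u _
    refine Prod.ext ?_ ?_
    · funext i
      show (if h : (i : ι) ∈ B then u.1 ⟨i, h⟩ else u.2 ⟨i, h⟩) = u.1 i
      rw [dif_pos i.2]
    · funext i
      show (if h : (i : ι) ∈ B then u.1 ⟨i, h⟩ else u.2 ⟨i, h⟩) = u.2 i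
      rw [dif_neg i.2]
  · intro t ht
    rw [mem_filter] at ht
    rw [ht.2, ← hsplitR (fun i => dk θ (t i)), mul_comm]

end Pool.Agent.DK10
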