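import Pool.Agent.DK10.ZDefs

/-!
# DK10-ZBinom: the binomial series, and the Euler product of `zr`

`hasSum_binom`: from `Real.one_div_one_sub_rpow_hasFPowerSeriesOnBall_zero ρ` (module
`Mathlib.Analysis.Analytic.Binomial`): `1/(1-x)^ρ = ∑ Ring.choose (ρ+n-1) n x^n` for `|x| < 1`, with
`Ring.choose (ρ + n - 1) n = ∏_{i<n} (ρ+i)/(i+1)` (`Ring.choose_eq_...`, `descPochhammer`, or prove by
`Ring.multichoose`; induction on `n`).
`zr_pos`: the term `n = 1` is `1` and the series is summable for `s > 1` (`Real.summable_one_div_nat_rpow`).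
`zr_euler`: `EulerProduct.eulerProduct_completely_multiplicative_hasProd` for the monoid-with-zero
homomorphism `n ↦ (n : ℝ)^(-s)` (`0^(-s) = 0` as `s ≠ 0`).
`zr_rpow_euler`: apply `x ↦ x^ρ`: finite products of positive reals commute with `rpow`
(`Real.finset_prod_rpow`), `rpow` is continuous at `zr s > 0`; `((1-x)⁻¹)^ρ = (1-x)^(-ρ)`.
-/

namespace Pool.Agent.DK10

open Finset Filter Topology

private theorem zb_coef (ρ : ℝ) (e : ℕ) :
    Ring.choose (ρ + (e : ℝ) - 1) e = ∏ i ∈ range e, (ρ + (i : ℝ)) / ((i : ℝ) + 1) := by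
  rw [← Ring.multichoose_eq]
  have h1 := Ring.factorial_nsmul_multichoose_eq_ascPochhammer ρ e
  rw [Polynomial.ascPochhammer_smeval_eq_eval, nsmul_eq_mul] at h1
  have h2 : (ascPochhammer ℝ e).eval ρ = (e.factorial : ℝ) * ∏ i ∈ range e, (ρ + (i : ℝ)) / ((i : ℝ) + 1) := by
    clear h1
    induction e with
    | zero => simp
    | succ e ih =>
      rw [ascPochhammer_succ_eval, ih, Finset.prod_range_succ, Nat.factorial_succ]
      have : ((e : ℝ) + 1) ≠ 0 := by positivity
      push_cast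
      field_simp
  rw [h2] at h1
  have h3 : (e.factorial : ℝ) ≠ 0 := by exact_mod_cast e.factorial_ne_zero
  exact mul_left_cancel₀ h3 h1

theorem hasSum_binom (ρ : ℝ) {x : ℝ} (hx0 : 0 ≤ x) (hx : x < 1) :
    HasSum (fun e : ℕ => (∏ i ∈ range e, (ρ + (i : ℝ)) / ((i : ℝ) + 1)) * x ^ e)
      ((1 - x) ^ (-ρ)) := by
  have h := (Real.one_div_one_sub_rpow_hasFPowerSeriesOnBall_zero ρ)
  have hmem : x ∈ Metric.eball (0 : ℝ) 1 := by
    rw [Metric.mem_eball, edist_dist, dist_zero_right, Real.norm_of_nonneg hx0]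
    exact ENNReal.ofReal_lt_one.2 hx
  have h1 := h.hasSum hmem
  simp only [zero_add] at h1
  have h2 : (1 : ℝ) / (1 - x) ^ ρ = (1 - x) ^ (-ρ) := by
    rw [Real.rpow_neg (by linarith), one_div]
  rw [h2] at h1
  have h3 : (fun e : ℕ => (∏ i ∈ range e, (ρ + (i : ℝ)) / ((i : ℝ) + 1)) * x ^ e) =
      fun n => (FormalMultilinearSeries.ofScalars ℝ (fun n => Ring.choose (ρ + (n : ℝ) - 1) n) n) fun _ => x := by
    funext e
    rw [← zb_coef, FormalMultilinearSeries.ofScalars_apply_eq, smul_eq_mul]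
  rw [h3]
  exact h1

theorem zr_pos {s : ℝ} (hs : 1 < s) : 0 < zr s := by
  have hsum : Summable (fun n : ℕ => 1 / (n : ℝ) ^ s) := Real.summable_one_div_nat_rpow.2 hs
  unfold zr
  refine hsum.tsum_pos (fun n => by positivity) 1 ?_
  simp

theorem zr_euler {s : ℝ} (hs : 1 < s) :
    HasProd (fun p : Nat.Primes => (1 - ((p : ℕ) : ℝ) ^ (-s))⁻¹) (zr s) := by
  have hs0 : -s ≠ 0 := by linarith
  let f : ℕ →*₀ ℝ :=
    { toFun := fun n => (n : ℝ) ^ (-s)
      map_zero' := by simp [Real.zero_rpow hs0]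
      map_one' := by simp
      map_mul' := fun m n => by
        push_cast
        exact Real.mul_rpow (Nat.cast_nonneg m) (Nat.cast_nonneg n) }
  have hf : ∀ n : ℕ, f n = 1 / (n : ℝ) ^ s := by
    intro n
    show (n : ℝ) ^ (-s) = 1 / (n : ℝ) ^ s
    rw [Real.rpow_neg (Nat.cast_nonneg n), one_div]
  have hsum : Summable (fun n : ℕ => ‖f n‖) := by
    have : (fun n : ℕ => ‖f n‖) = fun n : ℕ => 1 / (n : ℝ) ^ s := by
      funext n
      rw [hf, Real.norm_of_nonneg (by positivity)]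
    rw [this]
    exact Real.summable_one_div_nat_rpow.2 hs
  have h := EulerProduct.eulerProduct_completely_multiplicative_hasProd hsum
  have h1 : ∑' n : ℕ, f n = zr s := by
    unfold zr
    exact tsum_congr hf
  rw [h1] at h
  exact h

private theorem zb_lt {s : ℝ} (hs : 1 < s) (p : Nat.Primes) : 0 < 1 - ((p : ℕ) : ℝ) ^ (-s) := by
  have h1 : (1 : ℝ) < ((p : ℕ) : ℝ) := by exact_mod_cast p.2.one_lt
  have := Real.rpow_lt_one_of_one_lt_of_neg h1 (show -s < 0 by linarith)
  linarith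

theorem zr_rpow_euler {s : ℝ} (hs : 1 < s) (ρ : ℝ) :
    HasProd (fun p : Nat.Primes => (1 - ((p : ℕ) : ℝ) ^ (-s)) ^ (-ρ)) (zr s ^ ρ) := by
  have h := zr_euler hs
  unfold HasProd at h ⊢
  have h1 := ((Real.continuousAt_rpow_const (zr s) ρ (Or.inl (zr_pos hs).ne')).tendsto).comp h
  refine h1.congr (fun t => ?_)
  simp only [Function.comp_apply]
  rw [← Real.finsetProd_rpow]
  · refine Finset.prod_congr rfl fun p _ => ?_
    rw [Real.inv_rpow (zb_lt hs p).le, Real.rpow_neg (zb_lt hs p).le]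
  · intro p _
    exact (inv_pos.2 (zb_lt hs p)).le

end Pool.Agent.DK10
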