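import Pool.Agent.DK10.ZDefs

/-!
# DK10-ZCop: the sum over the integers coprime to `a`

Proof.  Induction over finite sets `P` of primes of the statement
`HasSum (fun m => if (∀ p ∈ P, ¬ p ∣ m) then 1/m^s else 0) (zr s * ∏ p ∈ P, (1 - p^(-s)))`.
`P = ∅`: definition of `zr` and summability (`Real.summable_one_div_nat_rpow`).
Step: for a new prime `p`, `[∀ q ∈ P ∪ {p}, ¬ q ∣ m] = [∀ q ∈ P, ¬ q ∣ m] - [p ∣ m ∧ ∀ q ∈ P, ¬ q ∣ m]`, and
for `m = p m'`, `q ∣ p m' ↔ q ∣ m'` for the primes `q ≠ p`, and `1/(p m')^s = p^(-s) · 1/m'^s`; the sum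
over the multiples of `p` is a sum over `m'` (injective map `m' ↦ p m'`,
`Function.Injective.hasSum_iff` / `hasSum_iff` with support in the range).
Finally `Nat.Coprime a m ↔ ∀ p ∈ a.primeFactors, ¬ p ∣ m` for `a ≠ 0`.
Alternative: the Euler product of the completely multiplicative function
`m ↦ if Coprime a m then m^(-s) else 0` compared with the one of `zr`.
-/

namespace Pool.Agent.DK10

open Finset Filter Topology

private theorem zcop_aux {s : ℝ} (hs : 1 < s) (P : Finset ℕ) : (∀ p ∈ P, p.Prime) →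
    HasSum (fun m : ℕ => if (∀ p ∈ P, ¬ p ∣ m) then 1 / (m : ℝ) ^ s else 0)
      (zr s * ∏ p ∈ P, (1 - (p : ℝ) ^ (-s))) := by
  classical
  induction P using Finset.induction_on with
  | empty =>
    intro _
    simp only [notMem_empty, false_imp_iff, implies_true, if_true, prod_empty, mul_one]
    exact (Real.summable_one_div_nat_rpow.2 hs).hasSum
  | insert p P hp ih =>
    intro hP
    have hpp : p.Prime := hP p (mem_insert_self _ _)
    have hP' : ∀ q ∈ P, q.Prime := fun q hq => hP q (mem_insert_of_mem hq)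
    have h1 := ih hP'
    have hp0 : (0 : ℝ) < p := by exact_mod_cast hpp.pos
    have hinj : Function.Injective (fun m : ℕ => p * m) := fun a b h => Nat.eq_of_mul_eq_mul_left hpp.pos h
    have h2 : HasSum (fun m : ℕ => if p ∣ m then (if (∀ q ∈ P, ¬ q ∣ m) then 1 / (m : ℝ) ^ s else 0) else 0)
        ((p : ℝ) ^ (-s) * (zr s * ∏ p ∈ P, (1 - (p : ℝ) ^ (-s)))) := by
      rw [← Function.Injective.hasSum_iff hinj]
      · have h3 := h1.mul_left ((p : ℝ) ^ (-s))
        refine h3.congr_fun ?_ |> fun h => h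
        intro m
        simp only [Function.comp_apply]
        rw [if_pos (Dvd.intro _ rfl)]
        have h4 : (∀ q ∈ P, ¬ q ∣ p * m) ↔ (∀ q ∈ P, ¬ q ∣ m) := by
          refine forall₂_congr fun q hq => not_congr ?_
          rw [(hP' q hq).dvd_mul]
          refine or_iff_right fun h => ?_
          have := (Nat.prime_dvd_prime_iff_eq (hP' q hq) hpp).1 h
          exact hp (this ▸ hq)
        simp only [h4]
        split_ifs
        · push_cast
          rw [Real.mul_rpow hp0.le (Nat.cast_nonneg m), Real.rpow_neg hp0.le]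
          simp only [one_div, mul_inv]
        · rw [mul_zero]
      · intro m hm
        rw [if_neg]
        rintro ⟨k, rfl⟩
        exact hm ⟨k, rfl⟩
    have h5 := h1.sub h2
    rw [prod_insert hp]
    have h6 : zr s * ((1 - (p : ℝ) ^ (-s)) * ∏ x ∈ P, (1 - (x : ℝ) ^ (-s))) =
        zr s * ∏ x ∈ P, (1 - (x : ℝ) ^ (-s)) - (p : ℝ) ^ (-s) * (zr s * ∏ x ∈ P, (1 - (x : ℝ) ^ (-s))) := by
      ring
    rw [h6]
    refine h5.congr_fun ?_ |> fun h => h
    intro m
    by_cases hm : p ∣ m
    · rw [if_pos hm, sub_self, if_neg]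
      intro h
      exact h p (mem_insert_self _ _) hm
    · rw [if_neg hm, sub_zero]
      simp only [forall_mem_insert, hm, not_false_eq_true, true_and]

theorem zcop {s : ℝ} (hs : 1 < s) {a : ℕ} (ha : a ≠ 0) :
    HasSum (fun m : ℕ => if Nat.Coprime a m then 1 / (m : ℝ) ^ s else 0)
      (zr s * ∏ p ∈ a.primeFactors, (1 - (p : ℝ) ^ (-s))) := by
  have h := zcop_aux hs a.primeFactors (fun p hp => Nat.prime_of_mem_primeFactors hp)
  have h1 : ∀ m : ℕ, Nat.Coprime a m ↔ ∀ p ∈ a.primeFactors, ¬ p ∣ m := by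
    intro m
    constructor
    · intro hc p hp hpm
      have hp1 := Nat.prime_of_mem_primeFactors hp
      have hp2 := Nat.dvd_of_mem_primeFactors hp
      exact Nat.not_coprime_of_dvd_of_dvd hp1.one_lt hp2 hpm hc
    · intro hc
      refine Nat.coprime_of_dvd fun k hk hka hkm => ?_
      exact hc k (Nat.mem_primeFactors.2 ⟨hk, hka, ha⟩) hkm
  simp only [h1]
  exact h

end Pool.Agent.DK10
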