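import Pool.Agent.DK10.Defs

/-!
# DK10-ZDefs: definitions for the zeta function computations
-/

namespace Pool.Agent.DK10

open Finset

/-- The real zeta function as a sum (for `s > 1`). -/
noncomputable def zr (s : ℝ) : ℝ := ∑' n : ℕ, 1 / (n : ℝ) ^ s

/-- The local factor. -/
noncomputable def hfac (κ x y z : ℝ) : ℝ := 1 - (1 - (1 - x) ^ (κ - 1)) * (1 - (1 - y) * (1 - z))

/-- The product of the local factors. -/
noncomputable def HH (κ α β γ : ℝ) : ℝ :=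
  ∏' p : Nat.Primes, hfac κ (((p : ℕ) : ℝ) ^ (-(1 + α))) (((p : ℕ) : ℝ) ^ (-(1 + β)))
    (((p : ℕ) : ℝ) ^ (-(1 + γ)))

/-- The general term of the sum over `a`. -/
noncomputable def aterm (κ α : ℝ) (θ : ℕ → ℝ) (a : ℕ) : ℝ :=
  if a = 0 then 0 else dk (κ - 1) a * (a : ℝ) ^ (-(1 + α)) * ∏ p ∈ a.primeFactors, θ p

/-- The twisting factor at the prime `p`. -/
noncomputable def thet (β γ : ℝ) (p : ℕ) : ℝ :=
  (1 - (p : ℝ) ^ (-(1 + β))) * (1 - (p : ℝ) ^ (-(1 + γ)))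

end Pool.Agent.DK10
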