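import Pool.Agent.DK10.ZBinom
import Pool.Agent.DK10.DkBound

/-!
# DK10-ZEuler: the Euler product of the sum over `a`

`aterm_summable`: `0 ≤ aterm κ α θ a ≤ dk (κ-1) a * a^(-(1+α)) ≤ C a^(α/2) a^(-(1+α)) = C a^(-(1+α/2))`
(`dk_bound`, `0 ≤ θ p ≤ 1` on primes), `Real.summable_nat_rpow`.
`aterm_euler`: `EulerProduct.eulerProduct_hasProd` for `f = aterm κ α θ` : `f 0 = 0`, `f 1 = 1`,
multiplicative on coprime arguments (`dk_mul`, `Real.mul_rpow`, `Nat.Coprime.primeFactors_mul` and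
disjointness).  Local factor: `∑' e, f (p^e) = 1 + ∑_{e ≥ 1} P_e x^e θ p`, where
`P_e = ∏_{i<e} (κ-1+i)/(i+1)` (`dk_prime_pow`), `x = p^(-(1+α)) < 1`, and
`∑_{e ≥ 1} P_e x^e = (1-x)^(-(κ-1)) - 1` by `hasSum_binom`.
-/

namespace Pool.Agent.DK10

open Finset Filter Topology

theorem aterm_nonneg {κ α : ℝ} (hκ : 1 ≤ κ) {θ : ℕ → ℝ}
    (hθ : ∀ p : ℕ, p.Prime → 0 ≤ θ p ∧ θ p ≤ 1) (a : ℕ) : 0 ≤ aterm κ α θ a := by
  unfold aterm
  split_ifs with h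
  · exact le_rfl
  · refine mul_nonneg (mul_nonneg (dk_nonneg (by linarith) a) (Real.rpow_nonneg (by positivity) _)) ?_
    exact prod_nonneg fun p hp => (hθ p (Nat.prime_of_mem_primeFactors hp)).1

theorem aterm_summable {κ α : ℝ} (hκ : 1 ≤ κ) (hα : 0 < α) {θ : ℕ → ℝ}
    (hθ : ∀ p : ℕ, p.Prime → 0 ≤ θ p ∧ θ p ≤ 1) : Summable (aterm κ α θ) := by
  obtain ⟨C, hC, hb⟩ := dk_bound (κ - 1) (by linarith) (half_pos hα)
  have hs : Summable (fun n : ℕ => C * (n : ℝ) ^ (-(1 + α / 2))) :=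
    (Real.summable_nat_rpow.2 (by linarith)).mul_left C
  refine Summable.of_nonneg_of_le (aterm_nonneg hκ hθ) (fun a => ?_) hs
  unfold aterm
  split_ifs with h
  · positivity
  · have ha : (0 : ℝ) < (a : ℝ) := by exact_mod_cast Nat.pos_of_ne_zero h
    have h1 : ∏ p ∈ a.primeFactors, θ p ≤ 1 :=
      prod_le_one (fun p hp => (hθ p (Nat.prime_of_mem_primeFactors hp)).1)
        (fun p hp => (hθ p (Nat.prime_of_mem_primeFactors hp)).2)
    have h2 : 0 ≤ dk (κ - 1) a * (a : ℝ) ^ (-(1 + α)) :=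
      mul_nonneg (dk_nonneg (by linarith) a) (Real.rpow_nonneg ha.le _)
    calc dk (κ - 1) a * (a : ℝ) ^ (-(1 + α)) * ∏ p ∈ a.primeFactors, θ p
        ≤ dk (κ - 1) a * (a : ℝ) ^ (-(1 + α)) * 1 := mul_le_mul_of_nonneg_left h1 h2
      _ = dk (κ - 1) a * (a : ℝ) ^ (-(1 + α)) := mul_one _
      _ ≤ (C * (a : ℝ) ^ (α / 2)) * (a : ℝ) ^ (-(1 + α)) :=
          mul_le_mul_of_nonneg_right (hb a h) (Real.rpow_nonneg ha.le _)
      _ = C * (a : ℝ) ^ (-(1 + α / 2)) := by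
          rw [mul_assoc, ← Real.rpow_add ha]
          congr 2
          ring

private lemma zeu_one (κ α : ℝ) (θ : ℕ → ℝ) : aterm κ α θ 1 = 1 := by
  unfold aterm
  rw [if_neg one_ne_zero, dk_one_right]
  simp

private lemma zeu_mul (κ α : ℝ) (θ : ℕ → ℝ) {m n : ℕ} (h : m.Coprime n) :
    aterm κ α θ (m * n) = aterm κ α θ m * aterm κ α θ n := by
  unfold aterm
  rcases Nat.eq_zero_or_pos m with rfl | hm
  · simp
  rcases Nat.eq_zero_or_pos n with rfl | hn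
  · simp
  rw [if_neg (mul_pos hm hn).ne', if_neg hm.ne', if_neg hn.ne', dk_mul _ h, Nat.cast_mul,
    Real.mul_rpow (by positivity) (by positivity), h.primeFactors_mul,
    prod_union h.disjoint_primeFactors]
  ring

private lemma zeu_pow (κ α : ℝ) (θ : ℕ → ℝ) {p : ℕ} (hp : p.Prime) (e : ℕ) :
    aterm κ α θ (p ^ e) =
      θ p * ((∏ i ∈ range e, ((κ - 1) + (i : ℝ)) / ((i : ℝ) + 1)) *
        ((p : ℝ) ^ (-(1 + α))) ^ e) + (if e = 0 then 1 - θ p else 0) := by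
  unfold aterm
  rw [if_neg (pow_pos hp.pos e).ne', dk_prime_pow _ hp, Nat.cast_pow]
  have h1 : ((p : ℝ) ^ e) ^ (-(1 + α)) = ((p : ℝ) ^ (-(1 + α))) ^ e := by
    rw [← Real.rpow_natCast, ← Real.rpow_natCast, ← Real.rpow_mul (by positivity),
      ← Real.rpow_mul (by positivity), mul_comm]
  rw [h1]
  rcases Nat.eq_zero_or_pos e with rfl | he
  · simp
  · rw [if_neg he.ne', Nat.primeFactors_prime_pow he.ne' hp, prod_singleton]
    ring

theorem aterm_euler {κ α : ℝ} (hκ : 1 ≤ κ) (hα : 0 < α) {θ : ℕ → ℝ}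
    (hθ : ∀ p : ℕ, p.Prime → 0 ≤ θ p ∧ θ p ≤ 1) :
    HasProd (fun p : Nat.Primes =>
        1 + θ (p : ℕ) * ((1 - ((p : ℕ) : ℝ) ^ (-(1 + α))) ^ (-(κ - 1)) - 1))
      (∑' a : ℕ, aterm κ α θ a) := by
  have h0 : aterm κ α θ 0 = 0 := by
    unfold aterm
    rw [if_pos rfl]
  have hsum : Summable (fun n => ‖aterm κ α θ n‖) := (aterm_summable hκ hα hθ).norm
  have h := EulerProduct.eulerProduct_hasProd (f := aterm κ α θ) (zeu_one κ α θ)
    (fun {m n} hmn => zeu_mul κ α θ hmn) hsum h0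
  have heq : (fun p : Nat.Primes => ∑' e : ℕ, aterm κ α θ ((p : ℕ) ^ e)) =
      fun p : Nat.Primes =>
        1 + θ (p : ℕ) * ((1 - ((p : ℕ) : ℝ) ^ (-(1 + α))) ^ (-(κ - 1)) - 1) := by
    funext p
    have hp : Nat.Prime (p : ℕ) := p.2
    have hp1 : (1 : ℝ) < ((p : ℕ) : ℝ) := by exact_mod_cast hp.one_lt
    have hx0 : 0 ≤ ((p : ℕ) : ℝ) ^ (-(1 + α)) := Real.rpow_nonneg (by linarith) _
    have hx1 : ((p : ℕ) : ℝ) ^ (-(1 + α)) < 1 :=
      Real.rpow_lt_one_of_one_lt_of_neg hp1 (by linarith)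
    have h1 := (hasSum_binom (κ - 1) hx0 hx1).mul_left (θ (p : ℕ))
    have h2 : HasSum (fun e : ℕ => if e = 0 then 1 - θ (p : ℕ) else 0) (1 - θ (p : ℕ)) :=
      hasSum_ite_eq 0 (1 - θ (p : ℕ))
    have h3 := h1.add h2
    have h4 : (fun e : ℕ => aterm κ α θ ((p : ℕ) ^ e)) = fun e : ℕ =>
        θ (p : ℕ) * ((∏ i ∈ range e, ((κ - 1) + (i : ℝ)) / ((i : ℝ) + 1)) *
          (((p : ℕ) : ℝ) ^ (-(1 + α))) ^ e) + (if e = 0 then 1 - θ (p : ℕ) else 0) := by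
      funext e
      exact zeu_pow κ α θ hp e
    rw [h4, h3.tsum_eq]
    ring
  rw [heq] at h
  exact h

end Pool.Agent.DK10
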