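import Pool.Agent.DK10.ZDefs

/-!
# DK10-ZFac: the local factors

Let `ρ = κ - 1 ≥ 1`, and `0 ≤ x, y, z ≤ b ≤ 1/2`.
`hfac_bounds`: `A = 1 - (1-x)^ρ`: `0 ≤ A`, `A ≤ ρ x` (Bernoulli: `one_add_mul_self_le_rpow_one_add`
: `1 - ρ x ≤ (1-x)^ρ` for `ρ ≥ 1`), `A ≤ 1 - (1/2)^ρ`; `B = 1 - (1-y)(1-z)`: `0 ≤ B ≤ y + z`, `B ≤ 1`.
So `0 ≤ 1 - hfac = A B ≤ 2ρ b²` and `hfac ≥ 1 - A ≥ (1/2)^ρ > 0`.
`log_hfac_le`: `|log h| ≤ (1 - h)/h ≤ 2^ρ · 2ρ b²` (`Real.one_sub_inv_le_log_of_pos`: `log h ≥ 1 - 1/h`,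
and `log h ≤ 0`).
`prime_rpow_le`: `0 ≤ p^(-(1+α)) ≤ p^(-1) = 1/p ≤ 1/2` for `α ≥ 0`.
`summable_prime_sq`: `∑_p C/p²` converges (compare with `∑ 1/n²`, `Nat.Primes` embeds in `ℕ`;
`Nat.Primes.summable_rpow`).
`HH_multipliable`: by the two previous facts the logarithms are summable;
`Real.multipliable_of_summable_log` (or the analogous lemma) and `Real.rexp_tsum_eq_tprod`.
-/

namespace Pool.Agent.DK10

open Finset Filter Topology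

theorem hfac_bounds {κ : ℝ} (hκ : 2 ≤ κ) {x y z b : ℝ} (hb : b ≤ 1 / 2) (hx : 0 ≤ x) (hx' : x ≤ b)
    (hy : 0 ≤ y) (hy' : y ≤ b) (hz : 0 ≤ z) (hz' : z ≤ b) :
    (1 / 2 : ℝ) ^ (κ - 1) ≤ hfac κ x y z ∧ hfac κ x y z ≤ 1 ∧
      1 - hfac κ x y z ≤ 2 * (κ - 1) * b ^ 2 := by
  have hb0 : 0 ≤ b := hx.trans hx'
  have hρ : 1 ≤ κ - 1 := by linarith
  have h1x : 1 / 2 ≤ 1 - x := by linarith
  have A1 : (1 - x) ^ (κ - 1) ≤ 1 := Real.rpow_le_one (by linarith) (by linarith) (by linarith)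
  have A2 : (1 / 2 : ℝ) ^ (κ - 1) ≤ (1 - x) ^ (κ - 1) :=
    Real.rpow_le_rpow (by norm_num) h1x (by linarith)
  have A3 : 1 + (κ - 1) * (-x) ≤ (1 + (-x)) ^ (κ - 1) :=
    one_add_mul_self_le_rpow_one_add (by linarith) hρ
  have A4 : 1 - (1 - x) ^ (κ - 1) ≤ (κ - 1) * b := by
    have h1 : (κ - 1) * x ≤ (κ - 1) * b := mul_le_mul_of_nonneg_left hx' (by linarith)
    have h2 : (1 + (-x)) = 1 - x := by ring
    rw [h2] at A3
    linarith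
  have B0 : 0 ≤ 1 - (1 - y) * (1 - z) := by nlinarith
  have B1 : 1 - (1 - y) * (1 - z) ≤ 1 := by nlinarith
  have B2 : 1 - (1 - y) * (1 - z) ≤ 2 * b := by nlinarith
  have A0 : 0 ≤ 1 - (1 - x) ^ (κ - 1) := by linarith
  unfold hfac
  refine ⟨?_, ?_, ?_⟩
  · have := mul_le_mul_of_nonneg_left B1 A0
    linarith
  · have := mul_nonneg A0 B0
    linarith
  · have := mul_le_mul A4 B2 B0 (by positivity)
    calc 1 - (1 - (1 - (1 - x) ^ (κ - 1)) * (1 - (1 - y) * (1 - z)))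
        = (1 - (1 - x) ^ (κ - 1)) * (1 - (1 - y) * (1 - z)) := by ring
      _ ≤ (κ - 1) * b * (2 * b) := this
      _ = 2 * (κ - 1) * b ^ 2 := by ring

theorem log_hfac_le {κ : ℝ} (hκ : 2 ≤ κ) {x y z b : ℝ} (hb : b ≤ 1 / 2) (hx : 0 ≤ x) (hx' : x ≤ b)
    (hy : 0 ≤ y) (hy' : y ≤ b) (hz : 0 ≤ z) (hz' : z ≤ b) :
    |Real.log (hfac κ x y z)| ≤ 2 ^ (κ - 1) * (2 * (κ - 1)) * b ^ 2 := by
  obtain ⟨h1, h2, h3⟩ := hfac_bounds hκ hb hx hx' hy hy' hz hz'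
  have hc : (0 : ℝ) < (1 / 2) ^ (κ - 1) := Real.rpow_pos_of_pos (by norm_num) _
  have hpos : 0 < hfac κ x y z := hc.trans_le h1
  have l1 : Real.log (hfac κ x y z) ≤ 0 := Real.log_nonpos hpos.le h2
  have l2 : 1 - (hfac κ x y z)⁻¹ ≤ Real.log (hfac κ x y z) := Real.one_sub_inv_le_log_of_pos hpos
  have hinv : (hfac κ x y z)⁻¹ ≤ 2 ^ (κ - 1) := by
    have := inv_anti₀ hc h1
    rwa [one_div, Real.inv_rpow (by norm_num), inv_inv] at this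
  rw [abs_of_nonpos l1]
  calc -Real.log (hfac κ x y z) ≤ (hfac κ x y z)⁻¹ - 1 := by linarith
    _ = (hfac κ x y z)⁻¹ * (1 - hfac κ x y z) := by
        rw [mul_sub, mul_one, inv_mul_cancel₀ hpos.ne']
    _ ≤ 2 ^ (κ - 1) * (2 * (κ - 1) * b ^ 2) :=
        mul_le_mul hinv h3 (by linarith) (by positivity)
    _ = 2 ^ (κ - 1) * (2 * (κ - 1)) * b ^ 2 := by ring

theorem prime_rpow_le {α : ℝ} (hα : 0 ≤ α) (p : Nat.Primes) :
    0 ≤ ((p : ℕ) : ℝ) ^ (-(1 + α)) ∧ ((p : ℕ) : ℝ) ^ (-(1 + α)) ≤ 1 / ((p : ℕ) : ℝ) ∧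
      1 / ((p : ℕ) : ℝ) ≤ 1 / 2 := by
  have h2 : (2 : ℝ) ≤ ((p : ℕ) : ℝ) := by exact_mod_cast p.2.two_le
  refine ⟨Real.rpow_nonneg (by linarith) _, ?_, ?_⟩
  · have := Real.rpow_le_rpow_of_exponent_le (x := ((p : ℕ) : ℝ)) (by linarith)
      (show -(1 + α) ≤ -1 by linarith)
    rwa [Real.rpow_neg_one, ← one_div] at this
  · exact one_div_le_one_div_of_le (by norm_num) h2

theorem summable_prime_sq (C : ℝ) : Summable (fun p : Nat.Primes => C * (1 / ((p : ℕ) : ℝ)) ^ 2) := by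
  refine Summable.mul_left C ?_
  have h := (Nat.Primes.summable_rpow (r := -2)).2 (by norm_num)
  refine h.congr fun p => ?_
  rw [one_div, inv_pow, Real.rpow_neg (by positivity)]
  norm_num

theorem HH_multipliable {κ α β γ : ℝ} (hκ : 2 ≤ κ) (hα : 0 ≤ α) (hβ : 0 ≤ β) (hγ : 0 ≤ γ) :
    Multipliable (fun p : Nat.Primes => hfac κ (((p : ℕ) : ℝ) ^ (-(1 + α)))
      (((p : ℕ) : ℝ) ^ (-(1 + β))) (((p : ℕ) : ℝ) ^ (-(1 + γ)))) := by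
  have hb := fun p : Nat.Primes => hfac_bounds hκ (prime_rpow_le hα p).2.2
    (prime_rpow_le hα p).1 (prime_rpow_le hα p).2.1 (prime_rpow_le hβ p).1 (prime_rpow_le hβ p).2.1
    (prime_rpow_le hγ p).1 (prime_rpow_le hγ p).2.1
  have hl := fun p : Nat.Primes => log_hfac_le hκ (prime_rpow_le hα p).2.2
    (prime_rpow_le hα p).1 (prime_rpow_le hα p).2.1 (prime_rpow_le hβ p).1 (prime_rpow_le hβ p).2.1
    (prime_rpow_le hγ p).1 (prime_rpow_le hγ p).2.1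
  refine Real.multipliable_of_summable_log
    (fun p => (Real.rpow_pos_of_pos (by norm_num) _).trans_le (hb p).1) ?_
  exact Summable.of_norm_bounded (summable_prime_sq (2 ^ (κ - 1) * (2 * (κ - 1))))
    fun p => by
      rw [Real.norm_eq_abs]
      exact hl p

end Pool.Agent.DK10
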