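import Pool.Agent.DK10.ZEuler
import Pool.Agent.DK10.ZFac

/-!
# DK10-ZSum: the sum over `a`

`thet_mem`: for `β, γ > 0` and `p ≥ 2`, `0 < p^(-(1+β)) < 1`, so `0 ≤ thet β γ p ≤ 1`.

`asum_eq`: `∑' a, aterm κ α (thet β γ) a = zr (1+α)^(κ-1) * HH κ α β γ`.  With
`A_p = (1 - p^(-(1+α)))^(-(κ-1))` and `θ_p = thet β γ p`, `h_p` = the factor of `HH`:
`1 + θ_p (A_p - 1) = A_p h_p`, since `h_p = 1 - (1 - A_p⁻¹)(1 - θ_p)`.  `zr_rpow_euler` says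
`HasProd A (zr(1+α)^(κ-1))`, `HH_multipliable.hasProd` says `HasProd h HH`, so `HasProd.mul`, and
`aterm_euler`; `HasProd.unique`.
-/

namespace Pool.Agent.DK10

open Finset Filter Topology

private theorem pr_mem {α : ℝ} (hα : 0 < α) (p : ℕ) (hp : p.Prime) :
    0 < (p : ℝ) ^ (-(1 + α)) ∧ (p : ℝ) ^ (-(1 + α)) < 1 := by
  have hp1 : (1 : ℝ) < p := by exact_mod_cast hp.one_lt
  exact ⟨Real.rpow_pos_of_pos (by linarith) _,
    Real.rpow_lt_one_of_one_lt_of_neg hp1 (by linarith)⟩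

theorem thet_mem {β γ : ℝ} (hβ : 0 < β) (hγ : 0 < γ) (p : ℕ) (hp : p.Prime) :
    0 ≤ thet β γ p ∧ thet β γ p ≤ 1 := by
  obtain ⟨h1, h2⟩ := pr_mem hβ p hp
  obtain ⟨h3, h4⟩ := pr_mem hγ p hp
  unfold thet
  constructor
  · exact mul_nonneg (by linarith) (by linarith)
  · exact mul_le_one₀ (by linarith) (by linarith) (by linarith)

theorem asum_eq {κ α β γ : ℝ} (hκ : 2 ≤ κ) (hα : 0 < α) (hβ : 0 < β) (hγ : 0 < γ) :
    ∑' a : ℕ, aterm κ α (thet β γ) a = zr (1 + α) ^ (κ - 1) * HH κ α β γ := by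
  have h1 := aterm_euler (κ := κ) (α := α) (by linarith) hα (thet_mem hβ hγ)
  have h2 : HasProd (fun p : Nat.Primes => hfac κ (((p : ℕ) : ℝ) ^ (-(1 + α)))
      (((p : ℕ) : ℝ) ^ (-(1 + β))) (((p : ℕ) : ℝ) ^ (-(1 + γ)))) (HH κ α β γ) :=
    (HH_multipliable (κ := κ) hκ hα.le hβ.le hγ.le).hasProd
  have h3 := zr_rpow_euler (s := 1 + α) (by linarith) (κ - 1)
  have h4 := h3.mul h2
  refine HasProd.unique h1 ?_
  convert h4 using 2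
  rename_i p
  obtain ⟨h5, h6⟩ := pr_mem hα (p : ℕ) p.2
  unfold hfac thet
  have h7 : (1 - ((p : ℕ) : ℝ) ^ (-(1 + α))) ^ (-(κ - 1)) *
      (1 - ((p : ℕ) : ℝ) ^ (-(1 + α))) ^ (κ - 1) = 1 := by
    rw [← Real.rpow_add (by linarith), neg_add_cancel, Real.rpow_zero]
  generalize (1 - ((p : ℕ) : ℝ) ^ (-(1 + α))) ^ (-(κ - 1)) = A at h7 ⊢
  generalize (1 - ((p : ℕ) : ℝ) ^ (-(1 + α))) ^ (κ - 1) = B at h7 ⊢
  generalize (1 - ((p : ℕ) : ℝ) ^ (-(1 + β))) * (1 - ((p : ℕ) : ℝ) ^ (-(1 + γ))) = t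
  linear_combination (t - 1) * h7

end Pool.Agent.DK10
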