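import Pool.Agent.DK10.ZSum
import Pool.Agent.DK10.ZCop

/-!
# DK10-ZTriple: the triple sum in terms of `zr` and `HH`

`triple_hasSum`: nonnegative terms.  For fixed `a ≥ 1` the terms over `(m, k)` are
`dk (κ-1) a/a · a^(-α) · ([Coprime a m] m^(-(1+β))) ([Coprime a k] k^(-(1+γ)))`
(`Nat.Coprime a (m*k) ↔ Coprime a m ∧ Coprime a k`, `Nat.coprime_mul_iff_right`;
`exp(-β log m) = m^(-β)` for `m ≥ 1`; the terms with `m = 0` or `k = 0` vanish on both sides because
`1/0^s = 0`), whose sum over `(m,k)` is, by `zcop` twice and `HasSum.mul_of_nonneg`-type lemma,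
`aterm κ α (thet β γ) a * zr (1+β) * zr (1+γ)` (`Finset.prod_mul_distrib`).  Then sum over `a`
(`summable_prod_of_nonneg`, `HasSum.prod_fiberwise` or `hasSum_of_...`); for `a = 0` all terms vanish.
-/

namespace Pool.Agent.DK10

open Finset Filter Topology

private noncomputable def ztG (s : ℝ) (a m : ℕ) : ℝ :=
  if Nat.Coprime a m then 1 / (m : ℝ) ^ s else 0

private noncomputable def ztC (κ α : ℝ) (a : ℕ) : ℝ :=
  if a = 0 then 0 else dk (κ - 1) a * (a : ℝ) ^ (-(1 + α))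

private lemma zt_G_nonneg (s : ℝ) (a m : ℕ) : 0 ≤ ztG s a m := by
  unfold ztG
  split_ifs
  · positivity
  · exact le_rfl

private lemma zt_G_zero {s : ℝ} (hs : s ≠ 0) (a : ℕ) : ztG s a 0 = 0 := by
  unfold ztG
  split_ifs
  · simp [Real.zero_rpow hs]
  · rfl

private lemma zt_C_nonneg {κ : ℝ} (hκ : 2 ≤ κ) (α : ℝ) (a : ℕ) : 0 ≤ ztC κ α a := by
  unfold ztC
  split_ifs
  · exact le_rfl
  · apply mul_nonneg _ (Real.rpow_nonneg (Nat.cast_nonneg a) _)
    unfold dk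
    apply Finset.prod_nonneg
    intro p _
    apply Finset.prod_nonneg
    intro i _
    have h1 : (0 : ℝ) ≤ (i : ℝ) := Nat.cast_nonneg i
    apply div_nonneg <;> linarith

private lemma zt_rpow_inv {x : ℝ} (hx : 0 < x) (s : ℝ) :
    1 / x * Real.exp (-(s * Real.log x)) = x ^ (-(1 + s)) := by
  rw [Real.rpow_def_of_pos hx, show Real.log x * -(1 + s) = -Real.log x + -(s * Real.log x) by ring,
    Real.exp_add, Real.exp_neg (Real.log x), Real.exp_log hx, one_div]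

private lemma zt_rpow_inv' {x : ℝ} (hx : 0 < x) (s : ℝ) :
    1 / x * Real.exp (-(s * Real.log x)) = 1 / x ^ (1 + s) := by
  rw [zt_rpow_inv hx, Real.rpow_neg hx.le, one_div (x ^ (1 + s))]

private lemma zt_term {κ α β γ : ℝ} (hβ : 0 < β) (hγ : 0 < γ) (t : ℕ × ℕ × ℕ) :
    wt κ t * Real.exp (-(α * (pos t).1 + β * (pos t).2.1 + γ * (pos t).2.2)) =
      ztC κ α t.1 * (ztG (1 + β) t.1 t.2.1 * ztG (1 + γ) t.1 t.2.2) := by
  obtain ⟨a, m, k⟩ := t
  simp only [pos]
  by_cases ha : a = 0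
  · simp [wt, ztC, ha]
  by_cases hm : m = 0
  · rw [hm, zt_G_zero (by linarith)]
    simp [wt]
  by_cases hk : k = 0
  · rw [hk, zt_G_zero (by linarith)]
    simp [wt]
  have ha' : (0 : ℝ) < (a : ℝ) := by exact_mod_cast Nat.pos_of_ne_zero ha
  have hm' : (0 : ℝ) < (m : ℝ) := by exact_mod_cast Nat.pos_of_ne_zero hm
  have hk' : (0 : ℝ) < (k : ℝ) := by exact_mod_cast Nat.pos_of_ne_zero hk
  by_cases h1 : Nat.Coprime a m
  · by_cases h2 : Nat.Coprime a k
    · have h3 : Nat.Coprime a (m * k) := Nat.coprime_mul_iff_right.2 ⟨h1, h2⟩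
      have hw : wt κ (a, m, k) = dk (κ - 1) a * (1 / (a : ℝ)) * (1 / (m : ℝ)) * (1 / (k : ℝ)) := by
        simp only [wt]
        rw [if_pos ⟨ha, hm, hk, h3⟩]
        field_simp
      have he : Real.exp (-(α * Real.log (a : ℝ) + β * Real.log (m : ℝ) + γ * Real.log (k : ℝ)))
          = Real.exp (-(α * Real.log (a : ℝ))) * Real.exp (-(β * Real.log (m : ℝ)))
            * Real.exp (-(γ * Real.log (k : ℝ))) := by
        rw [← Real.exp_add, ← Real.exp_add]
        congr 1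
        ring
      have e1 := zt_rpow_inv ha' α
      have e2 := zt_rpow_inv' hm' β
      have e3 := zt_rpow_inv' hk' γ
      simp only [ztC, ztG]
      rw [if_neg ha, if_pos h1, if_pos h2, hw, he, ← e1, ← e2, ← e3]
      ring
    · have h3 : ¬ Nat.Coprime a (m * k) := fun h => h2 (Nat.coprime_mul_iff_right.1 h).2
      have hw : wt κ (a, m, k) = 0 := by
        simp only [wt]
        rw [if_neg (fun h => h3 h.2.2.2)]
      rw [hw]
      simp only [ztG]
      rw [if_neg h2]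
      ring
  · have h3 : ¬ Nat.Coprime a (m * k) := fun h => h1 (Nat.coprime_mul_iff_right.1 h).1
    have hw : wt κ (a, m, k) = 0 := by
      simp only [wt]
      rw [if_neg (fun h => h3 h.2.2.2)]
    rw [hw]
    simp only [ztG]
    rw [if_neg h1]
    ring

private lemma zt_fib {κ α β γ : ℝ} (hβ : 0 < β) (hγ : 0 < γ) (a : ℕ) :
    HasSum (fun y : ℕ × ℕ => ztC κ α a * (ztG (1 + β) a y.1 * ztG (1 + γ) a y.2))
      (aterm κ α (thet β γ) a * (zr (1 + β) * zr (1 + γ))) := by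
  by_cases ha : a = 0
  · have h0 : ztC κ α a = 0 := by simp [ztC, ha]
    have h1 : aterm κ α (thet β γ) a = 0 := by simp [aterm, ha]
    rw [h0, h1]
    simp
  · have H1 : HasSum (fun m : ℕ => ztG (1 + β) a m)
        (zr (1 + β) * ∏ p ∈ a.primeFactors, (1 - (p : ℝ) ^ (-(1 + β)))) :=
      zcop (by linarith) ha
    have H2 : HasSum (fun m : ℕ => ztG (1 + γ) a m)
        (zr (1 + γ) * ∏ p ∈ a.primeFactors, (1 - (p : ℝ) ^ (-(1 + γ)))) :=
      zcop (by linarith) ha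
    have HS : Summable (fun y : ℕ × ℕ => ztG (1 + β) a y.1 * ztG (1 + γ) a y.2) :=
      H1.summable.mul_of_nonneg H2.summable (fun m => zt_G_nonneg _ a m)
        (fun m => zt_G_nonneg _ a m)
    have H3 := (H1.mul H2 HS).mul_left (ztC κ α a)
    have hval : aterm κ α (thet β γ) a * (zr (1 + β) * zr (1 + γ)) = ztC κ α a *
        ((zr (1 + β) * ∏ p ∈ a.primeFactors, (1 - (p : ℝ) ^ (-(1 + β)))) *
          (zr (1 + γ) * ∏ p ∈ a.primeFactors, (1 - (p : ℝ) ^ (-(1 + γ))))) := by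
      unfold ztC aterm thet
      rw [if_neg ha, if_neg ha, Finset.prod_mul_distrib]
      ring
    rw [hval]
    exact H3

theorem triple_hasSum {κ α β γ : ℝ} (hκ : 2 ≤ κ) (hα : 0 < α) (hβ : 0 < β) (hγ : 0 < γ) :
    HasSum (fun t : ℕ × ℕ × ℕ =>
        wt κ t * Real.exp (-(α * (pos t).1 + β * (pos t).2.1 + γ * (pos t).2.2)))
      (zr (1 + β) * zr (1 + γ) * (zr (1 + α) ^ (κ - 1) * HH κ α β γ)) := by
  have hfun : (fun t : ℕ × ℕ × ℕ =>
        wt κ t * Real.exp (-(α * (pos t).1 + β * (pos t).2.1 + γ * (pos t).2.2)))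
      = fun t : ℕ × ℕ × ℕ => ztC κ α t.1 * (ztG (1 + β) t.1 t.2.1 * ztG (1 + γ) t.1 t.2.2) := by
    funext t
    exact zt_term hβ hγ t
  rw [hfun]
  have hθ : ∀ p : ℕ, p.Prime → 0 ≤ thet β γ p ∧ thet β γ p ≤ 1 := fun p hp => thet_mem hβ hγ p hp
  have hA : HasSum (fun a : ℕ => aterm κ α (thet β γ) a * (zr (1 + β) * zr (1 + γ)))
      (zr (1 + α) ^ (κ - 1) * HH κ α β γ * (zr (1 + β) * zr (1 + γ))) := by
    have h1 : HasSum (aterm κ α (thet β γ)) (zr (1 + α) ^ (κ - 1) * HH κ α β γ) := by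
      rw [← asum_eq hκ hα hβ hγ]
      exact (aterm_summable (by linarith) hα hθ).hasSum
    exact h1.mul_right _
  have hnn : (0 : ℕ × ℕ × ℕ → ℝ) ≤
      fun t : ℕ × ℕ × ℕ => ztC κ α t.1 * (ztG (1 + β) t.1 t.2.1 * ztG (1 + γ) t.1 t.2.2) :=
    fun t => mul_nonneg (zt_C_nonneg hκ α _) (mul_nonneg (zt_G_nonneg _ _ _) (zt_G_nonneg _ _ _))
  have hS : Summable
      (fun t : ℕ × ℕ × ℕ => ztC κ α t.1 * (ztG (1 + β) t.1 t.2.1 * ztG (1 + γ) t.1 t.2.2)) := by
    rw [summable_prod_of_nonneg hnn]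
    refine ⟨fun a => (zt_fib hβ hγ a).summable, ?_⟩
    have : (fun a : ℕ => ∑' y : ℕ × ℕ, ztC κ α a * (ztG (1 + β) a y.1 * ztG (1 + γ) a y.2))
        = fun a : ℕ => aterm κ α (thet β γ) a * (zr (1 + β) * zr (1 + γ)) := by
      funext a
      exact (zt_fib hβ hγ a).tsum_eq
    rw [this]
    exact hA.summable
  have hF := hS.hasSum.prod_fiberwise (fun a => zt_fib hβ hγ a)
  have hval := hF.unique hA
  have hres := hS.hasSum
  rw [hval] at hres
  convert hres using 1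
  ring

end Pool.Agent.DK10
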